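import Mathlib
import Pool.Agent.W443.J6.Stms

/-! The differential equation of an edge forces a nonzero root of high multiplicity. -/

set_option autoImplicit false

open Polynomial Pool.Agent.W443.J6

namespace Pool.Agent.TH207

universe u

/-- every root of `α` is a root of `φ` -/
theorem root_root {k : Type u} [Field k] [CharZero k] {D w : ℤ} (hw : w ≠ 0) {α φ : k[X]}
    (hα : α ≠ 0) (h : OD D w α φ) {y : k} (hy : α.IsRoot y) : φ.IsRoot y := by
  obtain ⟨β, hβ, hβy⟩ := exists_eq_pow_rootMultiplicity_mul_and_not_dvd α hα y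
  have hm : 0 < α.rootMultiplicity y := (rootMultiplicity_pos hα).2 hy
  obtain ⟨m, hm'⟩ : ∃ m, α.rootMultiplicity y = m + 1 := ⟨_, (Nat.succ_pred_eq_of_pos hm).symm⟩
  rw [hm'] at hβ
  unfold OD at h
  have hd : derivative α = (X - C y) ^ m * (((m : k[X]) + 1) * β + (X - C y) * derivative β) := by
    rw [hβ, derivative_mul, derivative_X_sub_C_pow]
    simp only [Nat.add_sub_cancel]
    push_cast
    simp only [map_add, map_natCast, map_one]
    ring
  have h1 : (X - C y) ^ m * (C (D : k) * ((X - C y) * β) * derivative φ -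
      C (w : k) * ((((m : k[X]) + 1) * β + (X - C y) * derivative β)) * φ - (X - C y) * β) = 0 := by
    have : (X - C y) ^ m * (C (D : k) * ((X - C y) * β) * derivative φ -
      C (w : k) * ((((m : k[X]) + 1) * β + (X - C y) * derivative β)) * φ - (X - C y) * β) =
      C (D : k) * α * derivative φ - C (w : k) * derivative α * φ - α := by
      rw [hd]
      conv_rhs => rw [hβ]
      ring
    rw [this, h, sub_self]
  have h2 := (mul_eq_zero.1 h1).resolve_left (pow_ne_zero _ (X_sub_C_ne_zero y))
  have h3 := congrArg (eval y) h2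
  simp only [eval_sub, eval_mul, eval_add, eval_C, eval_X, sub_self, zero_mul, mul_zero, add_zero,
    eval_natCast, eval_one, zero_sub, sub_zero, eval_zero, neg_eq_zero] at h3
  have hβy' : eval y β ≠ 0 := by
    intro h4
    exact hβy (dvd_iff_isRoot.2 h4)
  have hw' : (w : k) ≠ 0 := by exact_mod_cast hw
  have hm1 : ((m : k) + 1) ≠ 0 := by exact_mod_cast Nat.succ_ne_zero m
  rcases mul_eq_zero.1 h3 with h4 | h4
  · exact absurd h4 (mul_ne_zero hw' (mul_ne_zero hm1 hβy'))
  · exact h4

/-- degrees -/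
theorem deg_le {k : Type u} [Field k] [CharZero k] {D w : ℕ} {α φ : k[X]}
    (hα : α ≠ 0) (hφ : φ ≠ 0) (h : OD D w α φ) (h1 : D < w * α.natDegree) :
    D * φ.natDegree ≤ w * α.natDegree := by
  by_contra hcon
  push Not at hcon
  have he : 2 ≤ φ.natDegree := by
    by_contra h2
    have h3 : φ.natDegree ≤ 1 := by omega
    have : D * φ.natDegree ≤ D := by
      calc D * φ.natDegree ≤ D * 1 := Nat.mul_le_mul_left _ h3
        _ = D := mul_one _
    omega
  have hN : 1 ≤ α.natDegree := by
    by_contra h2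
    have h3 : α.natDegree = 0 := by omega
    rw [h3, mul_zero] at h1
    omega
  set N := α.natDegree with hNdef
  set e := φ.natDegree with hedef
  unfold OD at h
  have h2 := congrArg (fun P => coeff P (N + e - 1)) h
  simp only [coeff_sub, mul_assoc, coeff_C_mul] at h2
  have h3 : (α * derivative φ).coeff (N + e - 1) = α.coeff N * (φ.coeff e * e) := by
    have e1 : N + e - 1 = N + (e - 1) := by omega
    rw [e1, coeff_mul_add_eq_of_natDegree_le hNdef.ge (natDegree_derivative_le φ), coeff_derivative]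
    have e2 : e - 1 + 1 = e := by omega
    rw [e2]
    congr 2
    have : ((e - 1 : ℕ) : k) = (e : k) - 1 := by
      rw [Nat.cast_sub (by omega)]; simp
    rw [this]; ring
  have h4 : (derivative α * φ).coeff (N + e - 1) = (α.coeff N * N) * φ.coeff e := by
    have e1 : N + e - 1 = (N - 1) + e := by omega
    rw [e1, coeff_mul_add_eq_of_natDegree_le (natDegree_derivative_le α) hedef.ge, coeff_derivative]
    have e2 : N - 1 + 1 = N := by omega
    rw [e2]
    congr 2
    have : ((N - 1 : ℕ) : k) = (N : k) - 1 := by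
      rw [Nat.cast_sub (by omega)]; simp
    rw [this]; ring
  have h5 : α.coeff (N + e - 1) = 0 := coeff_eq_zero_of_natDegree_lt (by omega)
  rw [h3, h4, h5] at h2
  have hlα : α.coeff N ≠ 0 := by rw [hNdef, coeff_natDegree]; exact leadingCoeff_ne_zero.2 hα
  have hlφ : φ.coeff e ≠ 0 := by rw [hedef, coeff_natDegree]; exact leadingCoeff_ne_zero.2 hφ
  have h6 : α.coeff N * φ.coeff e * (((D * e : ℕ) : k) - ((w * N : ℕ) : k)) = 0 := by
    push_cast
    push_cast at h2
    linear_combination h2
  have h7 := (mul_eq_zero.1 h6).resolve_left (mul_ne_zero hlα hlφ)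
  rw [sub_eq_zero] at h7
  have h8 : D * e = w * N := by exact_mod_cast h7
  omega

theorem cm {k : Type u} [Field k] [IsAlgClosed k] [CharZero k] {D w : ℕ} (hD : 0 < D) (hw : 0 < w)
    {α φ : k[X]} (hα : α ≠ 0) (h : OD D w α φ) (h1 : D < w * α.natDegree)
    (h0 : w * α.rootMultiplicity 0 ≤ D) :
    ∃ y, y ≠ 0 ∧ D < w * α.rootMultiplicity y := by
  classical
  by_contra hcon
  push Not at hcon
  have hall : ∀ y, w * α.rootMultiplicity y ≤ D := by
    intro y
    by_cases hy : y = 0
    · rw [hy]; exact h0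
    · exact hcon y hy
  have hφ : φ ≠ 0 := by
    rintro rfl
    unfold OD at h
    simp only [derivative_zero, mul_zero, sub_zero] at h
    exact hα h.symm
  have hwz : (w : ℤ) ≠ 0 := by exact_mod_cast hw.ne'
  -- divisibility
  have hdvd : α ^ w ∣ φ ^ D := by
    rw [(IsAlgClosed.splits (α ^ w)).dvd_iff_roots_le_roots (pow_ne_zero _ hα) (pow_ne_zero _ hφ),
      roots_pow, roots_pow, Multiset.le_iff_count]
    intro y
    rw [Multiset.count_nsmul, Multiset.count_nsmul, count_roots, count_roots]
    by_cases hy : α.IsRoot y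
    · have h2 : φ.IsRoot y := root_root hwz hα h hy
      have h3 : 1 ≤ φ.rootMultiplicity y := (rootMultiplicity_pos hφ).2 h2
      calc w * α.rootMultiplicity y ≤ D := hall y
        _ = D * 1 := (mul_one _).symm
        _ ≤ D * φ.rootMultiplicity y := Nat.mul_le_mul_left _ h3
    · rw [rootMultiplicity_eq_zero hy, mul_zero]
      exact Nat.zero_le _
  obtain ⟨β, hβ⟩ := hdvd
  have hβ0 : β ≠ 0 := by
    rintro rfl
    rw [mul_zero] at hβ
    exact pow_ne_zero _ hφ hβ
  have hdeg := congrArg natDegree hβ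
  rw [natDegree_mul (pow_ne_zero _ hα) hβ0, natDegree_pow, natDegree_pow] at hdeg
  have hle := deg_le hα hφ h h1
  have hβd : β.natDegree = 0 := by omega
  obtain ⟨c, hc⟩ : ∃ c, β = C c := ⟨_, eq_C_of_natDegree_eq_zero hβd⟩
  rw [hc] at hβ
  have hder := congrArg derivative hβ
  rw [derivative_mul, derivative_C, mul_zero, add_zero, derivative_pow, derivative_pow] at hder
  obtain ⟨D', rfl⟩ : ∃ D', D = D' + 1 := ⟨D - 1, by omega⟩
  obtain ⟨w', rfl⟩ : ∃ w', w = w' + 1 := ⟨w - 1, by omega⟩
  simp only [Nat.add_sub_cancel] at hder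
  have h5 : φ ^ (D' + 1) * (C ((D' + 1 : ℕ) : k) * α * derivative φ -
      C ((w' + 1 : ℕ) : k) * derivative α * φ) = 0 := by
    have e1 : φ ^ (D' + 1) * (C ((D' + 1 : ℕ) : k) * α * derivative φ) =
        α * φ * (C ((D' + 1 : ℕ) : k) * φ ^ D' * derivative φ) := by ring
    have e2 : φ ^ (D' + 1) * (C ((w' + 1 : ℕ) : k) * derivative α * φ) =
        α * φ * (C ((w' + 1 : ℕ) : k) * α ^ w' * derivative α * C c) := by
      rw [hβ]; ring
    rw [mul_sub, e1, e2, hder, sub_self]
  have h6 := (mul_eq_zero.1 h5).resolve_left (pow_ne_zero _ hφ)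
  unfold OD at h
  apply hα
  rw [← h]
  have e3 : (((D' + 1 : ℕ) : ℤ) : k) = ((D' + 1 : ℕ) : k) := by push_cast; ring
  have e4 : (((w' + 1 : ℕ) : ℤ) : k) = ((w' + 1 : ℕ) : k) := by push_cast; ring
  rw [e3, e4]
  exact h6

end Pool.Agent.TH207
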