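import Mathlib

/-! A nonzero root of multiplicity `M` forces `M + 1` monomials. -/

set_option autoImplicit false

open Polynomial

namespace Pool.Agent.TH207

universe u

theorem coeff_X_mul_derivative {k : Type u} [Field k] (P : k[X]) (n : ℕ) :
    (X * derivative P).coeff n = n * P.coeff n := by
  cases n with
  | zero => simp
  | succ n => rw [coeff_X_mul, coeff_derivative]; push_cast; ring

theorem card_of_dvd {k : Type u} [Field k] [CharZero k] {y : k} (hy : y ≠ 0) (M : ℕ) :
    ∀ P : k[X], P ≠ 0 → (X - C y) ^ M ∣ P → M + 1 ≤ P.support.card := by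
  induction M with
  | zero =>
    intro P hP _
    have : 0 < P.support.card := Finset.card_pos.2 (nonempty_support_iff.2 hP)
    omega
  | succ M ih =>
    intro P hP hdvd
    obtain ⟨s, hs⟩ := nonempty_support_iff.2 hP
    set P1 := X * derivative P - C (s : k) * P with hP1
    have hc : ∀ n, P1.coeff n = ((n : k) - s) * P.coeff n := by
      intro n
      rw [hP1, coeff_sub, coeff_X_mul_derivative, coeff_C_mul]
      ring
    have hsup : P1.support = P.support.erase s := by
      ext n
      rw [mem_support_iff, Finset.mem_erase, mem_support_iff, hc, mul_ne_zero_iff, sub_ne_zero]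
      constructor
      · rintro ⟨h1, h2⟩
        exact ⟨fun h => h1 (by rw [h]), h2⟩
      · rintro ⟨h1, h2⟩
        exact ⟨fun h => h1 (by exact_mod_cast h), h2⟩
    have hcard : P1.support.card = P.support.card - 1 := by
      rw [hsup, Finset.card_erase_of_mem hs]
    have hd1 : (X - C y) ^ M ∣ P1 := by
      obtain ⟨Q, hQ⟩ := hdvd
      refine ⟨X * (C ((M : k) + 1) * Q + (X - C y) * derivative Q) - C (s : k) * (X - C y) * Q, ?_⟩
      rw [hP1, hQ, derivative_mul, derivative_X_sub_C_pow]
      simp only [Nat.add_sub_cancel]
      push_cast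
      simp only [map_add, map_natCast, map_one]
      ring
    by_cases h0 : P1 = 0
    · exfalso
      have h1 : P.support.erase s = ∅ := by rw [← hsup, h0, support_zero]
      have h2 : P = C (P.coeff s) * X ^ s := by
        ext n
        rw [coeff_C_mul_X_pow]
        split_ifs with h
        · rw [h]
        · by_contra hne
          have : n ∈ P.support.erase s := Finset.mem_erase.2 ⟨h, mem_support_iff.2 hne⟩
          rw [h1] at this
          exact absurd this (Finset.notMem_empty n)
      have h3 : eval y P = 0 := by
        obtain ⟨Q, hQ⟩ := hdvd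
        rw [hQ, eval_mul, eval_pow, eval_sub, eval_X, eval_C, sub_self,
          zero_pow (Nat.succ_ne_zero M), zero_mul]
      rw [h2, eval_mul, eval_C, eval_pow, eval_X] at h3
      rcases mul_eq_zero.1 h3 with h4 | h4
      · exact (mem_support_iff.1 hs) h4
      · exact hy (eq_zero_of_pow_eq_zero h4)
    · have := ih P1 h0 hd1
      have h4 : 0 < P.support.card := Finset.card_pos.2 ⟨s, hs⟩
      omega

/-- A nonzero root of multiplicity `M` forces `M + 1` monomials. -/
theorem card_of_root {k : Type u} [Field k] [CharZero k] {y : k} (hy : y ≠ 0) {P : k[X]}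
    (hP : P ≠ 0) : P.rootMultiplicity y + 1 ≤ P.support.card :=
  card_of_dvd hy _ P hP (pow_rootMultiplicity_dvd P y)

end Pool.Agent.TH207
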