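import Mathlib
import Pool.Agent.W443.J6.Stms

/-! The next edge of the Newton polygon, and the set of monomials on an edge. -/

set_option autoImplicit false

open MvPolynomial Pool.Agent.W443.J5 Pool.Agent.W443.J6 Pool.Agent.H938R2.JC

namespace Pool.Agent.TH207

universe u

variable {k : Type u} [Field k]

theorem next {f : MvPolynomial (Fin 2) k} {v0 v1 : ℤ} (hv : 0 < v0) {P Q : ℕ}
    (hlow : Low v0 v1 P Q f) (hex : ∃ m, coeff m f ≠ 0 ∧ m 1 < Q) :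
    ∃ (W0 W1 : ℤ) (P' Q' : ℕ), 0 < W0 ∧ IsCoprime W0 W1 ∧ W1 * v0 < v1 * W0 ∧
      Upp W0 W1 P Q f ∧ Low W0 W1 P' Q' f ∧ Q' < Q ∧
      W0 * (P' : ℤ) + W1 * (Q' : ℤ) = W0 * (P : ℤ) + W1 * (Q : ℤ) := by
  classical
  obtain ⟨hc, hl⟩ := hlow
  obtain ⟨m1, hm1, hm1Q⟩ := hex
  set T := f.support.filter (fun m => m 1 < Q) with hT
  have hTmem : ∀ m, m ∈ T ↔ coeff m f ≠ 0 ∧ m 1 < Q := by
    intro m; rw [hT, Finset.mem_filter, mem_support_iff]
  obtain ⟨m, hmT, hmax⟩ := Finset.exists_max_image T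
    (fun x => (((x 0 : ℤ) - P : ℤ) : ℚ) / (((Q : ℤ) - x 1 : ℤ) : ℚ)) ⟨m1, (hTmem _).2 ⟨hm1, hm1Q⟩⟩
  obtain ⟨hm, hmQ⟩ := (hTmem m).1 hmT
  set A : ℤ := (m 0 : ℤ) - P with hA
  set B : ℤ := (Q : ℤ) - m 1 with hB
  have hBpos : 0 < B := by rw [hB]; have : ((m 1 : ℕ) : ℤ) < Q := by exact_mod_cast hmQ
                           linarith
  have hcross : ∀ x : Fin 2 →₀ ℕ, coeff x f ≠ 0 → x 1 < Q →
      ((x 0 : ℤ) - P) * B ≤ A * ((Q : ℤ) - x 1) := by
    intro x hx hxQ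
    have h1 := hmax x ((hTmem x).2 ⟨hx, hxQ⟩)
    have h2 : (0 : ℤ) < (Q : ℤ) - x 1 := by
      have : ((x 1 : ℕ) : ℤ) < Q := by exact_mod_cast hxQ
      linarith
    rw [div_le_div_iff₀ (by exact_mod_cast h2) (by exact_mod_cast hBpos)] at h1
    exact_mod_cast h1
  have hgpos : 0 < Int.gcd B A := Int.gcd_pos_of_ne_zero_left _ hBpos.ne'
  obtain ⟨W0, W1, hcop, hWB, hWA⟩ := Int.exists_gcd_one hgpos
  set G : ℤ := (Int.gcd B A : ℤ) with hG
  have hGpos : 0 < G := by rw [hG]; exact_mod_cast hgpos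
  have hW0 : 0 < W0 := by
    have : 0 < W0 * G := by rw [← hWB]; exact hBpos
    exact (pos_iff_pos_of_mul_pos this).2 hGpos
  have hsl : ∀ x : Fin 2 →₀ ℕ, coeff x f ≠ 0 → x 1 < Q →
      ((x 0 : ℤ) - P) * W0 ≤ W1 * ((Q : ℤ) - x 1) := by
    intro x hx hxQ
    have h1 := hcross x hx hxQ
    rw [hWA, hWB] at h1
    have h2 : ((x 0 : ℤ) - P) * W0 * G ≤ W1 * ((Q : ℤ) - x 1) * G := by linarith
    exact le_of_mul_le_mul_right h2 hGpos
  have hslope : W1 * v0 < v1 * W0 := by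
    have h1 : v0 * (m 0 : ℤ) + v1 * (m 1 : ℤ) < v0 * (P : ℤ) + v1 * (Q : ℤ) := by
      rcases hl m hm with h | h
      · exact h
      · omega
    have h2 : v0 * A < v1 * B := by rw [hA, hB]; linarith
    rw [hWA, hWB] at h2
    have h3 : W1 * v0 * G < v1 * W0 * G := by linarith
    exact lt_of_mul_lt_mul_right h3 hGpos.le
  have hupp : Upp W0 W1 P Q f := by
    refine ⟨hc, fun x hx => ?_⟩
    rcases lt_or_ge (x 1) Q with h1 | h1
    · have h2 := hsl x hx h1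
      rcases lt_or_eq_of_le h2 with h3 | h3
      · left; linarith
      · right; exact ⟨by linarith, h1.le⟩
    · have h2 : v0 * ((x 0 : ℤ) - P) + v1 * ((x 1 : ℤ) - Q) ≤ 0 := by
        rcases hl x hx with h2 | h2
        · linarith
        · linarith [h2.1]
      have h3 : (0 : ℤ) ≤ (x 1 : ℤ) - Q := by
        have : (Q : ℤ) ≤ x 1 := by exact_mod_cast h1
        linarith
      have h4 : v0 * (W0 * ((x 0 : ℤ) - P) + W1 * ((x 1 : ℤ) - Q)) ≤
          -((v1 * W0 - W1 * v0) * ((x 1 : ℤ) - Q)) := by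
        have := mul_le_mul_of_nonneg_left h2 hW0.le
        linarith
      rcases eq_or_lt_of_le h3 with h5 | h5
      · have h6 : v0 * (W0 * ((x 0 : ℤ) - P) + W1 * ((x 1 : ℤ) - Q)) ≤ v0 * 0 := by
          rw [← h5] at h4 ⊢; linarith
        have h7 := le_of_mul_le_mul_left h6 hv
        have h8 : x 1 ≤ Q := by
          have : ((x 1 : ℕ) : ℤ) = Q := by linarith
          have : x 1 = Q := by exact_mod_cast this
          omega
        rcases lt_or_eq_of_le h7 with h9 | h9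
        · left; linarith
        · right; exact ⟨by linarith, h8⟩
      · left
        have h6 : 0 < (v1 * W0 - W1 * v0) * ((x 1 : ℤ) - Q) := mul_pos (by linarith) h5
        have h7 : v0 * (W0 * ((x 0 : ℤ) - P) + W1 * ((x 1 : ℤ) - Q)) < v0 * 0 := by linarith
        have h8 := lt_of_mul_lt_mul_left h7 hv.le
        linarith
  set D : ℤ := W0 * (P : ℤ) + W1 * (Q : ℤ) with hD
  have htop : ∀ x, coeff x f ≠ 0 → W0 * (x 0 : ℤ) + W1 * (x 1 : ℤ) ≤ D := by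
    intro x hx
    rcases hupp.2 x hx with h | h
    · exact h.le
    · exact h.1.le
  have hmD : W0 * (m 0 : ℤ) + W1 * (m 1 : ℤ) = D := by
    have h1 : W0 * A = W1 * B := by rw [hWA, hWB]; ring
    rw [hA, hB] at h1
    rw [hD]; linarith
  obtain ⟨n, hn, hnmin⟩ := Finset.exists_min_image
    (f.support.filter fun x => W0 * (x 0 : ℤ) + W1 * (x 1 : ℤ) = D) (fun x => x 1)
    ⟨m, by rw [Finset.mem_filter, mem_support_iff]; exact ⟨hm, hmD⟩⟩
  rw [Finset.mem_filter, mem_support_iff] at hn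
  obtain ⟨hn, hnD⟩ := hn
  have hn1 : n 1 < Q :=
    lt_of_le_of_lt (hnmin m (by rw [Finset.mem_filter, mem_support_iff]; exact ⟨hm, hmD⟩)) hmQ
  refine ⟨W0, W1, n 0, n 1, hW0, Int.isCoprime_iff_gcd_eq_one.2 hcop, hslope, hupp,
    ⟨by rw [← eq_e]; exact hn, fun x hx => ?_⟩, hn1, hnD⟩
  rcases lt_or_eq_of_le (htop x hx) with h | h
  · left; rw [hnD]; exact h
  · right
    rw [hnD]
    exact ⟨h, hnmin x (by rw [Finset.mem_filter, mem_support_iff]; exact ⟨hx, h⟩)⟩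

/-- the set of monomials on the edge with normal `(W0, W1)` -/
noncomputable def edge (W0 W1 D : ℤ) (f : MvPolynomial (Fin 2) k) : Finset (Fin 2 →₀ ℕ) :=
  f.support.filter fun x => W0 * (x 0 : ℤ) + W1 * (x 1 : ℤ) = D

theorem mem_edge {W0 W1 D : ℤ} {f : MvPolynomial (Fin 2) k} {x : Fin 2 →₀ ℕ} :
    x ∈ edge W0 W1 D f ↔ coeff x f ≠ 0 ∧ W0 * (x 0 : ℤ) + W1 * (x 1 : ℤ) = D := by
  rw [edge, Finset.mem_filter, mem_support_iff]

/-- some nonzero root of the edge has multiplicity at least `N` -/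
def Mul (N : ℕ) (w0 w1 D : ℤ) (f : MvPolynomial (Fin 2) k) : Prop :=
  Top w0 w1 D f ∧ ∃ y, y ≠ 0 ∧ N ≤ (dh w0 w1 D f).rootMultiplicity y

theorem Mul.mono {N N' : ℕ} (h : N' ≤ N) {w0 w1 D : ℤ} {f : MvPolynomial (Fin 2) k}
    (hf : Mul N w0 w1 D f) : Mul N' w0 w1 D f := by
  obtain ⟨h1, y, hy, h2⟩ := hf
  exact ⟨h1, y, hy, h.trans h2⟩

end Pool.Agent.TH207
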