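import Mathlib
import Pool.Agent.TH207.CM
import Pool.Agent.TH207.Mon
import Pool.Agent.TH207.Next
import Pool.Agent.W443.J6.Asm
import Pool.Agent.W381.J5.Pow
import Pool.Agent.W930.J5.P2

/-! The edge of the Newton polygon which crosses the diagonal. -/

set_option autoImplicit false

open MvPolynomial Pool.Agent.W443.J5 Pool.Agent.W443.J6
open Pool.Agent.H938R2.JC hiding dh

namespace Pool.Agent.TH207

universe u

theorem pow_ : S_POW.{u} := Pool.Agent.W381.J5.pow Pool.Agent.W215.J5.p1 Pool.Agent.W930.J5.p2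

theorem mult_C_mul_pow {k : Type u} [Field k] {κ : k} (hκ : κ ≠ 0) (r : Polynomial k) (s : ℕ)
    (y : k) : (Polynomial.C κ * r ^ s).rootMultiplicity y = s * r.rootMultiplicity y := by
  classical
  rw [← Polynomial.count_roots, Polynomial.roots_C_mul _ hκ, Polynomial.roots_pow,
    Multiset.count_nsmul, Polynomial.count_roots]

theorem mult_zero_le {k : Type u} [Field k] {α : Polynomial k} {n : ℕ} (h : α.coeff n ≠ 0) :
    α.rootMultiplicity 0 ≤ n := by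
  rw [Polynomial.rootMultiplicity_eq_natTrailingDegree']
  exact Polynomial.natTrailingDegree_le_of_ne_zero h

variable {k : Type u} [Field k]

theorem card_dh_le {W0 W1 D : ℤ} (f : MvPolynomial (Fin 2) k) :
    (dh W0 W1 D f).support.card ≤ (edge W0 W1 D f).card := by
  classical
  refine le_trans (Finset.card_le_card (t := (edge W0 W1 D f).image (fun m => m 1)) ?_)
    Finset.card_image_le
  intro j hj
  rw [Polynomial.mem_support_iff] at hj
  obtain ⟨m, h1, h2, h3⟩ := Pool.Agent.W22.J6ED.dh_ne hj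
  exact Finset.mem_image.2 ⟨m, mem_edge.2 ⟨h1, h2⟩, h3⟩

variable [CharZero k]

/-- a large power of `x` occurs -/
theorem ex_x {f g : MvPolynomial (Fin 2) k} (hbad : Bad f g) :
    ∃ i, 2 ≤ i ∧ coeff (e i 0) f ≠ 0 := by
  obtain ⟨⟨c, hc, hJ⟩, hng⟩ := hbad
  by_contra h
  push Not at h
  exact hng (line hJ hc h)

/-- a large power of `y` occurs -/
theorem ex_y {f g : MvPolynomial (Fin 2) k} (hbad : Bad f g) :
    ∃ i, 2 ≤ i ∧ coeff (e 0 i) f ≠ 0 := by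
  obtain ⟨⟨c, hc, hJ⟩, hng⟩ := hbad
  by_contra h
  push Not at h
  exact hng (line' hJ hc h)

theorem bad_pow {f g : MvPolynomial (Fin 2) k} (hbad : Bad f g) {w0 w1 d : ℤ}
    (hw : 0 < w0 ∨ 0 < w1) (ht : Top w0 w1 d f) :
    ∃ (κ : k) (R : MvPolynomial (Fin 2) k) (s : ℕ), κ ≠ 0 ∧ 2 ≤ s ∧
      part w0 w1 d f = C κ * R ^ s := by
  obtain ⟨⟨c, hc, hJ⟩, hng⟩ := hbad
  exact pow_ k f g c hJ hc hng w0 w1 d hw ht.1 ht.2

theorem dh_of_part {w0 w1 d : ℤ} {f : MvPolynomial (Fin 2) k} {κ : k}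
    {R : MvPolynomial (Fin 2) k} {s : ℕ} (h : part w0 w1 d f = C κ * R ^ s) :
    dh w0 w1 d f = Polynomial.C κ * (aeval ![1, Polynomial.X] R) ^ s := by
  unfold dh
  rw [h, map_mul, map_pow, algHom_C, Polynomial.algebraMap_eq]

variable [IsAlgClosed k]

/-- one step along the edges of the Newton polygon -/
theorem stp {f g : MvPolynomial (Fin 2) k} (hbad : Bad f g) {v0 v1 : ℤ} {P Q : ℕ} (hv0 : 0 < v0)
    (hv1 : v1 ≤ 0) (hPQ : P < Q) (hlow : Low v0 v1 P Q f) :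
    ∃ ρ σ P' Q' : ℕ, 1 ≤ σ ∧ σ < ρ ∧ IsCoprime (ρ : ℤ) (-(σ : ℤ)) ∧ P' < P ∧ P' ≠ Q' ∧
      Upp ρ (-(σ : ℤ)) P Q f ∧ Low ρ (-(σ : ℤ)) P' Q' f ∧
      (ρ : ℤ) * P' + -(σ : ℤ) * Q' = ρ * P + -(σ : ℤ) * Q ∧
      0 < (ρ : ℤ) * P + -(σ : ℤ) * Q ∧
      ∃ φ, OD ((ρ : ℤ) * P + -(σ : ℤ) * Q) ((ρ : ℤ) - σ)
        (dh ρ (-(σ : ℤ)) ((ρ : ℤ) * P + -(σ : ℤ) * Q) f) φ := by
  obtain ⟨i, hi, hci⟩ := ex_x hbad
  have hQpos : 0 < Q := by omega
  obtain ⟨W0, W1, P', Q', hW0, hcop, hsl, hupp, hlow', hQ', hE⟩ :=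
    next hv0 hlow ⟨e i 0, hci, by simpa using hQpos⟩
  have hW1 : W1 < 0 := by
    have h1 : v1 * W0 ≤ 0 := mul_nonpos_of_nonpos_of_nonneg hv1 hW0.le
    have h2 : W1 * v0 < 0 := lt_of_lt_of_le hsl h1
    by_contra h3
    push Not at h3
    have := mul_nonneg h3 hv0.le
    linarith
  have hD0 : 0 < W0 * (P : ℤ) + W1 * (Q : ℤ) := by
    have h1 : W0 * (i : ℤ) ≤ W0 * (P : ℤ) + W1 * (Q : ℤ) := by
      rcases hupp.2 _ hci with h | h
      · simp only [e_zero, e_one, Nat.cast_zero, mul_zero, add_zero] at h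
        exact h.le
      · have := h.1
        simp only [e_zero, e_one, Nat.cast_zero, mul_zero, add_zero] at this
        exact this.le
    have h2 : 0 < W0 * (i : ℤ) := mul_pos hW0 (by omega)
    linarith
  obtain ⟨ρ, rfl⟩ := Int.eq_ofNat_of_zero_le hW0.le
  obtain ⟨σ, hσ⟩ := Int.eq_ofNat_of_zero_le (show 0 ≤ -W1 by linarith)
  obtain rfl : W1 = -(σ : ℤ) := by linarith
  have hσ1 : 1 ≤ σ := by omega
  have hPQz : (P : ℤ) < Q := by exact_mod_cast hPQ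
  have hσρ : σ < ρ := by
    by_contra hcon
    have h1 : (ρ : ℤ) ≤ σ := by omega
    have h2 : (ρ : ℤ) * P ≤ σ * P := mul_le_mul_of_nonneg_right h1 (by positivity)
    have h3 : (σ : ℤ) * P < σ * Q := mul_lt_mul_of_pos_left hPQz (by omega)
    linarith
  have hP' : P' < P := by
    have h1 : (σ : ℤ) * Q' < σ * Q := mul_lt_mul_of_pos_left (by exact_mod_cast hQ') (by omega)
    have h2 : (ρ : ℤ) * P' < ρ * P := by linarith
    have h3 := lt_of_mul_lt_mul_left h2 (by positivity)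
    exact_mod_cast h3
  set D : ℤ := (ρ : ℤ) * P + -(σ : ℤ) * Q with hD
  have htop : Top (ρ : ℤ) (-(σ : ℤ)) D f := by
    refine ⟨fun m hm => ?_, e P Q, hupp.1, by simp [hD]⟩
    rcases hupp.2 m hm with h | h
    · exact h.le
    · exact h.1.le
  set α := dh (ρ : ℤ) (-(σ : ℤ)) D f with hα
  have hρp : (0 : ℤ) < ρ := hW0
  have hcQ : α.coeff Q ≠ 0 := by
    have h2 := Pool.Agent.W22.J6ED.dh_coeff (d := D) (w1 := -(σ : ℤ)) hρp hupp.1
      (by rw [e_zero, e_one, hD])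
    rw [e_one] at h2
    rw [hα, h2]
    exact hupp.1
  have hcQ' : α.coeff Q' ≠ 0 := by
    have h2 := Pool.Agent.W22.J6ED.dh_coeff (d := D) (w1 := -(σ : ℤ)) hρp hlow'.1
      (by rw [e_zero, e_one, hE])
    rw [e_one] at h2
    rw [hα, h2]
    exact hlow'.1
  have hdeg : 0 < α.natDegree := lt_of_lt_of_le hQpos (Polynomial.le_natDegree_of_ne_zero hcQ)
  obtain ⟨⟨c, hc, hJ⟩, hng⟩ := hbad
  obtain ⟨φ, hφ⟩ := Asm.dh_ k f g c hc hJ ρ (-σ) D hρp (by omega) hD0 htop hdeg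
  have hφ' : OD D ((ρ : ℤ) - σ) α φ := by rw [sub_eq_add_neg]; exact hφ
  have hcop' : IsCoprime (ρ : ℤ) (σ : ℤ) := by
    have := hcop.neg_right
    rwa [neg_neg] at this
  have hsup : ∀ j, α.coeff j ≠ 0 → Q' ≤ j ∧ j ≤ Q ∧ (ρ : ℤ) ∣ (j : ℤ) - (Q' : ℕ) := by
    intro j hj
    obtain ⟨m, hm, h1, h2⟩ := Pool.Agent.W22.J6ED.dh_ne hj
    refine ⟨?_, ?_, ?_⟩
    · rcases hlow'.2 m hm with h | h
      · exfalso; rw [hE, h1] at h; exact lt_irrefl _ h
      · rw [← h2]; exact h.2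
    · rcases hupp.2 m hm with h | h
      · exfalso; rw [h1] at h; exact lt_irrefl _ h
      · rw [← h2]; exact h.2
    · have h3 : (ρ : ℤ) * ((m 0 : ℤ) - P') = σ * ((j : ℤ) - (Q' : ℕ)) := by
        rw [← h2]
        linarith
      exact hcop'.dvd_of_dvd_mul_left ⟨_, h3.symm⟩
  obtain ⟨hne, -⟩ := Pool.Agent.W327.J6.E2 k α φ ρ σ Q' Q (P' : ℤ) (P : ℤ) D hσ1 hσρ
    hD0 hQ' hcQ' hcQ hsup (by rw [← hE]; ring) (by rw [hD]; ring) hφ'
  refine ⟨ρ, σ, P', Q', hσ1, hσρ, hcop, hP', fun h => hne (by rw [h]), hupp, hlow', hE, hD0, φ, hφ'⟩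

/-- the edge crossing the diagonal -/
theorem crs {f g : MvPolynomial (Fin 2) k} (hbad : Bad f g) (P : ℕ) :
    ∀ (v0 v1 : ℤ) (Q : ℕ), 0 < v0 → v1 ≤ 0 → P < Q → Low v0 v1 P Q f →
    ∃ ρ σ P0 Q0 P' Q' : ℕ, 1 ≤ σ ∧ σ < ρ ∧ IsCoprime (ρ : ℤ) (-(σ : ℤ)) ∧ P0 < Q0 ∧ Q' < P' ∧
      Upp ρ (-(σ : ℤ)) P0 Q0 f ∧ Low ρ (-(σ : ℤ)) P' Q' f ∧
      (ρ : ℤ) * P' + -(σ : ℤ) * Q' = ρ * P0 + -(σ : ℤ) * Q0 ∧
      0 < (ρ : ℤ) * P0 + -(σ : ℤ) * Q0 ∧
      ∃ φ, OD ((ρ : ℤ) * P0 + -(σ : ℤ) * Q0) ((ρ : ℤ) - σ)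
        (dh ρ (-(σ : ℤ)) ((ρ : ℤ) * P0 + -(σ : ℤ) * Q0) f) φ := by
  induction P using Nat.strong_induction_on with
  | _ P ih =>
    intro v0 v1 Q hv0 hv1 hPQ hlow
    obtain ⟨ρ, σ, P', Q', h1, h2, h3, h4, h5, h6, h7, h8, h9, h10⟩ := stp hbad hv0 hv1 hPQ hlow
    rcases lt_or_gt_of_ne h5 with h | h
    · exact ih P' h4 ρ (-(σ : ℤ)) Q' (by omega) (by omega) h h7
    · exact ⟨ρ, σ, P, Q, P', Q', h1, h2, h3, hPQ, h, h6, h7, h8, h9, h10⟩

/-- the edge with normal `(ρ, -σ)` crosses the diagonal and has a root of multiplicity at least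
four -/
def Crs (f : MvPolynomial (Fin 2) k) : Prop :=
  ∃ (ρ σ : ℕ) (D : ℤ), 1 ≤ σ ∧ σ < ρ ∧ Mul 4 ρ (-(σ : ℤ)) D f ∧
    ∀ m ∈ edge ρ (-(σ : ℤ)) D f, 2 ≤ m 0 ∧ m 1 ≠ 1

omit [IsAlgClosed k] in
theorem Mul.card {N : ℕ} {w0 w1 D : ℤ} (hw : 0 < w0) {f : MvPolynomial (Fin 2) k}
    (h : Mul N w0 w1 D f) : N + 1 ≤ (edge w0 w1 D f).card := by
  obtain ⟨⟨-, m, hm, hmD⟩, y, hy, hN⟩ := h
  have hne : dh w0 w1 D f ≠ 0 := by
    intro h0
    have h1 := Pool.Agent.W22.J6ED.dh_coeff hw hm hmD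
    rw [h0, Polynomial.coeff_zero] at h1
    exact hm h1.symm
  have h2 := card_of_root hy hne
  have h3 := card_dh_le (W0 := w0) (W1 := w1) (D := D) f
  omega

/-- the crossing edge has a root of multiplicity at least four -/
theorem cross {f g : MvPolynomial (Fin 2) k} (hbad : Bad f g) {v0 v1 : ℤ} {P Q : ℕ} (hv0 : 0 < v0)
    (hv1 : v1 ≤ 0) (hPQ : P < Q) (hlow : Low v0 v1 P Q f) : Crs f := by
  obtain ⟨ρ, σ, P0, Q0, P', Q', hσ1, hσρ, hcop, hPQ0, hPQ', hupp, hlow', hE, hD0, φ, hφ⟩ :=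
    crs hbad P v0 v1 Q hv0 hv1 hPQ hlow
  set D : ℤ := (ρ : ℤ) * P0 + -(σ : ℤ) * Q0 with hD
  set α := dh (ρ : ℤ) (-(σ : ℤ)) D f with hα
  have hρp : (0 : ℤ) < ρ := by omega
  have htop : Top (ρ : ℤ) (-(σ : ℤ)) D f := by
    refine ⟨fun m hm => ?_, e P0 Q0, hupp.1, by simp [hD]⟩
    rcases hupp.2 m hm with h | h
    · exact h.le
    · exact h.1.le
  have hcQ : α.coeff Q0 ≠ 0 := by
    have h2 := Pool.Agent.W22.J6ED.dh_coeff (d := D) (w1 := -(σ : ℤ)) hρp hupp.1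
      (by rw [e_zero, e_one, hD])
    rw [e_one] at h2
    rw [hα, h2]
    exact hupp.1
  have hcQ' : α.coeff Q' ≠ 0 := by
    have h2 := Pool.Agent.W22.J6ED.dh_coeff (d := D) (w1 := -(σ : ℤ)) hρp hlow'.1
      (by rw [e_zero, e_one, hE])
    rw [e_one] at h2
    rw [hα, h2]
    exact hlow'.1
  have hα0 : α ≠ 0 := by
    intro h; rw [h] at hcQ; simp at hcQ
  -- the root
  obtain ⟨d, hd⟩ := Int.eq_ofNat_of_zero_le hD0.le
  have hd0 : 0 < d := by omega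
  have hw : ((ρ : ℤ) - σ) = ((ρ - σ : ℕ) : ℤ) := by
    rw [Nat.cast_sub hσρ.le]
  have hPQ0z : (P0 : ℤ) < Q0 := by exact_mod_cast hPQ0
  have hPQz' : (Q' : ℤ) < P' := by exact_mod_cast hPQ'
  have hcm1 : d < (ρ - σ) * α.natDegree := by
    have h1 : Q0 ≤ α.natDegree := Polynomial.le_natDegree_of_ne_zero hcQ
    have h2 : (d : ℤ) < ((ρ - σ : ℕ) : ℤ) * Q0 := by
      rw [← hw, ← hd, hD]
      nlinarith
    have h3 : d < (ρ - σ) * Q0 := by exact_mod_cast h2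
    exact lt_of_lt_of_le h3 (Nat.mul_le_mul_left _ h1)
  have hcm0 : (ρ - σ) * α.rootMultiplicity 0 ≤ d := by
    have h1 : α.rootMultiplicity 0 ≤ Q' := mult_zero_le hcQ'
    refine le_trans (Nat.mul_le_mul_left _ h1) ?_
    have h2 : ((ρ - σ : ℕ) : ℤ) * Q' ≤ (d : ℤ) := by
      rw [← hw, ← hd, ← hE]
      nlinarith
    exact_mod_cast h2
  rw [hw, hd] at hφ
  obtain ⟨y, hy, hM⟩ := cm hd0 (by omega) hα0 hφ hcm1 hcm0
  set M := α.rootMultiplicity y with hMdef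
  have hMP : P' < M := by
    have h1 : ((ρ - σ : ℕ) : ℤ) * P' ≤ (d : ℤ) := by
      rw [← hw, ← hd, ← hE]
      nlinarith
    have h2 : (ρ - σ) * P' ≤ d := by exact_mod_cast h1
    have h3 : (ρ - σ) * P' < (ρ - σ) * M := lt_of_le_of_lt h2 hM
    exact Nat.lt_of_mul_lt_mul_left h3
  -- powers
  obtain ⟨κ, R, s, hκ, hs, hpart⟩ := bad_pow hbad (Or.inl hρp) htop
  have hαR : α = Polynomial.C κ * (aeval ![1, Polynomial.X] R) ^ s := dh_of_part hpart
  have hsM : s ∣ M := by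
    rw [hMdef, hαR, mult_C_mul_pow hκ]
    exact Dvd.intro _ rfl
  have hedge1 : ∀ m, coeff m f ≠ 0 → (ρ : ℤ) * (m 0 : ℤ) + -(σ : ℤ) * (m 1 : ℤ) = D → Q' ≤ m 1 := by
    intro m hm h1
    rcases hlow'.2 m hm with h | h
    · exfalso; rw [hE, h1] at h; exact lt_irrefl _ h
    · exact h.2
  have hsQ' : s ∣ Q' := by
    have h1 : α.rootMultiplicity 0 = Q' := by
      apply le_antisymm (mult_zero_le hcQ')
      rw [Polynomial.rootMultiplicity_eq_natTrailingDegree']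
      apply Polynomial.le_natTrailingDegree hα0
      intro j hj
      by_contra hne
      obtain ⟨m, hm, h2, h3⟩ := Pool.Agent.W22.J6ED.dh_ne hne
      have := hedge1 m hm h2
      omega
    rw [← h1, hαR, mult_C_mul_pow hκ]
    exact Dvd.intro _ rfl
  have hQ'1 : Q' ≠ 1 := by
    intro h
    rw [h] at hsQ'
    have := Nat.le_of_dvd one_pos hsQ'
    omega
  -- `P' ≥ 2`
  obtain ⟨i, hi, hci⟩ := ex_x hbad
  have hP'2 : 2 ≤ P' := by
    rcases Nat.eq_zero_or_pos Q' with h | h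
    · have h1 := htop.1 _ hci
      simp only [e_zero, e_one, Nat.cast_zero, mul_zero, add_zero] at h1
      rw [← hE, h, Nat.cast_zero, mul_zero, add_zero] at h1
      have h2 := le_of_mul_le_mul_left h1 hρp
      have h3 : i ≤ P' := by exact_mod_cast h2
      omega
    · omega
  have hM4 : 4 ≤ M := by
    rcases Nat.lt_or_ge P' 3 with h | h
    · have hP2 : P' = 2 := by omega
      have hQ0 : Q' = 0 := by omega
      -- restriction to the axis
      have hev : ev (part (ρ : ℤ) (-(σ : ℤ)) D f) =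
          Polynomial.C (coeff (e 2 0) f) * Polynomial.X ^ 2 := by
        ext j
        rw [ev_coeff, Pool.Agent.W381.J5.coeff_part, Polynomial.coeff_C_mul_X_pow,
          Pool.Agent.W381.J5.wt_e]
        have e1 : D = (ρ : ℤ) * 2 := by
          rw [← hE, hP2, hQ0]; push_cast; ring
        by_cases hj : j = 2
        · rw [if_pos hj, if_pos (by rw [e1, hj]; push_cast; ring), hj]
        · rw [if_neg hj, if_neg]
          intro h1
          rw [e1, Nat.cast_zero, mul_zero, add_zero] at h1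
          have h2 := mul_left_cancel₀ hρp.ne' h1
          exact hj (by exact_mod_cast h2)
      have hc2 : coeff (e 2 0) f ≠ 0 := by
        have := hlow'.1
        rwa [hP2, hQ0] at this
      have hCk : ∀ r : k, ev (C r) = Polynomial.C r := by intro r; simp [ev]
      rw [hpart, map_mul, map_pow, hCk] at hev
      have hn := congrArg Polynomial.natDegree hev
      rw [Polynomial.natDegree_C_mul hκ, Polynomial.natDegree_pow,
        Polynomial.natDegree_C_mul_X_pow _ _ hc2] at hn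
      have hs2 : s ∣ 2 := ⟨_, hn.symm⟩
      have hs2' : s = 2 := by
        have := Nat.le_of_dvd (by norm_num) hs2
        omega
      rw [hs2'] at hsM
      omega
    · omega
  refine ⟨ρ, σ, D, hσ1, hσρ, ⟨htop, y, hy, hM4⟩, fun m hm => ?_⟩
  rw [mem_edge] at hm
  obtain ⟨hm, hmD⟩ := hm
  have h1 := hedge1 m hm hmD
  have h1z : (Q' : ℤ) ≤ m 1 := by exact_mod_cast h1
  constructor
  · have h2 : (σ : ℤ) * Q' ≤ σ * (m 1 : ℤ) := mul_le_mul_of_nonneg_left h1z (by positivity)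
    have h3 : (ρ : ℤ) * P' ≤ ρ * (m 0 : ℤ) := by linarith
    have h4 := le_of_mul_le_mul_left h3 hρp
    have h5 : P' ≤ m 0 := by exact_mod_cast h4
    omega
  · intro hm1
    have hQ0 : Q' = 0 := by omega
    have hcop' : IsCoprime (ρ : ℤ) (σ : ℤ) := by
      have := hcop.neg_right
      rwa [neg_neg] at this
    have h3 : (ρ : ℤ) * ((m 0 : ℤ) - P') = σ * 1 := by
      have h4 : ((m 1 : ℕ) : ℤ) = 1 := by exact_mod_cast hm1
      have h5 : (Q' : ℤ) = 0 := by exact_mod_cast hQ0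
      rw [h4] at hmD
      rw [h5] at hE
      linarith
    have h4 : (ρ : ℤ) ∣ 1 := hcop'.dvd_of_dvd_mul_left ⟨_, h3.symm⟩
    have h5 : ρ ∣ 1 := by exact_mod_cast h4
    have := Nat.le_of_dvd one_pos h5
    omega

end Pool.Agent.TH207
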