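import Mathlib
import Pool.Agent.TH207.CM

/-! Two more consequences of the differential equation of an edge. -/

set_option autoImplicit false

open Polynomial Pool.Agent.W443.J6

namespace Pool.Agent.TH207

universe u

/-- degrees -/
theorem deg_eq {k : Type u} [Field k] [CharZero k] {D w : ℕ} {α φ : k[X]}
    (hα : α ≠ 0) (hφ : φ ≠ 0) (h : OD D w α φ) (hN : 1 ≤ α.natDegree) (he : 2 ≤ φ.natDegree) :
    D * φ.natDegree = w * α.natDegree := by
  set N := α.natDegree with hNdef
  set e := φ.natDegree with hedef
  unfold OD at h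
  have h2 := congrArg (fun P => coeff P (N + e - 1)) h
  simp only [coeff_sub, mul_assoc, coeff_C_mul] at h2
  have h3 : (α * derivative φ).coeff (N + e - 1) = α.coeff N * (φ.coeff e * e) := by
    have e1 : N + e - 1 = N + (e - 1) := by omega
    rw [e1, coeff_mul_add_eq_of_natDegree_le hNdef.ge (natDegree_derivative_le φ), coeff_derivative]
    have e2 : e - 1 + 1 = e := by omega
    rw [e2]
    congr 2
    have : ((e - 1 : ℕ) : k) = (e : k) - 1 := by
      rw [Nat.cast_sub (by omega)]; simp
    rw [this]; ring
  have h4 : (derivative α * φ).coeff (N + e - 1) = (α.coeff N * N) * φ.coeff e := by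
    have e1 : N + e - 1 = (N - 1) + e := by omega
    rw [e1, coeff_mul_add_eq_of_natDegree_le (natDegree_derivative_le α) hedef.ge, coeff_derivative]
    have e2 : N - 1 + 1 = N := by omega
    rw [e2]
    congr 2
    have : ((N - 1 : ℕ) : k) = (N : k) - 1 := by
      rw [Nat.cast_sub (by omega)]; simp
    rw [this]; ring
  have h5 : α.coeff (N + e - 1) = 0 := coeff_eq_zero_of_natDegree_lt (by omega)
  rw [h3, h4, h5] at h2
  have hlα : α.coeff N ≠ 0 := by rw [hNdef, coeff_natDegree]; exact leadingCoeff_ne_zero.2 hα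
  have hlφ : φ.coeff e ≠ 0 := by rw [hedef, coeff_natDegree]; exact leadingCoeff_ne_zero.2 hφ
  have h6 : α.coeff N * φ.coeff e * (((D * e : ℕ) : k) - ((w * N : ℕ) : k)) = 0 := by
    push_cast
    push_cast at h2
    linear_combination h2
  have h7 := (mul_eq_zero.1 h6).resolve_left (mul_ne_zero hlα hlφ)
  rw [sub_eq_zero] at h7
  exact_mod_cast h7

/-- few roots -/
theorem single_root {k : Type u} [Field k] [IsAlgClosed k] [CharZero k] {D w : ℕ} (hD : 0 < D)
    (hw : 0 < w) {α φ : k[X]} (hα : α ≠ 0) (h : OD D w α φ) (hN : 1 ≤ α.natDegree)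
    (h1 : w * α.natDegree ≤ D) : ∃ y, α.rootMultiplicity y = α.natDegree := by
  classical
  have hφ : φ ≠ 0 := by
    rintro rfl
    unfold OD at h
    simp only [derivative_zero, mul_zero, sub_zero] at h
    exact hα h.symm
  have he : φ.natDegree ≤ 1 := by
    by_contra hcon
    push Not at hcon
    have h2 := deg_eq hα hφ h hN hcon
    have h3 : D * φ.natDegree ≤ D * 1 := by rw [h2, mul_one]; exact h1
    have h4 := Nat.le_of_mul_le_mul_left h3 hD
    omega
  have hwz : (w : ℤ) ≠ 0 := by exact_mod_cast hw.ne'
  have hcard : α.roots.card = α.natDegree := by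
    exact (splits_iff_card_roots.1 (IsAlgClosed.splits α))
  obtain ⟨y, hy⟩ : ∃ y, y ∈ α.roots := by
    apply Multiset.exists_mem_of_ne_zero
    intro h0
    rw [h0, Multiset.card_zero] at hcard
    omega
  have hyφ : φ.IsRoot y := root_root hwz hα h ((mem_roots hα).1 hy)
  refine ⟨y, ?_⟩
  rw [← count_roots, ← hcard]
  rw [Multiset.count_eq_card]
  intro z hz
  have hzφ : φ.IsRoot z := root_root hwz hα h ((mem_roots hα).1 hz)
  by_contra hne
  have h2 : ({y, z} : Finset k) ⊆ φ.roots.toFinset := by
    intro x hx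
    rw [Multiset.mem_toFinset, mem_roots hφ]
    rcases Finset.mem_insert.1 hx with h3 | h3
    · rw [h3]; exact hyφ
    · rw [Finset.mem_singleton.1 h3]; exact hzφ
  have h3 := Finset.card_le_card h2
  rw [Finset.card_pair hne] at h3
  have h4 : φ.roots.toFinset.card ≤ φ.natDegree :=
    le_trans (Multiset.toFinset_card_le _) (card_roots' φ)
  omega

/-- monomials on the diagonal -/
theorem od_mono {k : Type u} [Field k] [CharZero k] {D w : ℤ} {κ : k} (hκ : κ ≠ 0) {j : ℕ}
    {φ : k[X]} (hD : D = w * j) : ¬ OD D w (C κ * X ^ j) φ := by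
  intro h
  unfold OD at h
  have h1 := congrArg (fun P => coeff P j) h
  simp only [coeff_sub] at h1
  have h2 : (C (D : k) * (C κ * X ^ j) * derivative φ).coeff j = (D : k) * κ * φ.coeff 1 := by
    have : C (D : k) * (C κ * X ^ j) * derivative φ = C ((D : k) * κ) * (X ^ j * derivative φ) := by
      rw [C_mul]; ring
    rw [this, coeff_C_mul]
    have e1 := coeff_X_pow_mul (derivative φ) j 0
    rw [zero_add] at e1
    rw [e1, coeff_derivative]
    simp
  have h3 : (C (w : k) * derivative (C κ * X ^ j) * φ).coeff j = (w : k) * κ * j * φ.coeff 1 := by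
    cases j with
    | zero => simp
    | succ j =>
      have : C (w : k) * derivative (C κ * X ^ (j + 1)) * φ =
          C ((w : k) * κ * ((j : k) + 1)) * (X ^ j * φ) := by
        rw [derivative_C_mul, derivative_X_pow]
        simp only [Nat.add_sub_cancel, C_mul, map_add, map_natCast, map_one]
        push_cast
        ring
      rw [this, coeff_C_mul]
      have e1 := coeff_X_pow_mul φ j 1
      rw [add_comm 1 j] at e1
      rw [e1]
      push_cast
      ring
  rw [h2, h3, coeff_C_mul, coeff_X_pow, if_pos rfl, mul_one, hD] at h1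
  apply hκ
  rw [← h1]
  push_cast
  ring

end Pool.Agent.TH207
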