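import Mathlib
import Pool.Agent.TH207.Cross
import Pool.Agent.TH207.Lin1

/-! The positive directions. -/

set_option autoImplicit false

open MvPolynomial Pool.Agent.W443.J5 Pool.Agent.W443.J6
open Pool.Agent.H938R2.JC hiding dh

namespace Pool.Agent.TH207

universe u

section

variable {k : Type u} [Field k]

theorem top_of_upp {w0 w1 : ℤ} {P Q : ℕ} {f : MvPolynomial (Fin 2) k} (h : Upp w0 w1 P Q f) :
    Top w0 w1 (w0 * P + w1 * Q) f := by
  refine ⟨fun m hm => ?_, e P Q, h.1, by simp⟩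
  rcases h.2 m hm with h | h
  · exact h.le
  · exact h.1.le

theorem top_of_low {w0 w1 : ℤ} {P Q : ℕ} {f : MvPolynomial (Fin 2) k} (h : Low w0 w1 P Q f) :
    Top w0 w1 (w0 * P + w1 * Q) f := by
  refine ⟨fun m hm => ?_, e P Q, h.1, by simp⟩
  rcases h.2 m hm with h | h
  · exact h.le
  · exact h.1.le

theorem ex_upp {w0 w1 D : ℤ} {f : MvPolynomial (Fin 2) k} (h : Top w0 w1 D f) :
    ∃ P Q : ℕ, w0 * (P : ℤ) + w1 * (Q : ℤ) = D ∧ Upp w0 w1 P Q f := by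
  obtain ⟨hle, m, hm, hmD⟩ := h
  obtain ⟨n, hn, hmax⟩ := Finset.exists_max_image (edge w0 w1 D f) (fun x => x 1)
    ⟨m, mem_edge.2 ⟨hm, hmD⟩⟩
  rw [mem_edge] at hn
  refine ⟨n 0, n 1, hn.2, by rw [← eq_e]; exact hn.1, fun x hx => ?_⟩
  rcases lt_or_eq_of_le (hle x hx) with h | h
  · left; rw [hn.2]; exact h
  · right; rw [hn.2]; exact ⟨h, hmax x (mem_edge.2 ⟨hx, h⟩)⟩

theorem ex_low {w0 w1 D : ℤ} {f : MvPolynomial (Fin 2) k} (h : Top w0 w1 D f) :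
    ∃ P Q : ℕ, w0 * (P : ℤ) + w1 * (Q : ℤ) = D ∧ Low w0 w1 P Q f := by
  obtain ⟨hle, m, hm, hmD⟩ := h
  obtain ⟨n, hn, hmin⟩ := Finset.exists_min_image (edge w0 w1 D f) (fun x => x 1)
    ⟨m, mem_edge.2 ⟨hm, hmD⟩⟩
  rw [mem_edge] at hn
  refine ⟨n 0, n 1, hn.2, by rw [← eq_e]; exact hn.1, fun x hx => ?_⟩
  rcases lt_or_eq_of_le (hle x hx) with h | h
  · left; rw [hn.2]; exact h
  · right; rw [hn.2]; exact ⟨h, hmin x (mem_edge.2 ⟨hx, h⟩)⟩

theorem ex_top (w0 w1 : ℤ) {f : MvPolynomial (Fin 2) k} (hf : f ≠ 0) : ∃ D, Top w0 w1 D f := by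
  obtain ⟨m0, hm0⟩ := MvPolynomial.ne_zero_iff.1 hf
  obtain ⟨m, hm, hmax⟩ := Finset.exists_max_image f.support
    (fun m => w0 * (m 0 : ℤ) + w1 * (m 1 : ℤ)) ⟨m0, mem_support_iff.2 hm0⟩
  exact ⟨_, fun x hx => hmax x (mem_support_iff.2 hx), m, mem_support_iff.1 hm, rfl⟩

theorem dh_upp {w0 w1 D : ℤ} (hw : 0 < w0) {P Q : ℕ} {f : MvPolynomial (Fin 2) k}
    (h : Upp w0 w1 P Q f) (hD : w0 * (P : ℤ) + w1 * (Q : ℤ) = D) :
    (dh w0 w1 D f).coeff Q ≠ 0 ∧ (dh w0 w1 D f).natDegree = Q := by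
  have h1 : (dh w0 w1 D f).coeff Q ≠ 0 := by
    have h2 := Pool.Agent.W22.J6ED.dh_coeff (d := D) (w1 := w1) hw h.1
      (by rw [e_zero, e_one, hD])
    rw [e_one] at h2
    rw [h2]
    exact h.1
  refine ⟨h1, le_antisymm ?_ (Polynomial.le_natDegree_of_ne_zero h1)⟩
  rw [Polynomial.natDegree_le_iff_coeff_eq_zero]
  intro j hj
  by_contra hne
  obtain ⟨m, hm, h2, h3⟩ := Pool.Agent.W22.J6ED.dh_ne hne
  rcases h.2 m hm with h4 | h4
  · rw [hD, h2] at h4; exact lt_irrefl _ h4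
  · omega

theorem dh_low {w0 w1 D : ℤ} (hw : 0 < w0) {P Q : ℕ} {f : MvPolynomial (Fin 2) k}
    (h : Low w0 w1 P Q f) (hD : w0 * (P : ℤ) + w1 * (Q : ℤ) = D) :
    (dh w0 w1 D f).coeff Q ≠ 0 ∧ (dh w0 w1 D f).rootMultiplicity 0 = Q := by
  have h1 : (dh w0 w1 D f).coeff Q ≠ 0 := by
    have h2 := Pool.Agent.W22.J6ED.dh_coeff (d := D) (w1 := w1) hw h.1
      (by rw [e_zero, e_one, hD])
    rw [e_one] at h2
    rw [h2]
    exact h.1
  refine ⟨h1, le_antisymm (mult_zero_le h1) ?_⟩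
  rw [Polynomial.rootMultiplicity_eq_natTrailingDegree']
  apply Polynomial.le_natTrailingDegree
  · intro h0; rw [h0] at h1; simp at h1
  · intro j hj
    by_contra hne
    obtain ⟨m, hm, h2, h3⟩ := Pool.Agent.W22.J6ED.dh_ne hne
    rcases h.2 m hm with h4 | h4
    · rw [hD, h2] at h4; exact lt_irrefl _ h4
    · omega

theorem upp_sw {w0 w1 : ℤ} (hw0 : 0 < w0) (hw1 : 0 < w1) {P Q : ℕ} {f : MvPolynomial (Fin 2) k}
    (h : Upp w0 w1 P Q f) : Low w1 w0 Q P (sw f) := by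
  refine ⟨by rw [coeff_sw]; exact h.1, fun m hm => ?_⟩
  rw [eq_e m, coeff_sw] at hm
  rcases h.2 _ hm with h1 | h1
  · rw [e_zero, e_one] at h1
    left; linarith
  · rw [e_zero, e_one] at h1
    right
    refine ⟨by linarith [h1.1], ?_⟩
    have h2 : ((m 0 : ℕ) : ℤ) ≤ Q := by exact_mod_cast h1.2
    have h3 : w1 * (m 0 : ℤ) ≤ w1 * Q := mul_le_mul_of_nonneg_left h2 hw1.le
    have h4 : w0 * (P : ℤ) ≤ w0 * (m 1 : ℤ) := by linarith [h1.1]
    have h5 := le_of_mul_le_mul_left h4 hw0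
    exact_mod_cast h5

theorem low_sw {w0 w1 : ℤ} (hw0 : 0 < w0) (hw1 : 0 < w1) {P Q : ℕ} {f : MvPolynomial (Fin 2) k}
    (h : Low w0 w1 P Q f) : Upp w1 w0 Q P (sw f) := by
  refine ⟨by rw [coeff_sw]; exact h.1, fun m hm => ?_⟩
  rw [eq_e m, coeff_sw] at hm
  rcases h.2 _ hm with h1 | h1
  · rw [e_zero, e_one] at h1
    left; linarith
  · rw [e_zero, e_one] at h1
    right
    refine ⟨by linarith [h1.1], ?_⟩
    have h2 : (Q : ℤ) ≤ ((m 0 : ℕ) : ℤ) := by exact_mod_cast h1.2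
    have h3 : w1 * (Q : ℤ) ≤ w1 * (m 0 : ℤ) := mul_le_mul_of_nonneg_left h2 hw1.le
    have h4 : w0 * (m 1 : ℤ) ≤ w0 * (P : ℤ) := by linarith [h1.1]
    have h5 := le_of_mul_le_mul_left h4 hw0
    exact_mod_cast h5

theorem bad_sw {f g : MvPolynomial (Fin 2) k} (h : Bad f g) : Bad (sw f) (sw g) := by
  obtain ⟨⟨c, hc, hJ⟩, hng⟩ := h
  refine ⟨⟨-c, neg_ne_zero.2 hc, ?_⟩, fun hg => hng (Good.of_equiv sw hg)⟩
  rw [J_sw, hJ]
  simp [sw]

theorem bad_ne {f g : MvPolynomial (Fin 2) k} (h : Bad f g) : f ≠ 0 := by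
  rintro rfl
  obtain ⟨⟨c, hc, hJ⟩, hng⟩ := h
  unfold J at hJ
  simp only [map_zero, zero_mul, sub_zero] at hJ
  have := congrArg (coeff 0) hJ
  rw [coeff_zero, coeff_C, if_pos rfl] at this
  exact hc this.symm

variable [CharZero k]

/-- degrees in `x` are at least eight -/
theorem deg8 {f g : MvPolynomial (Fin 2) k} (hbad : Bad f g) {i : ℕ}
    (h : ∀ m, coeff m f ≠ 0 → m 0 ≤ i) : 8 ≤ i := by
  obtain ⟨⟨c, hc, hJ⟩, hng⟩ := hbad
  have h1 : degreeOf 0 f ≤ i := by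
    rw [degreeOf_le_iff]
    intro m hm
    exact h m (mem_support_iff.1 hm)
  refine le_trans ?_ h1
  by_contra hcon
  apply hng
  apply Asm.main k f g c hc hJ
  right
  intro d hd hlt
  obtain ⟨t, ht⟩ := hd
  by_contra hd3
  push Not at hd3
  have ht2 : 2 ≤ t := by
    by_contra h2
    have : t = 0 ∨ t = 1 := by omega
    rcases this with h3 | h3
    · rw [h3, mul_zero] at ht; omega
    · rw [h3, mul_one] at ht; omega
  have : 4 * 2 ≤ d * t := Nat.mul_le_mul (by omega) ht2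
  omega

variable [IsAlgClosed k]

theorem ex_od {f g : MvPolynomial (Fin 2) k} (hbad : Bad f g) {w0 w1 D : ℤ} (h0 : 0 < w0)
    (h01 : 0 < w0 + w1) (hD : 0 < D) (ht : Top w0 w1 D f) (hdeg : 0 < (dh w0 w1 D f).natDegree) :
    ∃ φ, OD D (w0 + w1) (dh w0 w1 D f) φ := by
  obtain ⟨⟨c, hc, hJ⟩, hng⟩ := hbad
  exact Asm.dh_ k f g c hc hJ w0 w1 D h0 h01 hD ht hdeg

/-- no edges with normals having both entries at least two -/
theorem edgeW {f g : MvPolynomial (Fin 2) k} (hbad : Bad f g) {W0 W1 : ℤ} {P Q P' Q' : ℕ}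
    (hW0 : 2 ≤ W0) (hW1 : 1 ≤ W1) (hcop : IsCoprime W0 W1) (hU : Upp W0 W1 P Q f)
    (hL : Low W0 W1 P' Q' f) (hQ : Q' < Q)
    (hE : W0 * (P' : ℤ) + W1 * (Q' : ℤ) = W0 * (P : ℤ) + W1 * (Q : ℤ)) : W1 = 1 := by
  by_contra hne
  obtain ⟨A, rfl⟩ := Int.eq_ofNat_of_zero_le (show 0 ≤ W0 by linarith)
  obtain ⟨B, rfl⟩ := Int.eq_ofNat_of_zero_le (show 0 ≤ W1 by linarith)
  have hA : 2 ≤ A := by exact_mod_cast hW0
  have hB : 2 ≤ B := by
    have : 1 ≤ B := by exact_mod_cast hW1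
    have h2 : B ≠ 1 := fun h => hne (by rw [h]; rfl)
    omega
  set D : ℤ := (A : ℤ) * (P : ℤ) + (B : ℤ) * (Q : ℤ) with hD
  have hD0 : 0 < D := by
    have h1 : (0 : ℤ) < (B : ℤ) * Q := by
      have : 0 < Q := by omega
      positivity
    have h2 : (0 : ℤ) ≤ (A : ℤ) * P := by positivity
    linarith
  have htop : Top (A : ℤ) (B : ℤ) D f := top_of_upp hU
  have hdU := dh_upp (D := D) (by positivity) hU rfl
  obtain ⟨φ, hφ⟩ := ex_od hbad (w0 := (A : ℤ)) (w1 := (B : ℤ)) (by positivity) (by positivity) hD0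
    htop (by rw [hdU.2]; omega)
  have hc1 : coeff (e P Q) (part (A : ℤ) (B : ℤ) D f) ≠ 0 :=
    PsAux.part_mem (by rw [e_zero, e_one]) hU.1
  have hc2 : coeff (e P' Q') (part (A : ℤ) (B : ℤ) D f) ≠ 0 :=
    PsAux.part_mem (by rw [e_zero, e_one, hE]) hL.1
  have hAne : part (A : ℤ) (B : ℤ) D f ≠ 0 := by
    intro h0
    rw [h0, coeff_zero] at hc1
    exact hc1 rfl
  obtain ⟨μ, κ, hμ⟩ := Pool.Agent.W67.J6.cl1 k (part (A : ℤ) (B : ℤ) D f) φ A B D hA hB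
    (Nat.isCoprime_iff_coprime.1 hcop) hD0 hAne (fun r hr => PsAux.part_wt hr) hφ
  rw [hμ, coeff_monomial] at hc1 hc2
  have h1 : μ = e P Q := by
    by_contra hne
    exact hc1 (if_neg hne)
  have h2 : μ = e P' Q' := by
    by_contra hne
    exact hc2 (if_neg hne)
  rw [h1, e_inj] at h2
  omega

theorem shape_bot (κ c : k) (n i j : ℕ) (hn : 1 ≤ n) :
    coeff (e 0 (j + n * i)) (C κ * X 1 ^ j * (X 0 + C c * X 1 ^ n) ^ i : MvPolynomial (Fin 2) k) =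
      κ * c ^ i := by
  classical
  rw [mul_assoc, coeff_C_mul, PsAux.shape_sum, coeff_sum, Finset.sum_eq_single i]
  · rw [coeff_monomial, if_pos]
    · simp
    · simp
  · intro l hl hl0
    rw [coeff_monomial, if_neg]
    intro h
    rw [e_inj] at h
    have := Finset.mem_range.1 hl
    omega
  · intro h
    exact absurd (Finset.mem_range.2 (Nat.lt_succ_self i)) h

/-- edges with normal `(n, 1)` -/
theorem edge21 {f g : MvPolynomial (Fin 2) k} (hbad : Bad f g) {n : ℕ} (hn : 2 ≤ n)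
    {P Q P' Q' : ℕ} (hU : Upp n 1 P Q f)
    (hL : Low n 1 P' Q' f) (hQ : Q' < Q)
    (hE : (n : ℤ) * (P' : ℤ) + 1 * (Q' : ℤ) = (n : ℤ) * (P : ℤ) + 1 * (Q : ℤ)) :
    P = 0 ∧ 1 ≤ P' ∧ ∃ κ c : k, κ ≠ 0 ∧ c ≠ 0 ∧
      part n 1 ((n : ℤ) * (P : ℤ) + 1 * (Q : ℤ)) f =
        C κ * X 1 ^ Q' * (X 0 + C c * X 1 ^ n) ^ P' := by
  set D : ℤ := (n : ℤ) * (P : ℤ) + 1 * (Q : ℤ) with hD
  have hD0 : 0 < D := by
    have h1 : (0 : ℤ) < (Q : ℤ) := by
      have : 0 < Q := by omega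
      positivity
    have h2 : (0 : ℤ) ≤ (n : ℤ) * P := by positivity
    linarith
  have htop : Top (n : ℤ) 1 D f := top_of_upp hU
  have hn0 : (0 : ℤ) < n := by positivity
  have hdU := dh_upp (D := D) hn0 hU rfl
  obtain ⟨φ, hφ⟩ := ex_od hbad (w0 := (n : ℤ)) (w1 := 1) hn0 (by positivity) hD0
    htop (by rw [hdU.2]; omega)
  have hc1 : coeff (e P Q) (part (n : ℤ) 1 D f) ≠ 0 :=
    PsAux.part_mem (by rw [e_zero, e_one]) hU.1
  have hc2 : coeff (e P' Q') (part (n : ℤ) 1 D f) ≠ 0 :=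
    PsAux.part_mem (by rw [e_zero, e_one, hE]) hL.1
  have hAne : part (n : ℤ) 1 D f ≠ 0 := by
    intro h0
    rw [h0, coeff_zero] at hc1
    exact hc1 rfl
  obtain ⟨κ, c, i, j, hκ, hA⟩ := Pool.Agent.W67.J6.cl2 k (part (n : ℤ) 1 D f) φ n D hn hD0 hAne
    (fun r hr => by have := PsAux.part_wt hr; linarith) hφ
  have hm1 := hc1
  have hm2 := hc2
  rw [hA] at hm1 hm2
  obtain ⟨l1, hl1, a1, a2, a3⟩ := PsAux.shape_mem hm1
  obtain ⟨l2, hl2, b1, b2, b3⟩ := PsAux.shape_mem hm2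
  rw [e_zero] at a1 b1
  rw [e_one] at a2 b2
  have hl : l2 < l1 := by
    have : n * l2 < n * l1 := by omega
    exact Nat.lt_of_mul_lt_mul_left this
  have hc : c ≠ 0 := a3 (by omega)
  -- the top monomial
  have ht : coeff (e 0 (j + n * i)) (part (n : ℤ) 1 D f) ≠ 0 := by
    rw [hA, shape_bot _ _ _ _ _ (by omega)]
    exact mul_ne_zero hκ (pow_ne_zero _ hc)
  have ht1 := hU.2 _ (PsAux.part_ne ht)
  have ht2 := PsAux.part_wt ht
  have ht3 : j + n * i ≤ Q := by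
    rcases ht1 with h | h
    · exfalso; rw [ht2] at h; exact lt_irrefl _ h
    · simpa using h.2
  -- the bottom monomial
  have hb : coeff (e i j) (part (n : ℤ) 1 D f) ≠ 0 := by
    rw [hA, PsAux.shape_top]
    exact hκ
  have hb1 := hL.2 _ (PsAux.part_ne hb)
  have hb2 := PsAux.part_wt hb
  have hb3 : Q' ≤ j := by
    rcases hb1 with h | h
    · exfalso; rw [hb2, hE] at h; exact lt_irrefl _ h
    · simpa using h.2
  have hl2' : l2 = 0 := by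
    by_contra hne
    have : n * 1 ≤ n * l2 := Nat.mul_le_mul_left _ (by omega)
    omega
  have hl1' : l1 = i := by
    by_contra hne
    have : n * (l1 + 1) ≤ n * i := Nat.mul_le_mul_left _ (by omega)
    rw [mul_add, mul_one] at this
    omega
  subst hl2' hl1'
  rw [mul_zero, add_zero] at b2
  have hi : P' = l1 := by omega
  refine ⟨by omega, by omega, κ, c, hκ, hc, ?_⟩
  rw [hA, b2, hi]

/-- the next edge after a direction `(n, 1)` -/
theorem nxt {f g : MvPolynomial (Fin 2) k} (hbad : Bad f g) {n : ℕ} (hn : 1 ≤ n) {i j : ℕ}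
    (hL : Low n 1 i j f) (hex : ∃ m, coeff m f ≠ 0 ∧ m 1 < j) :
    (∀ m, coeff m f ≠ 0 → m 0 ≤ i) ∨ (i = 0 ∧ ∃ n' P' Q' : ℕ, n < n' ∧ 1 ≤ P' ∧
      Low n' 1 P' Q' f ∧ ∃ κ c : k, κ ≠ 0 ∧ c ≠ 0 ∧
      part n' 1 ((n' : ℤ) * (P' : ℤ) + 1 * (Q' : ℤ)) f =
        C κ * X 1 ^ Q' * (X 0 + C c * X 1 ^ n') ^ P') := by
  have hn0 : (0 : ℤ) < n := by positivity
  obtain ⟨W0, W1, P', Q', hW0, hcop, hsl, hupp, hlow, hQ', hE⟩ := next hn0 hL hex
  rw [one_mul] at hsl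
  rcases le_or_gt W1 0 with hW1 | hW1
  · left
    intro m hm
    have h1 : (n : ℤ) * (m 0 : ℤ) + 1 * (m 1 : ℤ) ≤ n * (i : ℤ) + 1 * (j : ℤ) := by
      rcases hL.2 m hm with h | h
      · exact h.le
      · exact h.1.le
    have h2 : W0 * (m 0 : ℤ) + W1 * (m 1 : ℤ) ≤ W0 * (i : ℤ) + W1 * (j : ℤ) := by
      rcases hupp.2 m hm with h | h
      · exact h.le
      · exact h.1.le
    have h3 : (W0 - W1 * n) * (m 0 : ℤ) ≤ (W0 - W1 * n) * (i : ℤ) := by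
      have h4 : (-W1) * ((n : ℤ) * (m 0 : ℤ) + 1 * (m 1 : ℤ)) ≤
          (-W1) * (n * (i : ℤ) + 1 * (j : ℤ)) := mul_le_mul_of_nonneg_left h1 (by linarith)
      linarith
    have h5 := le_of_mul_le_mul_left h3 (by linarith)
    exact_mod_cast h5
  · right
    have hW0n : (n : ℤ) < W0 := by
      have : (1 : ℤ) * n ≤ W1 * n := mul_le_mul_of_nonneg_right hW1 hn0.le
      linarith
    have hW1' := edgeW hbad (by linarith [show (1 : ℤ) ≤ n by exact_mod_cast hn]) hW1 hcop hupp hlow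
      hQ' hE
    subst hW1'
    obtain ⟨n', rfl⟩ := Int.eq_ofNat_of_zero_le hW0.le
    have hnn' : n < n' := by exact_mod_cast hW0n
    obtain ⟨h1, h2, κ, c, hκ, hc, h3⟩ := edge21 hbad (by omega) hupp hlow hQ' hE
    refine ⟨h1, n', P', Q', hnn', h2, hlow, κ, c, hκ, hc, ?_⟩
    rw [hE, h3]

/-- the `x`-degree -/
theorem vert {f g : MvPolynomial (Fin 2) k} (hbad : Bad f g) {n : ℕ} (hn : 1 ≤ n) {i j : ℕ}
    (hL : Low n 1 i j f) (hi : 1 ≤ i) : ∀ m, coeff m f ≠ 0 → m 0 ≤ i := by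
  by_cases hex : ∃ m, coeff m f ≠ 0 ∧ m 1 < j
  · rcases nxt hbad hn hL hex with h | h
    · exact h
    · omega
  · push Not at hex
    obtain ⟨I, hI, hcI⟩ := ex_x hbad
    have hj : j = 0 := by
      have := hex _ hcI
      rw [e_one] at this
      omega
    intro m hm
    have hn0 : (0 : ℤ) < n := by positivity
    have h1 : (n : ℤ) * (m 0 : ℤ) + 1 * (m 1 : ℤ) ≤ n * (i : ℤ) + 1 * (j : ℤ) := by
      rcases hL.2 m hm with h | h
      · exact h.le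
      · exact h.1.le
    rw [hj, Nat.cast_zero, mul_zero, add_zero] at h1
    have h2 : (n : ℤ) * (m 0 : ℤ) ≤ n * (i : ℤ) := by
      have : (0 : ℤ) ≤ (m 1 : ℤ) := by positivity
      linarith
    have h3 := le_of_mul_le_mul_left h2 hn0
    exact_mod_cast h3

/-- the multiplicity of the root of a special shape -/
theorem shape_mult {f : MvPolynomial (Fin 2) k} {n i j : ℕ} (hn : 1 ≤ n) {D : ℤ}
    (ht : Top n 1 D f) {κ c : k} (hκ : κ ≠ 0) (hc : c ≠ 0)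
    (hp : part n 1 D f = C κ * X 1 ^ j * (X 0 + C c * X 1 ^ n) ^ i) : Mul i n 1 D f := by
  refine ⟨ht, ?_⟩
  obtain ⟨y, hy⟩ := IsAlgClosed.exists_pow_nat_eq (-c⁻¹ : k) (show 0 < n by omega)
  have hy0 : y ≠ 0 := by
    rintro rfl
    rw [zero_pow (by omega)] at hy
    exact inv_ne_zero hc (neg_eq_zero.1 hy.symm)
  refine ⟨y, hy0, ?_⟩
  have hdh : dh (n : ℤ) 1 D f = Polynomial.C κ * Polynomial.X ^ j *
      (1 + Polynomial.C c * Polynomial.X ^ n) ^ i := by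
    unfold Pool.Agent.W443.J6.dh
    rw [hp]
    simp
  have hne : dh (n : ℤ) 1 D f ≠ 0 := by
    obtain ⟨P, Q, hPQ, hU⟩ := ex_upp ht
    have := (dh_upp (D := D) (show (0 : ℤ) < n by positivity) hU hPQ).1
    intro h0
    rw [h0] at this
    simp at this
  rw [Polynomial.le_rootMultiplicity_iff hne, hdh]
  refine dvd_mul_of_dvd_right (pow_dvd_pow_of_dvd ?_ _) _
  rw [Polynomial.dvd_iff_isRoot, Polynomial.IsRoot.def, Polynomial.eval_add, Polynomial.eval_one,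
    Polynomial.eval_mul, Polynomial.eval_C, Polynomial.eval_pow, Polynomial.eval_X, hy]
  field_simp
  ring

end

end Pool.Agent.TH207
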