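import Mathlib
import Pool.Agent.TH207.Pos

/-! The positive directions, conclusion. -/

set_option autoImplicit false

open MvPolynomial Pool.Agent.W443.J5 Pool.Agent.W443.J6
open Pool.Agent.H938R2.JC hiding dh

namespace Pool.Agent.TH207

universe u

variable {k : Type u} [Field k]

/-- the Newton polygon has a corner above the diagonal -/
def Cor (f : MvPolynomial (Fin 2) k) : Prop :=
  ∃ i j : ℕ, i < j ∧ coeff (e i j) f ≠ 0 ∧ ∀ m, coeff m f ≠ 0 → m 0 ≤ i ∧ m 1 ≤ j

variable [CharZero k] [IsAlgClosed k]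

/-- an edge below the diagonal -/
theorem c2 {f g : MvPolynomial (Fin 2) k} (hbad : Bad f g) {P Q P' Q' : ℕ} (hU : Upp 1 1 P Q f)
    (hL : Low 1 1 P' Q' f) (hE : P' + Q' = P + Q) (hQ : Q' < Q) (hPQ : Q ≤ P) :
    Mul 8 1 1 ((P + Q : ℕ) : ℤ) f := by
  have hQ8 : 8 ≤ Q := by
    have h1 : Low ((1 : ℕ) : ℤ) 1 Q P (sw f) := by
      rw [Nat.cast_one]; exact upp_sw one_pos one_pos hU
    exact deg8 (bad_sw hbad) (vert (bad_sw hbad) le_rfl h1 (by omega))
  have hDU : (1 : ℤ) * (P : ℤ) + 1 * (Q : ℤ) = ((P + Q : ℕ) : ℤ) := by push_cast; ring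
  have hDL : (1 : ℤ) * (P' : ℤ) + 1 * (Q' : ℤ) = ((P + Q : ℕ) : ℤ) := by
    rw [← hE]; push_cast; ring
  have htop : Top 1 1 ((P + Q : ℕ) : ℤ) f := by rw [← hDU]; exact top_of_upp hU
  have h1 := dh_upp one_pos hU hDU
  have h2 := dh_low one_pos hL hDL
  have hne : dh 1 1 ((P + Q : ℕ) : ℤ) f ≠ 0 := by
    intro h0; rw [h0] at h1; simp at h1
  obtain ⟨φ, hφ⟩ := ex_od hbad (w0 := 1) (w1 := 1) one_pos (by norm_num)
    (by exact_mod_cast (show 0 < P + Q by omega)) htop (by rw [h1.2]; omega)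
  have hφ' : OD ((P + Q : ℕ) : ℤ) ((2 : ℕ) : ℤ) (dh 1 1 ((P + Q : ℕ) : ℤ) f) φ := hφ
  obtain ⟨y, hy⟩ := single_root (by omega) (by norm_num) hne hφ' (by rw [h1.2]; omega)
    (by rw [h1.2]; omega)
  refine ⟨htop, y, ?_, by rw [hy, h1.2]; exact hQ8⟩
  rintro rfl
  rw [h1.2, h2.2] at hy
  omega

/-- the case of a leading form `x ^ i y ^ j` with `i < j` -/
theorem mono_lt {f g : MvPolynomial (Fin 2) k} (hbad : Bad f g) {i j : ℕ} (hU : Upp 1 1 i j f)
    (hL : Low 1 1 i j f) (hij : i < j) :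
    (∃ (n : ℕ) (D : ℤ), 1 ≤ n ∧ Mul 6 n 1 D f) ∨ Cor f := by
  have hL' : Low ((1 : ℕ) : ℤ) 1 i j f := by rw [Nat.cast_one]; exact hL
  rcases Nat.eq_zero_or_pos i with hi | hi
  · left
    obtain ⟨I, hI, hcI⟩ := ex_x hbad
    rcases nxt hbad le_rfl hL' ⟨e I 0, hcI, by rw [e_one]; omega⟩ with h | h
    · exfalso
      have := h _ hcI
      rw [e_zero] at this
      omega
    · obtain ⟨-, n', P', Q', hn', hP', hlow, κ, c, hκ, hc, hp⟩ := h
      have h8 : 8 ≤ P' := deg8 hbad (vert hbad (by omega) hlow hP')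
      exact ⟨n', _, by omega, (shape_mult (by omega) (top_of_low hlow) hκ hc hp).mono (by omega)⟩
  · right
    have h1 := vert hbad le_rfl hL' hi
    have h2 : Low ((1 : ℕ) : ℤ) 1 j i (sw f) := by
      rw [Nat.cast_one]; exact upp_sw one_pos one_pos hU
    have h3 := vert (bad_sw hbad) le_rfl h2 (by omega)
    refine ⟨i, j, hij, hL.1, fun m hm => ⟨h1 m hm, ?_⟩⟩
    have h4 := h3 (e (m 1) (m 0)) (by rw [coeff_sw, ← eq_e]; exact hm)
    rwa [e_zero] at h4

/-- the positive directions -/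
theorem pos0 {f g : MvPolynomial (Fin 2) k} (hbad : Bad f g) :
    (∃ (n : ℕ) (D : ℤ), 1 ≤ n ∧ Mul 6 n 1 D f) ∨ (∃ (n : ℕ) (D : ℤ), 1 ≤ n ∧ Mul 6 n 1 D (sw f)) ∨
      Cor f ∨ Cor (sw f) := by
  obtain ⟨D, htop⟩ := ex_top 1 1 (bad_ne hbad)
  obtain ⟨P, Q, hDU, hU⟩ := ex_upp htop
  obtain ⟨P', Q', hDL, hL⟩ := ex_low htop
  obtain ⟨I, hI, hcI⟩ := ex_x hbad
  have hE : P' + Q' = P + Q := by
    have : (P' : ℤ) + Q' = P + Q := by linarith
    exact_mod_cast this
  have hDN : D = ((P + Q : ℕ) : ℤ) := by rw [← hDU]; push_cast; ring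
  have hQQ : Q' ≤ Q := by
    rcases hU.2 _ hL.1 with h | h
    · rw [e_zero, e_one, hDL, hDU] at h; exact absurd h (lt_irrefl _)
    · simpa using h.2
  have hPQ0 : 2 ≤ P + Q := by
    have h1 := htop.1 _ hcI
    rw [e_zero, e_one, hDN] at h1
    have h2 : I ≤ P + Q := by
      have : (I : ℤ) ≤ ((P + Q : ℕ) : ℤ) := by linarith
      exact_mod_cast this
    omega
  rcases Nat.lt_or_ge Q' Q with hQ | hQ
  · -- not a monomial
    have hQ8 : 8 ≤ Q := by
      have h1 : Low ((1 : ℕ) : ℤ) 1 Q P (sw f) := by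
        rw [Nat.cast_one]; exact upp_sw one_pos one_pos hU
      exact deg8 (bad_sw hbad) (vert (bad_sw hbad) le_rfl h1 (by omega))
    rcases Nat.lt_or_ge P Q with h1 | h1
    · rcases Nat.lt_or_ge Q' P' with h2 | h2
      · left
        have a1 := dh_upp one_pos hU hDU
        have a2 := dh_low one_pos hL hDL
        have hne : dh 1 1 D f ≠ 0 := by
          intro h0; rw [h0] at a1; simp at a1
        obtain ⟨φ, hφ⟩ := ex_od hbad (w0 := 1) (w1 := 1) one_pos (by norm_num)
          (by rw [hDN]; exact_mod_cast (show 0 < P + Q by omega)) htop (by rw [a1.2]; omega)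
        have hφ' : OD ((P + Q : ℕ) : ℤ) ((2 : ℕ) : ℤ) (dh 1 1 D f) φ := by
          rw [← hDN]; exact hφ
        obtain ⟨y, hy, hM⟩ := cm (by omega) (by norm_num) hne hφ' (by rw [a1.2]; omega)
          (by rw [a2.2]; omega)
        obtain ⟨κ, R, s, hκ, hs, hpart⟩ := bad_pow hbad (Or.inl one_pos) htop
        have hαR := dh_of_part hpart
        have hsM : s ∣ (dh 1 1 D f).rootMultiplicity y := by
          rw [hαR, mult_C_mul_pow hκ]
          exact Dvd.intro _ rfl
        have hsQ : s ∣ Q := by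
          rw [← a1.2, hαR, Polynomial.natDegree_C_mul hκ, Polynomial.natDegree_pow]
          exact Dvd.intro _ rfl
        refine ⟨1, D, le_rfl, by rw [Nat.cast_one]; exact htop, y, hy, ?_⟩
        rw [Nat.cast_one]
        set M := (dh 1 1 D f).rootMultiplicity y with hMdef
        by_contra hcon
        have hM5 : M = 5 := by omega
        rw [hM5] at hsM
        have hs5 : s = 5 := by
          rcases (Nat.dvd_prime (by norm_num : Nat.Prime 5)).1 hsM with h | h
          · omega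
          · exact h
        rw [hs5] at hsQ
        omega
      · right; left
        have b1 : Upp 1 1 Q' P' (sw f) := low_sw one_pos one_pos hL
        have b2 : Low 1 1 Q P (sw f) := upp_sw one_pos one_pos hU
        exact ⟨1, _, le_rfl, by
          rw [Nat.cast_one]
          exact (c2 (bad_sw hbad) b1 b2 (by omega) (by omega) h2).mono (by norm_num)⟩
    · left
      exact ⟨1, _, le_rfl, by
        rw [Nat.cast_one]
        exact (c2 hbad hU hL hE hQ h1).mono (by norm_num)⟩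
  · -- a monomial
    have hQe : Q' = Q := le_antisymm hQQ hQ
    have hPe : P' = P := by omega
    subst hQe hPe
    rcases lt_trichotomy P' Q' with h | h | h
    · rcases mono_lt hbad hU hL h with h1 | h1
      · exact Or.inl h1
      · exact Or.inr (Or.inr (Or.inl h1))
    · exfalso
      subst h
      have a1 := dh_upp one_pos hU hDU
      obtain ⟨φ, hφ⟩ := ex_od hbad (w0 := 1) (w1 := 1) one_pos (by norm_num)
        (by rw [hDN]; exact_mod_cast (show 0 < P' + P' by omega)) htop (by rw [a1.2]; omega)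
      have hα : dh 1 1 D f = Polynomial.C ((dh 1 1 D f).coeff P') * Polynomial.X ^ P' := by
        ext l
        rw [Polynomial.coeff_C_mul, Polynomial.coeff_X_pow]
        by_cases hl : l = P'
        · rw [if_pos hl, mul_one, hl]
        · rw [if_neg hl, mul_zero]
          by_contra hne
          obtain ⟨m, hm, h2, h3⟩ := Pool.Agent.W22.J6ED.dh_ne hne
          have c1 : m 1 ≤ P' := by
            rcases hU.2 m hm with h4 | h4
            · rw [hDU, h2] at h4; exact absurd h4 (lt_irrefl _)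
            · exact h4.2
          have c2 : P' ≤ m 1 := by
            rcases hL.2 m hm with h4 | h4
            · rw [hDU, h2] at h4; exact absurd h4 (lt_irrefl _)
            · exact h4.2
          omega
      rw [hα] at hφ
      refine od_mono (w := 1 + 1) a1.1 ?_ hφ
      rw [← hDU]; ring
    · rcases mono_lt (bad_sw hbad) (low_sw one_pos one_pos hL) (upp_sw one_pos one_pos hU) h with
        h1 | h1
      · exact Or.inr (Or.inl h1)
      · exact Or.inr (Or.inr (Or.inr h1))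

/-- a corner above the diagonal -/
theorem cor {f g : MvPolynomial (Fin 2) k} (hbad : Bad f g) (h : Cor f) :
    (∃ i : ℕ, 8 ≤ i ∧ Mul (i + 1) 1 0 i f) ∨ ∃ P Q : ℕ, P < Q ∧ Low 1 0 P Q f := by
  obtain ⟨i, j, hij, hc, hall⟩ := h
  have hi8 : 8 ≤ i := deg8 hbad fun m hm => (hall m hm).1
  have hU : Upp 1 0 i j f := by
    refine ⟨hc, fun m hm => ?_⟩
    obtain ⟨h1, h2⟩ := hall m hm
    rcases lt_or_eq_of_le h1 with h3 | h3
    · left
      have : ((m 0 : ℕ) : ℤ) < i := by exact_mod_cast h3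
      linarith
    · right
      exact ⟨by rw [h3]; ring, h2⟩
  have hDU : (1 : ℤ) * (i : ℤ) + 0 * (j : ℤ) = ((i : ℕ) : ℤ) := by ring
  have htop : Top 1 0 ((i : ℕ) : ℤ) f := by
    have := top_of_upp hU
    rwa [hDU] at this
  obtain ⟨P', Q', hDL, hL⟩ := ex_low htop
  have hP' : P' = i := by
    have : (P' : ℤ) = i := by linarith
    exact_mod_cast this
  rcases Nat.lt_or_ge P' Q' with h1 | h1
  · exact Or.inr ⟨P', Q', h1, hL⟩
  · left
    have a1 := dh_upp one_pos hU hDU
    have a2 := dh_low one_pos hL hDL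
    have hne : dh 1 0 ((i : ℕ) : ℤ) f ≠ 0 := by
      intro h0; rw [h0] at a1; simp at a1
    obtain ⟨φ, hφ⟩ := ex_od hbad (w0 := 1) (w1 := 0) one_pos (by norm_num)
      (by exact_mod_cast (show 0 < i by omega)) htop (by rw [a1.2]; omega)
    have hφ' : OD ((i : ℕ) : ℤ) ((1 : ℕ) : ℤ) (dh 1 0 ((i : ℕ) : ℤ) f) φ := hφ
    obtain ⟨y, hy, hM⟩ := cm (by omega) (by norm_num) hne hφ' (by rw [a1.2]; omega)
      (by rw [a2.2]; omega)
    exact ⟨i, hi8, htop, y, hy, by omega⟩

end Pool.Agent.TH207
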