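import Mathlib
import Pool.Agent.TH207.Pos2

/-! Weighted homogeneous automorphisms. -/

set_option autoImplicit false

open MvPolynomial Pool.Agent.W443.J5 Pool.Agent.W443.J6
open Pool.Agent.H938R2.JC hiding dh

namespace Pool.Agent.TH207

universe u

section

variable {k : Type u} [Field k]

/-- the weight -/
def wt (w0 w1 : ℕ) (r : Fin 2 →₀ ℕ) : ℕ := w0 * r 0 + w1 * r 1

theorem wt_add (w0 w1 : ℕ) (r t : Fin 2 →₀ ℕ) : wt w0 w1 (r + t) = wt w0 w1 r + wt w0 w1 t := by
  unfold wt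
  rw [Finsupp.add_apply, Finsupp.add_apply]
  ring

/-- homogeneous of weight `d` -/
def WH (w0 w1 d : ℕ) (P : MvPolynomial (Fin 2) k) : Prop := ∀ r, coeff r P ≠ 0 → wt w0 w1 r = d

theorem WH.mul {w0 w1 d e : ℕ} {P Q : MvPolynomial (Fin 2) k} (hP : WH w0 w1 d P)
    (hQ : WH w0 w1 e Q) : WH w0 w1 (d + e) (P * Q) := by
  intro r hr
  rw [coeff_mul] at hr
  obtain ⟨x, hx, hne⟩ := Finset.exists_ne_zero_of_sum_ne_zero hr
  have hx' := Finset.HasAntidiagonal.mem_antidiagonal.1 hx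
  rw [← hx', wt_add, hP _ (left_ne_zero_of_mul hne), hQ _ (right_ne_zero_of_mul hne)]

theorem WH.C (w0 w1 : ℕ) (c : k) : WH w0 w1 0 (C c : MvPolynomial (Fin 2) k) := by
  intro r hr
  rw [coeff_C] at hr
  by_cases h : 0 = r
  · rw [← h]
    simp [wt]
  · rw [if_neg h] at hr
    exact absurd rfl hr

theorem WH.add {w0 w1 d : ℕ} {P Q : MvPolynomial (Fin 2) k} (hP : WH w0 w1 d P)
    (hQ : WH w0 w1 d Q) : WH w0 w1 d (P + Q) := by
  intro r hr
  rw [coeff_add] at hr
  by_cases h : coeff r P = 0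
  · rw [h, zero_add] at hr
    exact hQ r hr
  · exact hP r h

theorem WH.pow {w0 w1 d : ℕ} {P : MvPolynomial (Fin 2) k} (hP : WH w0 w1 d P) (m : ℕ) :
    WH w0 w1 (m * d) (P ^ m) := by
  induction m with
  | zero =>
    rw [pow_zero, Nat.zero_mul]
    have := WH.C (k := k) w0 w1 1
    rwa [map_one] at this
  | succ m ih =>
    rw [pow_succ, Nat.succ_mul]
    exact ih.mul hP

theorem WH.X0 (w0 w1 : ℕ) : WH w0 w1 w0 (X 0 : MvPolynomial (Fin 2) k) := by
  intro r hr
  rw [PsAux.coeff_X_e 0 r hr]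
  simp [wt]

theorem WH.X1 (w0 w1 : ℕ) : WH w0 w1 w1 (X 1 : MvPolynomial (Fin 2) k) := by
  intro r hr
  rw [PsAux.coeff_X_e 1 r hr]
  simp [wt]

variable {s : Fin 2 → MvPolynomial (Fin 2) k} {w0 w1 : ℕ}

theorem wh_mono (h0 : WH w0 w1 w0 (s 0)) (h1 : WH w0 w1 w1 (s 1)) (r : Fin 2 →₀ ℕ) (c : k) :
    WH w0 w1 (wt w0 w1 r) (aeval s (monomial r c)) := by
  rw [aeval_monomial, Finsupp.prod_fintype _ _ (by simp), Fin.prod_univ_two]
  have h := (WH.C w0 w1 c).mul ((h0.pow (r 0)).mul (h1.pow (r 1)))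
  have e1 : 0 + (r 0 * w0 + r 1 * w1) = wt w0 w1 r := by
    unfold wt
    ring
  rw [e1] at h
  exact h

theorem wt_aeval (h0 : WH w0 w1 w0 (s 0)) (h1 : WH w0 w1 w1 (s 1)) (S : ℕ → Prop)
    {P : MvPolynomial (Fin 2) k} (hP : ∀ r, coeff r P ≠ 0 → S (wt w0 w1 r)) :
    ∀ r, coeff r (aeval s P) ≠ 0 → S (wt w0 w1 r) := by
  intro r hr
  rw [P.as_sum, map_sum, coeff_sum] at hr
  obtain ⟨x, hx, hne⟩ := Finset.exists_ne_zero_of_sum_ne_zero hr
  rw [wh_mono h0 h1 x _ r hne]
  exact hP x (mem_support_iff.1 hx)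

theorem wt_cast (r : Fin 2 →₀ ℕ) :
    (w0 : ℤ) * (r 0 : ℤ) + (w1 : ℤ) * (r 1 : ℤ) = ((wt w0 w1 r : ℕ) : ℤ) := by
  unfold wt; push_cast; ring

/-- homogeneous parts -/
theorem part_aeval (h0 : WH w0 w1 w0 (s 0)) (h1 : WH w0 w1 w1 (s 1)) (d : ℤ)
    (P : MvPolynomial (Fin 2) k) : part w0 w1 d (aeval s P) = aeval s (part w0 w1 d P) := by
  ext r
  rw [PsAux.coeff_part]
  have e : P = part w0 w1 d P + (P - part w0 w1 d P) := by ring
  split_ifs with h
  · conv_lhs => rw [e]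
    rw [map_add, coeff_add]
    have hz : coeff r (aeval s (P - part (w0 : ℤ) w1 d P)) = 0 := by
      by_contra hne
      refine wt_aeval h0 h1 (fun x => (x : ℤ) ≠ d) (P := P - part (w0 : ℤ) w1 d P) ?_ r hne ?_
      · intro t ht htD
        apply ht
        rw [coeff_sub, PsAux.coeff_part, if_pos (by rw [wt_cast]; exact htD), sub_self]
      · rw [← wt_cast]; exact h
    rw [hz, add_zero]
  · by_contra hne
    refine h ?_
    rw [wt_cast]
    refine wt_aeval h0 h1 (fun x => (x : ℤ) = d) (P := part (w0 : ℤ) w1 d P) ?_ r (Ne.symm hne)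
    intro t ht
    have := PsAux.part_wt ht
    rw [← wt_cast]; exact this

/-- the set of weights -/
noncomputable def Wts (w0 w1 : ℕ) (f : MvPolynomial (Fin 2) k) : Finset ℕ :=
  f.support.image (wt w0 w1)

theorem mem_wts {f : MvPolynomial (Fin 2) k} {d : ℕ} :
    d ∈ Wts w0 w1 f ↔ ∃ m, coeff m f ≠ 0 ∧ wt w0 w1 m = d := by
  unfold Wts
  rw [Finset.mem_image]
  constructor
  · rintro ⟨m, hm, h⟩
    exact ⟨m, mem_support_iff.1 hm, h⟩
  · rintro ⟨m, hm, h⟩
    exact ⟨m, mem_support_iff.2 hm, h⟩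

theorem wts_sub (h0 : WH w0 w1 w0 (s 0)) (h1 : WH w0 w1 w1 (s 1)) (f : MvPolynomial (Fin 2) k) :
    Wts w0 w1 (aeval s f) ⊆ Wts w0 w1 f := by
  intro d hd
  obtain ⟨m, hm, rfl⟩ := mem_wts.1 hd
  exact wt_aeval h0 h1 (fun x => x ∈ Wts w0 w1 f) (fun r hr => mem_wts.2 ⟨r, hr, rfl⟩) m hm

variable {s' : Fin 2 → MvPolynomial (Fin 2) k}

/-- an automorphism -/
theorem bad_aeval (hss' : ∀ l, aeval s (s' l) = X l) (hs's : ∀ l, aeval s' (s l) = X l)
    {f g : MvPolynomial (Fin 2) k} (hbad : Bad f g) : Bad (aeval s f) (aeval s g) := by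
  let σ : MvPolynomial (Fin 2) k ≃ₐ[k] MvPolynomial (Fin 2) k :=
    AlgEquiv.ofAlgHom (aeval s) (aeval s')
      (by
        apply MvPolynomial.algHom_ext
        intro l
        rw [AlgHom.comp_apply, aeval_X, AlgHom.id_apply]
        exact hss' l)
      (by
        apply MvPolynomial.algHom_ext
        intro l
        rw [AlgHom.comp_apply, aeval_X, AlgHom.id_apply]
        exact hs's l)
  obtain ⟨⟨c, hc, hJ⟩, hng⟩ := hbad
  have hJs : ∃ c' : k, c' ≠ 0 ∧ J (s 0) (s 1) = C c' := by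
    have h2 := J_aeval s (s' 0) (s' 1)
    rw [hss' 0, hss' 1] at h2
    have h3 : J (X 0 : MvPolynomial (Fin 2) k) (X 1) = 1 := by
      unfold J
      simp [pderiv_X]
    rw [h3] at h2
    have hu : IsUnit (J (s 0) (s 1)) := IsUnit.of_mul_eq_one _ (by rw [mul_comm]; exact h2.symm)
    obtain ⟨c', hc', hc2⟩ := MvPolynomial.isUnit_iff_eq_C_of_isReduced.1 hu
    exact ⟨c', hc'.ne_zero, hc2⟩
  obtain ⟨c', hc', hJs⟩ := hJs
  refine ⟨⟨c * c', mul_ne_zero hc hc', ?_⟩, fun hg => hng ?_⟩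
  · rw [J_aeval, hJ, hJs, aeval_C, C_mul]
    rfl
  · exact Good.of_equiv σ hg

theorem wts_eq (h0 : WH w0 w1 w0 (s 0)) (h1 : WH w0 w1 w1 (s 1)) (h0' : WH w0 w1 w0 (s' 0))
    (h1' : WH w0 w1 w1 (s' 1)) (hs's : ∀ l, aeval s' (s l) = X l) (f : MvPolynomial (Fin 2) k) :
    Wts w0 w1 (aeval s f) = Wts w0 w1 f := by
  apply Finset.Subset.antisymm (wts_sub h0 h1 f)
  have h2 : aeval s' (aeval s f) = f := by
    have h3 : (aeval s' : MvPolynomial (Fin 2) k →ₐ[k] MvPolynomial (Fin 2) k).comp (aeval s) =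
        AlgHom.id k _ := by
      apply MvPolynomial.algHom_ext
      intro l
      rw [AlgHom.comp_apply, aeval_X, AlgHom.id_apply]
      exact hs's l
    have h4 := congrArg (fun F => F f) h3
    simpa using h4
  have h3 := wts_sub h0' h1' (aeval s f)
  rwa [h2] at h3

end

section

variable {k : Type u} [Field k] [CharZero k] [IsAlgClosed k]

/-- shift in `y` -/
theorem aut0 {f g : MvPolynomial (Fin 2) k} (hbad : Bad f g) {i : ℕ} (h : Mul (i + 1) 1 0 i f)
    (w0 : ℕ) : ∃ f' g' : MvPolynomial (Fin 2) k, Bad f' g' ∧ Wts w0 0 f' = Wts w0 0 f ∧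
      ∃ P Q : ℕ, P < Q ∧ Low 1 0 P Q f' := by
  obtain ⟨htop, y, hy, hM⟩ := h
  set s : Fin 2 → MvPolynomial (Fin 2) k := ![X 0, X 1 + C y] with hs
  set s' : Fin 2 → MvPolynomial (Fin 2) k := ![X 0, X 1 + C (-y)] with hs'
  have e0 : ∀ w, WH w 0 w (s 0) := fun w => WH.X0 w 0
  have e1 : ∀ w, WH w 0 0 (s 1) := fun w => (WH.X1 w 0).add (WH.C w 0 y)
  have e0' : ∀ w, WH w 0 w (s' 0) := fun w => WH.X0 w 0
  have e1' : ∀ w, WH w 0 0 (s' 1) := fun w => (WH.X1 w 0).add (WH.C w 0 (-y))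
  have hss' : ∀ l, aeval s (s' l) = X l := by
    intro l
    fin_cases l
    · simp [hs, hs']
    · simp [hs, hs', algebraMap_eq]
  have hs's : ∀ l, aeval s' (s l) = X l := by
    intro l
    fin_cases l
    · simp [hs, hs']
    · simp [hs, hs', algebraMap_eq]
  have hp := part_aeval (e0 1) (e1 1) (i : ℤ) f
  rw [Nat.cast_one, Nat.cast_zero] at hp
  have hdh : dh 1 0 (i : ℤ) (aeval s f) = (dh 1 0 (i : ℤ) f).comp
      (Polynomial.X + Polynomial.C y) := by
    unfold Pool.Agent.W443.J6.dh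
    rw [hp]
    have h1 : ((aeval ![1, Polynomial.X] : MvPolynomial (Fin 2) k →ₐ[k] Polynomial k).comp
        (aeval s)) = (Polynomial.aeval (Polynomial.X + Polynomial.C y :
          Polynomial k)).comp (aeval ![1, Polynomial.X]) := by
      apply MvPolynomial.algHom_ext
      intro l
      fin_cases l
      · simp [hs]
      · simp [hs]
    have h2 := congrArg (fun F => F (part 1 0 (i : ℤ) f)) h1
    rw [Polynomial.comp_eq_aeval]
    exact h2
  have hne : dh 1 0 (i : ℤ) f ≠ 0 := by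
    obtain ⟨P, Q, hPQ, hU⟩ := ex_upp htop
    have := (dh_upp (D := (i : ℤ)) one_pos hU hPQ).1
    intro h0
    rw [h0] at this
    simp at this
  have hne' : dh 1 0 (i : ℤ) (aeval s f) ≠ 0 := by
    rw [hdh]
    intro h0
    apply hne
    have h1 := congrArg (fun p => p.comp (Polynomial.X - Polynomial.C y)) h0
    simp only [Polynomial.comp_assoc] at h1
    simpa using h1
  have hdvd : Polynomial.X ^ (i + 1) ∣ dh 1 0 (i : ℤ) (aeval s f) := by
    have h1 : (Polynomial.X - Polynomial.C y) ^ (i + 1) ∣ dh 1 0 (i : ℤ) f :=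
      (Polynomial.le_rootMultiplicity_iff hne).1 hM
    obtain ⟨q, hq⟩ := h1
    rw [hdh, hq]
    simp only [Polynomial.mul_comp, Polynomial.pow_comp, Polynomial.sub_comp, Polynomial.X_comp,
      Polynomial.C_comp, add_sub_cancel_right]
    exact dvd_mul_right _ _
  have htop' : Top 1 0 (i : ℤ) (aeval s f) := by
    constructor
    · intro m hm
      have h1 := wt_aeval (e0 1) (e1 1) (fun x => (x : ℤ) ≤ i) (P := f) (by
        intro r hr
        have := htop.1 r hr
        rw [← wt_cast, Nat.cast_one, Nat.cast_zero]; exact this) m hm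
      rw [← wt_cast, Nat.cast_one, Nat.cast_zero] at h1
      exact h1
    · obtain ⟨j, hj⟩ : ∃ j, (dh 1 0 (i : ℤ) (aeval s f)).coeff j ≠ 0 := by
        by_contra hcon
        push Not at hcon
        exact hne' (Polynomial.ext (by simpa using hcon))
      obtain ⟨m, hm, h2, h3⟩ := Pool.Agent.W22.J6ED.dh_ne hj
      exact ⟨m, hm, h2⟩
  obtain ⟨P', Q', hDL, hL⟩ := ex_low htop'
  have a2 := dh_low one_pos hL hDL
  have hP' : P' = i := by
    have : (P' : ℤ) = i := by linarith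
    exact_mod_cast this
  refine ⟨aeval s f, aeval s g, bad_aeval hss' hs's hbad,
    wts_eq (e0 w0) (e1 w0) (e0' w0) (e1' w0) hs's f, P', Q', ?_, hL⟩
  have h4 : i + 1 ≤ (dh 1 0 (i : ℤ) (aeval s f)).rootMultiplicity 0 := by
    rw [Polynomial.le_rootMultiplicity_iff hne', Polynomial.C_0, sub_zero]
    exact hdvd
  omega

omit [CharZero k] [IsAlgClosed k] in
theorem top_unique {w0 w1 D D' : ℤ} {f : MvPolynomial (Fin 2) k} (h : Top w0 w1 D f)
    (h' : Top w0 w1 D' f) : D = D' := by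
  obtain ⟨h1, m, hm, hmD⟩ := h
  obtain ⟨h1', m', hm', hmD'⟩ := h'
  have a := h1 m' hm'
  have b := h1' m hm
  linarith

omit [CharZero k] [IsAlgClosed k] in
theorem WH.smul {n d w1 : ℕ} {P : MvPolynomial (Fin 2) k} (h : WH n 1 d P) :
    WH (n * w1) w1 (d * w1) P := by
  intro r hr
  have := h r hr
  unfold wt at this ⊢
  rw [← this]
  ring

omit [CharZero k] [IsAlgClosed k] in
theorem aut_gen {f g : MvPolynomial (Fin 2) k} (hbad : Bad f g) {n : ℕ}
    {s s' : Fin 2 → MvPolynomial (Fin 2) k} (h0 : WH n 1 n (s 0)) (h1 : WH n 1 1 (s 1))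
    (h0' : WH n 1 n (s' 0)) (h1' : WH n 1 1 (s' 1)) (hss' : ∀ l, aeval s (s' l) = X l)
    (hs's : ∀ l, aeval s' (s l) = X l) {D : ℤ} (htop : Top n 1 D f) {κ : k} {i j : ℕ} (hκ : κ ≠ 0)
    (hA : aeval s (part n 1 D f) = C κ * X 0 ^ i * X 1 ^ j) (w1 : ℕ) :
    ∃ f' g' : MvPolynomial (Fin 2) k, Bad f' g' ∧ Wts (n * w1) w1 f' = Wts (n * w1) w1 f ∧
      ∃ D, Top n 1 D f' ∧ (edge n 1 D f').card ≤ 1 := by
  have e1 : n * w1 = n * w1 := rfl
  have e2 : 1 * w1 = w1 := one_mul w1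
  have k0 := h0.smul (w1 := w1)
  have k1 := h1.smul (w1 := w1)
  have k0' := h0'.smul (w1 := w1)
  have k1' := h1'.smul (w1 := w1)
  rw [e2] at k1 k1'
  have hp := part_aeval h0 h1 D f
  rw [Nat.cast_one] at hp
  rw [hp.symm] at hA
  have hmono : (C κ * X 0 ^ i * X 1 ^ j : MvPolynomial (Fin 2) k) = monomial (e i j) κ := by
    rw [mul_assoc, X_pow_eq_monomial, X_pow_eq_monomial, monomial_mul, C_mul_monomial]
    simp [e]
  rw [hmono] at hA
  have hc : ∀ m, coeff m (aeval s f) ≠ 0 → (n : ℤ) * (m 0 : ℤ) + 1 * (m 1 : ℤ) = D →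
      m = e i j := by
    intro m hm hmD
    have h2 := PsAux.part_mem hmD hm
    rw [hA, coeff_monomial] at h2
    by_contra hne
    exact h2 (if_neg fun h => hne h.symm)
  refine ⟨aeval s f, aeval s g, bad_aeval hss' hs's hbad, wts_eq k0 k1 k0' k1' hs's f, D,
    ⟨?_, ?_⟩, ?_⟩
  · intro m hm
    have h2 := wt_aeval h0 h1 (fun x => (x : ℤ) ≤ D) (P := f) (by
      intro r hr
      have := htop.1 r hr
      rw [← wt_cast, Nat.cast_one]; exact this) m hm
    rw [← wt_cast, Nat.cast_one] at h2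
    exact h2
  · have h2 : coeff (e i j) (part (n : ℤ) 1 D (aeval s f)) ≠ 0 := by
      rw [hA, coeff_monomial, if_pos rfl]; exact hκ
    exact ⟨e i j, PsAux.part_ne h2, PsAux.part_wt h2⟩
  · rw [Finset.card_le_one]
    intro a ha b hb
    rw [mem_edge] at ha hb
    rw [hc a ha.1 ha.2, hc b hb.1 hb.2]

/-- the part of top weight becomes a monomial -/
theorem autn {f g : MvPolynomial (Fin 2) k} (hbad : Bad f g) {n : ℕ} (hn : 1 ≤ n) (w1 : ℕ) :
    ∃ f' g' : MvPolynomial (Fin 2) k, Bad f' g' ∧ Wts (n * w1) w1 f' = Wts (n * w1) w1 f ∧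
      ∃ D, Top n 1 D f' ∧ (edge n 1 D f').card ≤ 1 := by
  obtain ⟨D, htop⟩ := ex_top (n : ℤ) 1 (bad_ne hbad)
  have hn0 : (0 : ℤ) < n := by positivity
  by_cases hdeg : 0 < (dh (n : ℤ) 1 D f).natDegree
  · obtain ⟨P, Q, hDU, hU⟩ := ex_upp htop
    obtain ⟨I, hI, hcI⟩ := ex_x hbad
    have hD0 : 0 < D := by
      have h1 := htop.1 _ hcI
      rw [e_zero, e_one] at h1
      have h2 : (0 : ℤ) < n * (I : ℤ) := by positivity
      push_cast at h1
      linarith
    obtain ⟨φ, hφ⟩ := ex_od hbad (w0 := (n : ℤ)) (w1 := 1) hn0 (by positivity) hD0 htop hdeg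
    have hAne : part (n : ℤ) 1 D f ≠ 0 := by
      intro h0
      have h1 := PsAux.part_mem (w0 := (n : ℤ)) (w1 := 1) (d := D) (by rw [e_zero, e_one, hDU]) hU.1
      rw [h0, coeff_zero] at h1
      exact h1 rfl
    rcases Nat.lt_or_ge 1 n with hn2 | hn1
    · obtain ⟨κ, c, i, j, hκ, hA⟩ := Pool.Agent.W67.J6.cl2 k (part (n : ℤ) 1 D f) φ n D hn2 hD0
        hAne (fun r hr => by have := PsAux.part_wt hr; linarith) hφ
      have hsh : ∀ c : k, WH n 1 n (X 0 + C c * X 1 ^ n : MvPolynomial (Fin 2) k) := by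
        intro c
        refine (WH.X0 n 1).add ?_
        have := (WH.C n 1 c).mul ((WH.X1 (k := k) n 1).pow n)
        rw [zero_add, mul_one] at this
        exact this
      refine aut_gen hbad (s := ![X 0 + C (-c) * X 1 ^ n, X 1]) (s' := ![X 0 + C c * X 1 ^ n, X 1])
        (hsh (-c)) (WH.X1 n 1) (hsh c) (WH.X1 n 1) ?_ ?_ htop hκ (i := i) (j := j) ?_ w1
      · intro l
        fin_cases l
        · simp
        · simp
      · intro l
        fin_cases l
        · simp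
        · simp
      · rw [hA]
        simp
        ring
    · have hn1' : n = 1 := by omega
      subst hn1'
      obtain ⟨κ, a1, b1, a2, b2, i, j, hκ, hΔ, hA⟩ := Pool.Agent.W605.J6.cl4 k
        (part ((1 : ℕ) : ℤ) 1 D f) φ D hD0 hAne
        (fun r hr => by have := PsAux.part_wt hr; push_cast at this; linarith)
        (by
          have h5 := hφ
          rw [Nat.cast_one, show (1 : ℤ) + 1 = 2 by norm_num] at h5
          rw [Nat.cast_one]
          exact h5)
      set δ : k := (a1 * b2 - a2 * b1)⁻¹ with hδ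
      have hd : (C a1 * C b2 - C a2 * C b1) * C δ = (1 : MvPolynomial (Fin 2) k) := by
        rw [← C_mul, ← C_mul, ← C_sub, ← C_mul, hδ, mul_inv_cancel₀ hΔ, C_1]
      have hs0 : C a1 * (C (b2 * δ) * X 0 + C (-(b1 * δ)) * X 1) +
          C b1 * (C (-(a2 * δ)) * X 0 + C (a1 * δ) * X 1) = (X 0 : MvPolynomial (Fin 2) k) := by
        simp only [C_mul, C_neg]
        linear_combination (X 0) * hd
      have hs1 : C a2 * (C (b2 * δ) * X 0 + C (-(b1 * δ)) * X 1) +
          C b2 * (C (-(a2 * δ)) * X 0 + C (a1 * δ) * X 1) = (X 1 : MvPolynomial (Fin 2) k) := by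
        simp only [C_mul, C_neg]
        linear_combination (X 1) * hd
      have hs2 : C (b2 * δ) * (C a1 * X 0 + C b1 * X 1) +
          C (-(b1 * δ)) * (C a2 * X 0 + C b2 * X 1) = (X 0 : MvPolynomial (Fin 2) k) := by
        simp only [C_mul, C_neg]
        linear_combination (X 0) * hd
      have hs3 : C (-(a2 * δ)) * (C a1 * X 0 + C b1 * X 1) +
          C (a1 * δ) * (C a2 * X 0 + C b2 * X 1) = (X 1 : MvPolynomial (Fin 2) k) := by
        simp only [C_mul, C_neg]
        linear_combination (X 1) * hd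
      have hlin : ∀ α β : k, WH 1 1 1 (C α * X 0 + C β * X 1 : MvPolynomial (Fin 2) k) := by
        intro α β r hr
        have := PsAux.coeff_lin hr
        unfold wt
        omega
      refine aut_gen hbad
        (s := ![C (b2 * δ) * X 0 + C (-(b1 * δ)) * X 1, C (-(a2 * δ)) * X 0 + C (a1 * δ) * X 1])
        (s' := ![C a1 * X 0 + C b1 * X 1, C a2 * X 0 + C b2 * X 1])
        (hlin _ _) (hlin _ _) (hlin _ _) (hlin _ _) ?_ ?_ htop hκ (i := i) (j := j) ?_ w1
      · intro l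
        fin_cases l
        · simpa [algebraMap_eq] using hs0
        · simpa [algebraMap_eq] using hs1
      · intro l
        fin_cases l
        · simpa [algebraMap_eq] using hs2
        · simpa [algebraMap_eq] using hs3
      · rw [hA]
        have e4 : ∀ s : Fin 2 → MvPolynomial (Fin 2) k,
            aeval s (C κ * (C a1 * X 0 + C b1 * X 1) ^ i * (C a2 * X 0 + C b2 * X 1) ^ j :
              MvPolynomial (Fin 2) k) =
              C κ * (C a1 * s 0 + C b1 * s 1) ^ i * (C a2 * s 0 + C b2 * s 1) ^ j := by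
          intro s
          simp only [map_mul, map_pow, map_add, algHom_C, aeval_X, algebraMap_eq]
        rw [e4]
        simp only [Matrix.cons_val_zero, Matrix.cons_val_one]
        rw [hs0, hs1]
  · refine ⟨f, g, hbad, rfl, D, htop, ?_⟩
    rw [Finset.card_le_one]
    have hz : ∀ a ∈ edge (n : ℤ) 1 D f, a 1 = 0 := by
      intro a ha
      rw [mem_edge] at ha
      by_contra hne
      exact hdeg (PsAux.dh_pos hn0.ne' ha.1 ha.2 (by omega))
    intro a ha b hb
    have ha1 := hz a ha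
    have hb1 := hz b hb
    rw [mem_edge] at ha hb
    have h1 := ha.2
    have h2 := hb.2
    rw [ha1] at h1
    rw [hb1] at h2
    rw [ext_iff']
    refine ⟨?_, by rw [ha1, hb1]⟩
    have h3 : (n : ℤ) * (a 0 : ℤ) = n * (b 0 : ℤ) := by linarith
    have h4 := mul_left_cancel₀ hn0.ne' h3
    exact_mod_cast h4

end

end Pool.Agent.TH207
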