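import Mathlib
import Pool.Agent.TH207.Aut
import Pool.Agent.W443.J5.Fin0

/-! Counting weights and monomials. -/

set_option autoImplicit false

open MvPolynomial Pool.Agent.W443.J5 Pool.Agent.W443.J6
open Pool.Agent.H938R2.JC hiding dh

namespace Pool.Agent.TH207

universe u

section

variable {k : Type u} [Field k]

theorem inj_edge {v0 v1 D : ℤ} {w0 w1 : ℕ} (hdet : v0 * w1 - v1 * w0 ≠ 0)
    {f : MvPolynomial (Fin 2) k} : Set.InjOn (wt w0 w1) (edge v0 v1 D f) := by
  intro a ha b hb hab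
  rw [Finset.mem_coe, mem_edge] at ha hb
  have h1 : (w0 : ℤ) * (a 0 : ℤ) + w1 * (a 1 : ℤ) = w0 * (b 0 : ℤ) + w1 * (b 1 : ℤ) := by
    rw [wt_cast, wt_cast]; exact_mod_cast hab
  have h2 := ha.2
  have h3 := hb.2
  have h4 : (v0 * w1 - v1 * w0) * ((a 0 : ℤ) - b 0) = 0 := by
    linear_combination (w1 : ℤ) * (h2 - h3) - v1 * h1
  have h5 : (v0 * w1 - v1 * w0) * ((a 1 : ℤ) - b 1) = 0 := by
    linear_combination v0 * h1 - (w0 : ℤ) * (h2 - h3)
  have h6 := (mul_eq_zero.1 h4).resolve_left hdet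
  have h7 := (mul_eq_zero.1 h5).resolve_left hdet
  rw [ext_iff']
  constructor
  · have : (a 0 : ℤ) = b 0 := by linarith
    exact_mod_cast this
  · have : (a 1 : ℤ) = b 1 := by linarith
    exact_mod_cast this

theorem card_edge_le {v0 v1 D : ℤ} {w0 w1 : ℕ} (hdet : v0 * w1 - v1 * w0 ≠ 0)
    (f : MvPolynomial (Fin 2) k) : (edge v0 v1 D f).card ≤ (Wts w0 w1 f).card := by
  refine Finset.card_le_card_of_injOn (wt w0 w1) ?_ (inj_edge hdet)
  intro m hm
  rw [Finset.mem_coe, mem_edge] at hm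
  exact Finset.mem_coe.2 (mem_wts.2 ⟨m, hm.1, rfl⟩)

theorem mem_edge_sw {v0 v1 D : ℤ} {f : MvPolynomial (Fin 2) k} {m : Fin 2 →₀ ℕ} :
    e (m 1) (m 0) ∈ edge v1 v0 D f ↔ m ∈ edge v0 v1 D (sw f) := by
  rw [mem_edge, mem_edge, e_zero, e_one]
  conv_rhs => rw [eq_e m, coeff_sw]
  rw [e_zero, e_one, add_comm]

theorem card_edge_sw {v0 v1 D : ℤ} (f : MvPolynomial (Fin 2) k) :
    (edge v0 v1 D (sw f)).card ≤ (edge v1 v0 D f).card := by
  refine Finset.card_le_card_of_injOn (fun m => e (m 1) (m 0)) ?_ ?_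
  · intro m hm
    exact Finset.mem_coe.2 (mem_edge_sw.2 (Finset.mem_coe.1 hm))
  · intro m _ m' _ h
    rw [e_inj] at h
    rw [ext_iff']
    exact ⟨h.2, h.1⟩

theorem card_edge_le' {v0 v1 D : ℤ} {w0 w1 : ℕ} (hdet : v1 * w1 - v0 * w0 ≠ 0)
    (f : MvPolynomial (Fin 2) k) : (edge v0 v1 D (sw f)).card ≤ (Wts w0 w1 f).card :=
  (card_edge_sw f).trans (card_edge_le hdet f)

variable [CharZero k]

/-- a monomial with `y`-exponent one -/
theorem ex_y1 {f g : MvPolynomial (Fin 2) k} (hbad : Bad f g) : ∃ i, coeff (e i 1) f ≠ 0 := by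
  by_contra hcon
  push Not at hcon
  obtain ⟨i, hi, hci⟩ := ex_x hbad
  obtain ⟨⟨c, hc, hJ⟩, hng⟩ := hbad
  have h0 : ev (pderiv 1 f) = 0 := by
    ext j
    rw [ev_coeff, coeff_pderiv, Polynomial.coeff_zero]
    have : e j 0 + Finsupp.single 1 1 = e j 1 := by
      rw [ext_iff']
      simp
    rw [this, hcon j, zero_mul]
  have h1 := ev_J f g
  rw [hJ, h0, zero_mul, sub_zero] at h1
  have h2 : ev (C c : MvPolynomial (Fin 2) k) = Polynomial.C c := by simp [ev]
  rw [h2] at h1
  have h3 : IsUnit (Polynomial.derivative (ev f)) := by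
    apply IsUnit.of_mul_eq_one (ev (pderiv 1 g) * Polynomial.C c⁻¹)
    rw [← mul_assoc, ← h1, ← Polynomial.C_mul, mul_inv_cancel₀ hc, Polynomial.C_1]
  have h4 := Polynomial.natDegree_eq_zero_of_isUnit h3
  have h5 : (Polynomial.derivative (ev f)).coeff (i - 1) = 0 :=
    Polynomial.coeff_eq_zero_of_natDegree_lt (by omega)
  rw [Polynomial.coeff_derivative, ev_coeff, show i - 1 + 1 = i by omega] at h5
  have h6 : ((i - 1 : ℕ) : k) + 1 ≠ 0 := by exact_mod_cast Nat.succ_ne_zero (i - 1)
  exact mul_ne_zero hci h6 h5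

/-- a monomial with `x`-exponent one -/
theorem ex_x1 {f g : MvPolynomial (Fin 2) k} (hbad : Bad f g) : ∃ j, coeff (e 1 j) f ≠ 0 := by
  obtain ⟨i, hi⟩ := ex_y1 (bad_sw hbad)
  rw [coeff_sw] at hi
  exact ⟨i, hi⟩

variable [IsAlgClosed k]

/-- large edges after a homogeneous automorphism -/
theorem mainw {f g : MvPolynomial (Fin 2) k} (hbad : Bad f g) {w0 w1 : ℕ} (hw : w1 ≤ w0)
    (hw0 : 1 ≤ w0) : ∃ f' g' : MvPolynomial (Fin 2) k, Bad f' g' ∧ Wts w0 w1 f' = Wts w0 w1 f ∧
      (7 ≤ (Wts w0 w1 f').card ∨ Crs f' ∨ Crs (sw f')) := by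
  have hw0z : (0 : ℤ) < w0 := by exact_mod_cast hw0
  -- the corner of `sw f'`
  have hsw : ∀ f' g' : MvPolynomial (Fin 2) k, Bad f' g' → Cor (sw f') →
      (7 ≤ (Wts w0 w1 f').card ∨ Crs f' ∨ Crs (sw f')) := by
    intro f' g' hb hc
    rcases cor (bad_sw hb) hc with ⟨i, hi, hM⟩ | ⟨P, Q, hPQ, hL⟩
    · left
      have h1 := hM.card one_pos
      have h2 := card_edge_le' (v0 := 1) (v1 := 0) (D := (i : ℤ)) (w0 := w0) (w1 := w1)
        (by rw [zero_mul, one_mul, zero_sub, neg_ne_zero]; exact hw0z.ne') f'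
      omega
    · exact Or.inr (Or.inr (cross (bad_sw hb) one_pos le_rfl hPQ hL))
  rcases Nat.eq_zero_or_pos w1 with h1 | h1
  · subst h1
    rcases pos0 hbad with ⟨n, D, hn, hM⟩ | ⟨n, D, hn, hM⟩ | h | h
    · refine ⟨f, g, hbad, rfl, Or.inl ?_⟩
      have h2 := hM.card (by exact_mod_cast hn)
      have h3 := card_edge_le (v0 := (n : ℤ)) (v1 := 1) (D := D) (w0 := w0) (w1 := 0)
        (by push_cast; rw [mul_zero, one_mul, zero_sub, neg_ne_zero]; exact hw0z.ne') f
      omega
    · refine ⟨f, g, hbad, rfl, Or.inl ?_⟩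
      have h2 := hM.card (by exact_mod_cast hn)
      have h3 := card_edge_le' (v0 := (n : ℤ)) (v1 := 1) (D := D) (w0 := w0) (w1 := 0)
        (by
          push_cast
          rw [zero_sub, neg_ne_zero]
          have : (0 : ℤ) < n := by exact_mod_cast hn
          exact (mul_pos this hw0z).ne') f
      omega
    · rcases cor hbad h with ⟨i, hi, hM⟩ | ⟨P, Q, hPQ, hL⟩
      · obtain ⟨f', g', hb', hW, P, Q, hPQ, hL⟩ := aut0 hbad hM w0
        exact ⟨f', g', hb', hW, Or.inr (Or.inl (cross hb' one_pos le_rfl hPQ hL))⟩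
      · exact ⟨f, g, hbad, rfl, Or.inr (Or.inl (cross hbad one_pos le_rfl hPQ hL))⟩
    · exact ⟨f, g, hbad, rfl, hsw f g hbad h⟩
  · have hw1z : (0 : ℤ) < w1 := by exact_mod_cast h1
    -- the other alternatives
    have hoth : ∀ f' g' : MvPolynomial (Fin 2) k, Bad f' g' →
        (∀ (n : ℕ) (D : ℤ), 1 ≤ n → Mul 6 n 1 D f' → (n : ℤ) * w1 ≠ w0) →
        (∀ (n : ℕ) (D : ℤ), 1 ≤ n → Mul 6 n 1 D (sw f') → (w1 : ℤ) ≠ n * w0) →
        (7 ≤ (Wts w0 w1 f').card ∨ Crs f' ∨ Crs (sw f')) := by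
      intro f' g' hb ha1 ha2
      rcases pos0 hb with ⟨n, D, hn, hM⟩ | ⟨n, D, hn, hM⟩ | h | h
      · left
        have h2 := hM.card (by exact_mod_cast hn)
        have h3 := card_edge_le (v0 := (n : ℤ)) (v1 := 1) (D := D) (w0 := w0) (w1 := w1)
          (by rw [one_mul, sub_ne_zero]; exact ha1 n D hn hM) f'
        omega
      · left
        have h2 := hM.card (by exact_mod_cast hn)
        have h3 := card_edge_le' (v0 := (n : ℤ)) (v1 := 1) (D := D) (w0 := w0) (w1 := w1)
          (by rw [one_mul, sub_ne_zero]; exact ha2 n D hn hM) f'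
        omega
      · rcases cor hb h with ⟨i, hi, hM⟩ | ⟨P, Q, hPQ, hL⟩
        · left
          have h2 := hM.card one_pos
          have h3 := card_edge_le (v0 := 1) (v1 := 0) (D := (i : ℤ)) (w0 := w0) (w1 := w1)
            (by rw [zero_mul, one_mul, sub_zero]; exact hw1z.ne') f'
          omega
        · exact Or.inr (Or.inl (cross hb one_pos le_rfl hPQ hL))
      · exact hsw f' g' hb h
    by_cases hdvd : w1 ∣ w0
    · obtain ⟨n, hn⟩ := hdvd
      have hn1 : 1 ≤ n := by
        rcases Nat.eq_zero_or_pos n with h | h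
        · rw [h, mul_zero] at hn; omega
        · exact h
      obtain ⟨f', g', hb', hW, D, htop, hcard⟩ := autn hbad hn1 w1
      rw [mul_comm n w1, ← hn] at hW
      refine ⟨f', g', hb', hW, hoth f' g' hb' ?_ ?_⟩
      · intro n' D' hn' hM heq
        have h2 : n' = n := by
          have h3 : (n' : ℤ) * w1 = n * w1 := by rw [heq, hn]; push_cast; ring
          have h4 := mul_right_cancel₀ hw1z.ne' h3
          exact_mod_cast h4
        subst h2
        have h3 := hM.card (by exact_mod_cast hn')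
        have h4 := top_unique htop hM.1
        subst h4
        omega
      · intro n' D' hn' hM heq
        have h2 : n' * n = 1 := by
          have h3 : (w1 : ℤ) * (n' * n) = w1 * 1 := by
            rw [hn] at heq
            push_cast at heq
            linarith
          have h4 := mul_left_cancel₀ hw1z.ne' h3
          exact_mod_cast h4
        have h3 : n' = 1 := Nat.eq_one_of_mul_eq_one_right h2
        have h4 : n = 1 := Nat.eq_one_of_mul_eq_one_left h2
        subst h3 h4
        have h5 := hM.card (by norm_num)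
        have h6 := card_edge_sw (v0 := ((1 : ℕ) : ℤ)) (v1 := 1) (D := D') f'
        have h7 : Top 1 1 D' f' := by
          have h8 := hM.1
          rw [Nat.cast_one] at h8
          have h9 := PsAux.top_sw h8
          have h10 : sw (sw f') = f' := by
            ext m
            rw [eq_e m, coeff_sw, coeff_sw]
          rwa [h10] at h9
        rw [Nat.cast_one] at htop hcard h6 h5
        have h11 := top_unique htop h7
        subst h11
        omega
    · refine ⟨f, g, hbad, rfl, hoth f g hbad ?_ ?_⟩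
      · intro n D hn hM heq
        apply hdvd
        refine ⟨n, ?_⟩
        have : (w0 : ℤ) = w1 * n := by linarith
        exact_mod_cast this
      · intro n D hn hM heq
        apply hdvd
        have h2 : w1 = n * w0 := by exact_mod_cast heq
        have h3 : w0 ≤ n * w0 := Nat.le_mul_of_pos_left _ hn
        have h4 : w1 = w0 := by omega
        rw [h4]

/-- the number of weights -/
theorem count {f g : MvPolynomial (Fin 2) k} (hbad : Bad f g) {w0 w1 : ℕ} (hw : w1 ≤ w0)
    (hw0 : 1 ≤ w0) : 5 ≤ (Wts w0 w1 f \ {0, w1}).card := by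
  classical
  have hw0z : (0 : ℤ) < w0 := by exact_mod_cast hw0
  obtain ⟨f', g', hb', hW, h⟩ := mainw hbad hw hw0
  rw [← hW]
  rcases h with h | h | h
  · have h1 := Finset.le_card_sdiff ({0, w1} : Finset ℕ) (Wts w0 w1 f')
    have h2 : ({0, w1} : Finset ℕ).card ≤ 2 := Finset.card_le_two
    omega
  · obtain ⟨ρ, σ, D, hσ, hσρ, hM, hall⟩ := h
    have h5 := hM.card (by omega)
    refine le_trans h5 (Finset.card_le_card_of_injOn (wt w0 w1) ?_ (inj_edge ?_))
    · intro m hm
      have hm' := Finset.mem_coe.1 hm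
      obtain ⟨h6, h7⟩ := hall m hm'
      rw [mem_edge] at hm'
      rw [Finset.mem_coe, Finset.mem_sdiff]
      refine ⟨mem_wts.2 ⟨m, hm'.1, rfl⟩, ?_⟩
      have h8 : 2 * w0 ≤ w0 * m 0 := by rw [mul_comm]; exact Nat.mul_le_mul_left _ h6
      have h9 : 2 * w0 ≤ wt w0 w1 m := le_trans h8 (Nat.le_add_right _ _)
      rw [Finset.mem_insert, Finset.mem_singleton]
      omega
    · have h6 : (0 : ℤ) < ρ := by omega
      have h7 : (0 : ℤ) < σ := by omega
      have h8 : (0 : ℤ) ≤ w1 := by positivity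
      have h9 := mul_nonneg h6.le h8
      have h10 := mul_pos h7 hw0z
      intro h11
      linarith
  · obtain ⟨ρ, σ, D, hσ, hσρ, hM, hall⟩ := h
    have h5 := hM.card (by omega)
    -- the monomials in terms of `f'`
    set E := edge (ρ : ℤ) (-(σ : ℤ)) D (sw f') with hE
    have hinj : Set.InjOn (fun m : Fin 2 →₀ ℕ => w0 * m 1 + w1 * m 0) E := by
      have h6 : (0 : ℤ) < ρ := by omega
      have h7 : (0 : ℤ) < σ := by omega
      have h8 : (0 : ℤ) ≤ w1 := by positivity
      have h12 := inj_edge (v0 := (ρ : ℤ)) (v1 := -(σ : ℤ)) (D := D) (w0 := w1) (w1 := w0)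
        (f := sw f') (by
          have h9 := mul_nonneg h7.le h8
          have h10 := mul_pos h6 hw0z
          intro h11
          linarith)
      intro a ha b hb hab
      apply h12 ha hb
      unfold wt
      simp only at hab
      omega
    have hwt : ∀ m ∈ E, coeff (e (m 1) (m 0)) f' ≠ 0 ∧
        wt w0 w1 (e (m 1) (m 0)) = w0 * m 1 + w1 * m 0 := by
      intro m hm
      have h6 := mem_edge_sw.2 hm
      rw [mem_edge] at h6
      refine ⟨h6.1, ?_⟩
      unfold wt
      rw [e_zero, e_one]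
    rcases Nat.eq_zero_or_pos w1 with hw1 | hw1
    · subst hw1
      obtain ⟨j, hj⟩ := ex_x1 hb'
      have h6 : (E.filter (fun m => m 1 ≠ 0)).card + 1 ≤ (Wts w0 0 f' \ {0, 0}).card := by
        have h7 : ((E.filter (fun m => m 1 ≠ 0)).image
            (fun m : Fin 2 →₀ ℕ => w0 * m 1 + 0 * m 0)) ∪ {w0} ⊆ Wts w0 0 f' \ {0, 0} := by
          intro d hd
          rw [Finset.mem_union, Finset.mem_image, Finset.mem_singleton] at hd
          rw [Finset.mem_sdiff, Finset.mem_insert, Finset.mem_singleton]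
          rcases hd with ⟨m, hm, rfl⟩ | rfl
          · rw [Finset.mem_filter] at hm
            obtain ⟨h8, h9⟩ := hwt m hm.1
            refine ⟨mem_wts.2 ⟨_, h8, h9⟩, ?_⟩
            have : 1 ≤ w0 * m 1 := Nat.mul_pos hw0 (Nat.pos_of_ne_zero hm.2)
            omega
          · refine ⟨mem_wts.2 ⟨_, hj, ?_⟩, by omega⟩
            unfold wt
            rw [e_zero, e_one]
            ring
        refine le_trans ?_ (Finset.card_le_card h7)
        rw [Finset.card_union_of_disjoint, Finset.card_singleton, Finset.card_image_of_injOn]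
        · intro a ha b hb hab
          have ha' := Finset.mem_filter.1 (Finset.mem_coe.1 ha)
          have hb'' := Finset.mem_filter.1 (Finset.mem_coe.1 hb)
          exact hinj (Finset.mem_coe.2 ha'.1) (Finset.mem_coe.2 hb''.1) hab
        · rw [Finset.disjoint_singleton_right, Finset.mem_image]
          rintro ⟨m, hm, hmw⟩
          rw [Finset.mem_filter] at hm
          have h8 := (hall m hm.1).2
          have h9 : w0 * m 1 = w0 * 1 := by omega
          exact h8 (Nat.eq_of_mul_eq_mul_left hw0 h9)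
      have h7 : E.card ≤ (E.filter (fun m => m 1 ≠ 0)).card + 1 := by
        have h8 := Finset.card_filter_add_card_filter_not (s := E) (fun m : Fin 2 →₀ ℕ => m 1 ≠ 0)
        have h9 : (E.filter (fun m => ¬ m 1 ≠ 0)).card ≤ 1 := by
          rw [Finset.card_le_one]
          intro a ha b hb
          rw [Finset.mem_filter, not_not] at ha hb
          exact hinj (Finset.mem_coe.2 ha.1) (Finset.mem_coe.2 hb.1) (by
            simp only [ha.2, hb.2, zero_mul])
        omega
      omega
    · refine le_trans h5 (Finset.card_le_card_of_injOn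
        (fun m : Fin 2 →₀ ℕ => w0 * m 1 + w1 * m 0) ?_ hinj)
      intro m hm
      have hm' := Finset.mem_coe.1 hm
      obtain ⟨h6, h7⟩ := hall m hm'
      obtain ⟨h8, h9⟩ := hwt m hm'
      rw [Finset.mem_coe, Finset.mem_sdiff]
      refine ⟨mem_wts.2 ⟨_, h8, h9⟩, ?_⟩
      have h10 : 2 * w1 ≤ w1 * m 0 := by rw [mul_comm]; exact Nat.mul_le_mul_left _ h6
      rw [Finset.mem_insert, Finset.mem_singleton]
      simp only
      omega

/-- multiplicities -/
theorem multi {f g : MvPolynomial (Fin 2) k} (hbad : Bad f g) :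
    (∃ w0 w1 D : ℤ, 0 < w0 ∧ Mul 4 w0 w1 D f) ∨ (∃ w0 w1 D : ℤ, 0 < w0 ∧ Mul 4 w0 w1 D (sw f)) := by
  have hC : ∀ f g : MvPolynomial (Fin 2) k, Bad f g → Cor f →
      ∃ w0 w1 D : ℤ, 0 < w0 ∧ Mul 4 w0 w1 D f := by
    intro f g hb h
    rcases cor hb h with ⟨i, hi, hM⟩ | ⟨P, Q, hPQ, hL⟩
    · exact ⟨1, 0, i, one_pos, hM.mono (by omega)⟩
    · obtain ⟨ρ, σ, D, hσ, hσρ, hM, -⟩ := cross hb one_pos le_rfl hPQ hL
      exact ⟨ρ, -σ, D, by omega, hM⟩
  rcases pos0 hbad with ⟨n, D, hn, hM⟩ | ⟨n, D, hn, hM⟩ | h | h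
  · exact Or.inl ⟨n, 1, D, by exact_mod_cast hn, hM.mono (by norm_num)⟩
  · exact Or.inr ⟨n, 1, D, by exact_mod_cast hn, hM.mono (by norm_num)⟩
  · exact Or.inl (hC f g hbad h)
  · exact Or.inr (hC _ _ (bad_sw hbad) h)

theorem cnt8 {f g : MvPolynomial (Fin 2) k} (hbad : Bad f g)
    (h : (∃ (n : ℕ) (D : ℤ), 1 ≤ n ∧ Mul 6 n 1 D f) ∨ Cor f) : 8 ≤ (f.support.erase 0).card := by
  classical
  obtain ⟨⟨c, hc, hJ⟩, hng⟩ := id hbad
  have hlin := linear_occurs hJ hc
  -- a finite set of monomials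
  have hsub : ∀ S : Finset (Fin 2 →₀ ℕ), (∀ m ∈ S, coeff m f ≠ 0 ∧ m ≠ 0) →
      S.card ≤ (f.support.erase 0).card := by
    intro S hS
    apply Finset.card_le_card
    intro m hm
    rw [Finset.mem_erase, mem_support_iff]
    exact ⟨(hS m hm).2, (hS m hm).1⟩
  have hmne : ∀ m : Fin 2 →₀ ℕ, m 0 ≠ 0 ∨ m 1 ≠ 0 → m ≠ 0 := by
    rintro m h rfl
    rcases h with h | h <;> exact h rfl
  rcases h with ⟨n, D, hn, hM⟩ | h
  · have hn0 : (0 : ℤ) < n := by exact_mod_cast hn
    have h7 := hM.card hn0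
    -- the weight is large
    obtain ⟨m8, hm8, h8⟩ : ∃ m, coeff m f ≠ 0 ∧ 8 ≤ m 0 := by
      by_contra hcon
      push Not at hcon
      have := deg8 hbad (i := 7) (fun m hm => by have := hcon m hm; omega)
      omega
    have hD : (n : ℤ) * 8 ≤ D := by
      have h1 := hM.1.1 m8 hm8
      have h2 : (n : ℤ) * 8 ≤ n * (m8 0 : ℤ) :=
        mul_le_mul_of_nonneg_left (by exact_mod_cast h8) hn0.le
      have h3 : (0 : ℤ) ≤ (m8 1 : ℤ) := by positivity
      linarith
    have hl : ∃ m : Fin 2 →₀ ℕ, coeff m f ≠ 0 ∧ m ≠ 0 ∧ m ∉ edge (n : ℤ) 1 D f := by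
      rcases hlin with hx | hy
      · refine ⟨e 1 0, hx, hmne _ (Or.inl (by simp)), ?_⟩
        rw [mem_edge, e_zero, e_one]
        rintro ⟨-, h1⟩
        push_cast at h1
        linarith
      · refine ⟨e 0 1, hy, hmne _ (Or.inr (by simp)), ?_⟩
        rw [mem_edge, e_zero, e_one]
        rintro ⟨-, h1⟩
        push_cast at h1
        linarith
    obtain ⟨l, hl1, hl2, hl3⟩ := hl
    have h9 := hsub (insert l (edge (n : ℤ) 1 D f)) (by
      intro m hm
      rw [Finset.mem_insert] at hm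
      rcases hm with rfl | hm
      · exact ⟨hl1, hl2⟩
      · rw [mem_edge] at hm
        refine ⟨hm.1, ?_⟩
        rintro rfl
        have h1 := hm.2
        simp only [Finsupp.coe_zero, Pi.zero_apply, Nat.cast_zero, mul_zero, add_zero] at h1
        linarith)
    rw [Finset.card_insert_of_notMem hl3] at h9
    omega
  · rcases cor hbad h with ⟨i, hi, hM⟩ | ⟨P, Q, hPQ, hL⟩
    · have h7 := hM.card one_pos
      have h9 := hsub (edge 1 0 (i : ℤ) f) (by
        intro m hm
        rw [mem_edge] at hm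
        refine ⟨hm.1, ?_⟩
        rintro rfl
        have h1 := hm.2
        simp only [Finsupp.coe_zero, Pi.zero_apply, Nat.cast_zero, mul_zero, add_zero] at h1
        omega)
      omega
    · obtain ⟨ρ, σ, D, hσ, hσρ, hM, hall⟩ := cross hbad one_pos le_rfl hPQ hL
      have h7 := hM.card (by omega)
      set E := edge (ρ : ℤ) (-(σ : ℤ)) D f with hE
      obtain ⟨J', hJ2, hcJ⟩ := ex_y hbad
      obtain ⟨i, hi⟩ := ex_y1 hbad
      obtain ⟨j, hj⟩ := ex_x1 hbad
      -- three further monomials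
      obtain ⟨a, b, ha, hb, hab, ha0, hb0, haE, hbE, haJ, hbJ⟩ : ∃ a b : Fin 2 →₀ ℕ,
          coeff a f ≠ 0 ∧ coeff b f ≠ 0 ∧ a ≠ b ∧ a ≠ 0 ∧ b ≠ 0 ∧ a ∉ E ∧ b ∉ E ∧
          a ≠ e 0 J' ∧ b ≠ e 0 J' := by
        have hx1 : ∀ m : Fin 2 →₀ ℕ, m 0 ≤ 1 → m ∉ E := by
          intro m hm hmE
          have := (hall m hmE).1
          omega
        have hy1 : ∀ m : Fin 2 →₀ ℕ, m 1 = 1 → m ∉ E := by
          intro m hm hmE
          exact (hall m hmE).2 hm
        rcases hlin with hx | hy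
        · refine ⟨e 1 0, e i 1, hx, hi, ?_, hmne _ (Or.inl (by simp)), hmne _ (Or.inr (by simp)),
            hx1 _ (by simp), hy1 _ (by simp), ?_, ?_⟩
          · intro h; rw [e_inj] at h; omega
          · intro h; rw [e_inj] at h; omega
          · intro h; rw [e_inj] at h; omega
        · refine ⟨e 0 1, e 1 j, hy, hj, ?_, hmne _ (Or.inr (by simp)), hmne _ (Or.inl (by simp)),
            hx1 _ (by simp), hx1 _ (by simp), ?_, ?_⟩
          · intro h; rw [e_inj] at h; omega
          · intro h; rw [e_inj] at h; omega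
          · intro h; rw [e_inj] at h; omega
      have hJE : e 0 J' ∉ E := by
        intro h
        have := (hall _ h).1
        rw [e_zero] at this
        omega
      have h9 := hsub (insert a (insert b (insert (e 0 J') E))) (by
        intro m hm
        rw [Finset.mem_insert, Finset.mem_insert, Finset.mem_insert] at hm
        rcases hm with rfl | rfl | rfl | hm
        · exact ⟨ha, ha0⟩
        · exact ⟨hb, hb0⟩
        · exact ⟨hcJ, hmne _ (Or.inr (by rw [e_one]; omega))⟩
        · have h10 := hall m hm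
          rw [hE, mem_edge] at hm
          exact ⟨hm.1, hmne _ (Or.inl (by omega))⟩)
      rw [Finset.card_insert_of_notMem, Finset.card_insert_of_notMem,
        Finset.card_insert_of_notMem hJE] at h9
      · omega
      · rw [Finset.mem_insert, not_or]
        exact ⟨hbJ, hbE⟩
      · rw [Finset.mem_insert, Finset.mem_insert, not_or, not_or]
        exact ⟨hab, haJ, haE⟩

/-- the number of monomials -/
theorem eight {f g : MvPolynomial (Fin 2) k} (hbad : Bad f g) : 8 ≤ (f.support.erase 0).card := by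
  have hsw : (((sw f).support).erase 0).card ≤ (f.support.erase 0).card := by
    refine Finset.card_le_card_of_injOn (fun m => e (m 1) (m 0)) ?_ ?_
    · intro m hm
      have hm' := Finset.mem_erase.1 (Finset.mem_coe.1 hm)
      refine Finset.mem_coe.2 (Finset.mem_erase.2 ⟨?_, ?_⟩)
      · intro h
        apply hm'.1
        rw [ext_iff']
        have h1 := DFunLike.congr_fun h 0
        have h2 := DFunLike.congr_fun h 1
        simp only [e_zero, e_one, Finsupp.coe_zero, Pi.zero_apply] at h1 h2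
        exact ⟨h2, h1⟩
      · rw [mem_support_iff, ← coeff_sw, ← eq_e]
        exact mem_support_iff.1 hm'.2
    · intro m _ m' _ h
      rw [e_inj] at h
      rw [ext_iff']
      exact ⟨h.2, h.1⟩
  rcases pos0 hbad with h | h | h | h
  · exact cnt8 hbad (Or.inl h)
  · exact le_trans (cnt8 (bad_sw hbad) (Or.inl h)) hsw
  · exact cnt8 hbad (Or.inr h)
  · exact le_trans (cnt8 (bad_sw hbad) (Or.inr h)) hsw

end

end Pool.Agent.TH207
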