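import Mathlib
import Pool.Agent.TH207.Cnt
import Pool.Agent.H928R2.ThreeMain
import Pool.Agent.H922R2.L9

/-! Descent to arbitrary fields of characteristic zero. -/

set_option autoImplicit false

open MvPolynomial Pool.Agent.W443.J5 Pool.Agent.W443.J6
open Pool.Agent.H938R2.JC hiding dh

namespace Pool.Agent.TH207

universe u

variable {k : Type u} [Field k] [CharZero k]

/-- extension of scalars -/
theorem bad_map {f g : MvPolynomial (Fin 2) k} (hbad : Bad f g) :
    Bad (map (algebraMap k (AlgebraicClosure k)) f) (map (algebraMap k (AlgebraicClosure k)) g) := by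
  obtain ⟨⟨c, hc, hJ⟩, hng⟩ := hbad
  refine ⟨⟨algebraMap k (AlgebraicClosure k) c, (map_ne_zero _).2 hc, ?_⟩, fun hg => hng ?_⟩
  · have : J (MvPolynomial.map (algebraMap k (AlgebraicClosure k)) f)
        (MvPolynomial.map (algebraMap k (AlgebraicClosure k)) g) =
        MvPolynomial.map (algebraMap k (AlgebraicClosure k)) (J f g) := by
      unfold J
      simp only [map_sub, map_mul, pderiv_map]
    rw [this, hJ, map_C]
  · exact Pool.Agent.H928R2.Three.good_descent hg

theorem support_map' (f : MvPolynomial (Fin 2) k) :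
    (map (algebraMap k (AlgebraicClosure k)) f).support = f.support :=
  support_map_of_injective f (algebraMap k (AlgebraicClosure k)).injective

/-- a map with invertible Jacobian and no inverse gives bad pairs -/
theorem inv_of {F : Fin 2 → MvPolynomial (Fin 2) k}
    (hJ : IsUnit (Matrix.of fun i j : Fin 2 => pderiv i (F j)).det)
    (h : Bad (F 0) (F 1) → Bad (F 1) (F 0) → False) :
    ∃ G : Fin 2 → MvPolynomial (Fin 2) k,
      (∀ j, aeval F (G j) = X j) ∧ (∀ j, aeval G (F j) = X j) := by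
  have hJF : IsUnit (Matrix.det (Pool.Agent.H922R2.jac F)) := by
    rw [← Matrix.det_transpose]; exact hJ
  obtain ⟨c, hc, hcJ⟩ : ∃ c : k, c ≠ 0 ∧ Pool.Agent.H938R2.JC.J (F 0) (F 1) = C c := by
    obtain ⟨hr, h⟩ := MvPolynomial.isUnit_iff_totalDegree_of_isReduced.1 hJ
    refine ⟨_, hr.ne_zero, ?_⟩
    rw [← MvPolynomial.totalDegree_eq_zero_iff_eq_C.1 h, Matrix.det_fin_two]
    simp only [Matrix.of_apply]
    unfold Pool.Agent.H938R2.JC.J
    ring
  have h1 : Algebra.adjoin k {F 0, F 1} = ⊤ := by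
    by_contra hcon
    have hng : ¬ Good (F 0) (F 1) := hcon
    refine h ⟨⟨c, hc, hcJ⟩, hng⟩ ⟨⟨-c, neg_ne_zero.2 hc, ?_⟩, fun h2 => hng h2.symm⟩
    rw [Pool.Agent.H938R2.JC.J_swap, hcJ, C_neg]
  have hr : Set.range F = {F 0, F 1} := by
    ext x
    simp only [Set.mem_range, Fin.exists_fin_two, Set.mem_insert_iff, Set.mem_singleton_iff]
    rw [eq_comm (a := F 0), eq_comm (a := F 1)]
  have htop : Algebra.adjoin k (Set.range F) = ⊤ := by rw [hr, h1]
  refine Pool.Agent.H922R2.inverse_of_top F hJF ?_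
  first
    | exact htop
    | (rw [Algebra.adjoin_range_eq_range_aeval] at htop; exact htop)

/-- the same for a component -/
theorem inv_of' {F : Fin 2 → MvPolynomial (Fin 2) k}
    (hJ : IsUnit (Matrix.of fun i j : Fin 2 => pderiv i (F j)).det) (j : Fin 2)
    (h : ∀ g, Bad (F j) g → False) :
    ∃ G : Fin 2 → MvPolynomial (Fin 2) k,
      (∀ j, aeval F (G j) = X j) ∧ (∀ j, aeval G (F j) = X j) := by
  apply inv_of hJ
  intro h0 h1
  fin_cases j
  · exact h _ h0
  · exact h _ h1

theorem wts_map (w0 w1 : ℕ) (f : MvPolynomial (Fin 2) k) :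
    Wts w0 w1 (map (algebraMap k (AlgebraicClosure k)) f) = Wts w0 w1 f := by
  unfold Wts
  rw [support_map']

theorem wts_sw (w0 w1 : ℕ) (f : MvPolynomial (Fin 2) k) : Wts w0 w1 (sw f) = Wts w1 w0 f := by
  ext d
  rw [mem_wts, mem_wts]
  constructor
  · rintro ⟨m, hm, rfl⟩
    rw [eq_e m, coeff_sw] at hm
    refine ⟨_, hm, ?_⟩
    unfold wt
    rw [e_zero, e_one, add_comm]
  · rintro ⟨m, hm, rfl⟩
    refine ⟨e (m 1) (m 0), ?_, ?_⟩
    · rw [coeff_sw, ← eq_e]; exact hm
    · unfold wt
      rw [e_zero, e_one, add_comm]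

/-- the number of weights, any order of the weights -/
theorem count' {f g : MvPolynomial (Fin 2) k} (hbad : Bad f g) {w0 w1 : ℕ} (hw : 1 ≤ w0 ∨ 1 ≤ w1) :
    5 ≤ (Wts w0 w1 f \ {0, min w0 w1}).card := by
  rcases le_total w1 w0 with h | h
  · rw [← wts_map, min_eq_right h]
    exact count (bad_map hbad) h (by omega)
  · rw [← wts_sw w1 w0, ← wts_map, min_eq_left h]
    exact count (bad_map (bad_sw hbad)) h (by omega)

/-- the number of exponents of `x` -/
theorem count_x {f g : MvPolynomial (Fin 2) k} (hbad : Bad f g) :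
    6 ≤ (f.support.image (fun m => m 0)).card := by
  have h1 := count' hbad (w0 := 1) (w1 := 0) (Or.inl le_rfl)
  have h2 : Wts 1 0 f = f.support.image (fun m => m 0) := by
    unfold Wts
    congr 1
    funext m
    unfold wt
    ring
  rw [h2] at h1
  obtain ⟨j, hj, hcj⟩ := ex_y hbad
  have h3 : insert 0 (f.support.image (fun m => m 0) \ {0, min 1 0}) ⊆
      f.support.image (fun m => m 0) := by
    intro d hd
    rw [Finset.mem_insert] at hd
    rcases hd with rfl | hd
    · rw [Finset.mem_image]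
      exact ⟨e 0 j, mem_support_iff.2 hcj, by simp⟩
    · exact (Finset.mem_sdiff.1 hd).1
  have h4 := Finset.card_le_card h3
  rw [Finset.card_insert_of_notMem] at h4
  · omega
  · rw [Finset.mem_sdiff]
    rintro ⟨-, h5⟩
    apply h5
    simp

end Pool.Agent.TH207
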