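import Mathlib
import Pool.Agent.TH207.Desc

/-! Edges, over arbitrary fields of characteristic zero. -/

set_option autoImplicit false

open MvPolynomial Pool.Agent.W443.J5 Pool.Agent.W443.J6
open Pool.Agent.H938R2.JC hiding dh

namespace Pool.Agent.TH207

universe u

variable {k : Type u} [Field k] [CharZero k]

theorem edge_eq0 (w0 w1 d : ℤ) (f : MvPolynomial (Fin 2) k) :
    dh w0 w1 d (map (algebraMap k (AlgebraicClosure k)) f) =
      ∑ m ∈ f.support.filter (fun m => w0 * (m 0 : ℤ) + w1 * (m 1 : ℤ) = d),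
        Polynomial.monomial (m 1) (algebraMap k (AlgebraicClosure k) (coeff m f)) := by
  ext j
  rw [Pool.Agent.W22.J6ED.coeff_dh, support_map', Polynomial.finsetSum_coeff]
  refine Finset.sum_congr rfl fun m _ => ?_
  rw [Polynomial.coeff_monomial, coeff_map]
  by_cases h : j = m 1
  · rw [if_pos h, if_pos h.symm]
  · rw [if_neg h, if_neg (Ne.symm h)]

theorem edge_eq1 (w0 w1 d : ℤ) (f : MvPolynomial (Fin 2) k) :
    dh w1 w0 d (sw (map (algebraMap k (AlgebraicClosure k)) f)) =
      ∑ m ∈ f.support.filter (fun m => w0 * (m 0 : ℤ) + w1 * (m 1 : ℤ) = d),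
        Polynomial.monomial (m 0) (algebraMap k (AlgebraicClosure k) (coeff m f)) := by
  ext j
  rw [Pool.Agent.W22.J6ED.coeff_dh, Polynomial.finsetSum_coeff]
  refine Finset.sum_bij' (fun m _ => e (m 1) (m 0)) (fun m _ => e (m 1) (m 0)) ?_ ?_ ?_ ?_ ?_
  · intro m hm
    rw [Finset.mem_filter, mem_support_iff, eq_e m, coeff_sw, e_zero, e_one] at hm
    rw [Finset.mem_filter, e_zero, e_one, ← support_map', mem_support_iff]
    exact ⟨hm.1, by linarith [hm.2]⟩
  · intro m hm
    rw [Finset.mem_filter, ← support_map', mem_support_iff] at hm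
    rw [Finset.mem_filter, mem_support_iff, coeff_sw, e_zero, e_one, ← eq_e]
    exact ⟨hm.1, by linarith [hm.2]⟩
  · intro m _
    rw [ext_iff']; simp
  · intro m _
    rw [ext_iff']; simp
  · intro m _
    rw [Polynomial.coeff_monomial, e_zero]
    have h1 : coeff m (sw (map (algebraMap k (AlgebraicClosure k)) f)) =
        algebraMap k (AlgebraicClosure k) (coeff (e (m 1) (m 0)) f) := by
      conv_lhs => rw [eq_e m]
      rw [coeff_sw, coeff_map]
    rw [h1]
    by_cases h : j = m 1
    · rw [if_pos h, if_pos h.symm]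
    · rw [if_neg h, if_neg (Ne.symm h)]

theorem multi' {f g : MvPolynomial (Fin 2) k} (hbad : Bad f g)
    (h : ∀ (i : Fin 2) (w : Fin 2 → ℤ) (d : ℤ), 0 < w i →
      (∀ m ∈ f.support, w 0 * (m 0 : ℤ) + w 1 * (m 1 : ℤ) ≤ d) →
      ∀ y : AlgebraicClosure k, y ≠ 0 →
      (∑ m ∈ f.support.filter (fun m => w 0 * (m 0 : ℤ) + w 1 * (m 1 : ℤ) = d),
        Polynomial.monomial (m (1 - i))
          (algebraMap k (AlgebraicClosure k) (coeff m f))).rootMultiplicity y ≤ 3) : False := by
  rcases multi (bad_map hbad) with ⟨w0, w1, D, hw, ⟨hle, -⟩, y, hy, hM⟩ |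
    ⟨w0, w1, D, hw, ⟨hle, -⟩, y, hy, hM⟩
  · have h1 := h 0 ![w0, w1] D hw (by
      intro m hm
      rw [← support_map', mem_support_iff] at hm
      exact hle m hm) y hy
    rw [edge_eq0] at hM
    exact absurd (le_trans hM h1) (by norm_num)
  · have h1 := h 1 ![w1, w0] D hw (by
      intro m hm
      rw [← support_map', mem_support_iff] at hm
      have h2 := hle (e (m 1) (m 0)) (by rw [coeff_sw, ← eq_e]; exact hm)
      rw [e_zero, e_one] at h2
      simp only [Matrix.cons_val_zero, Matrix.cons_val_one]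
      linarith) y hy
    rw [edge_eq1 w1 w0] at hM
    exact absurd (le_trans hM h1) (by norm_num)

end Pool.Agent.TH207
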