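import Pool.Agent.TH207.Sa

/-! Leading polynomials of plane polynomials. -/

set_option autoImplicit false
set_option linter.unusedSectionVars false
set_option linter.unusedSimpArgs false

namespace Pool.Agent.TH207.Ser

open MvPolynomial

variable {k : Type*} [Field k] [CharZero k]

/-- the leading polynomial in the direction `(1, M)` -/
noncomputable def tp (D M : ℕ) (F : MvPolynomial (Fin 2) k) : Polynomial k :=
  (N 1 0 (W D M F)).coeff 0

theorem tp_of {D M : ℕ} {F : MvPolynomial (Fin 2) k} (hF : Le D M F) {m : Fin 2 →₀ ℕ}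
    (hm : coeff m F ≠ 0) (h : m 0 + M * m 1 = D) : (tp D M F).coeff (m 1) = coeff m F := by
  have h1 := coeff_W hF m hm
  rw [h, Nat.sub_self] at h1
  have h2 := coeff_N_of one_pos (W D M F) (ee 0 (m 1)) (σ := 0)
  rw [ee_zero, ee_one, h1, mul_zero, zero_mul, add_zero] at h2
  exact h2

theorem of_tp {D M : ℕ} {F : MvPolynomial (Fin 2) k} (hF : Le D M F) {j : ℕ}
    (h : (tp D M F).coeff j ≠ 0) : ∃ m, coeff m F ≠ 0 ∧ m 1 = j ∧ m 0 + M * m 1 = D := by
  obtain ⟨m', h1, h2, h3⟩ := exists_of_coeff_N h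
  obtain ⟨m, g1, g2, g3⟩ := exists_of_coeff_W h1
  have := hF m g1
  exact ⟨m, g1, by omega, by omega⟩

theorem tp_ne_zero {D M : ℕ} {F : MvPolynomial (Fin 2) k} (hF : Le D M F) {m : Fin 2 →₀ ℕ}
    (hm : coeff m F ≠ 0) (h : m 0 + M * m 1 = D) : tp D M F ≠ 0 := by
  intro h0
  have := tp_of hF hm h
  rw [h0, Polynomial.coeff_zero] at this
  exact hm this.symm

theorem tp_prop [IsAlgClosed k] {D d M : ℕ} {F G : MvPolynomial (Fin 2) k} (hF : Le D M F) (hG : Le d M G)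
    (hD : M ≤ D) (hd : M ≤ d) (hl : M + 1 < D + d) (hD0 : 0 < D) {c : k} (hc : c ≠ 0)
    (h : pderiv 0 F * pderiv 1 G - pderiv 1 F * pderiv 0 G = C c) (hf0 : tp D M F ≠ 0) :
    (D : Polynomial k) * tp D M F * Polynomial.derivative (tp d M G) =
      (d : Polynomial k) * Polynomial.derivative (tp D M F) * tp d M G := by
  have hB := Bk_W hF hG hD hd (by omega) h
  have hF' : ∀ m, coeff m (W D M F) ≠ 0 → 0 ≤ 1 * m 0 + 0 * m 1 := fun m _ => Nat.zero_le _
  have hG' : ∀ m, coeff m (W d M G) ≠ 0 → 0 ≤ 1 * m 0 + 0 * m 1 := fun m _ => Nat.zero_le _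
  obtain ⟨_, _, hp⟩ := conj (ρ := 1) (σ := 0) one_pos hc hB hF' hG' hf0
    (D2 := D) (K := M + 1) (by push_cast; ring) hD0 (by
      have h1 : ((D + d - (M + 1) : ℕ) : ℤ) = (D : ℤ) + d - (M + 1) := by
        rw [Nat.cast_sub (by omega)]; push_cast; ring
      rw [h1]; push_cast; ring)
  have hp := hp (by omega)
  push_cast at hp
  unfold tp
  linear_combination hp

/-- degrees of the leading polynomials -/
theorem tp_degs {D d : ℕ} (hD : 0 < D) (hd : 0 < d) {f g : Polynomial k} (hf : f ≠ 0) (hg : g ≠ 0)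
    (h : (D : Polynomial k) * f * Polynomial.derivative g =
      (d : Polynomial k) * Polynomial.derivative f * g) :
    D * g.natDegree = d * f.natDegree := degs hD hd hf hg h

theorem shf_support {r : k} {F : MvPolynomial (Fin 2) k} {D : ℕ}
    (hF : ∀ m, coeff m F ≠ 0 → m 0 ≤ D) : ∀ m, coeff m (shf 1 0 r F) ≠ 0 → m 0 ≤ D := by
  intro m hm
  have h1 : shf 1 0 r F = ∑ m ∈ F.support, C (coeff m F) * X 0 ^ (m 0) * (X 1 + C r) ^ (m 1) := by
    conv_lhs => rw [F.as_sum, map_sum]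
    apply Finset.sum_congr rfl
    intro m' _
    have h : (monomial m' (coeff m' F) : MvPolynomial (Fin 2) k) =
        C (coeff m' F) * X 0 ^ m' 0 * X 1 ^ m' 1 := by
      rw [monomial_eq, Finsupp.prod_fintype _ _ (fun i => pow_zero _), Fin.prod_univ_two, mul_assoc]
    rw [h, map_mul, map_mul, map_pow, map_pow, shf_C, shf_X0, shf_X1, pow_one, pow_zero, mul_one]
  rw [h1, coeff_sum] at hm
  obtain ⟨m', hm', h2⟩ := Finset.exists_ne_zero_of_sum_ne_zero hm
  have h3 := hF m' (mem_support_iff.1 hm')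
  have h4 : m 0 ≤ degreeOf (0 : Fin 2) (C (coeff m' F) * X 0 ^ (m' 0) * (X 1 + C r) ^ (m' 1)) :=
    monomial_le_degreeOf (0 : Fin 2) (mem_support_iff.2 h2)
  refine h4.trans ?_
  refine (degreeOf_mul_le _ _ _).trans ?_
  have h5 : degreeOf (0 : Fin 2) (C (coeff m' F) * X 0 ^ (m' 0) : MvPolynomial (Fin 2) k) ≤ m' 0 := by
    refine (degreeOf_mul_le _ _ _).trans ?_
    rw [degreeOf_C, zero_add]
    refine (degreeOf_pow_le _ _ _).trans ?_
    rw [degreeOf_X]; simp
  have h6 : degreeOf (0 : Fin 2) ((X 1 + C r : MvPolynomial (Fin 2) k) ^ (m' 1)) ≤ 0 := by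
    refine (degreeOf_pow_le _ _ _).trans ?_
    have : degreeOf (0 : Fin 2) (X 1 + C r : MvPolynomial (Fin 2) k) ≤ 0 := by
      refine (degreeOf_add_le _ _ _).trans ?_
      rw [degreeOf_C, degreeOf_X]; simp
    have : degreeOf (0 : Fin 2) (X 1 + C r : MvPolynomial (Fin 2) k) = 0 := by omega
    rw [this]; simp
  omega

/-- The main consequence of the local theory in the direction `(1, 0)`. -/
theorem main0 [IsAlgClosed k] {a b : ℕ} (ha : 2 ≤ a) (hb : 1 ≤ b) (hcop : Nat.Coprime a b)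
    {p : ℕ} (hp : 0 < p) {c : k} (hc : c ≠ 0) {F G : MvPolynomial (Fin 2) k}
    (hF : Le (a * p) 0 F) (hG : Le (b * p) 0 G)
    (h : pderiv 0 F * pderiv 1 G - pderiv 1 F * pderiv 0 G = C c)
    (hf0 : tp (a * p) 0 F ≠ 0) (hg0 : tp (b * p) 0 G ≠ 0) :
    ∃ q, (tp (a * p) 0 F).natDegree = a * q ∧ (tp (b * p) 0 G).natDegree = b * q ∧ p ≠ q ∧
      (p < q → (a + b : ℤ) ≤ a * ((p : ℤ) ^ 2 - 3 * p + 1) ∧
        (a + b : ℤ) ≤ a * ((q : ℤ) - p - 1)) := by
  have h1 : 2 * 1 ≤ a * p := Nat.mul_le_mul ha hp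
  have h2 : 1 * 1 ≤ b * p := Nat.mul_le_mul hb hp
  have hB := Bk_W hF hG (Nat.zero_le _) (Nat.zero_le _) (by omega) h
  obtain ⟨q, e1, e2, e3, _, e5⟩ := start ha hb hcop (A := p) (l := 1) (e := a * p + b * p - 1)
    hc (by simpa using hB) (by rw [add_mul]; omega) (by omega) hp one_pos hf0 hg0
  refine ⟨q, e1, e2, by rwa [mul_one] at e3, fun hlt => ?_⟩
  obtain ⟨r, μ, g1, g2, _, S⟩ := e5 (by rwa [mul_one])
  have h3 : ∀ m, coeff m (W (a * p) 0 F) ≠ 0 → m 0 ≤ a * p := by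
    intro m hm
    obtain ⟨m', _, h4, _⟩ := exists_of_coeff_W hm
    omega
  have h4 : ∀ m, coeff m (W (b * p) 0 G) ≠ 0 → m 0 ≤ b * p := by
    intro m hm
    obtain ⟨m', _, h4, _⟩ := exists_of_coeff_W hm
    omega
  have h5 := shf_support (r := r) h3
  have h6 := shf_support (r := r) h4
  have h7 := level_one ha hb hcop (D := ((a * p : ℕ) : ℤ)) (d := ((b * p : ℕ) : ℤ))
    (e := a * p + b * p - 1) (by
      rw [Nat.cast_sub (by omega)]; push_cast; ring)
    (fun m hm => by exact_mod_cast h5 m hm) (fun m hm => by exact_mod_cast h6 m hm) μ le_rfl S (by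
      have : p < μ := by omega
      exact_mod_cast this)
  refine ⟨h7.1, h7.2.trans ?_⟩
  apply mul_le_mul_of_nonneg_left _ (by positivity)
  have : (μ : ℤ) ≤ q := by exact_mod_cast g2
  linarith

end Pool.Agent.TH207.Ser
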