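import Mathlib
import Pool.Agent.TH207.Desc
import Pool.Agent.TH207.To

/-! The corner of a reduced pair. -/

set_option autoImplicit false
set_option linter.unusedSectionVars false

open MvPolynomial Pool.Agent.W443.J5 Pool.Agent.W443.J6
open Pool.Agent.H938R2.JC hiding dh

namespace Pool.Agent.TH207

universe u

section

variable {k : Type u} [Field k]

theorem top_iff_wts {w0 w1 : ℕ} {D : ℤ} {f : MvPolynomial (Fin 2) k} :
    Top w0 w1 D f ↔ (∀ d ∈ Wts w0 w1 f, (d : ℤ) ≤ D) ∧ ∃ d ∈ Wts w0 w1 f, (d : ℤ) = D := by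
  constructor
  · rintro ⟨h1, m, hm, hmD⟩
    refine ⟨fun d hd => ?_, wt w0 w1 m, mem_wts.2 ⟨m, hm, rfl⟩, by rw [← wt_cast]; exact hmD⟩
    obtain ⟨m', hm', rfl⟩ := mem_wts.1 hd
    rw [← wt_cast]; exact h1 m' hm'
  · rintro ⟨h1, d, hd, hdD⟩
    refine ⟨fun m hm => ?_, ?_⟩
    · rw [wt_cast]; exact h1 _ (mem_wts.2 ⟨m, hm, rfl⟩)
    · obtain ⟨m, hm, rfl⟩ := mem_wts.1 hd
      exact ⟨m, hm, by rw [wt_cast]; exact hdD⟩

theorem top_aeval {s s' : Fin 2 → MvPolynomial (Fin 2) k} {w0 w1 : ℕ} (h0 : WH w0 w1 w0 (s 0))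
    (h1 : WH w0 w1 w1 (s 1)) (h0' : WH w0 w1 w0 (s' 0)) (h1' : WH w0 w1 w1 (s' 1))
    (hs's : ∀ l, aeval s' (s l) = X l) {D : ℤ} {f : MvPolynomial (Fin 2) k}
    (h : Top w0 w1 D f) : Top w0 w1 D (aeval s f) := by
  rw [top_iff_wts, wts_eq h0 h1 h0' h1' hs's f]
  exact top_iff_wts.1 h

theorem top_sw {w0 w1 D : ℤ} {f : MvPolynomial (Fin 2) k} (h : Top w0 w1 D f) :
    Top w1 w0 D (sw f) := by
  constructor
  · intro m hm
    rw [eq_e m, coeff_sw] at hm
    have h1 := h.1 _ hm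
    rw [e_zero, e_one] at h1
    linarith
  · obtain ⟨m, hm, hmd⟩ := h.2
    refine ⟨e (m 1) (m 0), ?_, ?_⟩
    · rw [coeff_sw, ← eq_e]
      exact hm
    · rw [e_zero, e_one]
      linarith

variable [CharZero k]

theorem sim_aeval {a b : ℕ} (ha : 2 ≤ a) (hb : 2 ≤ b) (hab : Nat.Coprime a b)
    {s s' : Fin 2 → MvPolynomial (Fin 2) k} {w0 w1 : ℕ} (hw : 0 < w0 ∨ 0 < w1)
    (h0 : WH w0 w1 w0 (s 0))
    (h1 : WH w0 w1 w1 (s 1)) (h0' : WH w0 w1 w0 (s' 0)) (h1' : WH w0 w1 w1 (s' 1))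
    (hss' : ∀ l, aeval s (s' l) = X l)
    (hs's : ∀ l, aeval s' (s l) = X l) {f g : MvPolynomial (Fin 2) k} (hbad : Bad f g)
    (hs : Sim a b f g) :
    Bad (aeval s f) (aeval s g) ∧ Sim a b (aeval s f) (aeval s g) ∧
      Sim b a (aeval s g) (aeval s f) := by
  have hbad' := bad_aeval hss' hs's hbad
  obtain ⟨D, htop⟩ := ex_top (w0 : ℤ) w1 (bad_ne hbad)
  have hw' : (0 : ℤ) < w0 ∨ (0 : ℤ) < w1 := by
    rcases hw with h | h
    · left; exact_mod_cast h
    · right; exact_mod_cast h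
  obtain ⟨n, hn, hD, htg⟩ := hs.1 w0 w1 D hw' htop
  have t1 := top_aeval h0 h1 h0' h1' hs's htop
  have t2 := top_aeval h0 h1 h0' h1' hs's htg
  rw [hD] at t1
  exact ⟨hbad', Asm.sim k _ _ hbad' a b (by omega) (by omega) hab w0 w1 n hw' t1 t2⟩

theorem sim_sw {a b : ℕ} (ha : 2 ≤ a) (hb : 2 ≤ b) (hab : Nat.Coprime a b)
    {f g : MvPolynomial (Fin 2) k} (hbad : Bad f g)
    (hs : Sim a b f g) :
    Bad (sw f) (sw g) ∧ Sim a b (sw f) (sw g) ∧ Sim b a (sw g) (sw f) := by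
  obtain ⟨D, htop⟩ := ex_top 1 1 (bad_ne hbad)
  obtain ⟨n, hn, hD, htg⟩ := hs.1 1 1 D (Or.inl one_pos) htop
  have t1 := top_sw htop
  have t2 := top_sw htg
  rw [hD] at t1
  exact ⟨bad_sw hbad, Asm.sim k _ _ (bad_sw hbad) a b (by omega) (by omega) hab 1 1 n
    (Or.inl one_pos) t1 t2⟩

variable [IsAlgClosed k]

/-- the leading form becomes a monomial -/
theorem aut1 {a b : ℕ} (ha : 2 ≤ a) (hb : 2 ≤ b) (hab : Nat.Coprime a b)
    {f g : MvPolynomial (Fin 2) k} (hbad : Bad f g) (hs : Sim a b f g) (hs' : Sim b a g f) {K : ℕ}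
    (htop : Top 1 1 ((a : ℤ) * K) f) :
    ∃ (f' g' : MvPolynomial (Fin 2) k) (p q : ℕ), Bad f' g' ∧ Sim a b f' g' ∧ Sim b a g' f' ∧
      p + q = K ∧ Low 1 1 (a * p) (a * q) f' ∧ Upp 1 1 (a * p) (a * q) f' := by
  -- from a pair whose top form has one monomial
  have fin : ∀ f' g' : MvPolynomial (Fin 2) k, Bad f' g' → Sim a b f' g' → Sim b a g' f' →
      Top 1 1 ((a : ℤ) * K) f' → (∀ m m', coeff m f' ≠ 0 → coeff m' f' ≠ 0 →
        (1 : ℤ) * (m 0 : ℤ) + 1 * (m 1 : ℤ) = a * K →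
        (1 : ℤ) * (m' 0 : ℤ) + 1 * (m' 1 : ℤ) = a * K → m = m') →
      ∃ (f' g' : MvPolynomial (Fin 2) k) (p q : ℕ), Bad f' g' ∧ Sim a b f' g' ∧ Sim b a g' f' ∧
      p + q = K ∧ Low 1 1 (a * p) (a * q) f' ∧ Upp 1 1 (a * p) (a * q) f' := by
    intro f' g' hb' s1 s2 ht hu
    obtain ⟨P, Q, hPQ, hL⟩ := ex_low ht
    obtain ⟨p, q, rfl, rfl, _⟩ := s1.2.1 1 1 one_pos P Q hL
    refine ⟨f', g', p, q, hb', s1, s2, ?_, hL, hL.1, ?_⟩
    · push_cast at hPQ
      have ha0 : (a : ℤ) ≠ 0 := by positivity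
      have : (a : ℤ) * (p + q) = a * K := by linarith
      have := mul_left_cancel₀ ha0 this
      exact_mod_cast this
    · intro m hm
      rcases lt_or_eq_of_le (ht.1 m hm) with h | h
      · left; rw [hPQ]; exact h
      · right
        have := hu m _ hm hL.1 h (by rw [e_zero, e_one]; exact hPQ)
        rw [this, e_one, e_zero]
        exact ⟨rfl, le_rfl⟩
  set D : ℤ := (a : ℤ) * K with hD
  by_cases hdeg : 0 < (dh (1 : ℤ) 1 D f).natDegree
  · obtain ⟨P, Q, hDU, hU⟩ := ex_upp htop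
    have hD0 : 0 < D := Pool.Agent.W216.J6.Bad.pos hbad 1 1 D (Or.inl one_pos) htop
    obtain ⟨φ, hφ⟩ := ex_od hbad (w0 := 1) (w1 := 1) one_pos (by norm_num) hD0 htop hdeg
    have hAne : part (1 : ℤ) 1 D f ≠ 0 := by
      intro h0
      have h1 := PsAux.part_mem (w0 := (1 : ℤ)) (w1 := 1) (d := D) (by rw [e_zero, e_one, hDU]) hU.1
      rw [h0, coeff_zero] at h1
      exact h1 rfl
    obtain ⟨κ, a1, b1, a2, b2, i, j, hκ, hΔ, hA⟩ := Pool.Agent.W605.J6.cl4 k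
      (part (1 : ℤ) 1 D f) φ D hD0 hAne
      (fun r hr => by have := PsAux.part_wt hr; linarith)
      (by
        have h5 := hφ
        rw [show (1 : ℤ) + 1 = 2 by norm_num] at h5
        exact h5)
    set δ : k := (a1 * b2 - a2 * b1)⁻¹ with hδ
    have hd : (C a1 * C b2 - C a2 * C b1) * C δ = (1 : MvPolynomial (Fin 2) k) := by
      rw [← C_mul, ← C_mul, ← C_sub, ← C_mul, hδ, mul_inv_cancel₀ hΔ, C_1]
    have hs0 : C a1 * (C (b2 * δ) * X 0 + C (-(b1 * δ)) * X 1) +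
        C b1 * (C (-(a2 * δ)) * X 0 + C (a1 * δ) * X 1) = (X 0 : MvPolynomial (Fin 2) k) := by
      simp only [C_mul, C_neg]
      linear_combination (X 0) * hd
    have hs1 : C a2 * (C (b2 * δ) * X 0 + C (-(b1 * δ)) * X 1) +
        C b2 * (C (-(a2 * δ)) * X 0 + C (a1 * δ) * X 1) = (X 1 : MvPolynomial (Fin 2) k) := by
      simp only [C_mul, C_neg]
      linear_combination (X 1) * hd
    have hs2 : C (b2 * δ) * (C a1 * X 0 + C b1 * X 1) +
        C (-(b1 * δ)) * (C a2 * X 0 + C b2 * X 1) = (X 0 : MvPolynomial (Fin 2) k) := by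
      simp only [C_mul, C_neg]
      linear_combination (X 0) * hd
    have hs3 : C (-(a2 * δ)) * (C a1 * X 0 + C b1 * X 1) +
        C (a1 * δ) * (C a2 * X 0 + C b2 * X 1) = (X 1 : MvPolynomial (Fin 2) k) := by
      simp only [C_mul, C_neg]
      linear_combination (X 1) * hd
    have hlin : ∀ α β : k, WH 1 1 1 (C α * X 0 + C β * X 1 : MvPolynomial (Fin 2) k) := by
      intro α β r hr
      have := PsAux.coeff_lin hr
      unfold wt
      omega
    set s : Fin 2 → MvPolynomial (Fin 2) k :=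
      ![C (b2 * δ) * X 0 + C (-(b1 * δ)) * X 1, C (-(a2 * δ)) * X 0 + C (a1 * δ) * X 1] with hsdef
    set s' : Fin 2 → MvPolynomial (Fin 2) k :=
      ![C a1 * X 0 + C b1 * X 1, C a2 * X 0 + C b2 * X 1] with hsdef'
    have q1 : ∀ l, aeval s (s' l) = X l := by
      intro l
      fin_cases l
      · simpa [hsdef, hsdef', algebraMap_eq] using hs0
      · simpa [hsdef, hsdef', algebraMap_eq] using hs1
    have q2 : ∀ l, aeval s' (s l) = X l := by
      intro l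
      fin_cases l
      · simpa [hsdef, hsdef', algebraMap_eq] using hs2
      · simpa [hsdef, hsdef', algebraMap_eq] using hs3
    have w1 : WH 1 1 1 (s 0) := hlin _ _
    have w2 : WH 1 1 1 (s 1) := hlin _ _
    have w3 : WH 1 1 1 (s' 0) := hlin _ _
    have w4 : WH 1 1 1 (s' 1) := hlin _ _
    have hA' : aeval s (part (1 : ℤ) 1 D f) = C κ * X 0 ^ i * X 1 ^ j := by
      rw [hA]
      have e4 : ∀ s : Fin 2 → MvPolynomial (Fin 2) k,
          aeval s (C κ * (C a1 * X 0 + C b1 * X 1) ^ i * (C a2 * X 0 + C b2 * X 1) ^ j :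
            MvPolynomial (Fin 2) k) =
            C κ * (C a1 * s 0 + C b1 * s 1) ^ i * (C a2 * s 0 + C b2 * s 1) ^ j := by
        intro s
        simp only [map_mul, map_pow, map_add, algHom_C, aeval_X, algebraMap_eq]
      rw [e4]
      simp only [hsdef, Matrix.cons_val_zero, Matrix.cons_val_one]
      rw [hs0, hs1]
    obtain ⟨r1, r2, r3⟩ := sim_aeval ha hb hab (Or.inl one_pos) w1 w2 w3 w4 q1 q2 hbad hs
    have htop' : Top ((1 : ℕ) : ℤ) ((1 : ℕ) : ℤ) D f := by push_cast; exact htop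
    have t1 := top_aeval w1 w2 w3 w4 q2 htop'
    push_cast at t1
    refine fin _ _ r1 r2 r3 t1 ?_
    have hp := part_aeval w1 w2 D f
    push_cast at hp
    rw [hA'] at hp
    have hmono : (C κ * X 0 ^ i * X 1 ^ j : MvPolynomial (Fin 2) k) = monomial (e i j) κ := by
      rw [mul_assoc, X_pow_eq_monomial, X_pow_eq_monomial, monomial_mul, C_mul_monomial]
      simp [e]
    rw [hmono] at hp
    have hc : ∀ m, coeff m (aeval s f) ≠ 0 → (1 : ℤ) * (m 0 : ℤ) + 1 * (m 1 : ℤ) = D →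
        m = e i j := by
      intro m hm hmD
      have h2 := PsAux.part_mem hmD hm
      rw [hp, coeff_monomial] at h2
      by_contra hne
      exact h2 (if_neg fun h => hne h.symm)
    intro m m' hm hm' hmD hmD'
    rw [hc m hm hmD, hc m' hm' hmD']
  · refine fin f g hbad hs hs' htop ?_
    have hz : ∀ m, coeff m f ≠ 0 → (1 : ℤ) * (m 0 : ℤ) + 1 * (m 1 : ℤ) = D → m 1 = 0 := by
      intro m hm hmD
      by_contra hne
      exact hdeg (PsAux.dh_pos one_ne_zero hm hmD (by omega))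
    intro m m' hm hm' hmD hmD'
    have h1 := hz m hm hmD
    have h2 := hz m' hm' hmD'
    rw [h1] at hmD
    rw [h2] at hmD'
    rw [ext_iff', h1, h2]
    refine ⟨?_, rfl⟩
    push_cast at hmD hmD'
    have : (m 0 : ℤ) = m' 0 := by linarith
    exact_mod_cast this

end

end Pool.Agent.TH207
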