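import Mathlib
import Pool.Agent.TH207.Tot

/-! The bound for the ratio of the degrees. -/

set_option autoImplicit false
set_option linter.unusedSectionVars false

open MvPolynomial Pool.Agent.W443.J5 Pool.Agent.W443.J6
open Pool.Agent.H938R2.JC hiding dh

namespace Pool.Agent.TH207

universe u

section

variable {k : Type u} [Field k] [CharZero k] [IsAlgClosed k]

theorem lower {a b : ℕ} (ha : 2 ≤ a) (hb : 2 ≤ b) (hab : Nat.Coprime a b)
    {f g : MvPolynomial (Fin 2) k} (hbad : Bad f g) (hs : Sim a b f g) {K : ℕ}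
    (hL : Low 1 1 0 (a * K) f) (hT : Top 1 1 ((a : ℤ) * K) f) :
    ∃ (f' g' : MvPolynomial (Fin 2) k) (K' : ℕ), K' < K ∧ Bad f' g' ∧ Sim a b f' g' ∧
      Sim b a g' f' ∧ Top 1 1 ((a : ℤ) * K') f' := by
  have hL' : Low ((1 : ℕ) : ℤ) 1 0 (a * K) f := by rw [Nat.cast_one]; exact hL
  obtain ⟨I, hI, hcI⟩ := ex_x hbad
  have hD0 := Pool.Agent.W216.J6.Bad.pos hbad 1 1 _ (Or.inl one_pos) hT
  have hK0 : 0 < a * K := by exact_mod_cast hD0
  rcases nxt hbad le_rfl hL' ⟨e I 0, hcI, by rw [e_one]; exact hK0⟩ with h |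
    ⟨-, n', P', Q', hn', hP', hlow, κ, c, hκ, hc, hp⟩
  · exfalso
    have := h _ hcI
    rw [e_zero] at this
    omega
  set D : ℤ := (n' : ℤ) * (P' : ℤ) + 1 * (Q' : ℤ) with hD
  have hDaK : D = a * K := by
    apply le_antisymm
    · have h1 : coeff (e 0 (Q' + n' * P')) (part (n' : ℤ) 1 D f) ≠ 0 := by
        rw [hp, shape_bot κ c n' P' Q' (by omega)]
        exact mul_ne_zero hκ (pow_ne_zero _ hc)
      have h2 := hT.1 _ (PsAux.part_ne h1)
      rw [e_zero, e_one] at h2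
      push_cast at h2
      rw [hD]; linarith
    · have h2 := (top_of_low hlow).1 _ hL.1
      rw [e_zero, e_one] at h2
      push_cast at h2
      rw [hD]; linarith
  have hsh : ∀ c : k, WH n' 1 n' (X 0 + C c * X 1 ^ n' : MvPolynomial (Fin 2) k) := by
    intro c
    refine (WH.X0 n' 1).add ?_
    have := (WH.C n' 1 c).mul ((WH.X1 (k := k) n' 1).pow n')
    rw [zero_add, mul_one] at this
    exact this
  set s : Fin 2 → MvPolynomial (Fin 2) k := ![X 0 + C (-c) * X 1 ^ n', X 1] with hsdef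
  set s' : Fin 2 → MvPolynomial (Fin 2) k := ![X 0 + C c * X 1 ^ n', X 1] with hsdef'
  have q1 : ∀ l, aeval s (s' l) = X l := by
    intro l
    fin_cases l
    · simp [hsdef, hsdef']
    · simp [hsdef, hsdef']
  have q2 : ∀ l, aeval s' (s l) = X l := by
    intro l
    fin_cases l
    · simp [hsdef, hsdef']
    · simp [hsdef, hsdef']
  have w1 : WH n' 1 n' (s 0) := hsh _
  have w2 : WH n' 1 1 (s 1) := WH.X1 _ _
  have w3 : WH n' 1 n' (s' 0) := hsh _
  have w4 : WH n' 1 1 (s' 1) := WH.X1 _ _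
  obtain ⟨r1, r2, r3⟩ := sim_aeval ha hb hab (Or.inr one_pos) w1 w2 w3 w4 q1 q2 hbad hs
  have hA' : aeval s (part (n' : ℤ) 1 D f) = monomial (e P' Q') κ := by
    rw [hp]
    have hmono : (C κ * X 0 ^ P' * X 1 ^ Q' : MvPolynomial (Fin 2) k) =
        monomial (e P' Q') κ := by
      rw [mul_assoc, X_pow_eq_monomial, X_pow_eq_monomial, monomial_mul, C_mul_monomial]
      simp [e]
    rw [← hmono]
    simp [hsdef]
    ring
  have hp2 := part_aeval w1 w2 D f
  push_cast at hp2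
  rw [hA'] at hp2
  have htf : Top (n' : ℤ) ((1 : ℕ) : ℤ) D f := by
    push_cast
    exact top_of_low hlow
  have t1 := top_aeval w1 w2 w3 w4 q2 htf
  push_cast at t1
  obtain ⟨D2, hT2⟩ := ex_top 1 1 (bad_ne r1)
  obtain ⟨K2, hK2, hD2, _⟩ := r2.1 1 1 D2 (Or.inl one_pos) hT2
  obtain ⟨K', rfl⟩ := Int.eq_ofNat_of_zero_le hK2.le
  refine ⟨aeval s f, aeval s g, K', ?_, r1, r2, r3, by rw [← hD2]; exact hT2⟩
  have haz : (0 : ℤ) < a := by positivity
  have hlt : D2 < a * K := by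
    by_contra hcon
    push Not at hcon
    obtain ⟨m, hm, hmD⟩ := hT2.2
    have h1 := t1.1 m hm
    have hn'z : (1 : ℤ) < n' := by exact_mod_cast hn'
    have hm0 : m 0 = 0 := by
      by_contra h0
      have h2 : (0 : ℤ) < m 0 := by exact_mod_cast Nat.pos_of_ne_zero h0
      have h3 : (0 : ℤ) < ((n' : ℤ) - 1) * m 0 := mul_pos (by linarith) h2
      linarith
    have h4 : (n' : ℤ) * (m 0 : ℤ) + 1 * (m 1 : ℤ) = D := by
      rw [hm0] at hmD ⊢
      push_cast at hmD ⊢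
      rw [hm0] at h1
      push_cast at h1
      linarith
    have h5 := PsAux.part_mem h4 hm
    rw [hp2, coeff_monomial] at h5
    have h6 : e P' Q' = m := by
      by_contra h7
      exact h5 (if_neg h7)
    rw [← h6, e_zero] at hm0
    omega
  rw [hD2] at hlt
  have := lt_of_mul_lt_mul_left hlt haz.le
  exact_mod_cast this

theorem corner {a b : ℕ} (ha : 2 ≤ a) (hb : 2 ≤ b) (hab : Nat.Coprime a b) : ∀ (K : ℕ)
    (f g : MvPolynomial (Fin 2) k), Bad f g → Sim a b f g → Sim b a g f →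
    Top 1 1 ((a : ℤ) * K) f →
    ∃ (f' g' : MvPolynomial (Fin 2) k) (p q : ℕ), 1 ≤ p ∧ 1 ≤ q ∧ p + q ≤ K ∧ Bad f' g' ∧
      Sim a b f' g' ∧ Sim b a g' f' ∧ Low 1 1 (a * p) (a * q) f' ∧ Upp 1 1 (a * p) (a * q) f' := by
  intro K
  induction K using Nat.strong_induction_on with
  | _ K ih =>
  intro f g hbad hs hs' hT
  obtain ⟨f1, g1, p, q, hb1, s1, s2, hpq, hL, hU⟩ := aut1 ha hb hab hbad hs hs' hT
  have hT1 : Top 1 1 ((a : ℤ) * K) f1 := by
    have h1 := top_of_low hL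
    have h2 : (1 : ℤ) * ((a * p : ℕ) : ℤ) + 1 * ((a * q : ℕ) : ℤ) = a * K := by
      rw [← hpq]; push_cast; ring
    rwa [h2] at h1
  rcases Nat.eq_zero_or_pos p with hp | hp
  · have hqK : q = K := by omega
    rw [hp, hqK, Nat.mul_zero] at hL
    obtain ⟨f2, g2, K', hK', r1, r2, r3, r4⟩ := lower ha hb hab hb1 s1 hL hT1
    obtain ⟨f3, g3, p3, q3, i1, i2, i3, i4⟩ := ih K' hK' f2 g2 r1 r2 r3 r4
    exact ⟨f3, g3, p3, q3, i1, i2, by omega, i4⟩
  · rcases Nat.eq_zero_or_pos q with hq | hq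
    · have hpK : p = K := by omega
      rw [hq, hpK, Nat.mul_zero] at hU
      obtain ⟨hb2, s3, s4⟩ := sim_sw ha hb hab hb1 s1
      have hL2 : Low 1 1 0 (a * K) (sw f1) := upp_sw one_pos one_pos hU
      obtain ⟨f2, g2, K', hK', r1, r2, r3, r4⟩ := lower ha hb hab hb2 s3 hL2 (top_sw hT1)
      obtain ⟨f3, g3, p3, q3, i1, i2, i3, i4⟩ := ih K' hK' f2 g2 r1 r2 r3 r4
      exact ⟨f3, g3, p3, q3, i1, i2, by omega, i4⟩
    · exact ⟨f1, g1, p, q, hp, hq, by omega, hb1, s1, s2, hL, hU⟩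

end

end Pool.Agent.TH207
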