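import Mathlib
import Pool.Agent.TH207.Tot2

/-! The bound for the ratio of the degrees. -/

set_option autoImplicit false
set_option linter.unusedSectionVars false

open MvPolynomial Pool.Agent.W443.J5 Pool.Agent.W443.J6
open Pool.Agent.H938R2.JC hiding dh

namespace Pool.Agent.TH207

universe u

section

variable {k : Type u} [Field k] [CharZero k]

theorem tot_sum {m : Fin 2 →₀ ℕ} {D : ℕ} (h : (1 : ℤ) * (m 0 : ℤ) + 1 * (m 1 : ℤ) ≤ D) :
    m 0 + 1 * m 1 ≤ D := by
  zify; linarith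

theorem bad_sw' {f g : MvPolynomial (Fin 2) k} {a b K : ℕ} (hs : Sim a b f g) (ha : 2 ≤ a)
    {w0 w1 : ℤ} (hw : 0 < w0 ∨ 0 < w1) (hT : Top w0 w1 ((a : ℤ) * K) f) :
    Top w0 w1 ((b : ℤ) * K) g := by
  obtain ⟨n, hn, hD, htg⟩ := hs.1 w0 w1 _ hw hT
  have ha0 : (a : ℤ) ≠ 0 := by positivity
  have : n = K := (mul_left_cancel₀ ha0 hD).symm
  rwa [this] at htg

variable [IsAlgClosed k]

/-- the corner is not on the diagonal -/
theorem crit {a b : ℕ} (ha : 2 ≤ a) (hb : 2 ≤ b) (hab : Nat.Coprime a b)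
    {f g : MvPolynomial (Fin 2) k} (hbad : Bad f g) (hs : Sim a b f g) {p q : ℕ}
    (hp : 1 ≤ p) (hq : 1 ≤ q) (hL : Low 1 1 (a * p) (a * q) f) (hU : Upp 1 1 (a * p) (a * q) f) :
    p ≠ q := by
  have hT : Top 1 1 ((a : ℤ) * ((p + q : ℕ) : ℤ)) f := by
    have h1 := top_of_low hL
    have h2 : (1 : ℤ) * ((a * p : ℕ) : ℤ) + 1 * ((a * q : ℕ) : ℤ) = a * ((p + q : ℕ) : ℤ) := by
      push_cast; ring
    rwa [h2] at h1
  have hTg := bad_sw' hs ha (Or.inl one_pos) hT
  obtain ⟨⟨c, hc, hJ⟩, -⟩ := hbad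
  have hF : Ser.Le (a * (p + q)) 1 f := fun m hm => tot_sum (by
    have := hT.1 m hm; push_cast at this ⊢; exact this)
  have hG : Ser.Le (b * (p + q)) 1 g := fun m hm => tot_sum (by
    have := hTg.1 m hm; push_cast at this ⊢; exact this)
  have ha2 : 2 * 1 ≤ a * (p + q) := Nat.mul_le_mul ha (by omega)
  have hb2 : 2 * 1 ≤ b * (p + q) := Nat.mul_le_mul hb (by omega)
  have hB := Ser.Bk_W hF hG (by omega) (by omega) (by omega) hJ
  have hf0 : Ser.tp (a * (p + q)) 1 f ≠ 0 :=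
    Ser.tp_ne_zero hF hL.1 (by rw [e_zero, e_one]; ring)
  obtain ⟨m, hm, hmD⟩ := hTg.2
  have hg0 : Ser.tp (b * (p + q)) 1 g ≠ 0 := Ser.tp_ne_zero hG hm (by
    push_cast at hmD
    zify; linarith)
  obtain ⟨q', _, _, _, e4, _⟩ := Ser.start (A := p + q) (l := 2)
    (e := a * (p + q) + b * (p + q) - 2) ha (by omega) hab hc hB (by rw [add_mul]; omega)
    (by
      have : 2 * 2 ≤ a * (p + q) := Nat.mul_le_mul ha (by omega)
      omega) (by omega) (by norm_num) hf0 hg0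
  have hmult : Polynomial.rootMultiplicity 0 (Ser.tp (a * (p + q)) 1 f) = a * q := by
    have hmon : Ser.tp (a * (p + q)) 1 f =
        Polynomial.C ((Ser.tp (a * (p + q)) 1 f).coeff (a * q)) * Polynomial.X ^ (a * q) := by
      ext j
      rw [Polynomial.coeff_C_mul, Polynomial.coeff_X_pow]
      split_ifs with h
      · rw [h, mul_one]
      · rw [mul_zero]
        by_contra hne
        obtain ⟨m, g1, g2, g3⟩ := Ser.of_tp hF hne
        have k1 := hL.2 m g1
        have k2 := hU.2 m g1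
        have g3z : (m 0 : ℤ) + 1 * (m 1 : ℤ) = a * (p + q) := by exact_mod_cast g3
        push_cast at k1 k2
        rcases k1 with k1 | k1
        · linarith
        rcases k2 with k2 | k2
        · linarith
        have : m 1 = a * q := le_antisymm k2.2 k1.2
        exact h (by rw [← g2]; exact this)
    have hne : (Ser.tp (a * (p + q)) 1 f).coeff (a * q) ≠ 0 := by
      intro h0
      rw [h0, Polynomial.C_0, zero_mul] at hmon
      exact hf0 hmon
    rw [hmon, mult_C_mul_pow hne]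
    have hX : Polynomial.rootMultiplicity (0 : k) Polynomial.X = 1 := by
      have := Polynomial.rootMultiplicity_X_sub_C_self (x := (0 : k))
      rwa [Polynomial.C_0, sub_zero] at this
    rw [hX, mul_one]
  have h1 := e4 0 q hq hmult
  omega

/-- the bound at a corner -/
theorem at_corner {a b : ℕ} (ha : 2 ≤ a) (hb : 2 ≤ b) (hab : Nat.Coprime a b)
    {f g : MvPolynomial (Fin 2) k} (hbad : Bad f g) (hs : Sim a b f g) {p q : ℕ}
    (hp : 1 ≤ p) (hpq : p < q) (hL : Low 1 1 (a * p) (a * q) f) :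
    (a + b : ℤ) ≤ a * ((p : ℤ) ^ 2 - 3 * p + 1) ∧ (a + b : ℤ) ≤ a * ((q : ℤ) - p - 1) := by
  have hT : Top 1 1 ((a : ℤ) * ((p + q : ℕ) : ℤ)) f := by
    have h1 := top_of_low hL
    have h2 : (1 : ℤ) * ((a * p : ℕ) : ℤ) + 1 * ((a * q : ℕ) : ℤ) = a * ((p + q : ℕ) : ℤ) := by
      push_cast; ring
    rwa [h2] at h1
  have hL' : Low ((1 : ℕ) : ℤ) 1 (a * p) (a * q) f := by rw [Nat.cast_one]; exact hL
  have hv := vert hbad le_rfl hL' (Nat.mul_pos (by omega) hp)
  have hT0 : Top 1 0 ((a : ℤ) * (p : ℤ)) f := by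
    refine ⟨fun m hm => ?_, _, hL.1, by rw [e_zero]; push_cast; ring⟩
    have : ((m 0 : ℕ) : ℤ) ≤ ((a * p : ℕ) : ℤ) := by exact_mod_cast hv m hm
    push_cast at this
    linarith
  have hTg := bad_sw' hs ha (Or.inl one_pos) hT0
  obtain ⟨⟨c, hc, hJ⟩, -⟩ := hbad
  have hF : Ser.Le (a * p) 0 f := fun m hm => by
    rw [zero_mul, add_zero]; exact hv m hm
  have hG : Ser.Le (b * p) 0 g := fun m hm => by
    rw [zero_mul, add_zero]
    have := hTg.1 m hm
    zify; linarith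
  have hf0 : Ser.tp (a * p) 0 f ≠ 0 := Ser.tp_ne_zero hF hL.1 (by rw [e_zero]; ring)
  obtain ⟨m, hm, hmD⟩ := hTg.2
  have hg0 : Ser.tp (b * p) 0 g ≠ 0 := Ser.tp_ne_zero hG hm (by
    rw [zero_mul, add_zero]
    zify; linarith)
  have hdeg : (Ser.tp (a * p) 0 f).natDegree = a * q := by
    apply le_antisymm
    · rw [Polynomial.natDegree_le_iff_coeff_eq_zero]
      intro j hj
      by_contra hne
      obtain ⟨m, g1, g2, g3⟩ := Ser.of_tp hF hne
      have h1 := hT.1 m g1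
      push_cast at h1
      have h2 : (m 0 : ℤ) = a * p := by
        have : m 0 = a * p := by omega
        rw [this]; push_cast; ring
      have h3 : (m 1 : ℤ) ≤ a * q := by linarith
      have h4 : m 1 ≤ a * q := by exact_mod_cast h3
      omega
    · apply Polynomial.le_natDegree_of_ne_zero
      have h1 := Ser.tp_of hF hL.1 (by rw [e_zero]; ring)
      rw [e_one] at h1
      rw [h1]; exact hL.1
  obtain ⟨q', s1, _, _, s4⟩ := Ser.main0 ha (by omega) hab hp hc hF hG hJ hf0 hg0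
  have hqq : q' = q := by
    rw [hdeg] at s1
    exact (Nat.eq_of_mul_eq_mul_left (by omega) s1).symm
  rw [hqq] at s4
  exact s4 hpq

/-- total degrees -/
theorem tot_bound {a b : ℕ} (ha : 2 ≤ a) (hb : 2 ≤ b) (hab : Nat.Coprime a b)
    {f g : MvPolynomial (Fin 2) k} (hbad : Bad f g) {K : ℕ}
    (hTf : Top 1 1 ((a : ℤ) * K) f) (hTg : Top 1 1 ((b : ℤ) * K) g) :
    ∃ p q : ℕ, 1 ≤ p ∧ p < q ∧ p + q ≤ K ∧
      (a + b : ℤ) ≤ a * ((p : ℤ) ^ 2 - 3 * p + 1) ∧ (a + b : ℤ) ≤ a * ((q : ℤ) - p - 1) := by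
  obtain ⟨s1, s2⟩ := Asm.sim k f g hbad a b (by omega) (by omega) hab 1 1 K (Or.inl one_pos)
    hTf hTg
  obtain ⟨f', g', p, q, h1, h2, h3, h4, h5, h6, h7, h8⟩ := corner ha hb hab K f g hbad s1 s2 hTf
  have hne := crit ha hb hab h4 h5 h1 h2 h7 h8
  rcases lt_or_gt_of_ne hne with h | h
  · exact ⟨p, q, h1, h, h3, at_corner ha hb hab h4 h5 h1 h h7⟩
  · obtain ⟨r1, r2, r3⟩ := sim_sw ha hb hab h4 h5
    exact ⟨q, p, h2, h, by omega, at_corner ha hb hab r1 r2 h2 h (upp_sw one_pos one_pos h8)⟩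

/-- degrees in one variable -/
theorem part_bound {a b : ℕ} (ha : 2 ≤ a) (hb : 2 ≤ b) (hab : Nat.Coprime a b) : ∀ (p : ℕ)
    (f g : MvPolynomial (Fin 2) k), 1 ≤ p → Bad f g → Sim a b f g → Sim b a g f →
    Top 1 0 ((a : ℤ) * p) f → (a + b : ℤ) ≤ a * ((p : ℤ) ^ 2 - 3 * p + 1) := by
  intro p
  induction p using Nat.strong_induction_on with
  | _ p ih =>
  intro f g hp hbad hs hs' hT
  rcases Asm.st1 k f g a b p ha hb hab hp hbad hs hs' hT with
    ⟨f', g', v, hv, hb', s1, s2, hL⟩ | ⟨f', g', q, hq, hb', s1, s2, hL, hU⟩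
  · have hT0 : Top 1 0 ((a : ℤ) * (p : ℤ)) f' := by
      have := top_of_low hL
      push_cast at this
      rw [one_mul, zero_mul, add_zero] at this
      exact this
    have hTg := bad_sw' s1 ha (Or.inl one_pos) hT0
    obtain ⟨⟨c, hc, hJ⟩, -⟩ := hb'
    have hF : Ser.Le (a * p) 0 f' := fun m hm => by
      rw [zero_mul, add_zero]
      have := hT0.1 m hm
      zify; linarith
    have hG : Ser.Le (b * p) 0 g' := fun m hm => by
      rw [zero_mul, add_zero]
      have := hTg.1 m hm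
      zify; linarith
    have hf0 : Ser.tp (a * p) 0 f' ≠ 0 := Ser.tp_ne_zero hF hL.1 (by rw [e_zero]; ring)
    obtain ⟨m, hm, hmD⟩ := hTg.2
    have hg0 : Ser.tp (b * p) 0 g' ≠ 0 := Ser.tp_ne_zero hG hm (by
      rw [zero_mul, add_zero]
      zify; linarith)
    obtain ⟨q', e1, _, _, e4⟩ := Ser.main0 ha (by omega) hab hp hc hF hG hJ hf0 hg0
    have hlt : p < q' := by
      have h1 : a * v ≤ (Ser.tp (a * p) 0 f').natDegree := by
        apply Polynomial.le_natDegree_of_ne_zero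
        have h1 := Ser.tp_of hF hL.1 (by rw [e_zero]; ring)
        rw [e_one] at h1
        rw [h1]; exact hL.1
      rw [e1] at h1
      have := Nat.le_of_mul_le_mul_left h1 (by omega)
      omega
    exact (e4 hlt).1
  · obtain ⟨f2, g2, m', h1, h2, h3, h4, h5, h6⟩ :=
      Asm.ps k f' g' a b p q ha hb hab hp hq hb' s1 s2 hL hU
    have h7 := ih m' h2 f2 g2 h1 h3 h4 h5 h6
    refine h7.trans (mul_le_mul_of_nonneg_left ?_ (by positivity))
    have h8 : (m' : ℤ) < p := by exact_mod_cast h2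
    have h9 : (1 : ℤ) ≤ m' := by exact_mod_cast h1
    nlinarith [mul_nonneg (by linarith : (0 : ℤ) ≤ p - m') (by linarith : (0 : ℤ) ≤ p + m' - 3)]

end

end Pool.Agent.TH207
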