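import Pool.Agent.TH207.Nd

/-! The tree of vertices and the bound for the ratio of the degrees. -/

set_option autoImplicit false
set_option linter.unusedSectionVars false
set_option linter.unusedSimpArgs false

namespace Pool.Agent.TH207.Ser

open MvPolynomial

variable {k : Type*} [Field k] [CharZero k]

/-- A vertex of the pair `F`, `G` below the direction `(ρ, σ)`. -/
structure St (a b : ℕ) (D d : ℤ) (e : ℕ) (c : k) (F G : MvPolynomial (Fin 2) k) (ρ σ : ℕ) (A : ℤ)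
    (n iF iG : ℕ) : Prop where
  hc : c ≠ 0
  hB : Bk D d F G = C c * X 0 ^ e
  hF : Lo ρ σ iF (a * n) F
  hG : Lo ρ σ iG (b * n) G
  hD : D - iF = a * A
  hd : d - iG = b * A
  hρ : 0 < ρ
  hn : 1 ≤ n

/-- The next direction. -/
structure Nx (a b : ℕ) (D d : ℤ) (e : ℕ) (F G : MvPolynomial (Fin 2) k)
    (A : ℤ) (n iF iG : ℕ) (ρ σ K H : ℕ) : Prop where
  hρ : 0 < ρ
  hcop : Nat.Coprime ρ σ
  hF : Hi ρ σ iF (a * n) F
  hG : Hi ρ σ iG (b * n) G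
  tie : (∃ m, coeff m F ≠ 0 ∧ ρ * m 0 + σ * m 1 = ρ * iF + σ * (a * n) ∧ m 1 < a * n) ∨
       (∃ m, coeff m G ≠ 0 ∧ ρ * m 0 + σ * m 1 = ρ * iG + σ * (b * n) ∧ m 1 < b * n)
  hK0 : 0 < K
  hH0 : 0 < H
  hK : (K : ℤ) = ρ * (D + d - e) - σ
  hH : (H : ℤ) = ρ * A - σ * n
  hu : ρ * ((D + d - e) * n - A) = n * K - H
  hle : K ≤ (a + b) * H
  hdiff : ((a + b) * H : ℤ) - K =
    (σ + ρ * e : ℤ) - (ρ * iF + σ * (a * n)) - (ρ * iG + σ * (b * n))

theorem exists_nx {a b : ℕ} (ha : 2 ≤ a) {D d : ℤ} {e : ℕ} {c : k}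
    {F G : MvPolynomial (Fin 2) k} {ρ0 σ0 : ℕ} {A : ℤ} {n iF iG : ℕ}
    (S : St a b D d e c F G ρ0 σ0 A n iF iG) (hu : 0 < (D + d - e) * n - A) :
    ∃ ρ σ K H : ℕ, σ0 * ρ < σ * ρ0 ∧ Nx a b D d e F G A n iF iG ρ σ K H := by
  have han : 2 * 1 ≤ a * n := Nat.mul_le_mul ha S.hn
  have hex : (∃ m, coeff m F ≠ 0 ∧ m 1 < a * n) ∨ (∃ m, coeff m G ≠ 0 ∧ m 1 < b * n) := by
    obtain ⟨m, m', h1, h2, h3, h4⟩ := mono S.hc S.hB
    left
    exact ⟨m, h1, by omega⟩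
  obtain ⟨ρ, σ, hρ, hcop, hlt, h1, h2, h3⟩ := next2 S.hρ S.hF S.hG hex
  have h4 := ineq (ρ := ρ) (σ := σ) S.hc S.hB h1.le h2.le
  have hD := S.hD
  have hd := S.hd
  zify at h4
  obtain ⟨Kz, hKz⟩ : ∃ K : ℤ, K = ρ * (D + d - e) - σ := ⟨_, rfl⟩
  obtain ⟨Hz, hHz⟩ : ∃ H : ℤ, H = ρ * A - σ * n := ⟨_, rfl⟩
  have e1 : ((a + b) * Hz : ℤ) - Kz =
      (σ + ρ * e : ℤ) - (ρ * iF + σ * (a * n)) - (ρ * iG + σ * (b * n)) := by
    rw [hKz, hHz]
    linear_combination (-(ρ : ℤ)) * hD - (ρ : ℤ) * hd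
  have e2 : (ρ : ℤ) * ((D + d - e) * n - A) = n * Kz - Hz := by
    rw [hKz, hHz]; ring
  have hρz : (0 : ℤ) < ρ := by exact_mod_cast hρ
  have hnz : (1 : ℤ) ≤ n := by exact_mod_cast S.hn
  have haz : (2 : ℤ) ≤ a := by exact_mod_cast ha
  have hbz : (0 : ℤ) ≤ b := by positivity
  have hposu : 0 < (n : ℤ) * Kz - Hz := by rw [← e2]; exact mul_pos hρz hu
  have hge : Kz ≤ (a + b) * Hz := by linarith
  have hK0 : 0 < Kz := by
    by_contra hcon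
    push Not at hcon
    have h5 : (a + b : ℤ) * Hz < (a + b) * (n * Kz) :=
      mul_lt_mul_of_pos_left (by linarith) (by linarith)
    have h6 : (a + b : ℤ) * (n * Kz) ≤ Kz := by
      have : (1 : ℤ) ≤ (a + b) * n := by nlinarith
      nlinarith
    linarith
  have hH0 : 0 < Hz := by
    by_contra hcon
    push Not at hcon
    have : (a + b : ℤ) * Hz ≤ 0 := mul_nonpos_of_nonneg_of_nonpos (by linarith) hcon
    linarith
  obtain ⟨K, hK⟩ := Int.eq_ofNat_of_zero_le hK0.le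
  obtain ⟨H, hH⟩ := Int.eq_ofNat_of_zero_le hH0.le
  subst hK hH
  refine ⟨ρ, σ, K, H, hlt, hρ, hcop, h1, h2, h3, by exact_mod_cast hK0, by exact_mod_cast hH0,
    hKz, hHz, e2, by exact_mod_cast hge, e1⟩

section term

variable {a b : ℕ} {D d : ℤ} {e : ℕ} {c : k}
    {F G : MvPolynomial (Fin 2) k} {A : ℤ} {n iF iG : ℕ} {ρ σ K H : ℕ}

/-- At a terminal direction the denominator is at most `a n`. -/
theorem Nx.rho_le (ha : 2 ≤ a) (hn : 1 ≤ n) (hc : c ≠ 0)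
    (hB : Bk D d F G = C c * X 0 ^ e) (X1 : Nx a b D d e F G A n iF iG ρ σ K H)
    (hT : (a + b) * H = K) : ρ ≤ a * n := by
  obtain ⟨m, m', h1, h2, h3, h4⟩ := mono hc hB
  have h5 := X1.hF.le m h1
  have h6 := X1.hG.le m' h2
  have hd := X1.hdiff
  have hT' : ((a : ℤ) + b) * H = K := by exact_mod_cast hT
  rw [hT', sub_self] at hd
  have h7 : ρ * iF + σ * (a * n) + (ρ * iG + σ * (b * n)) = σ + ρ * e := by
    zify; linarith
  have h8 : (ρ * m 0 + σ * m 1) + (ρ * m' 0 + σ * m' 1) = σ + ρ * e := by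
    rw [← h3]
    calc (ρ * m 0 + σ * m 1) + (ρ * m' 0 + σ * m' 1) =
        ρ * (m 0 + m' 0) + σ * (m 1 + m' 1) := by ring
      _ = σ + ρ * (m 0 + m' 0) := by rw [h4]; ring
  have h9 : ρ * iF + σ * (a * n) = ρ * m 0 + σ * m 1 := by omega
  have han : 2 * 1 ≤ a * n := Nat.mul_le_mul ha hn
  have hm1 : m 1 ≤ 1 := by omega
  have h10 : (ρ : ℤ) ∣ ((a * n : ℕ) : ℤ) - m 1 := by
    have h11 : (ρ : ℤ) ∣ σ * (((a * n : ℕ) : ℤ) - m 1) := by
      refine ⟨(m 0 : ℤ) - iF, ?_⟩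
      zify at h9
      push_cast
      linarith
    exact (Nat.isCoprime_iff_coprime.2 X1.hcop).dvd_of_dvd_mul_left h11
  have h12 : (0 : ℤ) < ((a * n : ℕ) : ℤ) - m 1 := by
    have : ((m 1 : ℕ) : ℤ) < ((a * n : ℕ) : ℤ) := by exact_mod_cast (by omega : m 1 < a * n)
    linarith
  have h13 := Int.le_of_dvd h12 h10
  have h14 : (0 : ℤ) ≤ (m 1 : ℤ) := by positivity
  have h15 : (ρ : ℤ) ≤ ((a * n : ℕ) : ℤ) := by linarith
  exact_mod_cast h15

/-- The bound at a terminal direction. -/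
theorem Nx.term_bound (ha : 2 ≤ a) (hn : 1 ≤ n) (hc : c ≠ 0)
    (hB : Bk D d F G = C c * X 0 ^ e) (X1 : Nx a b D d e F G A n iF iG ρ σ K H)
    (hT : (a + b) * H = K) {u : ℕ} (hu : (u : ℤ) = (D + d - e) * n - A) :
    (a + b) * n ≤ a * n * u + 1 := by
  have h1 := X1.rho_le ha hn hc hB hT
  have h2 := X1.hu
  rw [← hu] at h2
  have h3 : ρ * u + H = n * K := by zify; linarith
  rw [← hT] at h3
  have h4 : ρ * u ≤ a * n * u := Nat.mul_le_mul_right _ h1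
  have h5 : 1 ≤ H := X1.hH0
  have h6 : ρ * u + H = n * (a + b) * H := by rw [h3]; ring
  have h7 : n * (a + b) ≤ ρ * u + 1 := by
    have h8 : 1 ≤ n * (a + b) := Nat.mul_pos hn (by omega)
    obtain ⟨q, hq⟩ : ∃ q, n * (a + b) = q + 1 := ⟨n * (a + b) - 1, by omega⟩
    rw [hq] at h6 ⊢
    have h9 : ρ * u = q * H := by linarith [add_mul q 1 H]
    rw [h9]
    have : q * 1 ≤ q * H := Nat.mul_le_mul_left _ h5
    omega
  calc (a + b) * n = n * (a + b) := by ring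
    _ ≤ ρ * u + 1 := h7
    _ ≤ a * n * u + 1 := by omega

end term

end Pool.Agent.TH207.Ser
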