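import Pool.Agent.TH207.Bd

/-! The leading forms at a non-terminal direction, and the next vertices. -/

set_option autoImplicit false
set_option linter.unusedSectionVars false
set_option linter.unusedSimpArgs false

namespace Pool.Agent.TH207.Ser

open MvPolynomial

variable {k : Type*} [Field k] [CharZero k]

/-- What is known about the leading forms at a non-terminal direction. -/
structure Fm (a b : ℕ) (F G : MvPolynomial (Fin 2) k) (n iF iG ρ σ K H : ℕ)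
    (f g h : Polynomial k) (c' : k) : Prop where
  hf : f = (N ρ σ F).coeff (ρ * iF + σ * (a * n))
  hg : g = (N ρ σ G).coeff (ρ * iG + σ * (b * n))
  hf0 : f ≠ 0
  hg0 : g ≠ 0
  hfd : f.natDegree = a * n
  hres : Res ρ (a * n) f
  hc' : c' ≠ 0
  hhres : Res ρ 1 h
  heq : ((a * H : ℕ) : Polynomial k) * Polynomial.derivative h * f -
    (K : Polynomial k) * Polynomial.derivative f * h = Polynomial.C c' * f
  hm : ∀ r, ∃ μ, Polynomial.rootMultiplicity r f = a * μ ∧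
    Polynomial.rootMultiplicity r g = b * μ
  hz : Polynomial.rootMultiplicity 0 f < a * n

variable {a b : ℕ} {D d : ℤ} {e : ℕ} {c : k}
    {F G : MvPolynomial (Fin 2) k} {ρ0 σ0 : ℕ} {A : ℤ} {n iF iG : ℕ} {ρ σ K H : ℕ}

theorem Nx.form [IsAlgClosed k] (ha : 2 ≤ a) (hcop : Nat.Coprime a b)
    (S : St a b D d e c F G ρ0 σ0 A n iF iG) (X1 : Nx a b D d e F G A n iF iG ρ σ K H)
    (hT : K < (a + b) * H) :
    ∃ f g h c', Fm a b F G n iF iG ρ σ K H f g h c' := by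
  obtain ⟨hf0, hfd⟩ := natDegree_N X1.hρ X1.hF
  obtain ⟨hg0, hgd⟩ := natDegree_N X1.hρ X1.hG
  have hres : Res ρ (a * n) ((N ρ σ F).coeff (ρ * iF + σ * (a * n))) := Res_N X1.hcop
  have hD2 : ((a * H : ℕ) : ℤ) = ρ * D - ((ρ * iF + σ * (a * n) : ℕ) : ℤ) := by
    push_cast
    rw [X1.hH]
    linear_combination (-(ρ : ℤ)) * S.hD
  have hd2 : ((b * H : ℕ) : ℤ) = ρ * d - ((ρ * iG + σ * (b * n) : ℕ) : ℤ) := by
    push_cast
    rw [X1.hH]
    linear_combination (-(ρ : ℤ)) * S.hd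
  have hlt : ρ * iF + σ * (a * n) + (ρ * iG + σ * (b * n)) < σ + ρ * e := by
    have h1 := X1.hdiff
    have h2 : (K : ℤ) < (a + b) * H := by exact_mod_cast hT
    zify; linarith
  have haH : 0 < a * H := Nat.mul_pos (by omega) X1.hH0
  obtain ⟨_, ⟨h0, hh0⟩, hp⟩ := conj X1.hρ S.hc S.hB X1.hF.le X1.hG.le hf0 hD2 haH X1.hK
  have hp := hp hlt
  rw [← hd2] at hp
  obtain ⟨h, hh1, hh2⟩ := exists_avg hh0 hres
  have hρk : (ρ : k) ≠ 0 := by exact_mod_cast X1.hρ.ne'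
  have hHk : (H : Polynomial k) ≠ 0 := by exact_mod_cast X1.hH0.ne'
  have hm := mults hcop (by omega) hf0 hg0 (by
    apply mul_left_cancel₀ hHk
    push_cast at hp
    linear_combination hp)
  refine ⟨_, _, h, (ρ : k) * c, rfl, rfl, hf0, hg0, hfd, hres, mul_ne_zero hρk S.hc, hh1, hh2, hm,
    ?_⟩
  have key : ∀ (P : MvPolynomial (Fin 2) k) (i j : ℕ),
      (∃ m, coeff m P ≠ 0 ∧ ρ * m 0 + σ * m 1 = ρ * i + σ * j ∧ m 1 < j) →
      Polynomial.rootMultiplicity 0 ((N ρ σ P).coeff (ρ * i + σ * j)) < j := by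
    rintro P i j ⟨m, h1, h2, h3⟩
    rw [Polynomial.rootMultiplicity_eq_natTrailingDegree']
    refine lt_of_le_of_lt ?_ h3
    apply Polynomial.natTrailingDegree_le_of_ne_zero
    rw [← h2, coeff_N_of X1.hρ]
    exact h1
  obtain ⟨μ, h1, h2⟩ := hm 0
  rcases X1.tie with h3 | h3
  · exact key _ _ _ h3
  · have h4 := key _ _ _ h3
    rw [h2] at h4
    rw [h1]
    exact Nat.mul_lt_mul_of_pos_left (Nat.lt_of_mul_lt_mul_left h4) (by omega)

/-- Integrality of the new first coordinate. -/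
theorem exists_A {a b : ℕ} (hcop : Nat.Coprime a b) {ρ : ℕ} (hρ : 0 < ρ) {x y z : ℤ}
    (hx : ρ * x = a * z) (hy : ρ * y = b * z) : ∃ A' : ℤ, ρ * A' = z ∧ x = a * A' ∧ y = b * A' := by
  obtain ⟨p, q, hpq⟩ := Nat.isCoprime_iff_coprime.2 hcop
  have hρz : (ρ : ℤ) ≠ 0 := by exact_mod_cast hρ.ne'
  refine ⟨p * x + q * y, ?_, ?_, ?_⟩
  · linear_combination p * hx + q * hy + z * hpq
  · apply mul_left_cancel₀ hρz
    linear_combination hx - a * (p * hx + q * hy + z * hpq)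
  · apply mul_left_cancel₀ hρz
    linear_combination hy - b * (p * hx + q * hy + z * hpq)

variable {f g h : Polynomial k} {c' : k}

/-- The root zero. -/
theorem Fm.step0 (hcop : Nat.Coprime a b)
    (S : St a b D d e c F G ρ0 σ0 A n iF iG) (X1 : Nx a b D d e F G A n iF iG ρ σ K H)
    (Y : Fm a b F G n iF iG ρ σ K H f g h c') {μ : ℕ} (hμ : 1 ≤ μ)
    (h1 : Polynomial.rootMultiplicity 0 f = a * μ) (h2 : Polynomial.rootMultiplicity 0 g = b * μ) :
    ∃ (A' : ℤ) (iF' iG' : ℕ), ρ * A' = H + σ * μ ∧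
      ρ * iF' + σ * (a * μ) = ρ * iF + σ * (a * n) ∧
      St a b D d e c F G ρ σ A' μ iF' iG' := by
  obtain ⟨iF', e1, L1⟩ := Lo_of_N X1.hρ (N_below X1.hF.le) (Y.hf ▸ Y.hf0)
  obtain ⟨iG', e2, L2⟩ := Lo_of_N X1.hρ (N_below X1.hG.le) (Y.hg ▸ Y.hg0)
  rw [← Y.hf, h1] at e1 L1
  rw [← Y.hg, h2] at e2 L2
  have hz1 : (ρ : ℤ) * (D - iF') = a * (H + σ * μ) := by
    rw [X1.hH]
    have e1' : (ρ : ℤ) * iF' + σ * (a * μ) = ρ * iF + σ * (a * n) := by exact_mod_cast e1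
    linear_combination (ρ : ℤ) * S.hD - e1'
  have hz2 : (ρ : ℤ) * (d - iG') = b * (H + σ * μ) := by
    rw [X1.hH]
    have e2' : (ρ : ℤ) * iG' + σ * (b * μ) = ρ * iG + σ * (b * n) := by exact_mod_cast e2
    linear_combination (ρ : ℤ) * S.hd - e2'
  obtain ⟨A', a1, a2, a3⟩ := exists_A hcop X1.hρ hz1 hz2
  exact ⟨A', iF', iG', a1, e1, S.hc, S.hB, L1, L2, a2, a3, X1.hρ, hμ⟩

/-- A nonzero root. -/
theorem Fm.step1 (S : St a b D d e c F G ρ0 σ0 A n iF iG)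
    (X1 : Nx a b D d e F G A n iF iG ρ σ K H)
    (Y : Fm a b F G n iF iG ρ σ K H f g h c') {r : k} {μ : ℕ} (hμ : 1 ≤ μ)
    (h1 : Polynomial.rootMultiplicity r f = a * μ) (h2 : Polynomial.rootMultiplicity r g = b * μ) :
    ∃ (iF' iG' : ℕ), iF' + σ * (a * μ) = ρ * iF + σ * (a * n) ∧
      St a b (ρ * D) (ρ * d) (ρ * e) ((ρ : k) * c) (shf ρ σ r F) (shf ρ σ r G) 1 σ
      (H + σ * μ) μ iF' iG' := by
  have hcomp0 : ∀ p : Polynomial k, p ≠ 0 →
      p.comp (Polynomial.X + Polynomial.C r) ≠ 0 := by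
    intro p hp h0
    apply hp
    have := congrArg (fun q => Polynomial.comp q (Polynomial.X - Polynomial.C r)) h0
    simpa [Polynomial.comp_assoc] using this
  have key : ∀ (P : MvPolynomial (Fin 2) k) (i j j' : ℕ), Hi ρ σ i j P →
      (N ρ σ P).coeff (ρ * i + σ * j) ≠ 0 →
      Polynomial.rootMultiplicity r ((N ρ σ P).coeff (ρ * i + σ * j)) = j' →
      ∃ i', i' + σ * j' = ρ * i + σ * j ∧ Lo 1 σ i' j' (shf ρ σ r P) := by
    intro P i j j' hP hP0 hr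
    have b1 : ∀ m < ρ * i + σ * j, (N 1 σ (shf ρ σ r P)).coeff m = 0 := by
      intro m hm
      rw [N_shf, N_below hP.le m hm, Polynomial.zero_comp]
    have b2 : (N 1 σ (shf ρ σ r P)).coeff (ρ * i + σ * j) ≠ 0 := by
      rw [N_shf]; exact hcomp0 _ hP0
    obtain ⟨i', e1, L1⟩ := Lo_of_N one_pos b1 b2
    rw [N_shf, ← Polynomial.rootMultiplicity_eq_rootMultiplicity, hr, one_mul] at e1
    rw [N_shf, ← Polynomial.rootMultiplicity_eq_rootMultiplicity, hr] at L1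
    exact ⟨i', e1, L1⟩
  obtain ⟨iF', e1, L1⟩ := key F iF (a * n) (a * μ) X1.hF (Y.hf ▸ Y.hf0) (Y.hf ▸ h1)
  obtain ⟨iG', e2, L2⟩ := key G iG (b * n) (b * μ) X1.hG (Y.hg ▸ Y.hg0) (Y.hg ▸ h2)
  have hρk : (ρ : k) ≠ 0 := by exact_mod_cast X1.hρ.ne'
  refine ⟨iF', iG', e1, mul_ne_zero hρk S.hc, ?_, L1, L2, ?_, ?_, one_pos, hμ⟩
  · rw [Bk_shf X1.hρ, S.hB, map_mul, map_pow, shf_C, shf_X0, C_mul, ← pow_mul]
    simp [mul_assoc]
  · have e1' : (iF' : ℤ) + σ * (a * μ) = ρ * iF + σ * (a * n) := by exact_mod_cast e1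
    rw [X1.hH]
    linear_combination (ρ : ℤ) * S.hD - e1'
  · have e2' : (iG' : ℤ) + σ * (b * μ) = ρ * iG + σ * (b * n) := by exact_mod_cast e2
    rw [X1.hH]
    linear_combination (ρ : ℤ) * S.hd - e2'

end Pool.Agent.TH207.Ser
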