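import Pool.Agent.TH207.Bd2

/-! The bound for the ratio of the degrees. -/

set_option autoImplicit false
set_option linter.unusedSectionVars false
set_option linter.unusedSimpArgs false

namespace Pool.Agent.TH207.Ser

open MvPolynomial

variable {k : Type*} [Field k] [CharZero k] [IsAlgClosed k]

/-- A root with large multiplicity. -/
theorem Fm.root {a b : ℕ} (ha : 2 ≤ a) {F G : MvPolynomial (Fin 2) k} {n iF iG ρ σ K H : ℕ}
    {f g h : Polynomial k} {c' : k} (hn : 1 ≤ n) (hK : 0 < K)
    (Y : Fm a b F G n iF iG ρ σ K H f g h c') (hlt : H < n * K) :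
    ∃ r μ, Polynomial.rootMultiplicity r f = a * μ ∧ Polynomial.rootMultiplicity r g = b * μ ∧
      H < μ * K ∧ 1 ≤ μ := by
  have ha0 : 0 < a := by omega
  obtain ⟨r, hr⟩ := pos_root hK Y.hc' Y.heq (by rw [Y.hfd]; exact Nat.mul_pos ha0 hn) (by
    rw [Y.hfd, mul_assoc]
    exact Nat.mul_lt_mul_of_pos_left hlt ha0)
  obtain ⟨μ, h1, h2⟩ := Y.hm r
  rw [h1, mul_assoc] at hr
  have h3 := Nat.lt_of_mul_lt_mul_left hr
  refine ⟨r, μ, h1, h2, h3, ?_⟩
  by_contra h4
  have : μ = 0 := by omega
  rw [this, zero_mul] at h3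
  omega

theorem bound {a b : ℕ} (ha : 2 ≤ a) (hcop : Nat.Coprime a b) :
    ∀ (u t : ℕ) {D d : ℤ} {e : ℕ} {c : k} {F G : MvPolynomial (Fin 2) k} {ρ0 σ0 : ℕ} {A : ℤ}
      {n iF iG : ℕ}, St a b D d e c F G ρ0 σ0 A n iF iG → (u : ℤ) = (D + d - e) * n - A → 0 < u →
      (D + d - e) * ρ0 - σ0 ≤ t * ρ0 → a + b ≤ a * u + 1 ∧ (2 ≤ n → a + b ≤ a * u) := by
  intro u
  induction u using Nat.strong_induction_on with
  | _ u ihu =>
  intro t
  induction t using Nat.strong_induction_on with
  | _ t iht =>
  intro D d e c F G ρ0 σ0 A n iF iG S hu hu0 ht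
  have huz : (0 : ℤ) < (D + d - e) * n - A := by rw [← hu]; exact_mod_cast hu0
  obtain ⟨ρ, σ, K, H, hlt, X1⟩ := exists_nx ha S huz
  have hKz : (0 : ℤ) < K := by exact_mod_cast X1.hK0
  have hHz : (0 : ℤ) < H := by exact_mod_cast X1.hH0
  have hρz : (0 : ℤ) < ρ := by exact_mod_cast X1.hρ
  have hmain : (ρ : ℤ) * u = n * K - H := by rw [hu]; exact X1.hu
  rcases Nat.lt_or_ge K ((a + b) * H) with hT | hT
  · -- a non-terminal direction
    obtain ⟨f, g, h, c', Y⟩ := X1.form ha hcop S hT
    have h0 : H < n * K := by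
      have h1 : (0 : ℤ) < ρ * u := mul_pos hρz (by exact_mod_cast hu0)
      zify; linarith
    obtain ⟨r, μ, h1, h2, h3, hμ⟩ := Y.root ha S.hn X1.hK0 h0
    have h3z : (H : ℤ) < μ * K := by exact_mod_cast h3
    -- the induction hypothesis for a smaller value
    have step : ∀ u' : ℕ, u' < u → a + b ≤ a * u' + 1 →
        a + b ≤ a * u + 1 ∧ (2 ≤ n → a + b ≤ a * u) := by
      intro u' h4 h5
      have h6 : a * u' + a * 1 ≤ a * u := by
        rw [← mul_add]; exact Nat.mul_le_mul_left _ h4
      constructor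
      · omega
      · intro _; omega
    by_cases hr : r = 0
    · subst hr
      obtain ⟨A', iF', iG', e1, _, S'⟩ := Y.step0 hcop S X1 hμ h1 h2
      have hμn : μ < n := by
        have := Y.hz
        rw [h1] at this
        exact Nat.lt_of_mul_lt_mul_left this
      have hμnz : (μ : ℤ) < n := by exact_mod_cast hμn
      obtain ⟨uz, huz'⟩ : ∃ uz : ℤ, uz = (D + d - e) * μ - A' := ⟨_, rfl⟩
      have e2 : (ρ : ℤ) * uz = μ * K - H := by
        rw [huz', X1.hK]
        linear_combination -e1
      have e3 : 0 < uz := by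
        have : (0 : ℤ) < ρ * uz := by rw [e2]; linarith
        exact pos_of_mul_pos_right this hρz.le
      have e4 : uz < u := by
        have h5 : (ρ : ℤ) * uz < ρ * u := by
          rw [e2, hmain]
          have := mul_lt_mul_of_pos_right hμnz hKz
          linarith
        exact lt_of_mul_lt_mul_left h5 hρz.le
      obtain ⟨u', hu'⟩ := Int.eq_ofNat_of_zero_le e3.le
      subst hu'
      have h6 := ihu u' (by exact_mod_cast e4) (D + d - e).toNat S' huz' (by exact_mod_cast e3) (by
        have h7 : D + d - e ≤ ((D + d - e).toNat : ℤ) := Int.self_le_toNat _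
        have h8 := mul_le_mul_of_nonneg_right h7 hρz.le
        have h9 : (0 : ℤ) ≤ σ := by positivity
        linarith)
      exact step u' (by exact_mod_cast e4) h6.1
    · obtain ⟨iF', iG', _, S'⟩ := Y.step1 S X1 hμ h1 h2
      have horb := orbit X1.hρ Y.hf0 Y.hres hr
      rw [h1, Y.hfd] at horb
      have hρμ : ρ * μ ≤ n := by
        have h4 : a * (ρ * μ) ≤ a * n := by
          calc a * (ρ * μ) = ρ * (a * μ) := by ring
            _ ≤ a * n := by omega
        exact Nat.le_of_mul_le_mul_left h4 (by omega)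
      have hρμz : (ρ : ℤ) * μ ≤ n := by exact_mod_cast hρμ
      obtain ⟨uz, huz'⟩ : ∃ uz : ℤ, uz = μ * K - H := ⟨_, rfl⟩
      have e3 : 0 < uz := by rw [huz']; linarith
      have hid : (ρ : ℤ) * (u - uz) = K * (n - ρ * μ) + (ρ - 1) * H := by
        rw [mul_sub, hmain, huz']; ring
      have e5 : (0 : ℤ) ≤ K * (n - ρ * μ) := mul_nonneg hKz.le (by linarith)
      have e6 : (0 : ℤ) ≤ (ρ - 1) * H := mul_nonneg (by linarith) hHz.le
      have e4 : uz ≤ u := by
        have h5 : (0 : ℤ) ≤ ρ * (u - uz) := by rw [hid]; linarith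
        have := nonneg_of_mul_nonneg_right h5 hρz
        linarith
      have hl : (ρ * D + ρ * d - ((ρ * e : ℕ) : ℤ)) = ρ * (D + d - e) := by push_cast; ring
      have hS' : uz = (ρ * D + ρ * d - ((ρ * e : ℕ) : ℤ)) * μ - (H + σ * μ) := by
        rw [hl, huz', X1.hK]; ring
      obtain ⟨u', hu'⟩ := Int.eq_ofNat_of_zero_le e3.le
      subst hu'
      rcases lt_or_eq_of_le e4 with h5 | h5
      · have h6 := ihu u' (by exact_mod_cast h5)
          (ρ * D + ρ * d - ((ρ * e : ℕ) : ℤ)).toNat S' hS' (by exact_mod_cast e3) (by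
          have h7 := Int.self_le_toNat (ρ * D + ρ * d - ((ρ * e : ℕ) : ℤ))
          have h9 : (0 : ℤ) ≤ σ := by positivity
          push_cast at h7 ⊢
          linarith)
        exact step u' (by exact_mod_cast h5) h6.1
      · -- the trivial change of coordinates
        have h6 : (K : ℤ) * (n - ρ * μ) + (ρ - 1) * H = 0 := by
          rw [← hid, h5]; ring
        have h7 : (K : ℤ) * (n - ρ * μ) = 0 := by linarith
        have h8 : ((ρ : ℤ) - 1) * H = 0 := by linarith
        have h9 : (ρ : ℤ) = 1 := by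
          rcases mul_eq_zero.1 h8 with h | h <;> linarith
        have h10 : (n : ℤ) = μ := by
          rcases mul_eq_zero.1 h7 with h | h
          · linarith
          · rw [h9] at h; linarith
        have hρ1 : ρ = 1 := by exact_mod_cast h9
        have hnμ : n = μ := by exact_mod_cast h10
        subst hρ1 hnμ
        have hu'u : u' = u := by exact_mod_cast h5
        subst hu'u
        have hlpos : (0 : ℤ) < D + d - e - σ := by
          have := X1.hK
          push_cast at this
          linarith
        obtain ⟨t', ht'⟩ := Int.eq_ofNat_of_zero_le hlpos.le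
        have hρ0 : (0 : ℤ) < ρ0 := by exact_mod_cast S.hρ
        have hlt' : (σ0 : ℤ) < σ * ρ0 := by
          have : σ0 * 1 < σ * ρ0 := hlt
          exact_mod_cast (by omega : σ0 < σ * ρ0)
        have ht't : t' < t := by
          have h11 : (t' : ℤ) * ρ0 < t * ρ0 := by
            have : (t' : ℤ) = D + d - e - σ := ht'.symm
            rw [this]
            linarith
          exact_mod_cast lt_of_mul_lt_mul_right h11 hρ0.le
        exact iht t' ht't S' hS' hu0 (by
          push_cast
          have : (t' : ℤ) = D + d - e - σ := ht'.symm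
          linarith)
  · -- a terminal direction
    have hT' : (a + b) * H = K := le_antisymm hT X1.hle
    have h1 := X1.term_bound ha S.hn S.hc S.hB hT' hu
    constructor
    · by_contra h2
      push Not at h2
      have h3 : (a * u + 2) * n ≤ (a + b) * n := Nat.mul_le_mul_right _ h2
      have h4 : (a * u + 2) * n = a * n * u + 2 * n := by ring
      have := S.hn
      omega
    · intro hn2
      by_contra h2
      push Not at h2
      have h3 : (a * u + 1) * n ≤ (a + b) * n := Nat.mul_le_mul_right _ h2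
      have h4 : (a * u + 1) * n = a * n * u + n := by ring
      omega

end Pool.Agent.TH207.Ser
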