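import Pool.Agent.TH207.Nw

/-! The leading forms of a pair with bracket `c s ^ e`. -/

set_option autoImplicit false
set_option linter.unusedSectionVars false
set_option linter.unusedSimpArgs false

namespace Pool.Agent.TH207.Ser

open MvPolynomial

variable {k : Type*} [Field k] [CharZero k] [IsAlgClosed k]

theorem pr_split (Q : Type*) [Field Q] [Algebra (Polynomial k) Q] [IsFractionRing (Polynomial k) Q]
    {ρ σ : ℕ} {F : MvPolynomial (Fin 2) k} {mF : ℕ}
    (hF : ∀ m, coeff m F ≠ 0 → mF ≤ ρ * m 0 + σ * m 1) :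
    ∃ P : PowerSeries Q, pr Q ρ σ F = PowerSeries.X ^ mF * P ∧
      PowerSeries.constantCoeff P = algebraMap (Polynomial k) Q ((N ρ σ F).coeff mF) := by
  have h1 : PowerSeries.X ^ mF ∣ pr Q ρ σ F := by
    rw [PowerSeries.X_pow_dvd_iff]
    intro n hn
    rw [coeff_pr, N_below hF n hn, map_zero]
  obtain ⟨P, hP⟩ := h1
  refine ⟨P, hP, ?_⟩
  rw [← coeff_pr, hP, PowerSeries.coeff_X_pow_mul', if_pos le_rfl, Nat.sub_self,
    PowerSeries.coeff_zero_eq_constantCoeff_apply]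

theorem conj {ρ σ : ℕ} (hρ : 0 < ρ) {D d : ℤ} {e : ℕ} {c : k} (hc : c ≠ 0)
    {F G : MvPolynomial (Fin 2) k} (hB : Bk D d F G = C c * X 0 ^ e) {mF mG : ℕ}
    (hF : ∀ m, coeff m F ≠ 0 → mF ≤ ρ * m 0 + σ * m 1)
    (hG : ∀ m, coeff m G ≠ 0 → mG ≤ ρ * m 0 + σ * m 1)
    (hF0 : (N ρ σ F).coeff mF ≠ 0) {D2 K : ℕ} (hD2 : (D2 : ℤ) = ρ * D - mF) (h2 : 0 < D2)
    (hK : (K : ℤ) = ρ * (D + d - e) - σ) :
    mF + mG ≤ σ + ρ * e ∧
    (∃ h : Polynomial k, (D2 : Polynomial k) * Polynomial.derivative h * (N ρ σ F).coeff mF -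
      (K : Polynomial k) * Polynomial.derivative ((N ρ σ F).coeff mF) * h =
        Polynomial.C ((ρ : k) * c) * (N ρ σ F).coeff mF) ∧
    (mF + mG < σ + ρ * e → (D2 : Polynomial k) * (N ρ σ F).coeff mF *
      Polynomial.derivative ((N ρ σ G).coeff mG) =
        ((ρ * d - mG : ℤ) : Polynomial k) * Polynomial.derivative ((N ρ σ F).coeff mF) *
          (N ρ σ G).coeff mG) := by
  let Q := FractionRing (Polynomial k)
  have hQ : CharZero Q := charZero_of_injective_algebraMap (R := Polynomial k)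
    (IsFractionRing.injective (Polynomial k) Q)
  obtain ⟨δ, hδ⟩ := exists_der k Q
  have hinj := IsFractionRing.injective (Polynomial k) Q
  obtain ⟨P, hP, hP0⟩ := pr_split Q hF
  obtain ⟨R, hR, hR0⟩ := pr_split Q hG
  obtain ⟨cQ, hcQ⟩ : ∃ cQ : Q, cQ = algebraMap (Polynomial k) Q (Polynomial.C ((ρ : k) * c)) :=
    ⟨_, rfl⟩
  have hρk : (ρ : k) ≠ 0 := by exact_mod_cast hρ.ne'
  have hcQ0 : cQ ≠ 0 := by
    rw [hcQ]
    intro h
    have h1 := hinj (h.trans (map_zero _).symm)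
    rw [Polynomial.C_eq_zero] at h1
    exact mul_ne_zero hρk hc h1
  have h1 : Br δ (ρ * D) (ρ * d) (pr Q ρ σ F) (pr Q ρ σ G) =
      PowerSeries.C cQ * PowerSeries.X ^ (σ + ρ * e) := by
    rw [Br_pr δ hδ, hB, map_mul, map_pow, pr_C, pr_X0, hcQ, map_mul, pow_add, pow_mul]
    simp only [map_mul, map_natCast]
    ring
  have h3 : PowerSeries.X ^ (mF + mG) * Br δ (ρ * D - mF) (ρ * d - mG) P R =
      PowerSeries.C cQ * PowerSeries.X ^ (σ + ρ * e) := by
    rw [← h1, hP, hR, Br_Xn, Br_Xn', pow_add]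
    ring
  have h4 : mF + mG ≤ σ + ρ * e := by
    by_contra hlt
    push_neg at hlt
    have h5 := congrArg (PowerSeries.coeff (σ + ρ * e)) h3
    rw [PowerSeries.coeff_X_pow_mul', if_neg (by omega), PowerSeries.coeff_C_mul,
      PowerSeries.coeff_X_pow_self, mul_one] at h5
    exact hcQ0 h5.symm
  obtain ⟨n, hn⟩ : ∃ n, σ + ρ * e = mF + mG + n := ⟨σ + ρ * e - (mF + mG), by omega⟩
  have h6 : Br δ D2 (ρ * d - mG) P R = PowerSeries.C cQ * PowerSeries.X ^ n := by
    have hX : (PowerSeries.X : PowerSeries Q) ≠ 0 := PowerSeries.X_ne_zero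
    apply mul_left_cancel₀ (pow_ne_zero (mF + mG) hX)
    rw [hD2, h3, hn, pow_add]; ring
  have hPc : PowerSeries.constantCoeff P ≠ 0 := by
    rw [hP0]
    intro h
    exact hF0 (hinj (h.trans (map_zero _).symm))
  refine ⟨h4, ?_, ?_⟩
  · obtain ⟨g, hg⟩ := conj_form δ D2 h2 P hPc cQ n _ R h6
    have e1 : ((ρ : ℤ) * d - mG - n) = (K : ℤ) - D2 := by
      rw [hK, hD2]
      have : (σ : ℤ) + ρ * e = mF + mG + n := by exact_mod_cast hn
      linear_combination this
    rw [e1, hP0, hcQ] at hg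
    exact poly_h δ hδ _ hF0 g D2 K h2 _ hg
  · intro hlt
    have h7 := congrArg (PowerSeries.constantCoeff (R := Q)) h6
    rw [const_Br, hP0, hR0, hδ, hδ] at h7
    have hn0 : n ≠ 0 := by omega
    rw [map_mul, map_pow, PowerSeries.constantCoeff_X, zero_pow hn0, mul_zero] at h7
    apply hinj
    simp only [map_mul, map_natCast, map_intCast]
    have h8 := sub_eq_zero.1 h7
    simp only [Int.cast_natCast] at h8
    exact h8

end Pool.Agent.TH207.Ser
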