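import Pool.Agent.TH207.Dy

/-!
# Second derivations
-/

set_option autoImplicit false
set_option linter.unusedSimpArgs false
set_option maxHeartbeats 4000000

open MvPolynomial

namespace TH207.Dx

theorem dd_M0 : de (de M0) = x^5*(400) + x^6*(-2000*y) := by
  rw [de_M0]
  unfold de
  simp only [map_add, map_sub, map_neg, Derivation.leibniz, Derivation.leibniz_pow, pd_num, pd_one, pd01, pd10, pderiv_X_self, smul_eq_mul, nsmul_eq_mul]
  push_cast
  ring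

theorem aa_M0 : aa M0 = x^2*(18000) + x^3*(-24000*y) + x^4*(-60000 - 112000*y^2 + 4000*y^4) + x^5*(-220000 + 192000*y + 148000*y^3 - 4000*y^5) + x^6*(120000*y - 144000*y^2 + 152000*y^4 - 8000*y^6) + x^7*(220000 + 900000*y^2) + x^8*(-560000*y + 560000*y^3) := by
  unfold aa
  rw [dd_M0, de_M0, dx_M0]
  unfold kk cc
  ring

theorem dd_M1 : de (de M1) = x^3*(-800) + x^4*(7200*y) + x^5*(18000*y^2) + x^6*(10000*y^3) := by
  rw [de_M1]
  unfold de
  simp only [map_add, map_sub, map_neg, Derivation.leibniz, Derivation.leibniz_pow, pd_num, pd_one, pd01, pd10, pderiv_X_self, smul_eq_mul, nsmul_eq_mul]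
  push_cast
  ring

theorem aa_M1 : aa M1 = (-18000) + x*(-36000*y) + x^2*(180000 + 426000*y^2 - 12000*y^4) + x^3*(620000 - 336000*y + 124000*y^3 - 4000*y^5) + x^4*(160000*y - 756000*y^2 - 1832000*y^4 + 68000*y^6) + x^5*(-620000 - 6040000*y^2 + 480000*y^3 - 2260000*y^5 + 100000*y^7) + x^6*(1080000*y - 12880000*y^3 + 720000*y^4 - 760000*y^6 + 40000*y^8) + x^7*(4500000*y^2 - 10100000*y^4) + x^8*(2800000*y^3 - 2800000*y^5) := by
  unfold aa
  rw [dd_M1, de_M1, dx_M1]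
  unfold kk cc
  ring

theorem dd_M2 : de (de M2) = x^2*(200) + x^3*(-7600*y) + x^4*(4200 - 25800*y^2) + x^5*(-24000*y - 28000*y^3) + x^6*(-30000*y^2 - 10000*y^4) := by
  rw [de_M2]
  unfold de
  simp only [map_add, map_sub, map_neg, Derivation.leibniz, Derivation.leibniz_pow, pd_num, pd_one, pd01, pd10, pderiv_X_self, smul_eq_mul, nsmul_eq_mul]
  push_cast
  ring

theorem aa_M2 : aa M2 = 24000*y + x*(24000 - 260000*y^2 + 8000*y^4) + x^2*(-380000 + 204000*y - 220000*y^3 + 4000*y^5) + x^3*(-720000 + 180000*y - 696000*y^2 + 2020000*y^4 - 76000*y^6) + x^4*(-2200000 + 1764000*y + 7320000*y^2 + 972000*y^3 + 4156000*y^5 - 172000*y^7) + x^5*(-1000000*y + 720000*y^2 + 19880000*y^3 + 3300000*y^4 + 2840000*y^6 - 140000*y^8) + x^6*(2580000 + 10200000*y^2 - 2160000*y^3 + 23220000*y^4 + 1560000*y^5 + 640000*y^7 - 40000*y^9) + x^7*(-5100000*y + 14600000*y^3 + 12900000*y^5) + x^8*(-8400000*y^2 + 5600000*y^4 + 2800000*y^6)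 := by
  unfold aa
  rw [dd_M2, de_M2, dx_M2]
  unfold kk cc
  ring

theorem dd_M3 : de (de M3) = 200 + x*(2400*y) + x^2*(200 + 9600*y^2) + x^3*(-7600*y + 18400*y^3) + x^4*(-25800*y^2 + 18600*y^4) + x^5*(-28000*y^3 + 9600*y^5) + x^6*(-10000*y^4 + 2000*y^6) := by
  rw [de_M3]
  unfold de
  simp only [map_add, map_sub, map_neg, Derivation.leibniz, Derivation.leibniz_pow, pd_num, pd_one, pd01, pd10, pderiv_X_self, smul_eq_mul, nsmul_eq_mul]
  push_cast
  ring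

theorem aa_M3 : aa M3 = (-20000 - 36000*y - 88000*y^3 + 4000*y^5) + x*(-120000 - 460000*y - 548000*y^2 - 668000*y^4 + 28000*y^6) + x^2*(-360000 + 204000*y - 2900000*y^2 - 628000*y^3 - 1948000*y^5 + 80000*y^7) + x^3*(600000*y + 1008000*y^2 - 8860000*y^3 + 2020000*y^4 - 2908000*y^6 + 120000*y^8) + x^4*(380000 + 9360000*y^2 + 204000*y^3 - 15500000*y^4 + 4780000*y^5 - 2396000*y^7 + 100000*y^9) + x^5*(-940000*y + 24240000*y^3 - 1200000*y^4 - 16420000*y^5 + 3548000*y^6 - 1048000*y^8 + 44000*y^10) + x^6*(-5820000*y^2 + 27960000*y^4 - 720000*y^5 - 10460000*y^6 + 904000*y^7 - 192000*y^9 + 8000*y^11) + x^7*(-7300000*y^3 + 15480000*y^5 - 3700000*y^7) + x^8*(-2800000*y^4 + 3360000*y^6 - 560000*y^8) := by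
  unfold aa
  rw [dd_M3, de_M3, dx_M3]
  unfold kk cc
  ring

theorem dd_N0 : de (de N0) = x^7*(30) := by
  rw [de_N0]
  unfold de
  simp only [map_add, map_sub, map_neg, Derivation.leibniz, Derivation.leibniz_pow, pd_num, pd_one, pd01, pd10, pderiv_X_self, smul_eq_mul, nsmul_eq_mul]
  push_cast
  ring

theorem aa_N0 : aa N0 = x^4*(300) + x^6*(-1500 - 2800*y^2 + 100*y^4) + x^7*(-7500 + 1800*y - 1900*y^3 + 100*y^5) + x^8*(-15000*y) + x^9*(7500 - 7500*y^2) := by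
  unfold aa
  rw [dd_N0, de_N0, dx_N0]
  unfold kk cc
  ring

theorem dd_N1 : de (de N1) = x^5*(-150) + x^6*(-300*y) + x^7*(-150*y^2) := by
  rw [de_N1]
  unfold de
  simp only [map_add, map_sub, map_neg, Derivation.leibniz, Derivation.leibniz_pow, pd_num, pd_one, pd01, pd10, pderiv_X_self, smul_eq_mul, nsmul_eq_mul]
  push_cast
  ring

theorem aa_N1 : aa N1 = x^2*(-900) + x^3*(-2400*y) + x^4*(7500 + 12500*y^2 - 500*y^4) + x^5*(37500 + 6000*y + 37500*y^3 - 1500*y^5) + x^6*(150000*y - 10500*y^2 + 33000*y^4 - 1500*y^6) + x^7*(-37500 + 225000*y^2 - 9000*y^3 + 9500*y^5 - 500*y^7) + x^8*(-75000*y + 150000*y^3) + x^9*(-37500*y^2 + 37500*y^4) := by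
  unfold aa
  rw [dd_N1, de_N1, dx_N1]
  unfold kk cc
  ring

theorem dd_N2 : de (de N2) = x^4*(150) + x^5*(450*y) + x^6*(450 + 450*y^2) + x^7*(450*y + 150*y^3) := by
  rw [de_N2]
  unfold de
  simp only [map_add, map_sub, map_neg, Derivation.leibniz, Derivation.leibniz_pow, pd_num, pd_one, pd01, pd10, pderiv_X_self, smul_eq_mul, nsmul_eq_mul]
  push_cast
  ring

theorem aa_N2 : aa N2 = x*(600) + x^2*(2700*y) + x^3*(-3900 - 10400*y^2 + 500*y^4) + x^4*(-37500 - 9000*y - 50000*y^3 + 2000*y^5) + x^5*(-22500 - 187500*y - 37500*y^2 - 69000*y^4 + 3000*y^6) + x^6*(-75000 + 4500*y - 375000*y^2 - 51000*y^3 - 39500*y^5 + 2000*y^7) + x^7*(-225000*y + 27000*y^2 - 375000*y^3 - 19500*y^4 - 8000*y^6 + 500*y^8) + x^8*(112500 - 225000*y^2 - 187500*y^4) + x^9*(112500*y - 75000*y^3 - 37500*y^5) := by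
  unfold aa
  rw [dd_N2, de_N2, dx_N2]
  unfold kk cc
  ring

theorem dd_N3 : de (de N3) = x^2*(-30) + x^3*(-150*y) + x^4*(150 - 300*y^2) + x^5*(450*y - 300*y^3) + x^6*(450*y^2 - 150*y^4) + x^7*(150*y^3 - 30*y^5) := by
  rw [de_N3]
  unfold de
  simp only [map_add, map_sub, map_neg, Derivation.leibniz, Derivation.leibniz_pow, pd_num, pd_one, pd01, pd10, pderiv_X_self, smul_eq_mul, nsmul_eq_mul]
  push_cast
  ring

theorem aa_N3 : aa N3 = (-300*y) + x*(2100 + 1600*y^2 - 100*y^4) + x^2*(7500 + 8400*y + 14100*y^3 - 600*y^5) + x^3*(-7500 + 52500*y - 4400*y^2 + 36800*y^4 - 1500*y^6) + x^4*(-45000 - 13500*y + 157500*y^2 - 53000*y^3 + 48700*y^5 - 2000*y^7) + x^5*(-225000*y + 4500*y^2 + 262500*y^3 - 81000*y^4 + 36000*y^6 - 1500*y^8) + x^6*(37500 - 450000*y^2 + 19500*y^3 + 262500*y^4 - 50000*y^5 + 14300*y^7 - 600*y^9) + x^7*(112500*y - 450000*y^3 + 9000*y^4 + 157500*y^5 - 11300*y^6 + 2400*y^8 - 100*y^10) +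 x^8*(112500*y^2 - 225000*y^4 + 52500*y^6) + x^9*(37500*y^3 - 45000*y^5 + 7500*y^7) := by
  unfold aa
  rw [dd_N3, de_N3, dx_N3]
  unfold kk cc
  ring

theorem de_kk : de kk = (1120*y - 80*y^3) + x*(-360 + 1140*y^2 - 100*y^4) + x^2*(-360*y + 380*y^3 - 20*y^5) := by
  unfold de kk
  simp only [map_add, map_sub, map_neg, Derivation.leibniz, Derivation.leibniz_pow, pd_num, pd_one, pd01, pd10, pderiv_X_self, smul_eq_mul, nsmul_eq_mul]
  push_cast
  ring

theorem e1_eq : e1 = (1120*y - 80*y^3) + x*(240 + 2260*y^2 - 140*y^4) + x^2*(4500 - 1080*y + 1140*y^3 - 60*y^5) + x^3*(9000*y) + x^4*(-4500 + 4500*y^2) := by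
  unfold e1
  rw [de_kk]
  unfold kk cc
  ring

theorem de_vv : de vv = (-860 + 648*y + 120*y^2 - 1440*y^3 + 222*y^5 - 8*y^7) + x*(-5060*y + 480*y^3) + x^2*(570 - 7090*y^2 + 520*y^4) + x^3*(-9100 + 2880*y - 3040*y^3 + 160*y^5) + x^4*(-18200*y) + x^5*(9100 - 9100*y^2) := by
  unfold de vv
  simp only [map_add, map_sub, map_neg, Derivation.leibniz, Derivation.leibniz_pow, pd_num, pd_one, pd01, pd10, pderiv_X_self, smul_eq_mul, nsmul_eq_mul]
  push_cast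
  ring

theorem e0_eq : e0 = (860 - 648*y - 120*y^2 + 1440*y^3 - 222*y^5 + 8*y^7) + x*(6780*y - 648*y^2 - 560*y^3 + 720*y^4 - 74*y^6 + 2*y^8) + x^2*(1170 + 12150*y^2 - 760*y^4) + x^3*(13650 - 5760*y + 6080*y^3 - 320*y^5) + x^4*(27300*y) + x^5*(-13650 + 13650*y^2) := by
  unfold e0
  rw [de_vv]
  unfold vv
  ring

end TH207.Dx
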