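import Pool.Agent.TH207.DzA
import Pool.Agent.TH207.DzB

/-!
# Commutator of the operators 0 and 1
-/

set_option autoImplicit false
set_option maxHeartbeats 4000000

open MvPolynomial

namespace TH207.Dx

theorem c0_01 : M0 * de W1 - M1 * de W0 + N0 * aa W1 - N1 * aa W0
    + (M1 * N0 - M0 * N1) * e0 = 0 := by
  rw [de_W0, de_W1, aa_W0, aa_W1, e0_eq]
  unfold M0 M1 N0 N1
  ring

theorem cD_01 : M0 * de M1 - M1 * de M0 + N0 * aa M1 - N1 * aa M0 + N0 * bb W1 - N1 * bb W0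
    + (M1 * N0 - M0 * N1) * e1 = 0 := by
  unfold bb
  rw [de_W0, de_W1, de_M0, de_M1, aa_M0, aa_M1, e1_eq]
  unfold M0 M1 N0 N1 cc
  ring

theorem cDD_01 : N0 * bb M1 - N1 * bb M0 + (M1 * N0 - M0 * N1) * e2 = 0 := by
  unfold bb e2
  rw [de_M0, de_M1]
  unfold M0 M1 N0 N1 cc
  ring

theorem cV_01 : M0 * de N1 - M1 * de N0 + N0 * aa N1 - N1 * aa N0
    + (M1 * N0 - M0 * N1) * (2 * x) = 0 := by
  rw [de_N0, de_N1, aa_N0, aa_N1]
  unfold M0 M1 N0 N1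
  ring

theorem cDV_01 : N0 * bb N1 - N1 * bb N0 = 0 := by
  unfold bb
  rw [de_N0, de_N1]
  unfold N0 N1 cc
  ring

theorem comm_01 {R : Type} [Ring R] {φ : S →+* R} {P Q : R} (h : Rel φ P Q) :
    FF φ P Q W0 M0 N0 * FF φ P Q W1 M1 N1 - FF φ P Q W1 M1 N1 * FF φ P Q W0 M0 N0 = 0 := by
  rw [comm h, c0_01, cD_01, cDD_01, cV_01, cDV_01]
  simp

end TH207.Dx
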