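import Pool.Agent.TH207.DzA
import Pool.Agent.TH207.DzB

/-!
# Commutator of the operators 0 and 2
-/

set_option autoImplicit false
set_option maxHeartbeats 4000000

open MvPolynomial

namespace TH207.Dx

theorem c0_02 : M0 * de W2 - M2 * de W0 + N0 * aa W2 - N2 * aa W0
    + (M2 * N0 - M0 * N2) * e0 = 0 := by
  rw [de_W0, de_W2, aa_W0, aa_W2, e0_eq]
  unfold M0 M2 N0 N2
  ring

theorem cD_02 : M0 * de M2 - M2 * de M0 + N0 * aa M2 - N2 * aa M0 + N0 * bb W2 - N2 * bb W0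
    + (M2 * N0 - M0 * N2) * e1 = 0 := by
  unfold bb
  rw [de_W0, de_W2, de_M0, de_M2, aa_M0, aa_M2, e1_eq]
  unfold M0 M2 N0 N2 cc
  ring

theorem cDD_02 : N0 * bb M2 - N2 * bb M0 + (M2 * N0 - M0 * N2) * e2 = 0 := by
  unfold bb e2
  rw [de_M0, de_M2]
  unfold M0 M2 N0 N2 cc
  ring

theorem cV_02 : M0 * de N2 - M2 * de N0 + N0 * aa N2 - N2 * aa N0
    + (M2 * N0 - M0 * N2) * (2 * x) = 0 := by
  rw [de_N0, de_N2, aa_N0, aa_N2]
  unfold M0 M2 N0 N2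
  ring

theorem cDV_02 : N0 * bb N2 - N2 * bb N0 = 0 := by
  unfold bb
  rw [de_N0, de_N2]
  unfold N0 N2 cc
  ring

theorem comm_02 {R : Type} [Ring R] {φ : S →+* R} {P Q : R} (h : Rel φ P Q) :
    FF φ P Q W0 M0 N0 * FF φ P Q W2 M2 N2 - FF φ P Q W2 M2 N2 * FF φ P Q W0 M0 N0 = 0 := by
  rw [comm h, c0_02, cD_02, cDD_02, cV_02, cDV_02]
  simp

end TH207.Dx
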