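import Pool.Agent.TH207.DzA
import Pool.Agent.TH207.DzB

/-!
# Commutator of the operators 0 and 3
-/

set_option autoImplicit false
set_option maxHeartbeats 4000000

open MvPolynomial

namespace TH207.Dx

theorem c0_03 : M0 * de W3 - M3 * de W0 + N0 * aa W3 - N3 * aa W0
    + (M3 * N0 - M0 * N3) * e0 = -3600 := by
  rw [de_W0, de_W3, aa_W0, aa_W3, e0_eq]
  unfold M0 M3 N0 N3
  ring

theorem cD_03 : M0 * de M3 - M3 * de M0 + N0 * aa M3 - N3 * aa M0 + N0 * bb W3 - N3 * bb W0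
    + (M3 * N0 - M0 * N3) * e1 = 0 := by
  unfold bb
  rw [de_W0, de_W3, de_M0, de_M3, aa_M0, aa_M3, e1_eq]
  unfold M0 M3 N0 N3 cc
  ring

theorem cDD_03 : N0 * bb M3 - N3 * bb M0 + (M3 * N0 - M0 * N3) * e2 = 0 := by
  unfold bb e2
  rw [de_M0, de_M3]
  unfold M0 M3 N0 N3 cc
  ring

theorem cV_03 : M0 * de N3 - M3 * de N0 + N0 * aa N3 - N3 * aa N0
    + (M3 * N0 - M0 * N3) * (2 * x) = 0 := by
  rw [de_N0, de_N3, aa_N0, aa_N3]
  unfold M0 M3 N0 N3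
  ring

theorem cDV_03 : N0 * bb N3 - N3 * bb N0 = 0 := by
  unfold bb
  rw [de_N0, de_N3]
  unfold N0 N3 cc
  ring

theorem comm_03 {R : Type} [Ring R] {φ : S →+* R} {P Q : R} (h : Rel φ P Q) :
    FF φ P Q W0 M0 N0 * FF φ P Q W3 M3 N3 - FF φ P Q W3 M3 N3 * FF φ P Q W0 M0 N0 = -3600 := by
  rw [comm h, c0_03, cD_03, cDD_03, cV_03, cDV_03]
  simp only [map_zero, zero_mul, add_zero, map_neg]
  rw [map_ofNat φ 3600]

end TH207.Dx
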