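import Pool.Agent.TH207.DzA
import Pool.Agent.TH207.DzB

/-!
# Commutator of the operators 1 and 2
-/

set_option autoImplicit false
set_option maxHeartbeats 4000000

open MvPolynomial

namespace TH207.Dx

theorem c0_12 : M1 * de W2 - M2 * de W1 + N1 * aa W2 - N2 * aa W1
    + (M2 * N1 - M1 * N2) * e0 = 18000 := by
  rw [de_W1, de_W2, aa_W1, aa_W2, e0_eq]
  unfold M1 M2 N1 N2
  ring

theorem cD_12 : M1 * de M2 - M2 * de M1 + N1 * aa M2 - N2 * aa M1 + N1 * bb W2 - N2 * bb W1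
    + (M2 * N1 - M1 * N2) * e1 = 0 := by
  unfold bb
  rw [de_W1, de_W2, de_M1, de_M2, aa_M1, aa_M2, e1_eq]
  unfold M1 M2 N1 N2 cc
  ring

theorem cDD_12 : N1 * bb M2 - N2 * bb M1 + (M2 * N1 - M1 * N2) * e2 = 0 := by
  unfold bb e2
  rw [de_M1, de_M2]
  unfold M1 M2 N1 N2 cc
  ring

theorem cV_12 : M1 * de N2 - M2 * de N1 + N1 * aa N2 - N2 * aa N1
    + (M2 * N1 - M1 * N2) * (2 * x) = 0 := by
  rw [de_N1, de_N2, aa_N1, aa_N2]
  unfold M1 M2 N1 N2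
  ring

theorem cDV_12 : N1 * bb N2 - N2 * bb N1 = 0 := by
  unfold bb
  rw [de_N1, de_N2]
  unfold N1 N2 cc
  ring

theorem comm_12 {R : Type} [Ring R] {φ : S →+* R} {P Q : R} (h : Rel φ P Q) :
    FF φ P Q W1 M1 N1 * FF φ P Q W2 M2 N2 - FF φ P Q W2 M2 N2 * FF φ P Q W1 M1 N1 = 18000 := by
  rw [comm h, c0_12, cD_12, cDD_12, cV_12, cDV_12]
  simp only [map_zero, zero_mul, add_zero, map_neg]
  rw [map_ofNat φ 18000]

end TH207.Dx
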