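import Pool.Agent.TH207.DzA
import Pool.Agent.TH207.DzB

/-!
# Commutator of the operators 1 and 3
-/

set_option autoImplicit false
set_option maxHeartbeats 4000000

open MvPolynomial

namespace TH207.Dx

theorem c0_13 : M1 * de W3 - M3 * de W1 + N1 * aa W3 - N3 * aa W1
    + (M3 * N1 - M1 * N3) * e0 = 0 := by
  rw [de_W1, de_W3, aa_W1, aa_W3, e0_eq]
  unfold M1 M3 N1 N3
  ring

theorem cD_13 : M1 * de M3 - M3 * de M1 + N1 * aa M3 - N3 * aa M1 + N1 * bb W3 - N3 * bb W1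
    + (M3 * N1 - M1 * N3) * e1 = 0 := by
  unfold bb
  rw [de_W1, de_W3, de_M1, de_M3, aa_M1, aa_M3, e1_eq]
  unfold M1 M3 N1 N3 cc
  ring

theorem cDD_13 : N1 * bb M3 - N3 * bb M1 + (M3 * N1 - M1 * N3) * e2 = 0 := by
  unfold bb e2
  rw [de_M1, de_M3]
  unfold M1 M3 N1 N3 cc
  ring

theorem cV_13 : M1 * de N3 - M3 * de N1 + N1 * aa N3 - N3 * aa N1
    + (M3 * N1 - M1 * N3) * (2 * x) = 0 := by
  rw [de_N1, de_N3, aa_N1, aa_N3]
  unfold M1 M3 N1 N3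
  ring

theorem cDV_13 : N1 * bb N3 - N3 * bb N1 = 0 := by
  unfold bb
  rw [de_N1, de_N3]
  unfold N1 N3 cc
  ring

theorem comm_13 {R : Type} [Ring R] {φ : S →+* R} {P Q : R} (h : Rel φ P Q) :
    FF φ P Q W1 M1 N1 * FF φ P Q W3 M3 N3 - FF φ P Q W3 M3 N3 * FF φ P Q W1 M1 N1 = 0 := by
  rw [comm h, c0_13, cD_13, cDD_13, cV_13, cDV_13]
  simp

end TH207.Dx
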