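import Pool.Agent.TH207.DzA
import Pool.Agent.TH207.DzB

/-!
# Commutator of the operators 2 and 3
-/

set_option autoImplicit false
set_option maxHeartbeats 4000000

open MvPolynomial

namespace TH207.Dx

theorem c0_23 : M2 * de W3 - M3 * de W2 + N2 * aa W3 - N3 * aa W2
    + (M3 * N2 - M2 * N3) * e0 = 0 := by
  rw [de_W2, de_W3, aa_W2, aa_W3, e0_eq]
  unfold M2 M3 N2 N3
  ring

theorem cD_23 : M2 * de M3 - M3 * de M2 + N2 * aa M3 - N3 * aa M2 + N2 * bb W3 - N3 * bb W2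
    + (M3 * N2 - M2 * N3) * e1 = 0 := by
  unfold bb
  rw [de_W2, de_W3, de_M2, de_M3, aa_M2, aa_M3, e1_eq]
  unfold M2 M3 N2 N3 cc
  ring

theorem cDD_23 : N2 * bb M3 - N3 * bb M2 + (M3 * N2 - M2 * N3) * e2 = 0 := by
  unfold bb e2
  rw [de_M2, de_M3]
  unfold M2 M3 N2 N3 cc
  ring

theorem cV_23 : M2 * de N3 - M3 * de N2 + N2 * aa N3 - N3 * aa N2
    + (M3 * N2 - M2 * N3) * (2 * x) = 0 := by
  rw [de_N2, de_N3, aa_N2, aa_N3]
  unfold M2 M3 N2 N3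
  ring

theorem cDV_23 : N2 * bb N3 - N3 * bb N2 = 0 := by
  unfold bb
  rw [de_N2, de_N3]
  unfold N2 N3 cc
  ring

theorem comm_23 {R : Type} [Ring R] {φ : S →+* R} {P Q : R} (h : Rel φ P Q) :
    FF φ P Q W2 M2 N2 * FF φ P Q W3 M3 N3 - FF φ P Q W3 M3 N3 * FF φ P Q W2 M2 N2 = 0 := by
  rw [comm h, c0_23, cD_23, cDD_23, cV_23, cDV_23]
  simp

end TH207.Dx
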