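import Pool.Agent.TH207.Dy

/-!
# Representations by differential operators with Laurent coefficients
-/

set_option autoImplicit false
set_option linter.unusedSimpArgs false
set_option maxHeartbeats 4000000

open MvPolynomial

namespace TH207.Dx

section ids

variable {L : Type} [CommRing L]

/-- evaluation at a pair -/
noncomputable def ev (X Y : L) : S →+* L := MvPolynomial.eval₂Hom (Int.castRingHom L) ![X, Y]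

theorem ev_x (X Y : L) : ev X Y x = X := by simp [ev]

theorem ev_y (X Y : L) : ev X Y y = Y := by simp [ev]

/-- Laurent polynomial `60 α` -/
def aL (X Xi Y : L) : L :=
  2 * Xi ^ 2 - 2 * Y * Xi + 2 * Y ^ 2 - 14 + 36 * X * Y - 2 * X * Y ^ 3 + 70 * X ^ 3

/-- its derivative -/
def saL (X Xi Y : L) : L :=
  X^2*((-6*Y) + Xi*(6)) + X^3*((-36 + 6*Y^2)) + X^4*((-36*Y + 2*Y^3)) + X^6*((-210))

/-- Laurent polynomial `60 β` -/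
def bL (Xi Y : L) : L := -2 * Xi ^ 4 - 2 * Xi ^ 3 * Y + 54 * Xi ^ 2 - 9 * Xi ^ 2 * Y ^ 2

def k' (X Y : L) : L := 15 + 28 * Y ^ 2 - Y ^ 4 + X * (-18 * Y + 19 * Y ^ 3 - Y ^ 5)

def HL (X Xi Y v : L) : L :=
  4 * X ^ 5 * v + 4 * (8 * X ^ 3 - (Y + Xi)) * aL X Xi Y
    + ((Y + Xi) ^ 2 - 1) * X ^ 3 * aL X Xi Y ^ 2
    - 20 * ((Y + Xi) ^ 2 - 1) * X ^ 3 * saL X Xi Y - 4 * X ^ 3 * bL Xi Y


def eta0 (_t : L) : L := 1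

def etp0 (_t : L) : L := 0

def Z0 (t c ci : L) : L := -4*ci+c*(-44-120*t-140*t^2+4*t^4)

def eta1 (t : L) : L := (-5*t^2)

def etp1 (t : L) : L := (-10*t)

def Z1 (t c ci : L) : L := -80*ci+20*ci*t^2-640*t+c*(220*t^2+600*t^3+700*t^4-20*t^6)

def eta2 (t : L) : L := (5*t^3+15*t)

def etp2 (t : L) : L := (15*t^2+15)

def Z2 (t c ci : L) : L := 60*ci*t-20*ci*t^3+960+480*t^2+c*(-660*t-1800*t^2-2320*t^3-600*t^4-640*t^5+20*t^7)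

def eta3 (t : L) : L := (-t^5+5*t^3)

def etp3 (t : L) : L := (-5*t^4+15*t^2)

def Z3 (t c ci : L) : L := 240*ci*t-60*ci*t^3+4*ci*t^5+960*t^2-80*t^4+c*(-220*t^3-600*t^4-656*t^5+120*t^6+160*t^7-4*t^9)

variable {X Xi Y : L} (hX : X * Xi = 1)

include hX

theorem ev_cc : ev X Y cc = 100 * (X ^ 2 * ((Y + Xi) ^ 2 - 1)) := by
  unfold cc
  simp only [map_add, map_sub, map_mul, map_neg, map_pow, map_ofNat, map_one, ev_x, ev_y]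
  linear_combination 100 * (((-1)) + X*((-2*Y) + Xi*(-1))) * hX

omit hX in
theorem ev_kk : ev X Y kk = 20 * k' X Y := by
  unfold kk k'
  simp only [map_add, map_sub, map_mul, map_neg, map_pow, map_ofNat, map_one, ev_x, ev_y]

theorem I4 : -20 * (1 - X * Y) * X - 12 * X + 4 * k' X Y * X ^ 3 + 140 * X ^ 6 * ((Y + Xi) ^ 2 - 1) =
    4 * (8 * X ^ 3 - (Y + Xi)) + 2 * ((Y + Xi) ^ 2 - 1) * X ^ 3 * aL X Xi Y := by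
  unfold k' aL
  linear_combination (((-4*Y) + Xi*(-4)) + X*((32) + Xi*(-4*Y) + Xi^2*(-4)) + X^2*((-20*Y) + Xi*(32) + Xi^2*(-4*Y) + Xi^3*(-4)) + X^3*((-144*Y^2 + 8*Y^4) + Xi*(-72*Y + 4*Y^3))) * hX

theorem evN0 : ev X Y N0 = X ^ 5 * eta0 (Y + Xi) := by
  have _h := hX
  unfold N0 eta0
  simp only [map_add, map_sub, map_mul, map_neg, map_pow, map_ofNat, map_one, ev_x, ev_y]

theorem evM0 : ev X Y M0 = 20 * (-X ^ 2 * etp0 (Y + Xi) + 5 * (1 - X * Y) * X ^ 3 * eta0 (Y + Xi)) := by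
  unfold M0 eta0 etp0
  simp only [map_add, map_sub, map_mul, map_neg, map_pow, map_ofNat, map_one, ev_x, ev_y]
  linear_combination (0) * hX

theorem evN1 : ev X Y N1 = X ^ 5 * eta1 (Y + Xi) := by
  unfold N1 eta1
  simp only [map_add, map_sub, map_mul, map_neg, map_pow, map_ofNat, map_one, ev_x, ev_y]
  linear_combination (X^3*((5)) + X^4*((10*Y) + Xi*(5))) * hX

theorem evM1 : ev X Y M1 = 20 * (-X ^ 2 * etp1 (Y + Xi) + 5 * (1 - X * Y) * X ^ 3 * eta1 (Y + Xi)) := by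
  unfold M1 eta1 etp1
  simp only [map_add, map_sub, map_mul, map_neg, map_pow, map_ofNat, map_one, ev_x, ev_y]
  linear_combination (X*((300)) + X^2*((500*Y) + Xi*(500)) + X^3*((-1000*Y^2) + Xi*(-500*Y))) * hX

theorem evN2 : ev X Y N2 = X ^ 5 * eta2 (Y + Xi) := by
  unfold N2 eta2
  simp only [map_add, map_sub, map_mul, map_neg, map_pow, map_ofNat, map_one, ev_x, ev_y]
  linear_combination (X^2*((-5)) + X^3*((-15*Y) + Xi*(-5)) + X^4*((-15 - 15*Y^2) + Xi*(-15*Y) + Xi^2*(-5))) * hX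

theorem evM2 : ev X Y M2 = 20 * (-X ^ 2 * etp2 (Y + Xi) + 5 * (1 - X * Y) * X ^ 3 * eta2 (Y + Xi)) := by
  unfold M2 eta2 etp2
  simp only [map_add, map_sub, map_mul, map_neg, map_pow, map_ofNat, map_one, ev_x, ev_y]
  linear_combination (((-200)) + X*((-400*Y) + Xi*(-200)) + X^2*((-1500) + Xi*(-1000*Y) + Xi^2*(-500)) + X^3*((1500*Y + 1500*Y^3) + Xi*(1500*Y^2) + Xi^2*(500*Y))) * hX

theorem evN3 : ev X Y N3 = X ^ 5 * eta3 (Y + Xi) := by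
  unfold N3 eta3
  simp only [map_add, map_sub, map_mul, map_neg, map_pow, map_ofNat, map_one, ev_x, ev_y]
  linear_combination (((1)) + X*((5*Y) + Xi*(1)) + X^2*((-5 + 10*Y^2) + Xi*(5*Y) + Xi^2*(1)) + X^3*((-15*Y + 10*Y^3) + Xi*(-5 + 10*Y^2) + Xi^2*(5*Y) + Xi^3*(1)) + X^4*((-15*Y^2 + 5*Y^4) + Xi*(-15*Y + 10*Y^3) + Xi^2*(-5 + 10*Y^2) + Xi^3*(5*Y) + Xi^4*(1))) * hX

theorem evM3 : ev X Y M3 = 20 * (-X ^ 2 * etp3 (Y + Xi) + 5 * (1 - X * Y) * X ^ 3 * eta3 (Y + Xi)) := by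
  unfold M3 eta3 etp3
  simp only [map_add, map_sub, map_mul, map_neg, map_pow, map_ofNat, map_one, ev_x, ev_y]
  linear_combination (((-200 - 100*Y^2)) + X*((-400*Y - 400*Y^3) + Xi*(-200 - 100*Y^2)) + X^2*((-500*Y^4) + Xi*(-1000*Y) + Xi^2*(-500 + 500*Y^2) + Xi^3*(400*Y) + Xi^4*(100)) + X^3*((1500*Y^3 - 500*Y^5) + Xi*(1500*Y^2 - 1000*Y^4) + Xi^2*(500*Y - 1000*Y^3) + Xi^3*(-500*Y^2) + Xi^4*(-100*Y))) * hX

theorem ZZ0 : 4 * ev X Y W0 + 4 * etp0 (Y + Xi) * aL X Xi Y + eta0 (Y + Xi) * HL X Xi Y (ev X Y vv) =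
    Z0 (Y + Xi) (X ^ 3) (Xi ^ 3) := by
  unfold W0 eta0 etp0 HL Z0 aL saL bL vv
  simp only [map_add, map_sub, map_mul, map_neg, map_pow, map_ofNat, map_one, ev_x, ev_y]
  linear_combination (((-56*Y + 8*Y^3) + Xi*(-56) + Xi^3*(4)) + X*((240 + 144*Y^2 - 8*Y^4) + Xi*(88*Y) + Xi^2*(-56) + Xi^4*(4)) + X^2*((-600*Y) + Xi*(240 + 144*Y^2 - 8*Y^4) + Xi^2*(88*Y) + Xi^3*(-56) + Xi^5*(4)) + X^3*((160*Y - 576*Y^2 + 104*Y^4 - 4*Y^6) + Xi*(160 - 1152*Y + 64*Y^3) + Xi^2*(144*Y^2 - 8*Y^4) + Xi^3*(144*Y - 8*Y^3)) + X^4*((-1400 + 2592*Y^3 - 288*Y^5 + 8*Y^7) + Xi*(160*Y + 1296*Y^2 - 144*Y^4 + 4*Y^6) + Xi^2*(160)) + X^5*((3560*Y - 280*Y^3) + Xi*(-1520 - 120*Y^2) + Xi^2*(280*Y) + Xi^3*(280)) + X^6*((11520*Y^2 - 640*Y^4) + Xi*(5760*Y - 320*Y^3)) + X^7*((9100)) + X^8*((18200*Y) + Xi*(9100))) * hX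

theorem ZZ1 : 4 * ev X Y W1 + 4 * etp1 (Y + Xi) * aL X Xi Y + eta1 (Y + Xi) * HL X Xi Y (ev X Y vv) =
    Z1 (Y + Xi) (X ^ 3) (Xi ^ 3) := by
  have h0 := ZZ0 hX (Y := Y)
  have h1 : HL X Xi Y (ev X Y vv) = Z0 (Y + Xi) (X ^ 3) (Xi ^ 3) - 4 * ev X Y W0 := by
    rw [← h0]; unfold eta0 etp0; ring
  rw [h1]
  unfold W1 W0 eta1 etp1 Z0 Z1 aL
  simp only [map_add, map_sub, map_mul, map_neg, map_pow, map_ofNat, map_one, ev_x, ev_y]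
  linear_combination (((-840*Y + 80*Y^3) + Xi*(-1200)) + X*((3000 + 6600*Y^2 - 200*Y^4) + Xi*(3000*Y)) + X^2*((4200 - 4800*Y - 5400*Y^3) + Xi*(3000 + 600*Y^2 - 200*Y^4)) + X^3*((14000*Y - 21600*Y^2 - 13200*Y^4 + 800*Y^6) + Xi*(7000 - 10800*Y - 6600*Y^3 + 400*Y^5))) * hX

theorem ZZ2 : 4 * ev X Y W2 + 4 * etp2 (Y + Xi) * aL X Xi Y + eta2 (Y + Xi) * HL X Xi Y (ev X Y vv) =
    Z2 (Y + Xi) (X ^ 3) (Xi ^ 3) := by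
  have h0 := ZZ0 hX (Y := Y)
  have h1 : HL X Xi Y (ev X Y vv) = Z0 (Y + Xi) (X ^ 3) (Xi ^ 3) - 4 * ev X Y W0 := by
    rw [← h0]; unfold eta0 etp0; ring
  rw [h1]
  unfold W2 W0 eta2 etp2 Z0 Z2 aL
  simp only [map_add, map_sub, map_mul, map_neg, map_pow, map_ofNat, map_one, ev_x, ev_y]
  linear_combination (((600 - 1680*Y^2 - 40*Y^4) + Xi*(2760*Y - 120*Y^3) + Xi^2*(1200)) + X*((-2800 - 7200*Y - 4200*Y^3 + 200*Y^5) + Xi*(-3000 - 9600*Y^2 + 200*Y^4) + Xi^2*(-3000*Y)) + X^2*((-9000 - 12600*Y + 21600*Y^2 + 18600*Y^4 - 600*Y^6) + Xi*(-2800 + 1800*Y + 4800*Y^3 + 200*Y^5) + Xi^2*(-3000 - 600*Y^2 + 200*Y^4)) + X^3*((-21000 + 32400*Y - 21000*Y^2 + 52200*Y^3 + 18600*Y^5 - 1200*Y^7) + Xi*(-21000*Y + 32400*Y^2 + 19800*Y^4 - 1200*Y^6) + Xi^2*(-7000 + 10800*Y + 6600*Y^3 - 400*Y^5))) * hX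

theorem ZZ3 : 4 * ev X Y W3 + 4 * etp3 (Y + Xi) * aL X Xi Y + eta3 (Y + Xi) * HL X Xi Y (ev X Y vv) =
    Z3 (Y + Xi) (X ^ 3) (Xi ^ 3) := by
  have h0 := ZZ0 hX (Y := Y)
  have h1 : HL X Xi Y (ev X Y vv) = Z0 (Y + Xi) (X ^ 3) (Xi ^ 3) - 4 * ev X Y W0 := by
    rw [← h0]; unfold eta0 etp0; ring
  rw [h1]
  unfold W3 W0 eta3 etp3 Z0 Z3 aL
  simp only [map_add, map_sub, map_mul, map_neg, map_pow, map_ofNat, map_one, ev_x, ev_y]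
  linear_combination (((-3000 + 1400*Y - 6480*Y^2 - 3520*Y^4 + 160*Y^6) + Xi*(3600*Y - 1560*Y^3 + 120*Y^5) + Xi^2*(1800 - 2160*Y^2 + 120*Y^4) + Xi^3*(-1320*Y + 40*Y^3) + Xi^4*(-240)) + X*((-2800 + 1800*Y + 5600*Y^2 - 19800*Y^3 - 8800*Y^5 + 400*Y^7) + Xi*(-3000 + 1400*Y - 14400*Y^2 + 800*Y^4) + Xi^2*(-2160*Y + 5280*Y^3 - 120*Y^5) + Xi^3*(600 + 3120*Y^2 - 40*Y^4) + Xi^4*(600*Y)) + X^2*((-12600*Y + 23400*Y^2 + 8400*Y^3 - 600*Y^4 - 13200*Y^6 + 600*Y^8) + Xi*(-2800 + 1800*Y + 5600*Y^2 - 10800*Y^3 - 11800*Y^5 + 400*Y^7) + Xi^2*(-3000 + 1400*Y - 5400*Y^2 - 5200*Y^4) + Xi^3*(840*Y - 720*Y^3 - 120*Y^5) + Xi^4*(600 + 120*Y^2 - 40*Y^4)) + X^3*((-21000*Y^2 + 32400*Y^3 + 7000*Y^4 + 9000*Y^5 - 7800*Y^7 + 400*Y^9) + Xi*(-21000*Y + 32400*Y^2 + 14000*Y^3 - 1800*Y^4 - 14400*Y^6 + 800*Y^8) + Xi^2*(-7000 + 10800*Y + 14000*Y^2 - 15000*Y^3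 - 13600*Y^5 + 800*Y^7) + Xi^3*(7000*Y - 10800*Y^2 - 6600*Y^4 + 400*Y^6) + Xi^4*(1400 - 2160*Y - 1320*Y^3 + 80*Y^5))) * hX

end ids

end TH207.Dx
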