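import Pool.Agent.TH207.Dr

/-!
# The representation attached to a cube root
-/

set_option autoImplicit false
set_option maxHeartbeats 4000000
set_option linter.unusedSimpArgs false

open MvPolynomial

namespace TH207.Dx

variable {K L : Type} [Field K] [CommRing L] [Algebra K L]

/-- first order differential operators -/
noncomputable def op (σ τ : Derivation K L L) (u v w : L) : Module.End K L :=
  Algebra.lmul K L u * (σ : L →ₗ[K] L) + Algebra.lmul K L v * (τ : L →ₗ[K] L)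
    + Algebra.lmul K L w

theorem op_apply (σ τ : Derivation K L L) (u v w g : L) :
    op σ τ u v w g = u * σ g + v * τ g + w * g := by
  simp [op]

/-- multiplication operators -/
noncomputable def ph (K : Type) {L : Type} [Field K] [CommRing L] [Algebra K L] (X Y : L) :
    S →+* Module.End K L :=
  (Algebra.lmul K L : L →ₐ[K] Module.End K L).toRingHom.comp (ev X Y)

theorem ph_apply (X Y g : L) (p : S) : ph K X Y p g = ev X Y p * g := by
  simp [ph]

variable (σ τ : Derivation K L L) (X Xi Y r : L)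

/-- the operator of `∂/∂x` -/
noncomputable def PP : Module.End K L :=
  op σ τ (-Xi ^ 4) (-Xi ^ 2) (r * (-3 * Xi ^ 4 * aL X Xi Y - Xi ^ 2 * bL Xi Y))

/-- the operator of `∂/∂y` -/
noncomputable def QQ : Module.End K L := op σ τ 0 1 (r * bL Xi Y)

variable {σ τ X Xi Y r}

theorem sXi (hX : X * Xi = 1) (sX : σ X = -X ^ 4) : σ Xi = X ^ 2 := by
  have h := congrArg σ hX
  rw [Derivation.leibniz, Derivation.map_one_eq_zero, smul_eq_mul, smul_eq_mul, sX] at h
  linear_combination Xi * h - (σ Xi) * hX + (X ^ 3 * Xi + X ^ 2) * hX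

theorem tXi (hX : X * Xi = 1) (tX : τ X = 0) : τ Xi = 0 := by
  have h := congrArg τ hX
  rw [Derivation.leibniz, Derivation.map_one_eq_zero, smul_eq_mul, smul_eq_mul, tX] at h
  linear_combination Xi * h - (τ Xi) * hX

theorem s_a (hX : X * Xi = 1) (sX : σ X = -X ^ 4) (sY : σ Y = -X ^ 2) :
    σ (aL X Xi Y) = saL X Xi Y := by
  unfold aL saL
  have h : ∀ (n : ℕ) [n.AtLeastTwo], σ (ofNat(n) : L) = 0 := fun n _ => by
    have : (ofNat(n) : L) = ((n : ℕ) : L) := Nat.cast_ofNat.symm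
    rw [this]; exact Derivation.map_natCast σ n
  simp only [map_add, map_sub, map_neg, Derivation.leibniz, Derivation.leibniz_pow, smul_eq_mul,
    nsmul_eq_mul, h, sX, sY, sXi hX sX]
  push_cast
  ring

theorem tau_sigma (hX : X * Xi = 1) (sX : σ X = -X ^ 4) (sY : σ Y = -X ^ 2) (tX : τ X = 0)
    (tY : τ Y = 1) : 3 * τ (aL X Xi Y) = σ (bL Xi Y) := by
  have h : ∀ (n : ℕ) [n.AtLeastTwo], σ (ofNat(n) : L) = 0 := fun n _ => by
    have : (ofNat(n) : L) = ((n : ℕ) : L) := Nat.cast_ofNat.symm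
    rw [this]; exact Derivation.map_natCast σ n
  have h' : ∀ (n : ℕ) [n.AtLeastTwo], τ (ofNat(n) : L) = 0 := fun n _ => by
    have : (ofNat(n) : L) = ((n : ℕ) : L) := Nat.cast_ofNat.symm
    rw [this]; exact Derivation.map_natCast τ n
  unfold aL bL
  simp only [map_add, map_sub, map_neg, Derivation.leibniz, Derivation.leibniz_pow, smul_eq_mul,
    nsmul_eq_mul, h, h', sX, sY, sXi hX sX, tX, tY, tXi hX tX, map_mul]
  push_cast
  linear_combination ((-12 * Y) + Xi * 6 + X * ((-108 + 18 * Y ^ 2) + Xi * (-12 * Y) + Xi ^ 2 * 6)) * hX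

/-- the Weyl relations -/
theorem rel (hX : X * Xi = 1) (sX : σ X = -X ^ 4) (sY : σ Y = -X ^ 2) (tX : τ X = 0)
    (tY : τ Y = 1) (hc : ∀ g, σ (τ g) = τ (σ g)) (sr : σ r = 0) (tr : τ r = 0) :
    Rel (ph K X Y) (PP σ τ X Xi Y r) (QQ σ τ Xi Y r) := by
  have hab := tau_sigma hX sX sY tX tY
  have hXi := sXi hX sX
  have hTi := tXi hX tX
  refine ⟨?_, ?_, ?_, ?_, ?_⟩
  · apply LinearMap.ext; intro g
    simp only [PP, Module.End.mul_apply, LinearMap.add_apply, Module.End.one_apply, op_apply,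
      ph_apply, ev_x, ev_y, Derivation.leibniz, smul_eq_mul, sX, sY, tX, tY]
    linear_combination (g * (X ^ 3 * Xi ^ 3 + X ^ 2 * Xi ^ 2 + X * Xi + 1)) * hX
  · apply LinearMap.ext; intro g
    simp only [PP, Module.End.mul_apply, LinearMap.add_apply, Module.End.one_apply, op_apply,
      ph_apply, ev_x, ev_y, Derivation.leibniz, smul_eq_mul, sX, sY, tX, tY]
    linear_combination (g * Xi ^ 2 * (X * Xi + 1)) * hX
  · apply LinearMap.ext; intro g
    simp only [QQ, Module.End.mul_apply, LinearMap.add_apply, Module.End.one_apply, op_apply,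
      ph_apply, ev_x, ev_y, Derivation.leibniz, smul_eq_mul, sX, sY, tX, tY]
    ring
  · apply LinearMap.ext; intro g
    simp only [QQ, Module.End.mul_apply, LinearMap.add_apply, Module.End.one_apply, op_apply,
      ph_apply, ev_x, ev_y, Derivation.leibniz, smul_eq_mul, sX, sY, tX, tY]
    ring
  · have h' : ∀ (n : ℕ) [n.AtLeastTwo], τ (ofNat(n) : L) = 0 := fun n _ => by
      have : (ofNat(n) : L) = ((n : ℕ) : L) := Nat.cast_ofNat.symm
      rw [this]; exact Derivation.map_natCast τ n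
    apply LinearMap.ext; intro g
    simp only [PP, QQ, Module.End.mul_apply, op_apply]
    generalize ha : aL X Xi Y = a at *
    generalize hb : bL Xi Y = b at *
    simp only [map_add, map_sub, map_neg, Derivation.leibniz, Derivation.leibniz_pow, smul_eq_mul,
      nsmul_eq_mul, hc, hXi, hTi, sr, tr, Derivation.map_one_eq_zero, map_zero, h', neg_mul,
      zero_mul, mul_zero, one_mul, smul_zero]
    linear_combination (r * g * Xi ^ 4) * hab

theorem D20 (hX : X * Xi = 1) (hr : 60 * r = 1) (g : L) :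
    20 * DD (ph K X Y) (PP σ τ X Xi Y r) (QQ σ τ Xi Y r) g =
      -Xi ^ 2 * (20 * σ g + aL X Xi Y * g) := by
  simp only [DD, PP, QQ, LinearMap.add_apply, Module.End.mul_apply, op_apply, ph_apply]
  rw [map_pow, ev_x]
  generalize aL X Xi Y = a
  generalize bL Xi Y = b
  have e : X ^ 2 * Xi ^ 2 = 1 := by rw [← mul_pow, hX, one_pow]
  linear_combination (-20 * Xi ^ 2 * σ g - 20 * τ g - 60 * r * Xi ^ 2 * a * g - 20 * r * b * g) * e
    - Xi ^ 2 * a * g * hr

theorem PP60 (hr : 60 * r = 1) (g : L) :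
    60 * PP (K := K) σ τ X Xi Y r g =
      -3 * Xi ^ 4 * (20 * σ g + aL X Xi Y * g) - Xi ^ 2 * (60 * τ g + bL Xi Y * g) := by
  simp only [PP, op_apply]
  generalize aL X Xi Y = a
  generalize bL Xi Y = b
  linear_combination (-3 * Xi ^ 4 * a * g - Xi ^ 2 * b * g) * hr

theorem DD400 (hX : X * Xi = 1) (sX : σ X = -X ^ 4) (sY : σ Y = -X ^ 2) (hr : 60 * r = 1) (g : L) :
    400 * DD (ph K X Y) (PP σ τ X Xi Y r) (QQ σ τ Xi Y r)
        (DD (ph K X Y) (PP σ τ X Xi Y r) (QQ σ τ Xi Y r) g) =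
      40 * Xi * (20 * σ g + aL X Xi Y * g) +
      Xi ^ 4 * (400 * σ (σ g) + 40 * aL X Xi Y * σ g + (20 * saL X Xi Y + aL X Xi Y ^ 2) * g) := by
  have h1 := D20 (K := K) (σ := σ) (τ := τ) (Y := Y) hX hr g
  have h2 := D20 (K := K) (σ := σ) (τ := τ) (Y := Y) hX hr
    (DD (ph K X Y) (PP σ τ X Xi Y r) (QQ σ τ Xi Y r) g)
  generalize DD (ph K X Y) (PP σ τ X Xi Y r) (QQ σ τ Xi Y r) (DD (ph K X Y) (PP σ τ X Xi Y r) (QQ σ τ Xi Y r) g) = dd at *
  generalize DD (ph K X Y) (PP σ τ X Xi Y r) (QQ σ τ Xi Y r) g = d at *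
  have h : ∀ (n : ℕ) [n.AtLeastTwo], σ (ofNat(n) : L) = 0 := fun n _ => by
    have : (ofNat(n) : L) = ((n : ℕ) : L) := Nat.cast_ofNat.symm
    rw [this]; exact Derivation.map_natCast σ n
  have hs := s_a hX sX sY
  have h3 := congrArg σ h1
  generalize aL X Xi Y = a at *
  generalize saL X Xi Y = sa at *
  simp only [map_add, map_sub, map_neg, Derivation.leibniz, Derivation.leibniz_pow, smul_eq_mul,
    nsmul_eq_mul, h, hs, sXi hX sX, mul_zero, add_zero] at h3
  push_cast at h3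
  have e : X ^ 2 * Xi ^ 3 = Xi := by linear_combination Xi * (X * Xi + 1) * hX
  linear_combination 20 * h2 - 20 * Xi ^ 2 * h3 - Xi ^ 2 * a * h1 + 40 * (20 * σ g + a * g) * e

theorem FF4 (hX : X * Xi = 1) (sX : σ X = -X ^ 4) (sY : σ Y = -X ^ 2) (hr : 60 * r = 1)
    (W M N : S) (et ep : L) (hN : ev X Y N = X ^ 5 * et)
    (hM : ev X Y M = 20 * (-X ^ 2 * ep + 5 * (1 - X * Y) * X ^ 3 * et)) (g : L) :
    4 * FF (ph K X Y) (PP σ τ X Xi Y r) (QQ σ τ Xi Y r) W M N g =
      (4 * ev X Y W + 4 * ep * aL X Xi Y + et * HL X Xi Y (ev X Y vv)) * g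
      + 80 * (ep + et * (8 * X ^ 3 - (Y + Xi))) * σ g
      - 400 * et * ((Y + Xi) ^ 2 - 1) * X ^ 3 * σ (σ g) - 240 * et * X ^ 3 * τ g := by
  have h1 := D20 (K := K) (σ := σ) (τ := τ) (Y := Y) hX hr g
  have h2 := DD400 (K := K) (σ := σ) (τ := τ) hX sX sY hr g
  have h3 := PP60 (K := K) (σ := σ) (τ := τ) (X := X) (Xi := Xi) (Y := Y) hr g
  have h4 := I4 hX (Y := Y)
  have hc := ev_cc hX (Y := Y)
  have hk := ev_kk (X := X) (Y := Y)
  have key : FF (ph K X Y) (PP σ τ X Xi Y r) (QQ σ τ Xi Y r) W M N g =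
      ev X Y W * g + ev X Y M * DD (ph K X Y) (PP σ τ X Xi Y r) (QQ σ τ Xi Y r) g
      + ev X Y N * (60 * PP σ τ X Xi Y r g
        - ev X Y kk * DD (ph K X Y) (PP σ τ X Xi Y r) (QQ σ τ Xi Y r) g
        - ev X Y cc * (DD (ph K X Y) (PP σ τ X Xi Y r) (QQ σ τ Xi Y r)
            (DD (ph K X Y) (PP σ τ X Xi Y r) (QQ σ τ Xi Y r) g)
          + 9 * X * DD (ph K X Y) (PP σ τ X Xi Y r) (QQ σ τ Xi Y r) g)
        + ev X Y vv * g) := by
    unfold FF VV
    simp only [LinearMap.add_apply, LinearMap.sub_apply, Module.End.mul_apply, ph_apply, map_mul,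
      map_ofNat, ev_x, Module.End.ofNat_apply, nsmul_eq_mul, Nat.cast_ofNat]
    ring
  rw [key, hN, hM, hk, hc]
  unfold HL
  generalize DD (ph K X Y) (PP σ τ X Xi Y r) (QQ σ τ Xi Y r) (DD (ph K X Y) (PP σ τ X Xi Y r) (QQ σ τ Xi Y r) g) = dd at *
  generalize DD (ph K X Y) (PP σ τ X Xi Y r) (QQ σ τ Xi Y r) g = d at *
  generalize PP (K := K) σ τ X Xi Y r g = pg at *
  generalize aL X Xi Y = a at *
  generalize saL X Xi Y = sa at *
  generalize bL Xi Y = b at *
  generalize k' X Y = k at *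
  generalize ev X Y vv = v at *
  generalize ev X Y W = w at *
  have e1 : X ^ 2 * Xi ^ 2 = 1 := by rw [← mul_pow, hX, one_pow]
  have e54 : X ^ 5 * Xi ^ 4 = X := by
    linear_combination X * (X ^ 2 * Xi ^ 2 + 1) * e1
  have e52 : X ^ 5 * Xi ^ 2 = X ^ 3 := by linear_combination X ^ 3 * e1
  have e32 : X ^ 3 * Xi ^ 2 = X := by linear_combination X * e1
  have e82 : X ^ 8 * Xi ^ 2 = X ^ 6 := by linear_combination X ^ 6 * e1
  have e71 : X ^ 7 * Xi = X ^ 6 := by linear_combination X ^ 6 * hX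
  have e74 : X ^ 7 * Xi ^ 4 = X ^ 3 := by linear_combination X ^ 3 * (X ^ 2 * Xi ^ 2 + 1) * e1
  generalize ht : Y + Xi = t at *
  generalize hs : σ g = s at *
  generalize hss : σ s = ss at *
  generalize hu : τ g = u at *
  linear_combination (4 * X ^ 5 * et) * h3
    + (4 * (-X ^ 2 * ep + 5 * (1 - X * Y) * X ^ 3 * et) - 4 * X ^ 5 * et * k
        - 180 * X ^ 5 * et * X ^ 2 * (t ^ 2 - 1) * X) * h1
    - X ^ 5 * et * X ^ 2 * (t ^ 2 - 1) * h2
    - 12 * et * (20 * s + a * g) * e54 - 4 * et * (60 * u + b * g) * e52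
    + 4 * ep * (20 * s + a * g) * e1 - 20 * (1 - X * Y) * et * (20 * s + a * g) * e32
    + 4 * k * et * (20 * s + a * g) * e52 + 180 * et * (t ^ 2 - 1) * (20 * s + a * g) * e82
    - 40 * et * (t ^ 2 - 1) * (20 * s + a * g) * e71
    - et * (t ^ 2 - 1) * (400 * ss + 40 * a * s + (20 * sa + a ^ 2) * g) * e74
    + et * (20 * s + a * g) * h4

end TH207.Dx
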