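import Pool.Agent.TH207.Ds
import Pool.Agent.TH207.Di01
import Pool.Agent.TH207.Di02
import Pool.Agent.TH207.Di03
import Pool.Agent.TH207.Di12
import Pool.Agent.TH207.Di13
import Pool.Agent.TH207.Di23

/-!
# The endomorphism is not surjective
-/

set_option autoImplicit false
set_option maxHeartbeats 4000000
set_option linter.unusedSimpArgs false

open MvPolynomial

namespace TH207.Dx

/-- polynomial maps into a noncommutative ring -/
theorem exists_phi {R : Type} [Ring R] (u v : R) (h : u * v = v * u) :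
    ∃ φ : S →+* R, φ x = u ∧ φ y = v := by
  have hcomm : ∀ a ∈ ({u, v} : Set R), ∀ b ∈ ({u, v} : Set R), a * b = b * a := by
    intro a ha b hb
    rcases ha with rfl | ha <;> rcases hb with rfl | hb
    · rfl
    · rw [Set.mem_singleton_iff] at hb; rw [hb, h]
    · rw [Set.mem_singleton_iff] at ha; rw [ha, h]
    · rw [Set.mem_singleton_iff] at ha hb; rw [ha, hb]
  letI : CommRing (Algebra.adjoin ℤ ({u, v} : Set R)) := Algebra.adjoinCommRingOfComm ℤ hcomm
  let a : Algebra.adjoin ℤ ({u, v} : Set R) := ⟨u, Algebra.subset_adjoin (by simp)⟩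
  let b : Algebra.adjoin ℤ ({u, v} : Set R) := ⟨v, Algebra.subset_adjoin (by simp)⟩
  let ψ : S →+* Algebra.adjoin ℤ ({u, v} : Set R) :=
    MvPolynomial.eval₂Hom (Int.castRingHom _) ![a, b]
  refine ⟨(Algebra.adjoin ℤ ({u, v} : Set R)).toSubring.subtype.comp ψ, ?_, ?_⟩
  · show ((ψ x : Algebra.adjoin ℤ ({u, v} : Set R)) : R) = u
    have : ψ x = a := by simp [ψ]
    rw [this]
  · show ((ψ y : Algebra.adjoin ℤ ({u, v} : Set R)) : R) = v
    have : ψ y = b := by simp [ψ]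
    rw [this]

section nat

variable {R B : Type} [Ring R] [Ring B]

theorem FF_nat (ρ : R →+* B) (φ : S →+* R) (ψ : S →+* B) (P Q : R) (hφ : ∀ g, ρ (φ g) = ψ g)
    (W M N : S) : ρ (FF φ P Q W M N) = FF ψ (ρ P) (ρ Q) W M N := by
  unfold FF VV DD
  simp only [map_add, map_sub, map_mul, hφ, map_ofNat]

end nat

section eq

theorem four_cancel (K : Type) {L : Type} [Field K] [CharZero K] [CommRing L] [Algebra K L]
    {a b : L} (h : 4 * a = 4 * b) : a = b := by
  have h4 : algebraMap K L (1 / 4) * 4 = 1 := by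
    have : (4 : L) = algebraMap K L 4 := by rw [map_ofNat]
    rw [this, ← map_mul]
    norm_num
  calc a = algebraMap K L (1 / 4) * 4 * a := by rw [h4, one_mul]
    _ = algebraMap K L (1 / 4) * (4 * a) := by ring
    _ = algebraMap K L (1 / 4) * (4 * b) := by rw [h]
    _ = algebraMap K L (1 / 4) * 4 * b := by ring
    _ = b := by rw [h4, one_mul]

variable {K L : Type} [Field K] [CharZero K] [CommRing L] [Algebra K L]
  {σ τ : Derivation K L L} {X Xi Y X' Xi' Y' r : L}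

theorem same (hX : X * Xi = 1) (sX : σ X = -X ^ 4) (sY : σ Y = -X ^ 2) (hr : 60 * r = 1)
    (hX' : X' * Xi' = 1) (sX' : σ X' = -X' ^ 4) (sY' : σ Y' = -X' ^ 2)
    (h3 : X ^ 3 = X' ^ 3) (hi3 : Xi ^ 3 = Xi' ^ 3) (ht : Y + Xi = Y' + Xi')
    (W M N : S) (et ep : L → L) (Z : L → L → L → L)
    (hN : ∀ {X Xi Y : L}, X * Xi = 1 → ev X Y N = X ^ 5 * et (Y + Xi))
    (hM : ∀ {X Xi Y : L}, X * Xi = 1 →
      ev X Y M = 20 * (-X ^ 2 * ep (Y + Xi) + 5 * (1 - X * Y) * X ^ 3 * et (Y + Xi)))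
    (hZ : ∀ {X Xi Y : L}, X * Xi = 1 →
      4 * ev X Y W + 4 * ep (Y + Xi) * aL X Xi Y + et (Y + Xi) * HL X Xi Y (ev X Y vv) =
        Z (Y + Xi) (X ^ 3) (Xi ^ 3)) :
    FF (ph K X Y) (PP σ τ X Xi Y r) (QQ σ τ Xi Y r) W M N =
      FF (ph K X' Y') (PP σ τ X' Xi' Y' r) (QQ σ τ Xi' Y' r) W M N := by
  apply LinearMap.ext
  intro g
  apply four_cancel K
  rw [FF4 hX sX sY hr W M N (et (Y + Xi)) (ep (Y + Xi)) (hN hX) (hM hX) g,
    FF4 hX' sX' sY' hr W M N (et (Y' + Xi')) (ep (Y' + Xi')) (hN hX') (hM hX') g, hZ hX, hZ hX',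
    ht, h3, hi3]

end eq

end TH207.Dx
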