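import Pool.Agent.TH207.Dt

/-!
# The second Weyl algebra has an endomorphism which is not surjective
-/

set_option autoImplicit false
set_option maxHeartbeats 4000000
set_option linter.unusedSimpArgs false

open MvPolynomial

namespace TH207.Dx

section weyl

variable (K : Type) [Field K]

/-- defining relations of the second Weyl algebra -/
def WR (a b : FreeAlgebra K (Fin 2 ⊕ Fin 2)) : Prop := ∃ i j : Fin 2,
  (a = FreeAlgebra.ι K (Sum.inl i : Fin 2 ⊕ Fin 2) * FreeAlgebra.ι K (Sum.inl j : Fin 2 ⊕ Fin 2) ∧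
    b = FreeAlgebra.ι K (Sum.inl j : Fin 2 ⊕ Fin 2) * FreeAlgebra.ι K (Sum.inl i : Fin 2 ⊕ Fin 2)) ∨
  (a = FreeAlgebra.ι K (Sum.inr i : Fin 2 ⊕ Fin 2) * FreeAlgebra.ι K (Sum.inr j : Fin 2 ⊕ Fin 2) ∧
    b = FreeAlgebra.ι K (Sum.inr j : Fin 2 ⊕ Fin 2) * FreeAlgebra.ι K (Sum.inr i : Fin 2 ⊕ Fin 2)) ∨
  (a = FreeAlgebra.ι K (Sum.inr i : Fin 2 ⊕ Fin 2) * FreeAlgebra.ι K (Sum.inl j : Fin 2 ⊕ Fin 2) ∧
    b = FreeAlgebra.ι K (Sum.inl j : Fin 2 ⊕ Fin 2) * FreeAlgebra.ι K (Sum.inr i : Fin 2 ⊕ Fin 2) +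
      (if i = j then (1 : FreeAlgebra K (Fin 2 ⊕ Fin 2)) else 0))

/-- the generators -/
def uu (i : Fin 2 ⊕ Fin 2) : RingQuot (WR K) := RingQuot.mkAlgHom K (WR K) (FreeAlgebra.ι K i)

theorem u_ll (i j : Fin 2) : uu K (Sum.inl i) * uu K (Sum.inl j) = uu K (Sum.inl j) * uu K (Sum.inl i) := by
  unfold uu
  rw [← map_mul, ← map_mul]
  exact RingQuot.mkAlgHom_rel K ⟨i, j, Or.inl ⟨rfl, rfl⟩⟩

theorem u_rr (i j : Fin 2) : uu K (Sum.inr i) * uu K (Sum.inr j) = uu K (Sum.inr j) * uu K (Sum.inr i) := by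
  unfold uu
  rw [← map_mul, ← map_mul]
  exact RingQuot.mkAlgHom_rel K ⟨i, j, Or.inr (Or.inl ⟨rfl, rfl⟩)⟩

theorem u_rl (i j : Fin 2) : uu K (Sum.inr i) * uu K (Sum.inl j) =
    uu K (Sum.inl j) * uu K (Sum.inr i) + (if i = j then 1 else 0) := by
  have h := RingQuot.mkAlgHom_rel K (s := WR K)
    (x := FreeAlgebra.ι K (Sum.inr i) * FreeAlgebra.ι K (Sum.inl j))
    (y := FreeAlgebra.ι K (Sum.inl j) * FreeAlgebra.ι K (Sum.inr i) + (if i = j then 1 else 0))
    ⟨i, j, Or.inr (Or.inr ⟨rfl, rfl⟩)⟩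
  rw [map_mul, map_add, map_mul] at h
  unfold uu
  rw [h]
  congr 1
  split_ifs
  · exact map_one _
  · exact map_zero _

variable {K}

/-- homomorphisms out of the Weyl algebra -/
noncomputable def lft {B : Type} [Ring B] [Algebra K B] (a b : Fin 2 → B)
    (haa : ∀ i j, a i * a j = a j * a i) (hbb : ∀ i j, b i * b j = b j * b i)
    (hba : ∀ i j, b i * a j = a j * b i + (if i = j then 1 else 0)) : RingQuot (WR K) →ₐ[K] B :=
  RingQuot.liftAlgHom K ⟨FreeAlgebra.lift K (Sum.elim a b), by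
    rintro p q ⟨i, j, (⟨rfl, rfl⟩ | ⟨rfl, rfl⟩ | ⟨rfl, rfl⟩)⟩
    · simp [haa i j]
    · simp [hbb i j]
    · rw [map_mul, map_add, map_mul]
      simp only [FreeAlgebra.lift_ι_apply, Sum.elim_inl, Sum.elim_inr]
      rw [hba i j]
      congr 1
      split_ifs
      · exact (map_one _).symm
      · exact (map_zero _).symm⟩

theorem lft_l {B : Type} [Ring B] [Algebra K B] (a b : Fin 2 → B) (haa) (hbb) (hba) (i : Fin 2) :
    lft (K := K) a b haa hbb hba (uu K (Sum.inl i)) = a i := by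
  unfold lft uu
  rw [RingQuot.liftAlgHom_mkAlgHom_apply]
  simp

theorem lft_r {B : Type} [Ring B] [Algebra K B] (a b : Fin 2 → B) (haa) (hbb) (hba) (i : Fin 2) :
    lft (K := K) a b haa hbb hba (uu K (Sum.inr i)) = b i := by
  unfold lft uu
  rw [RingQuot.liftAlgHom_mkAlgHom_apply]
  simp

theorem hext {B : Type} [Ring B] [Algebra K B] (f g : RingQuot (WR K) →ₐ[K] B)
    (hl : ∀ i, f (uu K (Sum.inl i)) = g (uu K (Sum.inl i)))
    (hr : ∀ i, f (uu K (Sum.inr i)) = g (uu K (Sum.inr i))) : f = g := by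
  apply RingQuot.ringQuot_ext' (S := K)
  apply FreeAlgebra.hom_ext
  funext i
  rcases i with i | i
  · exact hl i
  · exact hr i

/-- homomorphisms from `Rel` data -/
theorem lft_rel {B : Type} [Ring B] [Algebra K B] (φ : S →+* B) (P Q : B) (h : Rel φ P Q) :
    ∃ ρ : RingQuot (WR K) →ₐ[K] B, ρ (uu K (Sum.inl 0)) = φ x ∧ ρ (uu K (Sum.inl 1)) = φ y ∧
      ρ (uu K (Sum.inr 0)) = P ∧ ρ (uu K (Sum.inr 1)) = Q := by
  have haa : ∀ i j : Fin 2, ![φ x, φ y] i * ![φ x, φ y] j = ![φ x, φ y] j * ![φ x, φ y] i := by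
    intro i j
    fin_cases i <;> fin_cases j <;> simp [← map_mul, mul_comm]
  have hbb : ∀ i j : Fin 2, ![P, Q] i * ![P, Q] j = ![P, Q] j * ![P, Q] i := by
    intro i j
    fin_cases i <;> fin_cases j <;> simp [h.PQ]
  have hba : ∀ i j : Fin 2, ![P, Q] i * ![φ x, φ y] j =
      ![φ x, φ y] j * ![P, Q] i + (if i = j then 1 else 0) := by
    intro i j
    fin_cases i <;> fin_cases j <;> simp [h.Px, h.Py, h.Qx, h.Qy]
  refine ⟨lft _ _ haa hbb hba, ?_, ?_, ?_, ?_⟩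
  · rw [lft_l]; rfl
  · rw [lft_l]; rfl
  · rw [lft_r]; rfl
  · rw [lft_r]; rfl

end weyl

/-- the endomorphism, with its values -/
theorem exists_endo (K : Type) [Field K] [CharZero K] :
    ∃ (φ : S →+* RingQuot (WR K)) (f : RingQuot (WR K) →ₐ[K] RingQuot (WR K)),
      φ x = uu K (Sum.inl 0) ∧ φ y = uu K (Sum.inl 1) ∧
      f (uu K (Sum.inl 0)) = FF φ (uu K (Sum.inr 0)) (uu K (Sum.inr 1)) W0 M0 N0 ∧
      f (uu K (Sum.inl 1)) = (1 / 18000 : K) • FF φ (uu K (Sum.inr 0)) (uu K (Sum.inr 1)) W2 M2 N2 ∧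
      f (uu K (Sum.inr 0)) = (1 / 3600 : K) • FF φ (uu K (Sum.inr 0)) (uu K (Sum.inr 1)) W3 M3 N3 ∧
      f (uu K (Sum.inr 1)) = FF φ (uu K (Sum.inr 0)) (uu K (Sum.inr 1)) W1 M1 N1 := by
  obtain ⟨φ, hx, hy⟩ := exists_phi (uu K (Sum.inl 0)) (uu K (Sum.inl 1)) (u_ll K 0 1)
  set P := uu K (Sum.inr 0) with hP
  set Q := uu K (Sum.inr 1) with hQ
  have h : Rel φ P Q := by
    refine ⟨?_, ?_, ?_, ?_, ?_⟩
    · rw [hx, hP, u_rl K 0 0]; simp
    · rw [hy, hP, u_rl K 0 1]; simp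
    · rw [hx, hQ, u_rl K 1 0]; simp
    · rw [hy, hQ, u_rl K 1 1]; simp
    · rw [hP, hQ, u_rr K 0 1]
  have c01 := comm_01 h
  have c02 := comm_02 h
  have c03 := comm_03 h
  have c12 := comm_12 h
  have c13 := comm_13 h
  have c23 := comm_23 h
  set F0 := FF φ P Q W0 M0 N0
  set F1 := FF φ P Q W1 M1 N1
  set F2 := FF φ P Q W2 M2 N2
  set F3 := FF φ P Q W3 M3 N3
  have e01 : F0 * F1 = F1 * F0 := sub_eq_zero.mp c01
  have e02 : F0 * F2 = F2 * F0 := sub_eq_zero.mp c02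
  have e13 : F1 * F3 = F3 * F1 := sub_eq_zero.mp c13
  have e23 : F2 * F3 = F3 * F2 := sub_eq_zero.mp c23
  have e03 : F3 * F0 = F0 * F3 + 3600 := by
    have : F3 * F0 = F0 * F3 - (F0 * F3 - F3 * F0) := by abel
    rw [this, c03, sub_neg_eq_add]
  have e12 : F1 * F2 = F2 * F1 + 18000 := by rw [← c12]; abel
  have n1 : (1 / 3600 : K) • (3600 : RingQuot (WR K)) = 1 := by
    have : (3600 : RingQuot (WR K)) = (3600 : K) • 1 := by
      rw [← Algebra.algebraMap_eq_smul_one, map_ofNat]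
    rw [this, smul_smul]; norm_num
  have n2 : (1 / 18000 : K) • (18000 : RingQuot (WR K)) = 1 := by
    have : (18000 : RingQuot (WR K)) = (18000 : K) • 1 := by
      rw [← Algebra.algebraMap_eq_smul_one, map_ofNat]
    rw [this, smul_smul]; norm_num
  let a : Fin 2 → RingQuot (WR K) := ![F0, (1 / 18000 : K) • F2]
  let b : Fin 2 → RingQuot (WR K) := ![(1 / 3600 : K) • F3, F1]
  have haa : ∀ i j : Fin 2, a i * a j = a j * a i := by
    intro i j
    fin_cases i <;> fin_cases j <;>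
      simp [a, mul_smul_comm, smul_mul_assoc, e02]
  have hbb : ∀ i j : Fin 2, b i * b j = b j * b i := by
    intro i j
    fin_cases i <;> fin_cases j <;>
      simp [b, mul_smul_comm, smul_mul_assoc, e13]
  have hba : ∀ i j : Fin 2, b i * a j = a j * b i + (if i = j then 1 else 0) := by
    intro i j
    fin_cases i <;> fin_cases j
    · show (1 / 3600 : K) • F3 * F0 = F0 * (1 / 3600 : K) • F3 + (if (0 : Fin 2) = 0 then 1 else 0)
      rw [smul_mul_assoc, e03, smul_add, n1, mul_smul_comm]; simp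
    · show (1 / 3600 : K) • F3 * (1 / 18000 : K) • F2 =
        (1 / 18000 : K) • F2 * (1 / 3600 : K) • F3 + (if (0 : Fin 2) = 1 then 1 else 0)
      rw [smul_mul_assoc, mul_smul_comm, ← e23, smul_mul_assoc, mul_smul_comm, smul_comm]; simp
    · show F1 * F0 = F0 * F1 + (if (1 : Fin 2) = 0 then 1 else 0)
      rw [e01]; simp
    · show F1 * (1 / 18000 : K) • F2 = (1 / 18000 : K) • F2 * F1 + (if (1 : Fin 2) = 1 then 1 else 0)
      rw [smul_mul_assoc, mul_smul_comm, e12, smul_add, n2]; simp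
  refine ⟨φ, lft a b haa hbb hba, hx, hy, ?_, ?_, ?_, ?_⟩
  · rw [lft_l]; rfl
  · rw [lft_l]; rfl
  · rw [lft_r]; rfl
  · rw [lft_r]; rfl

section series

variable (K : Type) [Field K] [CharZero K]

abbrev LL := MvPowerSeries (Fin 2) K

/-- the unit `1 + u` -/
noncomputable def X1 : LL K := 1 + MvPowerSeries.X 0

noncomputable def Xi1 : LL K := (X1 K)⁻¹

theorem X1_mul : X1 K * Xi1 K = 1 := by
  apply MvPowerSeries.mul_inv_cancel
  simp [X1]

/-- the derivation `-(1+u)⁴ ∂/∂u` -/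
noncomputable def ss : Derivation K (LL K) (LL K) :=
  (-(X1 K) ^ 4) • MvPowerSeries.pderiv K 0

noncomputable def tt : Derivation K (LL K) (LL K) := MvPowerSeries.pderiv K 1

theorem ss_X1 : ss K (X1 K) = -(X1 K) ^ 4 := by
  unfold ss
  rw [Derivation.smul_apply, smul_eq_mul]
  have : MvPowerSeries.pderiv K 0 (X1 K) = 1 := by
    unfold X1
    rw [map_add, Derivation.map_one_eq_zero, MvPowerSeries.pderiv_X_self, zero_add]
  rw [this, mul_one]

theorem tt_X1 : tt K (X1 K) = 0 := by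
  unfold tt X1
  rw [map_add, Derivation.map_one_eq_zero, MvPowerSeries.pderiv_X_of_ne (by decide), zero_add]

theorem ss_t : ss K (MvPowerSeries.X 1) = 0 := by
  unfold ss
  rw [Derivation.smul_apply, MvPowerSeries.pderiv_X_of_ne (by decide), smul_zero]

theorem tt_t : tt K (MvPowerSeries.X 1) = 1 := by
  unfold tt
  rw [MvPowerSeries.pderiv_X_self]

theorem ss_tt (g : LL K) : ss K (tt K g) = tt K (ss K g) := by
  have h : MvPowerSeries.pderiv K 0 (MvPowerSeries.pderiv K 1 g) =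
      MvPowerSeries.pderiv K 1 (MvPowerSeries.pderiv K 0 g) := by
    ext n
    simp only [MvPowerSeries.coeff_pderiv]
    rw [add_right_comm n]
    simp
    ring
  have h1 := tt_X1 K
  unfold tt at *
  unfold ss
  rw [Derivation.smul_apply, Derivation.smul_apply, smul_eq_mul, smul_eq_mul, Derivation.leibniz,
    h, Derivation.map_neg, Derivation.leibniz_pow, h1]
  simp

end series

end TH207.Dx
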