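import Pool.Agent.TH207.Du

/-!
# Failure of the Dixmier conjecture for the second Weyl algebra
-/

set_option autoImplicit false
set_option maxHeartbeats 4000000

open MvPolynomial

namespace TH207.Dx

/-- data of a representation -/
theorem rep_of (K : Type) [Field K] [CharZero K] (w : K) (h3 : w ^ 3 = 1) :
    ∃ (X Xi Y : LL K), X * Xi = 1 ∧ ss K X = -X ^ 4 ∧ ss K Y = -X ^ 2 ∧ tt K X = 0 ∧ tt K Y = 1 ∧
      X = algebraMap K (LL K) w * X1 K ∧ X ^ 3 = X1 K ^ 3 ∧ Xi ^ 3 = Xi1 K ^ 3 ∧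
      Y + Xi = MvPowerSeries.X 1 := by
  have hw : algebraMap K (LL K) w ^ 3 = 1 := by rw [← map_pow, h3, map_one]
  set W := algebraMap K (LL K) w with hW
  have hX1 := X1_mul K
  have hX : (W * X1 K) * (W ^ 2 * Xi1 K) = 1 := by
    linear_combination (W ^ 3) * hX1 + hw
  have sX : ss K (W * X1 K) = -(W * X1 K) ^ 4 := by
    rw [Derivation.leibniz, ss_X1, smul_eq_mul, smul_eq_mul, hW, Derivation.map_algebraMap, ← hW]
    linear_combination (W * X1 K ^ 4) * hw
  have tX : tt K (W * X1 K) = 0 := by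
    rw [Derivation.leibniz, tt_X1, hW, Derivation.map_algebraMap]; simp
  have h4 := sXi hX sX
  have h5 := tXi hX tX
  refine ⟨W * X1 K, W ^ 2 * Xi1 K, MvPowerSeries.X 1 - W ^ 2 * Xi1 K, hX, sX, ?_, tX, ?_, rfl, ?_, ?_, ?_⟩
  · rw [map_sub, ss_t, h4]; ring
  · rw [map_sub, tt_t, h5]; ring
  · linear_combination (X1 K ^ 3) * hw
  · linear_combination (Xi1 K ^ 3 * (W ^ 3 + 1)) * hw
  · ring

theorem not_surj (K : Type) [Field K] [CharZero K] (w : K) (h3 : w ^ 3 = 1) (h1 : w ≠ 1) :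
    ∃ f : RingQuot (WR K) →ₐ[K] RingQuot (WR K), ¬ Function.Surjective f := by
  obtain ⟨φ, f, hx, hy, f0, f1, f2, f3⟩ := exists_endo K
  refine ⟨f, fun hsurj => ?_⟩
  obtain ⟨X, Xi, Y, hX, sX, sY, tX, tY, eX, eX3, eXi3, et⟩ := rep_of K 1 (one_pow 3)
  obtain ⟨X', Xi', Y', hX', sX', sY', tX', tY', eX', eX3', eXi3', et'⟩ := rep_of K w h3
  set r : LL K := algebraMap K (LL K) (1 / 60) with hrd
  have hr : 60 * r = 1 := by
    have : (60 : LL K) = algebraMap K (LL K) 60 := by rw [map_ofNat]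
    rw [this, hrd, ← map_mul]; norm_num
  have sr : ss K r = 0 := by rw [hrd, Derivation.map_algebraMap]
  have tr : tt K r = 0 := by rw [hrd, Derivation.map_algebraMap]
  have R1 := rel (r := r) hX sX sY tX tY (ss_tt K) sr tr
  have R2 := rel (r := r) hX' sX' sY' tX' tY' (ss_tt K) sr tr
  obtain ⟨ρ, a0, a1, a2, a3⟩ := lft_rel (K := K) _ _ _ R1
  obtain ⟨ρ', b0, b1, b2, b3⟩ := lft_rel (K := K) _ _ _ R2
  have hφ : ∀ g, (ρ : RingQuot (WR K) →+* Module.End K (LL K)) (φ g) = ph K X Y g := by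
    intro g
    have : (ρ : RingQuot (WR K) →+* Module.End K (LL K)).comp φ = ph K X Y := by
      apply MvPolynomial.ringHom_ext
      · intro n; simp
      · intro i
        fin_cases i
        · show ρ (φ x) = ph K X Y x
          rw [hx, a0]
        · show ρ (φ y) = ph K X Y y
          rw [hy, a1]
    rw [← this]; rfl
  have hφ' : ∀ g, (ρ' : RingQuot (WR K) →+* Module.End K (LL K)) (φ g) = ph K X' Y' g := by
    intro g
    have : (ρ' : RingQuot (WR K) →+* Module.End K (LL K)).comp φ = ph K X' Y' := by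
      apply MvPolynomial.ringHom_ext
      · intro n; simp
      · intro i
        fin_cases i
        · show ρ' (φ x) = ph K X' Y' x
          rw [hx, b0]
        · show ρ' (φ y) = ph K X' Y' y
          rw [hy, b1]
    rw [← this]; rfl
  have key : ∀ (W M N : S) (et ep : LL K → LL K) (Z : LL K → LL K → LL K → LL K)
      (_ : ∀ {X Xi Y : LL K}, X * Xi = 1 → ev X Y N = X ^ 5 * et (Y + Xi))
      (_ : ∀ {X Xi Y : LL K}, X * Xi = 1 →
        ev X Y M = 20 * (-X ^ 2 * ep (Y + Xi) + 5 * (1 - X * Y) * X ^ 3 * et (Y + Xi)))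
      (_ : ∀ {X Xi Y : LL K}, X * Xi = 1 →
        4 * ev X Y W + 4 * ep (Y + Xi) * aL X Xi Y + et (Y + Xi) * HL X Xi Y (ev X Y vv) =
          Z (Y + Xi) (X ^ 3) (Xi ^ 3)),
      ρ (FF φ (uu K (Sum.inr 0)) (uu K (Sum.inr 1)) W M N) =
        ρ' (FF φ (uu K (Sum.inr 0)) (uu K (Sum.inr 1)) W M N) := by
    intro W M N eet ep Z hN hM hZ
    have e1 := FF_nat (ρ : RingQuot (WR K) →+* Module.End K (LL K)) φ _ (uu K (Sum.inr 0))
      (uu K (Sum.inr 1)) hφ W M N
    have e2 := FF_nat (ρ' : RingQuot (WR K) →+* Module.End K (LL K)) φ _ (uu K (Sum.inr 0))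
      (uu K (Sum.inr 1)) hφ' W M N
    have e3 := same (K := K) (σ := ss K) (τ := tt K) (r := r) hX sX sY hr hX' sX' sY'
      (eX3.trans eX3'.symm) (eXi3.trans eXi3'.symm) (et.trans et'.symm) W M N eet ep Z hN hM hZ
    have e1' : ρ (FF φ (uu K (Sum.inr 0)) (uu K (Sum.inr 1)) W M N) =
        FF (ph K X Y) (PP (ss K) (tt K) X Xi Y r) (QQ (ss K) (tt K) Xi Y r) W M N := by
      rw [← a2, ← a3]; exact e1
    have e2' : ρ' (FF φ (uu K (Sum.inr 0)) (uu K (Sum.inr 1)) W M N) =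
        FF (ph K X' Y') (PP (ss K) (tt K) X' Xi' Y' r) (QQ (ss K) (tt K) Xi' Y' r) W M N := by
      rw [← b2, ← b3]; exact e2
    rw [e1', e2', e3]
  have k0 := key W0 M0 N0 eta0 etp0 Z0 (fun h => evN0 h) (fun h => evM0 h) (fun h => ZZ0 h)
  have k1 := key W1 M1 N1 eta1 etp1 Z1 (fun h => evN1 h) (fun h => evM1 h) (fun h => ZZ1 h)
  have k2 := key W2 M2 N2 eta2 etp2 Z2 (fun h => evN2 h) (fun h => evM2 h) (fun h => ZZ2 h)
  have k3 := key W3 M3 N3 eta3 etp3 Z3 (fun h => evN3 h) (fun h => evM3 h) (fun h => ZZ3 h)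
  have hcomp : ρ.comp f = ρ'.comp f := by
    apply hext
    · intro i
      fin_cases i
      · show ρ (f (uu K (Sum.inl 0))) = ρ' (f (uu K (Sum.inl 0)))
        rw [f0, k0]
      · show ρ (f (uu K (Sum.inl 1))) = ρ' (f (uu K (Sum.inl 1)))
        rw [f1, map_smul, map_smul, k2]
    · intro i
      fin_cases i
      · show ρ (f (uu K (Sum.inr 0))) = ρ' (f (uu K (Sum.inr 0)))
        rw [f2, map_smul, map_smul, k3]
      · show ρ (f (uu K (Sum.inr 1))) = ρ' (f (uu K (Sum.inr 1)))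
        rw [f3, k1]
  obtain ⟨z, hz⟩ := hsurj (uu K (Sum.inl 0))
  have e : ρ (uu K (Sum.inl 0)) = ρ' (uu K (Sum.inl 0)) := by
    rw [← hz]
    exact DFunLike.congr_fun hcomp z
  rw [a0, b0] at e
  have e' := congrArg (fun F : Module.End K (LL K) => F 1) e
  simp only [ph_apply, ev_x, mul_one] at e'
  rw [eX, eX', map_one, one_mul] at e'
  have hX1 := X1_mul K
  have : algebraMap K (LL K) w = 1 := by
    calc algebraMap K (LL K) w = algebraMap K (LL K) w * (X1 K * Xi1 K) := by rw [hX1, mul_one]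
      _ = algebraMap K (LL K) w * X1 K * Xi1 K := by ring
      _ = X1 K * Xi1 K := by rw [← e']
      _ = 1 := hX1
  apply h1
  have inj : Function.Injective (algebraMap K (LL K)) := (algebraMap K (LL K)).injective
  exact inj (by rw [this, map_one])

end TH207.Dx
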