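import Mathlib

/-!
# Differential operators in two variables over a commutative polynomial subring

`D = x² P + Q`, `V = 60 P - k D - c (D² + 9 x D) + v`; normal forms of products of operators
`W + M D + N V`.
-/

set_option autoImplicit false

open MvPolynomial

namespace TH207.Dx

abbrev S := MvPolynomial (Fin 2) ℤ

noncomputable abbrev x : S := X 0
noncomputable abbrev y : S := X 1

/-- the derivation `x² ∂x + ∂y` -/
noncomputable def de (g : S) : S := x ^ 2 * pderiv 0 g + pderiv 1 g

noncomputable def kk : S :=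
  20 * (15 + 28 * y ^ 2 - y ^ 4 + x * (-18 * y + 19 * y ^ 3 - y ^ 5))

noncomputable def cc : S := 100 * ((1 + x * y) ^ 2 - x ^ 2)

noncomputable def vv : S := -860*y + 324*y^2 + 40*y^3 - 360*y^4 + 37*y^6 - y^8 - 870*x - 2530*x*y^2 + 120*x*y^4 - 2275*x^2 + 1440*x^2*y - 1520*x^2*y^3 + 80*x^2*y^5 - 4550*x^3*y + 2275*x^4 - 2275*x^4*y^2

noncomputable def aa (g : S) : S :=
  60 * pderiv 0 g - kk * de g - cc * (de (de g) + 9 * x * de g)

noncomputable def bb (g : S) : S := -2 * cc * de g

noncomputable def e1 : S := 2 * x * kk + de kk + 45 * x ^ 2 * cc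

noncomputable def e2 : S := 4 * x * cc

noncomputable def e0 : S := -(2 * x * vv) - de vv

theorem de_add (f g : S) : de (f + g) = de f + de g := by
  unfold de; rw [map_add, map_add]; ring

theorem de_mul (f g : S) : de (f * g) = f * de g + de f * g := by
  unfold de; rw [Derivation.leibniz, Derivation.leibniz, smul_eq_mul, smul_eq_mul, smul_eq_mul,
    smul_eq_mul]; ring

theorem de_cc : de cc = 2 * x * cc := by
  unfold de cc
  simp only [Derivation.leibniz, map_add, map_sub, Derivation.leibniz_pow, pderiv_X_self,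
    pderiv_X_of_ne (show (1 : Fin 2) ≠ 0 by decide), pderiv_X_of_ne (show (0 : Fin 2) ≠ 1 by decide),
    map_one, smul_eq_mul, nsmul_eq_mul]
  have h5 : (100 : S) = C 100 := by simp
  have : ∀ i : Fin 2, pderiv i (100 : S) = 0 := fun i => by rw [h5]; exact pderiv_C
  have h1 : ∀ i : Fin 2, pderiv i (1 : S) = 0 := fun i => by
    rw [← map_one C]; exact pderiv_C
  simp only [this, h1]
  push_cast
  ring

section ring

variable {R : Type} [Ring R]

/-- Weyl relations over the image of the polynomial ring -/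
structure Rel (φ : S →+* R) (P Q : R) : Prop where
  Px : P * φ x = φ x * P + 1
  Py : P * φ y = φ y * P
  Qx : Q * φ x = φ x * Q
  Qy : Q * φ y = φ y * Q + 1
  PQ : P * Q = Q * P

variable {φ : S →+* R} {P Q : R}

theorem Pg (h : Rel φ P Q) (g : S) : P * φ g = φ g * P + φ (pderiv 0 g) := by
  induction g using MvPolynomial.induction_on with
  | C a =>
    rw [pderiv_C, map_zero, add_zero]
    have : (C a : S) = (a : S) := by simp
    rw [this, map_intCast]
    exact (Int.cast_commute a P).symm.eq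
  | add f g hf hg =>
    rw [map_add, map_add, map_add, mul_add, add_mul, hf, hg]; abel
  | mul_X f i hf =>
    rw [map_mul, ← mul_assoc, hf, add_mul, mul_assoc, Derivation.leibniz, map_add, smul_eq_mul,
      smul_eq_mul, map_mul, map_mul]
    fin_cases i
    · show φ f * (P * φ x) + φ (pderiv 0 f) * φ x = φ f * φ x * P + (φ f * φ (pderiv 0 x) + φ x * φ (pderiv 0 f))
      rw [h.Px, pderiv_X_self, map_one, ← map_mul, ← map_mul, ← map_mul φ x, mul_comm x (pderiv 0 f), map_mul φ f x]
      noncomm_ring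
    · show φ f * (P * φ y) + φ (pderiv 0 f) * φ y = φ f * φ y * P + (φ f * φ (pderiv 0 y) + φ y * φ (pderiv 0 f))
      rw [h.Py, pderiv_X_of_ne (show (1 : Fin 2) ≠ 0 by decide), map_zero, ← map_mul, ← map_mul φ y,
        mul_comm y]
      noncomm_ring

theorem Qg (h : Rel φ P Q) (g : S) : Q * φ g = φ g * Q + φ (pderiv 1 g) := by
  induction g using MvPolynomial.induction_on with
  | C a =>
    rw [pderiv_C, map_zero, add_zero]
    have : (C a : S) = (a : S) := by simp
    rw [this, map_intCast]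
    exact (Int.cast_commute a Q).symm.eq
  | add f g hf hg =>
    rw [map_add, map_add, map_add, mul_add, add_mul, hf, hg]; abel
  | mul_X f i hf =>
    rw [map_mul, ← mul_assoc, hf, add_mul, mul_assoc, Derivation.leibniz, map_add, smul_eq_mul,
      smul_eq_mul, map_mul, map_mul]
    fin_cases i
    · show φ f * (Q * φ x) + φ (pderiv 1 f) * φ x = φ f * φ x * Q + (φ f * φ (pderiv 1 x) + φ x * φ (pderiv 1 f))
      rw [h.Qx, pderiv_X_of_ne (show (0 : Fin 2) ≠ 1 by decide), map_zero, ← map_mul, ← map_mul φ x,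
        mul_comm x]
      noncomm_ring
    · show φ f * (Q * φ y) + φ (pderiv 1 f) * φ y = φ f * φ y * Q + (φ f * φ (pderiv 1 y) + φ y * φ (pderiv 1 f))
      rw [h.Qy, pderiv_X_self, map_one, ← map_mul, ← map_mul, ← map_mul φ y, mul_comm y (pderiv 1 f), map_mul φ f y]
      noncomm_ring

variable (φ P Q) in
/-- the operator `x² P + Q` -/
noncomputable def DD : R := φ (x ^ 2) * P + Q

variable (φ P Q) in
/-- the operator `60 P - k D - c (D² + 9 x D) + v` -/
noncomputable def VV : R :=
  60 * P - φ kk * DD φ P Q - φ cc * (DD φ P Q * DD φ P Q + φ (9 * x) * DD φ P Q) + φ vv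

theorem Dg (h : Rel φ P Q) (g : S) : DD φ P Q * φ g = φ g * DD φ P Q + φ (de g) := by
  unfold DD de
  rw [add_mul, mul_assoc, Pg h, Qg h, mul_add, mul_add, ← mul_assoc, ← mul_assoc, ← map_mul,
    ← map_mul, ← map_mul, map_add, mul_comm g]
  abel

theorem Dg' (h : Rel φ P Q) (g : S) (z : R) :
    DD φ P Q * (φ g * z) = φ g * (DD φ P Q * z) + φ (de g) * z := by
  rw [← mul_assoc, Dg h, add_mul, mul_assoc]

theorem Vg (h : Rel φ P Q) (g : S) :
    VV φ P Q * φ g = φ g * VV φ P Q + φ (aa g) + φ (bb g) * DD φ P Q := by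
  have h1 : DD φ P Q * DD φ P Q * φ g = φ g * (DD φ P Q * DD φ P Q) + 2 * (φ (de g) * DD φ P Q)
      + φ (de (de g)) := by
    rw [mul_assoc, Dg h, mul_add, Dg' h, Dg h, two_mul]; abel
  have h2 : φ (9 * x) * DD φ P Q * φ g = φ g * (φ (9 * x) * DD φ P Q) + φ (9 * x * de g) := by
    rw [mul_assoc, Dg h, mul_add, ← mul_assoc, ← map_mul, ← map_mul, mul_comm _ g, map_mul,
      mul_assoc]
  have h3 : φ kk * DD φ P Q * φ g = φ g * (φ kk * DD φ P Q) + φ (kk * de g) := by
    rw [mul_assoc, Dg h, mul_add, ← mul_assoc, ← map_mul, ← map_mul, mul_comm _ g, map_mul,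
      mul_assoc]
  have h6 : φ vv * φ g = φ g * φ vv := by rw [← map_mul, ← map_mul, mul_comm]
  have h4 : (60 : R) * P * φ g = φ g * (60 * P) + φ (60 * pderiv 0 g) := by
    rw [mul_assoc, Pg h, mul_add, map_mul, map_ofNat]
    congr 1
    rw [← mul_assoc, ← mul_assoc]
    congr 1
    have : (60 : R) = φ 60 := by rw [map_ofNat]
    rw [this, ← map_mul, ← map_mul, mul_comm]
  have h5 : φ cc * (DD φ P Q * DD φ P Q + φ (9 * x) * DD φ P Q) * φ g =
      φ g * (φ cc * (DD φ P Q * DD φ P Q + φ (9 * x) * DD φ P Q)) +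
        φ (2 * cc * de g) * DD φ P Q + φ (cc * (de (de g) + 9 * x * de g)) := by
    have e : φ cc * φ g = φ g * φ cc := by rw [← map_mul, ← map_mul, mul_comm]
    have ez : ∀ z, φ cc * (φ g * z) = φ g * (φ cc * z) := fun z => by
      rw [← mul_assoc, e, mul_assoc]
    rw [mul_assoc, add_mul, h1, h2, mul_add, mul_add, mul_add, mul_add, ez, ez]
    have e2 : φ cc * (2 * (φ (de g) * DD φ P Q)) = φ (2 * cc * de g) * DD φ P Q := by
      rw [show (2 * cc * de g : S) = cc * (2 * de g) by ring, map_mul, map_mul φ 2, map_ofNat,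
        mul_assoc, mul_assoc]
    rw [e2]
    rw [mul_add (cc) (de (de g)), map_add, map_mul φ cc (de (de g)), map_mul φ cc (9 * x * de g)]
    noncomm_ring
  unfold VV aa bb
  rw [add_mul, sub_mul, sub_mul, h3, h4, h5, h6]
  rw [map_sub, map_sub, show (-2 * cc * de g : S) = -(2 * cc * de g) by ring, map_neg]
  noncomm_ring

theorem Vg' (h : Rel φ P Q) (g : S) (z : R) :
    VV φ P Q * (φ g * z) = φ g * (VV φ P Q * z) + φ (aa g) * z + φ (bb g) * (DD φ P Q * z) := by
  rw [← mul_assoc, Vg h, add_mul, add_mul, mul_assoc, mul_assoc (φ (bb g))]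

theorem PD (h : Rel φ P Q) : P * DD φ P Q = DD φ P Q * P + φ (2 * x) * P := by
  unfold DD
  rw [mul_add, ← mul_assoc, Pg h, add_mul, h.PQ, Derivation.leibniz_pow, pderiv_X_self]
  have : ((2 : ℕ) • (X 0 : S) ^ (2 - 1) • (1 : S)) = 2 * x := by
    simp [nsmul_eq_mul]
  rw [this]
  noncomm_ring

theorem VD (h : Rel φ P Q) :
    VV φ P Q * DD φ P Q = DD φ P Q * VV φ P Q + φ (2 * x) * VV φ P Q + φ e1 * DD φ P Q
      + φ e2 * (DD φ P Q * DD φ P Q) + φ e0 := by
  have hP : (60 : R) * P = VV φ P Q + φ kk * DD φ P Q +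
      φ cc * (DD φ P Q * DD φ P Q + φ (9 * x) * DD φ P Q) - φ vv := by
    unfold VV; abel
  have hv : DD φ P Q * φ vv = φ vv * DD φ P Q + φ (de vv) := Dg h vv
  have h3 : (60 : R) * P * DD φ P Q = DD φ P Q * (60 * P) + φ (2 * x) * (60 * P) := by
    have c3 : ∀ z : R, z * 60 = 60 * z := fun z => (Nat.cast_commute 60 z).symm.eq
    rw [mul_assoc, PD h, mul_add, ← mul_assoc, ← mul_assoc, ← mul_assoc, ← mul_assoc, c3, c3]
  have hk : DD φ P Q * (φ kk * DD φ P Q) = φ kk * DD φ P Q * DD φ P Q + φ (de kk) * DD φ P Q := by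
    rw [Dg' h, mul_assoc]
  have hc : DD φ P Q * (φ cc * (DD φ P Q * DD φ P Q + φ (9 * x) * DD φ P Q)) =
      φ cc * (DD φ P Q * DD φ P Q + φ (9 * x) * DD φ P Q) * DD φ P Q
        + φ (9 * x ^ 2 * cc) * DD φ P Q
        + φ (de cc) * (DD φ P Q * DD φ P Q + φ (9 * x) * DD φ P Q) := by
    have hx : de (9 * x) = 9 * x ^ 2 := by
      unfold de
      have h9 : (9 : S) = C 9 := by simp
      rw [h9, pderiv_C_mul, pderiv_C_mul, pderiv_X_self,
        pderiv_X_of_ne (show (0 : Fin 2) ≠ 1 by decide)]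
      ring
    rw [Dg' h, mul_add (DD φ P Q), Dg' h, hx]
    rw [show (9 * x ^ 2 * cc : S) = cc * (9 * x ^ 2) by ring, map_mul φ cc]
    noncomm_ring
  have key : VV φ P Q * DD φ P Q = 60 * P * DD φ P Q - φ kk * DD φ P Q * DD φ P Q -
      φ cc * (DD φ P Q * DD φ P Q + φ (9 * x) * DD φ P Q) * DD φ P Q + φ vv * DD φ P Q := by
    conv_lhs => unfold VV
    rw [add_mul, sub_mul, sub_mul]
  rw [key, h3, hP, mul_sub, mul_sub (φ (2 * x)), mul_add, mul_add (DD φ P Q), hk, hc, hv, de_cc,
    e1, e2, e0, map_sub, map_neg]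
  simp only [mul_add, map_add, map_mul, add_mul, map_ofNat, map_pow]
  have e : φ cc * φ x = φ x * φ cc := by rw [← map_mul, ← map_mul, mul_comm]
  have c9 : φ cc * (9 : R) = 9 * φ cc := (Nat.cast_commute 9 _).symm.eq
  have c2 : φ x * (9 : R) = 9 * φ x := (Nat.cast_commute 9 _).symm.eq
  have e' : ∀ z, φ cc * (φ x * z) = φ x * (φ cc * z) := fun z => by
    rw [← mul_assoc, e, mul_assoc]
  have c9' : ∀ z, φ cc * ((9 : R) * z) = 9 * (φ cc * z) := fun z => by
    rw [← mul_assoc, c9, mul_assoc]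
  have c2' : ∀ z, φ x * ((9 : R) * z) = 9 * (φ x * z) := fun z => by
    rw [← mul_assoc, c2, mul_assoc]
  simp only [mul_assoc, e', c9', c2', pow_two]
  noncomm_ring

variable (φ P Q) in
/-- the operator `W + M D + N V` -/
noncomputable def FF (W M N : S) : R := φ W + φ M * DD φ P Q + φ N * VV φ P Q

theorem prod (h : Rel φ P Q) (W M N W' M' N' : S) :
    FF φ P Q W M N * FF φ P Q W' M' N' =
      φ (W * W' + M * de W' + N * aa W' + N * M' * e0)
      + φ (W * M' + M * W' + M * de M' + N * bb W' + N * aa M' + N * M' * e1) * DD φ P Q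
      + φ (M * M' + N * bb M' + N * M' * e2) * (DD φ P Q * DD φ P Q)
      + φ (W * N' + N * W' + M * de N' + N * aa N' + N * M' * (2 * x)) * VV φ P Q
      + φ (M * N' + N * M' + N * bb N') * (DD φ P Q * VV φ P Q)
      + φ (N * N') * (VV φ P Q * VV φ P Q) := by
  unfold FF
  simp only [add_mul, mul_add, mul_assoc, Dg h, Vg h, Dg' h, Vg' h, VD h]
  simp only [map_add, map_mul, add_mul, mul_assoc]
  abel

theorem comm (h : Rel φ P Q) (W M N W' M' N' : S) :
    FF φ P Q W M N * FF φ P Q W' M' N' - FF φ P Q W' M' N' * FF φ P Q W M N =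
      φ (M * de W' - M' * de W + N * aa W' - N' * aa W + (M' * N - M * N') * e0)
      + φ (M * de M' - M' * de M + N * aa M' - N' * aa M + N * bb W' - N' * bb W
          + (M' * N - M * N') * e1) * DD φ P Q
      + φ (N * bb M' - N' * bb M + (M' * N - M * N') * e2) * (DD φ P Q * DD φ P Q)
      + φ (M * de N' - M' * de N + N * aa N' - N' * aa N + (M' * N - M * N') * (2 * x)) *
          VV φ P Q
      + φ (N * bb N' - N' * bb N) * (DD φ P Q * VV φ P Q) := by
  rw [prod h, prod h]
  have cm : ∀ a b : S, φ a * φ b = φ b * φ a := fun a b => by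
    rw [← map_mul, ← map_mul, mul_comm]
  have e0' : (M * de W' - M' * de W + N * aa W' - N' * aa W + (M' * N - M * N') * e0 : S) =
      (W * W' + M * de W' + N * aa W' + N * M' * e0) -
      (W' * W + M' * de W + N' * aa W + N' * M * e0) := by ring
  have e1' : (M * de M' - M' * de M + N * aa M' - N' * aa M + N * bb W' - N' * bb W
          + (M' * N - M * N') * e1 : S) =
      (W * M' + M * W' + M * de M' + N * bb W' + N * aa M' + N * M' * e1) -
      (W' * M + M' * W + M' * de M + N' * bb W + N' * aa M + N' * M * e1) := by ring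
  have e2' : (N * bb M' - N' * bb M + (M' * N - M * N') * e2 : S) =
      (M * M' + N * bb M' + N * M' * e2) - (M' * M + N' * bb M + N' * M * e2) := by ring
  have e3' : (M * de N' - M' * de N + N * aa N' - N' * aa N + (M' * N - M * N') * (2 * x) : S) =
      (W * N' + N * W' + M * de N' + N * aa N' + N * M' * (2 * x)) -
      (W' * N + N' * W + M' * de N + N' * aa N + N' * M * (2 * x)) := by ring
  have e4' : (N * bb N' - N' * bb N : S) =
      (M * N' + N * M' + N * bb N') - (M' * N + N' * M + N' * bb N) := by ring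
  have e5' : φ (N' * N) = φ (N * N') := by rw [mul_comm]
  rw [e0', e1', e2', e3', e4', e5']
  simp only [map_sub, sub_mul]
  abel

end ring

end TH207.Dx
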