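import Pool.Agent.TH207.Dx

/-!
# The twelve polynomials
-/

set_option autoImplicit false
set_option linter.unusedSimpArgs false
set_option maxHeartbeats 4000000

open MvPolynomial

namespace TH207.Dx

theorem pd_num (i : Fin 2) (n : ℕ) [n.AtLeastTwo] : pderiv i (ofNat(n) : S) = 0 := by
  have : (ofNat(n) : S) = C (ofNat(n) : ℤ) := by simp
  rw [this]; exact pderiv_C

theorem pd_one (i : Fin 2) : pderiv i (1 : S) = 0 := by
  rw [← map_one C]; exact pderiv_C

theorem pd01 : pderiv (0 : Fin 2) (X 1 : S) = 0 := pderiv_X_of_ne (by decide)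

theorem pd10 : pderiv (1 : Fin 2) (X 0 : S) = 0 := pderiv_X_of_ne (by decide)


noncomputable def W0 : S := x*(-60) + x^2*(150*y) + x^3*(150 + 30*y^2 - 10*y^4) + x^4*(350 - 540*y - 330*y^3 + 20*y^5)

noncomputable def W1 : S := (-90*y) + x*(-750 - 990*y^2 + 30*y^4) + x^2*(-1050 + 1200*y + 600*y^3) + x^3*(-2800*y + 4650*y^2 + 3150*y^4 - 150*y^6) + x^4*(-1750*y^2 + 2700*y^3 + 1650*y^5 - 100*y^7)

noncomputable def W2 : S := (300 + 720*y^2 - 20*y^4) + x*(700 + 360*y + 240*y^3 - 20*y^5) + x^2*(2250 + 3150*y - 3150*y^2 - 3900*y^4 + 150*y^6) + x^3*(4200 - 5850*y + 4200*y^2 - 11850*y^3 - 4650*y^5 + 250*y^7) + x^4*(5250*y - 8100*y^2 + 1750*y^3 - 7650*y^4 - 1350*y^6 + 100*y^8)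

noncomputable def W3 : S := (750 - 350*y + 2070*y^2 + 760*y^4 - 30*y^6) + x*(700 - 450*y - 1400*y^2 + 4110*y^3 + 2470*y^5 - 110*y^7) + x^2*(3150*y - 5850*y^2 - 2100*y^3 + 900*y^4 + 3150*y^6 - 150*y^8) + x^3*(4200*y^2 - 7350*y^3 - 1400*y^4 - 2250*y^5 + 1870*y^7 - 90*y^9) + x^4*(1750*y^3 - 2700*y^4 - 350*y^5 - 1110*y^6 + 430*y^8 - 20*y^10)

noncomputable def M0 : S := x^3*(100) + x^4*(-100*y)

noncomputable def M1 : S := x*(-300) + x^2*(-300*y) + x^3*(500*y^2) + x^4*(500*y^3)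

noncomputable def M2 : S := 200 + x*(400*y) + x^2*(1200 - 300*y^2) + x^3*(-1000*y^3) + x^4*(-1500*y^2 - 500*y^4)

noncomputable def M3 : S := (200 + 100*y^2) + x*(400*y + 400*y^3) + x^2*(-300*y^2 + 600*y^4) + x^3*(-1000*y^3 + 400*y^5) + x^4*(-500*y^4 + 100*y^6)

noncomputable def N0 : S := x^5*(1)

noncomputable def N1 : S := x^3*(-5) + x^4*(-10*y) + x^5*(-5*y^2)

noncomputable def N2 : S := x^2*(5) + x^3*(15*y) + x^4*(15 + 15*y^2) + x^5*(15*y + 5*y^3)

noncomputable def N3 : S := (-1) + x*(-5*y) + x^2*(5 - 10*y^2) + x^3*(15*y - 10*y^3) + x^4*(15*y^2 - 5*y^4) + x^5*(5*y^3 - y^5)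

theorem dx_W0 : pderiv 0 W0 = (-60) + x*(300*y) + x^2*(450 + 90*y^2 - 30*y^4) + x^3*(1400 - 2160*y - 1320*y^3 + 80*y^5) := by
  unfold W0
  simp only [map_add, map_sub, map_neg, Derivation.leibniz, Derivation.leibniz_pow, pd_num, pd_one, pd01, pd10, pderiv_X_self, smul_eq_mul, nsmul_eq_mul]
  push_cast
  ring

theorem de_W0 : de W0 = x^2*(90) + x^3*(360*y - 40*y^3) + x^4*(-90 - 900*y^2 + 70*y^4) + x^5*(1400 - 2160*y - 1320*y^3 + 80*y^5) := by
  unfold de W0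
  simp only [map_add, map_sub, map_neg, Derivation.leibniz, Derivation.leibniz_pow, pd_num, pd_one, pd01, pd10, pderiv_X_self, smul_eq_mul, nsmul_eq_mul]
  push_cast
  ring

theorem dx_W1 : pderiv 0 W1 = (-750 - 990*y^2 + 30*y^4) + x*(-2100 + 2400*y + 1200*y^3) + x^2*(-8400*y + 13950*y^2 + 9450*y^4 - 450*y^6) + x^3*(-7000*y^2 + 10800*y^3 + 6600*y^5 - 400*y^7) := by
  unfold W1
  simp only [map_add, map_sub, map_neg, Derivation.leibniz, Derivation.leibniz_pow, pd_num, pd_one, pd01, pd10, pderiv_X_self, smul_eq_mul, nsmul_eq_mul]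
  push_cast
  ring

theorem de_W1 : de W1 = (-90) + x*(-1980*y + 120*y^3) + x^2*(450 + 810*y^2 + 30*y^4) + x^3*(-4900 + 11700*y + 13800*y^3 - 900*y^5) + x^4*(-11900*y + 22050*y^2 + 17700*y^4 - 1150*y^6) + x^5*(-7000*y^2 + 10800*y^3 + 6600*y^5 - 400*y^7) := by
  unfold de W1
  simp only [map_add, map_sub, map_neg, Derivation.leibniz, Derivation.leibniz_pow, pd_num, pd_one, pd01, pd10, pderiv_X_self, smul_eq_mul, nsmul_eq_mul]
  push_cast
  ring

theorem dx_W2 : pderiv 0 W2 = (700 + 360*y + 240*y^3 - 20*y^5) + x*(4500 + 6300*y - 6300*y^2 - 7800*y^4 + 300*y^6) + x^2*(12600 - 17550*y + 12600*y^2 - 35550*y^3 - 13950*y^5 + 750*y^7) + x^3*(21000*y - 32400*y^2 + 7000*y^3 - 30600*y^4 - 5400*y^6 + 400*y^8) := by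
  unfold W2
  simp only [map_add, map_sub, map_neg, Derivation.leibniz, Derivation.leibniz_pow, pd_num, pd_one, pd01, pd10, pderiv_X_self, smul_eq_mul, nsmul_eq_mul]
  push_cast
  ring

theorem de_W2 : de W2 = (1440*y - 80*y^3) + x*(360 + 720*y^2 - 100*y^4) + x^2*(3850 - 5940*y - 15360*y^3 + 880*y^5) + x^3*(-1350 + 14700*y - 41850*y^2 - 31050*y^4 + 2050*y^6) + x^4*(17850 - 33750*y + 17850*y^2 - 66150*y^3 - 22050*y^5 + 1550*y^7) + x^5*(21000*y - 32400*y^2 + 7000*y^3 - 30600*y^4 - 5400*y^6 + 400*y^8) := by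
  unfold de W2
  simp only [map_add, map_sub, map_neg, Derivation.leibniz, Derivation.leibniz_pow, pd_num, pd_one, pd01, pd10, pderiv_X_self, smul_eq_mul, nsmul_eq_mul]
  push_cast
  ring

theorem dx_W3 : pderiv 0 W3 = (700 - 450*y - 1400*y^2 + 4110*y^3 + 2470*y^5 - 110*y^7) + x*(6300*y - 11700*y^2 - 4200*y^3 + 1800*y^4 + 6300*y^6 - 300*y^8) + x^2*(12600*y^2 - 22050*y^3 - 4200*y^4 - 6750*y^5 + 5610*y^7 - 270*y^9) + x^3*(7000*y^3 - 10800*y^4 - 1400*y^5 - 4440*y^6 + 1720*y^8 - 80*y^10) := by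
  unfold W3
  simp only [map_add, map_sub, map_neg, Derivation.leibniz, Derivation.leibniz_pow, pd_num, pd_one, pd01, pd10, pderiv_X_self, smul_eq_mul, nsmul_eq_mul]
  push_cast
  ring

theorem de_W3 : de W3 = (-350 + 4140*y + 3040*y^3 - 180*y^5) + x*(-450 - 2800*y + 12330*y^2 + 12350*y^4 - 770*y^6) + x^2*(3850 - 12150*y - 7700*y^2 + 7710*y^3 + 21370*y^5 - 1310*y^7) + x^3*(14700*y - 33750*y^2 - 9800*y^3 - 9450*y^4 + 19390*y^6 - 1110*y^8) + x^4*(17850*y^2 - 32850*y^3 - 5950*y^4 - 13410*y^5 + 9050*y^7 - 470*y^9) + x^5*(7000*y^3 - 10800*y^4 - 1400*y^5 - 4440*y^6 + 1720*y^8 - 80*y^10) := by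
  unfold de W3
  simp only [map_add, map_sub, map_neg, Derivation.leibniz, Derivation.leibniz_pow, pd_num, pd_one, pd01, pd10, pderiv_X_self, smul_eq_mul, nsmul_eq_mul]
  push_cast
  ring

theorem dx_M0 : pderiv 0 M0 = x^2*(300) + x^3*(-400*y) := by
  unfold M0
  simp only [map_add, map_sub, map_neg, Derivation.leibniz, Derivation.leibniz_pow, pd_num, pd_one, pd01, pd10, pderiv_X_self, smul_eq_mul, nsmul_eq_mul]
  push_cast
  ring

theorem de_M0 : de M0 = x^4*(200) + x^5*(-400*y) := by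
  unfold de M0
  simp only [map_add, map_sub, map_neg, Derivation.leibniz, Derivation.leibniz_pow, pd_num, pd_one, pd01, pd10, pderiv_X_self, smul_eq_mul, nsmul_eq_mul]
  push_cast
  ring

theorem dx_M1 : pderiv 0 M1 = (-300) + x*(-600*y) + x^2*(1500*y^2) + x^3*(2000*y^3) := by
  unfold M1
  simp only [map_add, map_sub, map_neg, Derivation.leibniz, Derivation.leibniz_pow, pd_num, pd_one, pd01, pd10, pderiv_X_self, smul_eq_mul, nsmul_eq_mul]
  push_cast
  ring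

theorem de_M1 : de M1 = x^2*(-600) + x^3*(400*y) + x^4*(3000*y^2) + x^5*(2000*y^3) := by
  unfold de M1
  simp only [map_add, map_sub, map_neg, Derivation.leibniz, Derivation.leibniz_pow, pd_num, pd_one, pd01, pd10, pderiv_X_self, smul_eq_mul, nsmul_eq_mul]
  push_cast
  ring

theorem dx_M2 : pderiv 0 M2 = 400*y + x*(2400 - 600*y^2) + x^2*(-3000*y^3) + x^3*(-6000*y^2 - 2000*y^4) := by
  unfold M2
  simp only [map_add, map_sub, map_neg, Derivation.leibniz, Derivation.leibniz_pow, pd_num, pd_one, pd01, pd10, pderiv_X_self, smul_eq_mul, nsmul_eq_mul]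
  push_cast
  ring

theorem de_M2 : de M2 = x*(400) + x^2*(-200*y) + x^3*(2400 - 3600*y^2) + x^4*(-3000*y - 5000*y^3) + x^5*(-6000*y^2 - 2000*y^4) := by
  unfold de M2
  simp only [map_add, map_sub, map_neg, Derivation.leibniz, Derivation.leibniz_pow, pd_num, pd_one, pd01, pd10, pderiv_X_self, smul_eq_mul, nsmul_eq_mul]
  push_cast
  ring

theorem dx_M3 : pderiv 0 M3 = (400*y + 400*y^3) + x*(-600*y^2 + 1200*y^4) + x^2*(-3000*y^3 + 1200*y^5) + x^3*(-2000*y^4 + 400*y^6) := by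
  unfold M3
  simp only [map_add, map_sub, map_neg, Derivation.leibniz, Derivation.leibniz_pow, pd_num, pd_one, pd01, pd10, pderiv_X_self, smul_eq_mul, nsmul_eq_mul]
  push_cast
  ring

theorem de_M3 : de M3 = 200*y + x*(400 + 1200*y^2) + x^2*(-200*y + 2800*y^3) + x^3*(-3600*y^2 + 3200*y^4) + x^4*(-5000*y^3 + 1800*y^5) + x^5*(-2000*y^4 + 400*y^6) := by
  unfold de M3
  simp only [map_add, map_sub, map_neg, Derivation.leibniz, Derivation.leibniz_pow, pd_num, pd_one, pd01, pd10, pderiv_X_self, smul_eq_mul, nsmul_eq_mul]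
  push_cast
  ring

theorem dx_N0 : pderiv 0 N0 = x^4*(5) := by
  unfold N0
  simp only [map_add, map_sub, map_neg, Derivation.leibniz, Derivation.leibniz_pow, pd_num, pd_one, pd01, pd10, pderiv_X_self, smul_eq_mul, nsmul_eq_mul]
  push_cast
  ring

theorem de_N0 : de N0 = x^6*(5) := by
  unfold de N0
  simp only [map_add, map_sub, map_neg, Derivation.leibniz, Derivation.leibniz_pow, pd_num, pd_one, pd01, pd10, pderiv_X_self, smul_eq_mul, nsmul_eq_mul]
  push_cast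
  ring

theorem dx_N1 : pderiv 0 N1 = x^2*(-15) + x^3*(-40*y) + x^4*(-25*y^2) := by
  unfold N1
  simp only [map_add, map_sub, map_neg, Derivation.leibniz, Derivation.leibniz_pow, pd_num, pd_one, pd01, pd10, pderiv_X_self, smul_eq_mul, nsmul_eq_mul]
  push_cast
  ring

theorem de_N1 : de N1 = x^4*(-25) + x^5*(-50*y) + x^6*(-25*y^2) := by
  unfold de N1
  simp only [map_add, map_sub, map_neg, Derivation.leibniz, Derivation.leibniz_pow, pd_num, pd_one, pd01, pd10, pderiv_X_self, smul_eq_mul, nsmul_eq_mul]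
  push_cast
  ring

theorem dx_N2 : pderiv 0 N2 = x*(10) + x^2*(45*y) + x^3*(60 + 60*y^2) + x^4*(75*y + 25*y^3) := by
  unfold N2
  simp only [map_add, map_sub, map_neg, Derivation.leibniz, Derivation.leibniz_pow, pd_num, pd_one, pd01, pd10, pderiv_X_self, smul_eq_mul, nsmul_eq_mul]
  push_cast
  ring

theorem de_N2 : de N2 = x^3*(25) + x^4*(75*y) + x^5*(75 + 75*y^2) + x^6*(75*y + 25*y^3) := by
  unfold de N2
  simp only [map_add, map_sub, map_neg, Derivation.leibniz, Derivation.leibniz_pow, pd_num, pd_one, pd01, pd10, pderiv_X_self, smul_eq_mul, nsmul_eq_mul]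
  push_cast
  ring

theorem dx_N3 : pderiv 0 N3 = (-5*y) + x*(10 - 20*y^2) + x^2*(45*y - 30*y^3) + x^3*(60*y^2 - 20*y^4) + x^4*(25*y^3 - 5*y^5) := by
  unfold N3
  simp only [map_add, map_sub, map_neg, Derivation.leibniz, Derivation.leibniz_pow, pd_num, pd_one, pd01, pd10, pderiv_X_self, smul_eq_mul, nsmul_eq_mul]
  push_cast
  ring

theorem de_N3 : de N3 = x*(-5) + x^2*(-25*y) + x^3*(25 - 50*y^2) + x^4*(75*y - 50*y^3) + x^5*(75*y^2 - 25*y^4) + x^6*(25*y^3 - 5*y^5) := by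
  unfold de N3
  simp only [map_add, map_sub, map_neg, Derivation.leibniz, Derivation.leibniz_pow, pd_num, pd_one, pd01, pd10, pderiv_X_self, smul_eq_mul, nsmul_eq_mul]
  push_cast
  ring

end TH207.Dx
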