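import Pool.Agent.TH207.Dy

/-!
# Second derivations
-/

set_option autoImplicit false
set_option linter.unusedSimpArgs false
set_option maxHeartbeats 4000000

open MvPolynomial

namespace TH207.Dx

theorem dd_W0 : de (de W0) = x^3*(540 - 120*y^2) + x^4*(-720*y + 160*y^3) + x^5*(-2520 - 7560*y^2 + 680*y^4) + x^6*(7000 - 10800*y - 6600*y^3 + 400*y^5) := by
  rw [de_W0]
  unfold de
  simp only [map_add, map_sub, map_neg, Derivation.leibniz, Derivation.leibniz_pow, pd_num, pd_one, pd01, pd10, pderiv_X_self, smul_eq_mul, nsmul_eq_mul]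
  push_cast
  ring

theorem aa_W0 : aa W0 = (-3600) + x*(18000*y) + x^2*(-45000*y^2) + x^3*(-51000 - 205200*y + 12000*y^2 - 303000*y^3 + 36200*y^5 - 800*y^7) + x^4*(27000 - 522000*y + 450000*y^2 + 44000*y^3 + 330000*y^4 - 34800*y^6 + 600*y^8) + x^5*(48000 + 615600*y + 131000*y^2 + 1315800*y^3 - 51000*y^4 + 1037400*y^5 - 115800*y^7 + 3000*y^9) + x^6*(-1960000 + 4446000*y - 777600*y^2 + 4176000*y^3 + 345600*y^4 - 326000*y^5 + 487200*y^6 - 56800*y^8 + 1600*y^10) + x^7*(-333000 - 3920000*y + 4815000*y^2 + 5393000*y^4 - 355000*y^6) + x^8*(1960000 - 3024000*y - 1960000*y^2 + 1176000*y^3 + 1960000*y^5 - 112000*y^7) := by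
  unfold aa
  rw [dd_W0, de_W0, dx_W0]
  unfold kk cc
  ring

theorem dd_W1 : de (de W1) = x*(-1980 + 360*y^2) + x^2*(-360*y + 240*y^3) + x^3*(12600 + 43020*y^2 - 4440*y^4) + x^4*(-26600 + 79200*y + 112200*y^3 - 9600*y^5) + x^5*(-61600*y + 120600*y^2 + 103800*y^4 - 7400*y^6) + x^6*(-35000*y^2 + 54000*y^3 + 33000*y^5 - 2000*y^7) := by
  rw [de_W1]
  unfold de
  simp only [map_add, map_sub, map_neg, Derivation.leibniz, Derivation.leibniz_pow, pd_num, pd_one, pd01, pd10, pderiv_X_self, smul_eq_mul, nsmul_eq_mul]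
  push_cast
  ring

theorem aa_W1 : aa W1 = (-18000 - 9000*y^2) + x*(153000 + 705600*y - 36000*y^2 + 1179000*y^3 - 108600*y^5 + 2400*y^7) + x^2*(-135000 + 1872000*y - 370800*y^2 - 204000*y^3 + 909000*y^4 - 112800*y^6 + 3000*y^8) + x^3*(-474000 - 3348000*y + 1244000*y^2 - 9923400*y^3 + 19000*y^4 - 7116000*y^5 + 760800*y^7 - 17400*y^9) + x^4*(7070000 - 21792000*y - 2403000*y^2 - 23226000*y^3 - 17136000*y^4 + 2136000*y^5 - 14460000*y^6 + 1616000*y^8 - 41000*y^10) + x^5*(1665000 + 31010000*y - 67623000*y^2 + 4698000*y^3 - 70596000*y^4 - 10035000*y^5 + 5354000*y^6 - 10059000*y^7 + 1147000*y^9 - 31000*y^11) + x^6*(-7070000 + 18450000*y + 50610000*y^2 - 76260000*y^3 + 3888000*y^4 - 84610000*y^5 - 1728000*y^6 + 5740000*y^7 - 2436000*y^8 + 284000*y^10 - 8000*y^12) + x^7*(-16870000*y + 31905000*y^2 + 36470000*y^3 - 35835000*y^4 - 46565000*y^6 + 2895000*y^8) + x^8*(-9800000*y^2 + 15120000*y^3 + 9800000*y^4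 - 5880000*y^5 - 9800000*y^7 + 560000*y^9) := by
  unfold aa
  rw [dd_W1, de_W1, dx_W1]
  unfold kk cc
  ring

theorem dd_W2 : de (de W2) = (1440 - 240*y^2) + x*(1440*y - 400*y^3) + x^2*(-5580 - 45360*y^2 + 4300*y^4) + x^3*(22400 - 95580*y - 154920*y^3 + 14060*y^5) + x^4*(-37800 + 79800*y - 324000*y^2 - 203400*y^4 + 17000*y^6) + x^5*(92400 - 199800*y + 92400*y^2 - 387000*y^3 - 120600*y^5 + 9400*y^7) + x^6*(105000*y - 162000*y^2 + 35000*y^3 - 153000*y^4 - 27000*y^6 + 2000*y^8) := by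
  rw [de_W2]
  unfold de
  simp only [map_add, map_sub, map_neg, Derivation.leibniz, Derivation.leibniz_pow, pd_num, pd_one, pd01, pd10, pderiv_X_self, smul_eq_mul, nsmul_eq_mul]
  push_cast
  ring

theorem aa_W2 : aa W2 = (-102000 - 410400*y + 24000*y^2 - 768000*y^3 + 72400*y^5 - 1600*y^7) + x*(162000 - 1350000*y - 277200*y^2 + 160000*y^3 - 1410000*y^4 + 147600*y^6 - 3600*y^8) + x^2*(-21000 + 858600*y - 560000*y^2 + 5923800*y^3 - 15000*y^4 + 7079400*y^5 - 702600*y^7 + 15600*y^9) + x^3*(-5300000 + 15048000*y + 9228600*y^2 + 26265000*y^3 + 27615600*y^4 - 2395000*y^5 + 21646800*y^6 - 2386600*y^8 + 58600*y^10) + x^4*(-594000 - 22981000*y + 86160000*y^2 + 24192000*y^3 + 95920000*y^4 + 47682000*y^5 - 7630000*y^6 + 22260000*y^7 - 2709000*y^9 + 72000*y^11) + x^5*(-19600000 + 45567000*y - 75860000*y^2 + 209736000*y^3 + 16335000*y^4 + 150063000*y^5 + 34632000*y^6 - 11126000*y^7 + 9906000*y^8 - 1362000*y^10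 + 39000*y^12) + x^6*(-4995000 - 58800000*y + 88560000*y^2 - 93284000*y^3 + 255630000*y^4 + 1296000*y^5 + 120960000*y^6 + 9036000*y^7 - 8635000*y^8 + 1584000*y^9 - 260000*y^11 + 8000*y^13) + x^7*(25305000 - 50355000*y - 58800000*y^2 + 42840000*y^3 - 44905000*y^4 + 152010000*y^5 + 49360000*y^7 - 3455000*y^9) + x^8*(29400000*y - 45360000*y^2 - 19600000*y^3 + 2520000*y^4 - 9800000*y^5 + 35280000*y^6 + 8120000*y^8 - 560000*y^10) := by
  unfold aa
  rw [dd_W2, de_W2, dx_W2]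
  unfold kk cc
  ring

theorem dd_W3 : de (de W3) = (4140 + 9120*y^2 - 900*y^4) + x*(-2800 + 24660*y + 49400*y^3 - 4620*y^5) + x^2*(-12600 - 18200*y + 35460*y^2 + 119200*y^4 - 9940*y^6) + x^3*(22400 - 91800*y - 44800*y^2 - 22380*y^3 + 159080*y^5 - 11500*y^7) + x^4*(79800*y - 199800*y^2 - 53200*y^3 - 95400*y^4 + 121520*y^6 - 7560*y^8) + x^5*(92400*y^2 - 174600*y^3 - 30800*y^4 - 80280*y^5 + 49960*y^7 - 2680*y^9) + x^6*(35000*y^3 - 54000*y^4 - 7000*y^5 - 22200*y^6 + 8600*y^8 - 400*y^10) := by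
  rw [de_W3]
  unfold de
  simp only [map_add, map_sub, map_neg, Derivation.leibniz, Derivation.leibniz_pow, pd_num, pd_one, pd01, pd10, pderiv_X_self, smul_eq_mul, nsmul_eq_mul]
  push_cast
  ring

theorem aa_W3 : aa W3 = (-267000 - 1269000*y - 800000*y^2 - 2983800*y^3 + 83000*y^4 - 1417400*y^5 + 155000*y^7 - 3600*y^9) + x*(730000 - 5928000*y - 2658600*y^2 - 8051000*y^3 - 10989600*y^4 + 741000*y^5 - 7197600*y^6 + 789400*y^8 - 19000*y^10) + x^2*(924000 + 9013000*y - 26627000*y^2 + 7777800*y^3 - 34188000*y^4 - 11625000*y^5 + 2815000*y^6 - 15807000*y^7 + 1684400*y^9 - 41600*y^11) + x^3*(-6300000 + 26613000*y + 26436000*y^2 - 41610000*y^3 + 28479600*y^4 - 80810000*y^5 + 3054000*y^6 + 5977000*y^7 - 19049200*y^8 + 1929800*y^10 - 48400*y^12) + x^4*(-1665000 - 36960000*y + 106830000*y^2 + 39005000*y^3 - 290000*y^4 + 31842000*y^5 - 116900000*y^6 + 14034000*y^7 + 7785000*y^8 - 13152000*y^9 + 1253800*y^11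 - 31600*y^13) + x^5*(5705000 - 20115000*y - 84840000*y^2 + 176877000*y^3 + 39539000*y^4 + 74202000*y^5 + 15035400*y^6 - 106275000*y^7 + 9451200*y^8 + 6383000*y^9 - 4904400*y^10 + 438800*y^12 - 11000*y^14) + x^6*(21210000*y - 50355000*y^2 - 95760000*y^3 + 144000000*y^4 + 29082000*y^5 + 90894000*y^6 + 2505600*y^7 - 59376000*y^8 + 2090400*y^9 + 3221000*y^10 - 771200*y^11 + 64800*y^13 - 1600*y^15) + x^7*(25305000*y^2 - 47025000*y^3 - 53340000*y^4 + 57168000*y^5 + 12355000*y^6 + 45670000*y^7 - 18648000*y^9 + 915000*y^11) + x^8*(9800000*y^3 - 15120000*y^4 - 11760000*y^5 + 8904000*y^6 + 1960000*y^7 + 8624000*y^8 - 2520000*y^10 + 112000*y^12) := by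
  unfold aa
  rw [dd_W3, de_W3, dx_W3]
  unfold kk cc
  ring

end TH207.Dx
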