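import Pool.Agent.TH207.Ser

/-! The conjugate of a leading form is a polynomial. -/

set_option autoImplicit false
set_option linter.unusedSectionVars false
set_option linter.unusedSimpArgs false

namespace Pool.Agent.TH207.Ser

open Polynomial TensorProduct

section frac

variable (k : Type*) [Field k] (Q : Type*) [Field Q] [Algebra k[X] Q] [IsFractionRing k[X] Q]

/-- The derivative of rational functions. -/
theorem exists_der : ∃ δ : Derivation ℤ Q Q,
    ∀ p : k[X], δ (algebraMap k[X] Q p) = algebraMap k[X] Q (derivative p) := by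
  let _ : Algebra k Q := ((algebraMap k[X] Q).comp C).toAlgebra
  have : IsScalarTower k k[X] Q := IsScalarTower.of_algebraMap_eq fun r => rfl
  let C := k[X]
  let E : Derivation k C C := Polynomial.derivative' (R := k)
  have hfe : Algebra.FormallyEtale C Q :=
    Algebra.FormallyEtale.of_isLocalization (nonZeroDivisors C)
  let l0 : Ω[C⁄k] →ₗ[C] Q := (Algebra.linearMap C Q) ∘ₗ E.liftKaehlerDifferential
  let l : Q ⊗[C] Ω[C⁄k] →ₗ[Q] Q := LinearMap.liftBaseChange Q l0
  let e := KaehlerDifferential.tensorKaehlerEquivOfFormallyEtale k C Q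
  refine ⟨((l ∘ₗ e.symm.toLinearMap).compDer (KaehlerDifferential.D k Q)).restrictScalars ℤ,
    fun c => ?_⟩
  change l (e.symm (KaehlerDifferential.D k Q (algebraMap C Q c))) = _
  rw [KaehlerDifferential.tensorKaehlerEquivOfFormallyEtale_symm_D_algebraMap,
    LinearMap.liftBaseChange_tmul, one_smul]
  change algebraMap C Q (E.liftKaehlerDifferential (KaehlerDifferential.D k C c)) = _
  rw [Derivation.liftKaehlerDifferential_comp_D]
  rfl

end frac

section poly

variable {k : Type*} [Field k] [CharZero k] [IsAlgClosed k]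

theorem split_root (f : k[X]) (hf : f ≠ 0) (r : k) : ∃ (n : ℕ) (g : k[X]),
    n = rootMultiplicity r f ∧ f = (X - C r) ^ n * g ∧ g.eval r ≠ 0 ∧
      (X - C r) * derivative f = (X - C r) ^ n * ((n : k[X]) * g + (X - C r) * derivative g) := by
  obtain ⟨g, hg⟩ := Polynomial.exists_eq_pow_rootMultiplicity_mul_and_not_dvd f hf r
  refine ⟨_, g, rfl, hg.1, ?_, ?_⟩
  · intro h
    exact hg.2 (dvd_iff_isRoot.2 h)
  · generalize rootMultiplicity r f = n at hg ⊢
    rw [hg.1, derivative_mul, derivative_X_sub_C_pow]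
    rcases n with _ | n
    · simp
    · rw [Nat.add_sub_cancel, C_eq_natCast]
      ring

theorem den_unit (f A B : k[X]) (hf : f ≠ 0) (hB : B ≠ 0) (hAB : IsRelPrime A B) (D K : ℕ)
    (hD : 0 < D) (c : k)
    (h : (D : k[X]) * (derivative A * B - A * derivative B) * f -
      (K : k[X]) * derivative f * (A * B) = C c * f * B ^ 2) : IsUnit B := by
  by_contra hu
  obtain ⟨r, hr⟩ : ∃ r, IsRoot B r := by
    apply IsAlgClosed.exists_root
    intro hdeg
    apply hu
    rw [isUnit_iff_degree_eq_zero]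
    exact hdeg
  have hA : A.eval r ≠ 0 := by
    intro hA
    have := hAB (dvd_iff_isRoot.2 hA) (dvd_iff_isRoot.2 hr)
    exact (not_isUnit_X_sub_C r) this
  obtain ⟨κ, B1, hκ, hB1, hB1r, hB2⟩ := split_root B hB r
  obtain ⟨n, f1, hn, hf1, hf1r, hf2⟩ := split_root f hf r
  have hκ1 : 1 ≤ κ := by
    rw [hκ]; exact (rootMultiplicity_pos hB).2 hr
  obtain ⟨t, ht⟩ : ∃ t : k[X], t = X - C r := ⟨_, rfl⟩
  have ht0 : t.eval r = 0 := by rw [ht]; simp
  have htne : t ≠ 0 := by rw [ht]; exact X_sub_C_ne_zero r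
  rw [← ht] at hB1 hB2 hf1 hf2
  have h1 : t ^ (κ + n) * ((D : k[X]) * (t * derivative A * B1 -
      A * ((κ : k[X]) * B1 + t * derivative B1)) * f1 -
      (K : k[X]) * ((n : k[X]) * f1 + t * derivative f1) * (A * B1)) =
      t ^ (κ + n) * (C c * t * t ^ κ * f1 * B1 ^ 2) := by
    have h2 : (D : k[X]) * (derivative A * B * t - A * (t * derivative B)) * f -
      (K : k[X]) * (t * derivative f) * (A * B) = t * (C c * f * B ^ 2) := by
      rw [← h]; ring
    rw [hB2, hf2] at h2
    have h3 : (D : k[X]) * (derivative A * (t ^ κ * B1) * t -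
        A * (t ^ κ * ((κ : k[X]) * B1 + t * derivative B1))) * (t ^ n * f1) -
      (K : k[X]) * (t ^ n * ((n : k[X]) * f1 + t * derivative f1)) * (A * (t ^ κ * B1)) =
        t * (C c * (t ^ n * f1) * (t ^ κ * B1) ^ 2) := by
      rw [← hB1, ← hf1]; exact h2
    rw [pow_add]
    linear_combination h3
  have h4 := mul_left_cancel₀ (pow_ne_zero _ htne) h1
  have h5 := congrArg (eval r) h4
  simp only [eval_sub, eval_mul, eval_add, eval_pow, ht0, eval_natCast, zero_mul, mul_zero,
    add_zero, zero_sub, zero_add] at h5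
  have h6 : ((D : k) * κ + K * n) * (A.eval r * B1.eval r * f1.eval r) = 0 := by
    linear_combination -h5
  have h7 : A.eval r * B1.eval r * f1.eval r ≠ 0 := mul_ne_zero (mul_ne_zero hA hB1r) hf1r
  have h8 := (mul_eq_zero.1 h6).resolve_right h7
  have h9 : ((D * κ + K * n : ℕ) : k) = 0 := by push_cast; exact h8
  have h10 : D * κ + K * n = 0 := by exact_mod_cast h9
  have : 0 < D * κ := Nat.mul_pos hD hκ1
  omega

theorem poly_h {Q : Type*} [Field Q] [Algebra k[X] Q] [IsFractionRing k[X] Q]
    (δ : Derivation ℤ Q Q)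
    (hδ : ∀ p : k[X], δ (algebraMap k[X] Q p) = algebraMap k[X] Q (derivative p))
    (f : k[X]) (hf : f ≠ 0) (g : Q) (D K : ℕ) (hD : 0 < D) (c : k)
    (hg : (D : Q) * algebraMap k[X] _ f * δ g -
      (((K : ℤ) - D : ℤ) : Q) * δ (algebraMap k[X] _ f) * g =
        algebraMap k[X] _ (C c)) :
    ∃ h : k[X], (D : k[X]) * derivative h * f - (K : k[X]) * derivative f * h = C c * f := by
  let ι := algebraMap k[X] Q
  have hι : Function.Injective ι := IsFractionRing.injective k[X] Q
  have hl : ∀ x y : Q, δ (x * y) = x * δ y + y * δ x := by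
    intro x y
    rw [Derivation.leibniz, smul_eq_mul, smul_eq_mul]
  obtain ⟨H, hH⟩ : ∃ H, H = g * ι f := ⟨_, rfl⟩
  have h1 : (D : Q) * δ H * ι f - (K : Q) * ι (derivative f) * H =
      ι (C c) * ι f := by
    rw [hδ] at hg
    rw [hH, hl, hδ, ← hg]
    push_cast
    ring
  let A := IsFractionRing.num k[X] H
  let B : k[X] := IsFractionRing.den k[X] H
  have hB0 : B ≠ 0 := nonZeroDivisors.ne_zero (IsFractionRing.den k[X] H).2
  have hAB : IsRelPrime A B := IsFractionRing.num_den_reduced k[X] H
  have hHB : H * ι B = ι A := by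
    have := IsFractionRing.mk'_num_den k[X] H
    rw [← this]
    exact IsLocalization.mk'_spec _ _ _
  have hBι : ι B ≠ 0 := fun h => hB0 (hι (by rw [h, map_zero]))
  have h2 : ι B * δ H + H * ι (derivative B) = ι (derivative A) := by
    rw [← hδ, ← hδ, ← hHB, hl]; ring
  have h3 : (D : k[X]) * (derivative A * B - A * derivative B) * f -
      (K : k[X]) * derivative f * (A * B) = C c * f * B ^ 2 := by
    apply hι
    simp only [map_sub, map_mul, map_natCast, map_pow]
    rw [← h2, ← hHB]
    have : (D : Q) * ((ι B * δ H + H * ι (derivative B)) * ι B -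
        H * ι B * ι (derivative B)) * ι f -
        (K : Q) * ι (derivative f) * (H * ι B * ι B) =
        ι B ^ 2 * ((D : Q) * δ H * ι f -
          (K : Q) * ι (derivative f) * H) := by ring
    rw [this, h1]; ring
  have hu := den_unit f A B hf hB0 hAB D K hD c h3
  obtain ⟨b, hb⟩ := hu.exists_left_inv
  have hHh : H = ι (A * b) := by
    apply mul_right_cancel₀ hBι
    rw [hHB, ← map_mul, mul_assoc, hb, mul_one]
  refine ⟨A * b, ?_⟩
  apply hι
  rw [hHh, hδ] at h1
  simp only [map_sub, map_mul, map_natCast] at h1 ⊢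
  exact h1

end poly

end Pool.Agent.TH207.Ser
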