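import Pool.Agent.TH207.Rz

/-! Vertices of Newton polygons at the origin. -/

set_option autoImplicit false
set_option linter.unusedSectionVars false
set_option linter.unusedSimpArgs false

namespace Pool.Agent.TH207.Ser

open MvPolynomial

section Lo

variable {k : Type*} [Field k]

/-- `(i, j)` is the monomial of smallest weight with the smallest exponent of `X 1`. -/
def Lo (ρ σ i j : ℕ) (F : MvPolynomial (Fin 2) k) : Prop :=
  (∃ m, coeff m F ≠ 0 ∧ m 0 = i ∧ m 1 = j) ∧ ∀ m, coeff m F ≠ 0 →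
    ρ * i + σ * j < ρ * m 0 + σ * m 1 ∨ (ρ * i + σ * j = ρ * m 0 + σ * m 1 ∧ j ≤ m 1)

/-- `(i, j)` is the monomial of smallest weight with the largest exponent of `X 1`. -/
def Hi (ρ σ i j : ℕ) (F : MvPolynomial (Fin 2) k) : Prop :=
  (∃ m, coeff m F ≠ 0 ∧ m 0 = i ∧ m 1 = j) ∧ ∀ m, coeff m F ≠ 0 →
    ρ * i + σ * j < ρ * m 0 + σ * m 1 ∨ (ρ * i + σ * j = ρ * m 0 + σ * m 1 ∧ m 1 ≤ j)

theorem Lo.le {ρ σ i j : ℕ} {F : MvPolynomial (Fin 2) k} (h : Lo ρ σ i j F) (m : Fin 2 →₀ ℕ)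
    (hm : coeff m F ≠ 0) : ρ * i + σ * j ≤ ρ * m 0 + σ * m 1 := by
  rcases h.2 m hm with h1 | h1
  · exact h1.le
  · exact h1.1.le

theorem Hi.le {ρ σ i j : ℕ} {F : MvPolynomial (Fin 2) k} (h : Hi ρ σ i j F) (m : Fin 2 →₀ ℕ)
    (hm : coeff m F ≠ 0) : ρ * i + σ * j ≤ ρ * m 0 + σ * m 1 := by
  rcases h.2 m hm with h1 | h1
  · exact h1.le
  · exact h1.1.le

/-- The slope of the segment from the vertex `(i, j)` to the monomial `m`. -/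
def slp (i j : ℕ) (m : Fin 2 →₀ ℕ) : ℚ := ((m 0 : ℚ) - i) / ((j : ℚ) - m 1)

theorem slp_gt {ρ0 σ0 i j : ℕ} (hρ0 : 0 < ρ0) {F : MvPolynomial (Fin 2) k}
    (hF : Lo ρ0 σ0 i j F) {m : Fin 2 →₀ ℕ} (hm : coeff m F ≠ 0) (hmj : m 1 < j) :
    (σ0 : ℚ) / ρ0 < slp i j m := by
  unfold slp
  have h1 : (0 : ℚ) < (j : ℚ) - m 1 := by
    have : ((m 1 : ℕ) : ℚ) < j := by exact_mod_cast hmj
    linarith
  have h2 : (0 : ℚ) < ρ0 := by exact_mod_cast hρ0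
  rw [div_lt_div_iff₀ h2 h1]
  rcases hF.2 m hm with h3 | h3
  · have h4 : ((ρ0 : ℚ) * i + σ0 * j) < ρ0 * m 0 + σ0 * m 1 := by exact_mod_cast h3
    linarith
  · omega

theorem Hi_of {ρ0 σ0 i j : ℕ} (hρ0 : 0 < ρ0) {F : MvPolynomial (Fin 2) k}
    (hF : Lo ρ0 σ0 i j F) {ρ σ : ℕ} (hρ : 0 < ρ) (hσ : σ0 * ρ < σ * ρ0)
    (h : ∀ m, coeff m F ≠ 0 → m 1 < j → (σ : ℚ) / ρ ≤ slp i j m) : Hi ρ σ i j F := by
  refine ⟨hF.1, fun m hm => ?_⟩
  rcases lt_or_ge (m 1) j with h1 | h1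
  · have h2 := h m hm h1
    unfold slp at h2
    have h3 : (0 : ℚ) < (j : ℚ) - m 1 := by
      have : ((m 1 : ℕ) : ℚ) < j := by exact_mod_cast h1
      linarith
    have h4 : (0 : ℚ) < ρ := by exact_mod_cast hρ
    rw [div_le_div_iff₀ h4 h3] at h2
    have h5 : (ρ : ℚ) * i + σ * j ≤ ρ * m 0 + σ * m 1 := by linarith
    have h6 : ρ * i + σ * j ≤ ρ * m 0 + σ * m 1 := by exact_mod_cast h5
    rcases lt_or_eq_of_le h6 with h7 | h7
    · left; exact h7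
    · right; exact ⟨h7, h1.le⟩
  · have h2 := hF.le m hm
    zify at h2 hσ h1 hρ hρ0 ⊢
    have h3 : (ρ0 : ℤ) * ((ρ * m 0 + σ * m 1) - (ρ * i + σ * j)) ≥
        ((σ : ℤ) * ρ0 - σ0 * ρ) * (m 1 - j) := by
      have := mul_le_mul_of_nonneg_left h2 hρ.le
      linarith
    rcases eq_or_lt_of_le h1 with h4 | h4
    · have h5 : (0 : ℤ) ≤ (ρ0 : ℤ) * ((ρ * m 0 + σ * m 1) - (ρ * i + σ * j)) := by
        rw [← h4] at h3 ⊢; linarith
      have h6 := nonneg_of_mul_nonneg_right h5 hρ0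
      rcases lt_or_eq_of_le (sub_nonneg.1 h6) with h7 | h7
      · left; exact h7
      · right; exact ⟨h7, h4.symm.le⟩
    · left
      have h5 : (0 : ℤ) < ((σ : ℤ) * ρ0 - σ0 * ρ) * (m 1 - j) :=
        mul_pos (by linarith) (by linarith)
      have h6 : (0 : ℤ) < (ρ0 : ℤ) * ((ρ * m 0 + σ * m 1) - (ρ * i + σ * j)) := by linarith
      have h7 := pos_of_mul_pos_right h6 hρ0.le
      linarith

theorem next2 {ρ0 σ0 : ℕ} (hρ0 : 0 < ρ0) {F G : MvPolynomial (Fin 2) k} {iF jF iG jG : ℕ}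
    (hF : Lo ρ0 σ0 iF jF F) (hG : Lo ρ0 σ0 iG jG G)
    (hex : (∃ m, coeff m F ≠ 0 ∧ m 1 < jF) ∨ (∃ m, coeff m G ≠ 0 ∧ m 1 < jG)) :
    ∃ ρ σ, 0 < ρ ∧ Nat.Coprime ρ σ ∧ σ0 * ρ < σ * ρ0 ∧ Hi ρ σ iF jF F ∧ Hi ρ σ iG jG G ∧
      ((∃ m, coeff m F ≠ 0 ∧ ρ * m 0 + σ * m 1 = ρ * iF + σ * jF ∧ m 1 < jF) ∨
       (∃ m, coeff m G ≠ 0 ∧ ρ * m 0 + σ * m 1 = ρ * iG + σ * jG ∧ m 1 < jG)) := by
  classical
  set WF := (F.support.filter fun m => m 1 < jF).image (slp iF jF) with hWF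
  set WG := (G.support.filter fun m => m 1 < jG).image (slp iG jG) with hWG
  have memF : ∀ q, q ∈ WF ↔ ∃ m, (coeff m F ≠ 0 ∧ m 1 < jF) ∧ slp iF jF m = q := by
    intro q
    rw [hWF, Finset.mem_image]
    simp only [Finset.mem_filter, mem_support_iff]
  have memG : ∀ q, q ∈ WG ↔ ∃ m, (coeff m G ≠ 0 ∧ m 1 < jG) ∧ slp iG jG m = q := by
    intro q
    rw [hWG, Finset.mem_image]
    simp only [Finset.mem_filter, mem_support_iff]
  have hne : (WF ∪ WG).Nonempty := by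
    rcases hex with ⟨m, h1, h2⟩ | ⟨m, h1, h2⟩
    · exact ⟨_, Finset.mem_union_left _ ((memF _).2 ⟨m, ⟨h1, h2⟩, rfl⟩)⟩
    · exact ⟨_, Finset.mem_union_right _ ((memG _).2 ⟨m, ⟨h1, h2⟩, rfl⟩)⟩
  obtain ⟨q, hq⟩ : ∃ q, q = (WF ∪ WG).min' hne := ⟨_, rfl⟩
  have hqmem : q ∈ WF ∪ WG := by rw [hq]; exact Finset.min'_mem _ _
  have hqle : ∀ x ∈ WF ∪ WG, q ≤ x := by
    intro x hx; rw [hq]; exact Finset.min'_le _ _ hx
  have hq0 : (σ0 : ℚ) / ρ0 < q := by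
    rcases Finset.mem_union.1 hqmem with h | h
    · obtain ⟨m, ⟨h1, h2⟩, h3⟩ := (memF q).1 h
      rw [← h3]; exact slp_gt hρ0 hF h1 h2
    · obtain ⟨m, ⟨h1, h2⟩, h3⟩ := (memG q).1 h
      rw [← h3]; exact slp_gt hρ0 hG h1 h2
  have hqpos : 0 < q := lt_of_le_of_lt (by positivity) hq0
  obtain ⟨σ, hσ⟩ : ∃ σ : ℕ, (σ : ℤ) = q.num := ⟨q.num.toNat, Int.toNat_of_nonneg (Rat.num_nonneg.2 hqpos.le)⟩
  have hqeq : (σ : ℚ) / (q.den : ℚ) = q := by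
    have h1 : ((σ : ℤ) : ℚ) / (q.den : ℚ) = q := by rw [hσ]; exact Rat.num_div_den q
    rw [Int.cast_natCast] at h1
    exact h1
  have hρ : 0 < q.den := q.den_pos
  have hρ0Q : (0 : ℚ) < ρ0 := by exact_mod_cast hρ0
  have hρQ : (0 : ℚ) < q.den := by exact_mod_cast hρ
  have hlt : σ0 * q.den < σ * ρ0 := by
    rw [← hqeq, div_lt_div_iff₀ hρ0Q hρQ] at hq0
    exact_mod_cast hq0
  refine ⟨q.den, σ, hρ, ?_, hlt, Hi_of hρ0 hF hρ hlt ?_, Hi_of hρ0 hG hρ hlt ?_, ?_⟩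
  · have h1 := q.reduced
    have h2 : q.num.natAbs = σ := by rw [← hσ]; simp
    rw [h2] at h1
    exact h1.symm
  · intro m h1 h2
    rw [hqeq]
    exact hqle _ (Finset.mem_union_left _ ((memF _).2 ⟨m, ⟨h1, h2⟩, rfl⟩))
  · intro m h1 h2
    rw [hqeq]
    exact hqle _ (Finset.mem_union_right _ ((memG _).2 ⟨m, ⟨h1, h2⟩, rfl⟩))
  · have tie : ∀ (i j : ℕ) (m : Fin 2 →₀ ℕ), m 1 < j → slp i j m = q →
        q.den * m 0 + σ * m 1 = q.den * i + σ * j := by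
      intro i j m h1 h2
      unfold slp at h2
      have h3 : (0 : ℚ) < (j : ℚ) - m 1 := by
        have : ((m 1 : ℕ) : ℚ) < j := by exact_mod_cast h1
        linarith
      rw [← hqeq, div_eq_div_iff h3.ne' hρQ.ne'] at h2
      have h4 : (q.den : ℚ) * m 0 + σ * m 1 = q.den * i + σ * j := by linarith
      exact_mod_cast h4
    rcases Finset.mem_union.1 hqmem with h | h
    · obtain ⟨m, ⟨h1, h2⟩, h3⟩ := (memF q).1 h
      exact Or.inl ⟨m, h1, tie _ _ m h2 h3, h2⟩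
    · obtain ⟨m, ⟨h1, h2⟩, h3⟩ := (memG q).1 h
      exact Or.inr ⟨m, h1, tie _ _ m h2 h3, h2⟩

/-- The vertex of smallest `X 1`-exponent from the multiplicity of the root zero. -/
theorem Lo_of_N {ρ σ : ℕ} (hρ : 0 < ρ) {F : MvPolynomial (Fin 2) k} {mF : ℕ}
    (h : ∀ n < mF, (N ρ σ F).coeff n = 0) (h0 : (N ρ σ F).coeff mF ≠ 0) :
    ∃ i, ρ * i + σ * Polynomial.rootMultiplicity 0 ((N ρ σ F).coeff mF) = mF ∧
      Lo ρ σ i (Polynomial.rootMultiplicity 0 ((N ρ σ F).coeff mF)) F := by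
  rw [Polynomial.rootMultiplicity_eq_natTrailingDegree']
  have h1 : ((N ρ σ F).coeff mF).coeff ((N ρ σ F).coeff mF).natTrailingDegree ≠ 0 := by
    have := Polynomial.trailingCoeff_nonzero_iff_nonzero.2 h0
    exact this
  obtain ⟨m, hm1, hm2, hm3⟩ := exists_of_coeff_N h1
  refine ⟨m 0, by rw [← hm3]; exact hm2, ⟨m, hm1, rfl, hm3⟩, fun m' hm' => ?_⟩
  have h2 : ρ * m 0 + σ * ((N ρ σ F).coeff mF).natTrailingDegree = mF := by
    rw [← hm3]; exact hm2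
  rw [h2]
  have h3 := coeff_N_of (σ := σ) hρ F m'
  rcases lt_trichotomy mF (ρ * m' 0 + σ * m' 1) with h4 | h4 | h4
  · left; exact h4
  · right
    refine ⟨h4, ?_⟩
    rw [← h4] at h3
    apply Polynomial.natTrailingDegree_le_of_ne_zero
    rw [h3]; exact hm'
  · exfalso
    rw [h _ h4, Polynomial.coeff_zero] at h3
    exact hm' h3.symm

/-- The leading form at a vertex `Hi`. -/
theorem natDegree_N {ρ σ i j : ℕ} (hρ : 0 < ρ) {F : MvPolynomial (Fin 2) k}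
    (h : Hi ρ σ i j F) : (N ρ σ F).coeff (ρ * i + σ * j) ≠ 0 ∧
      ((N ρ σ F).coeff (ρ * i + σ * j)).natDegree = j := by
  obtain ⟨m, hm, hm0, hm1⟩ := h.1
  have h1 := coeff_N_of (σ := σ) hρ F m
  rw [hm0, hm1] at h1
  have h2 : ((N ρ σ F).coeff (ρ * i + σ * j)).coeff j ≠ 0 := by rw [h1]; exact hm
  refine ⟨fun h0 => h2 (by rw [h0, Polynomial.coeff_zero]), le_antisymm ?_ ?_⟩
  · rw [Polynomial.natDegree_le_iff_coeff_eq_zero]
    intro n hn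
    by_contra h3
    obtain ⟨m', h4, h5, h6⟩ := exists_of_coeff_N h3
    rcases h.2 m' h4 with h7 | h7 <;> omega
  · exact Polynomial.le_natDegree_of_ne_zero h2

theorem Res_N {ρ σ i j : ℕ} (hcop : Nat.Coprime ρ σ) {F : MvPolynomial (Fin 2) k} :
    Res ρ j ((N ρ σ F).coeff (ρ * i + σ * j)) := by
  intro n hn
  obtain ⟨m, _, h2, h3⟩ := exists_of_coeff_N hn
  rw [← h3]
  have h4 : σ * m 1 ≡ σ * j [MOD ρ] := by
    have h5 : ρ * m 0 + σ * m 1 ≡ ρ * i + σ * j [MOD ρ] := by rw [h2]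
    have h6 : ∀ x y : ℕ, ρ * x + y ≡ y [MOD ρ] := by
      intro x y
      have : ρ * x + y ≡ 0 + y [MOD ρ] := Nat.ModEq.add_right y (by
        rw [Nat.modEq_zero_iff_dvd]; exact dvd_mul_right _ _)
      rwa [zero_add] at this
    exact ((h6 _ _).symm.trans h5).trans (h6 _ _)
  exact Nat.ModEq.cancel_left_of_coprime hcop h4

end Lo

end Pool.Agent.TH207.Ser
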