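import Pool.Agent.TH207.Bd3

/-! Vertices without denominators: the edge which crosses the diagonal. -/

set_option autoImplicit false
set_option linter.unusedSectionVars false
set_option linter.unusedSimpArgs false

namespace Pool.Agent.TH207.Ser

open MvPolynomial

variable {k : Type*} [Field k] [CharZero k]

variable {a b : ℕ} {D d : ℤ} {e : ℕ} {c : k}
    {F G : MvPolynomial (Fin 2) k} {ρ0 σ0 : ℕ} {A : ℤ} {n iF iG : ℕ} {ρ σ K H : ℕ}
    {f g h : Polynomial k} {c' : k}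

/-- The lower vertex of the edge. -/
theorem Fm.low (hcop : Nat.Coprime a b)
    (S : St a b D d e c F G ρ0 σ0 A n iF iG) (X1 : Nx a b D d e F G A n iF iG ρ σ K H)
    (Y : Fm a b F G n iF iG ρ σ K H f g h c') {μ : ℕ}
    (h1 : Polynomial.rootMultiplicity 0 f = a * μ) (h2 : Polynomial.rootMultiplicity 0 g = b * μ) :
    ∃ (A' : ℤ) (iF' iG' : ℕ), ρ * A' = H + σ * μ ∧ Lo ρ σ iF' (a * μ) F ∧
      Lo ρ σ iG' (b * μ) G ∧ D - iF' = a * A' ∧ d - iG' = b * A' := by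
  obtain ⟨iF', e1, L1⟩ := Lo_of_N X1.hρ (N_below X1.hF.le) (Y.hf ▸ Y.hf0)
  obtain ⟨iG', e2, L2⟩ := Lo_of_N X1.hρ (N_below X1.hG.le) (Y.hg ▸ Y.hg0)
  rw [← Y.hf, h1] at e1 L1
  rw [← Y.hg, h2] at e2 L2
  have hz1 : (ρ : ℤ) * (D - iF') = a * (H + σ * μ) := by
    rw [X1.hH]
    have e1' : (ρ : ℤ) * iF' + σ * (a * μ) = ρ * iF + σ * (a * n) := by exact_mod_cast e1
    linear_combination (ρ : ℤ) * S.hD - e1'
  have hz2 : (ρ : ℤ) * (d - iG') = b * (H + σ * μ) := by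
    rw [X1.hH]
    have e2' : (ρ : ℤ) * iG' + σ * (b * μ) = ρ * iG + σ * (b * n) := by exact_mod_cast e2
    linear_combination (ρ : ℤ) * S.hd - e2'
  obtain ⟨A', a1, a2, a3⟩ := exists_A hcop X1.hρ hz1 hz2
  exact ⟨A', iF', iG', a1, L1, L2, a2, a3⟩

/-- No terminal direction without denominators. -/
theorem Nx.not_term (hc : c ≠ 0) (ha : 0 < a) (hb : 0 < b)
    (hD : D - iF = a * A) (hd : d - iG = b * A)
    (hB : Bk D d F G = C c * X 0 ^ e) (X1 : Nx a b D d e F G A n iF iG ρ σ K H)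
    (hl : D + d - e = 1) (hFD : ∀ m, coeff m F ≠ 0 → (m 0 : ℤ) ≤ D)
    (hGd : ∀ m, coeff m G ≠ 0 → (m 0 : ℤ) ≤ d) : K < (a + b) * H := by
  rcases Nat.lt_or_ge K ((a + b) * H) with hT | hT
  · exact hT
  exfalso
  have hT' : (a + b) * H = K := le_antisymm hT X1.hle
  obtain ⟨m, m', h1, h2, h3, h4⟩ := mono hc hB
  have h5 := X1.hF.le m h1
  have h6 := X1.hG.le m' h2
  have hdf := X1.hdiff
  have hT2 : ((a : ℤ) + b) * H = K := by exact_mod_cast hT'
  rw [hT2, sub_self] at hdf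
  have h7 : ρ * iF + σ * (a * n) + (ρ * iG + σ * (b * n)) = σ + ρ * e := by
    zify; linarith
  have h8 : (ρ * m 0 + σ * m 1) + (ρ * m' 0 + σ * m' 1) = σ + ρ * e := by
    rw [← h3]
    calc (ρ * m 0 + σ * m 1) + (ρ * m' 0 + σ * m' 1) =
        ρ * (m 0 + m' 0) + σ * (m 1 + m' 1) := by ring
      _ = σ + ρ * (m 0 + m' 0) := by rw [h4]; ring
  have h9 : ρ * iF + σ * (a * n) = ρ * m 0 + σ * m 1 := by omega
  have h10 : ρ * iG + σ * (b * n) = ρ * m' 0 + σ * m' 1 := by omega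
  have k1 := hFD m h1
  have k2 := hGd m' h2
  have h3z : (m 0 : ℤ) + m' 0 = e := by exact_mod_cast h3
  have h9z : (ρ : ℤ) * iF + σ * (a * n) = ρ * m 0 + σ * m 1 := by exact_mod_cast h9
  have h10z : (ρ : ℤ) * iG + σ * (b * n) = ρ * m' 0 + σ * m' 1 := by exact_mod_cast h10
  have hHz : (0 : ℤ) < H := by exact_mod_cast X1.hH0
  have haz : (0 : ℤ) < a := by exact_mod_cast ha
  have hbz : (0 : ℤ) < b := by exact_mod_cast hb
  have w1 : (ρ : ℤ) * (D - m 0) - σ * m 1 = a * H := by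
    rw [X1.hH]; linear_combination (ρ : ℤ) * hD + h9z
  have w2 : (ρ : ℤ) * (d - m' 0) - σ * m' 1 = b * H := by
    rw [X1.hH]; linear_combination (ρ : ℤ) * hd + h10z
  have w3 : (0 : ℤ) < a * H := mul_pos haz hHz
  have w4 : (0 : ℤ) < b * H := mul_pos hbz hHz
  have s1 : (0 : ℤ) ≤ σ * m 1 := by positivity
  have s2 : (0 : ℤ) ≤ σ * m' 1 := by positivity
  have hsum : (D - m 0) + (d - m' 0) = 1 := by linarith
  rcases lt_or_ge (D - (m 0 : ℤ)) 1 with h11 | h11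
  · have h12 : D - (m 0 : ℤ) = 0 := by omega
    rw [h12, mul_zero] at w1
    linarith
  · have h12 : d - (m' 0 : ℤ) = 0 := by omega
    rw [h12, mul_zero] at w2
    linarith

theorem h_natDegree [IsAlgClosed k] (hρ : 2 ≤ ρ)
    (Y : Fm a b F G n iF iG ρ σ K H f g h c') (hK : 0 < K) {r : k} (hr : r ≠ 0)
    (hfr : f.IsRoot r) : ∃ s, 1 ≤ s ∧ h.natDegree = 1 + ρ * s := by
  have hh0 : h ≠ 0 := by
    rintro h0
    have h1 := Y.heq
    rw [h0, Polynomial.derivative_zero] at h1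
    have h2 : Polynomial.C c' * f = 0 := by rw [← h1]; ring
    rcases mul_eq_zero.1 h2 with h3 | h3
    · exact Y.hc' (Polynomial.C_eq_zero.1 h3)
    · exact Y.hf0 h3
  have hroot := (root_local hK Y.hc' Y.hf0 Y.heq hfr).1
  have h1 : h.natDegree ≡ 1 [MOD ρ] := Y.hhres _ (by
    rw [Polynomial.coeff_natDegree]
    exact Polynomial.leadingCoeff_ne_zero.2 hh0)
  have h2 : h.natDegree ≠ 0 := by
    intro h3
    rw [h3] at h1
    have h4 : ρ ∣ 1 := by
      have := (Nat.modEq_zero_iff_dvd (n := ρ) (a := 1)).1 h1.symm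
      exact this
    have := Nat.le_of_dvd one_pos h4
    omega
  have h5 : h.natDegree ≠ 1 := by
    intro h3
    have h6 : h.coeff 0 = 0 := by
      by_contra h7
      have h8 : 0 ≡ 1 [MOD ρ] := Y.hhres 0 h7
      have h4 : ρ ∣ 1 := (Nat.modEq_zero_iff_dvd (n := ρ) (a := 1)).1 h8.symm
      have := Nat.le_of_dvd one_pos h4
      omega
    have h7 : h = Polynomial.C (h.coeff 1) * Polynomial.X := by
      rw [Polynomial.eq_X_add_C_of_natDegree_le_one h3.le]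
      simp [h6]
    rw [h7] at hroot
    have h8 : h.coeff 1 * r = 0 := by
      have : (Polynomial.C (h.coeff 1) * Polynomial.X).eval r = 0 := hroot
      simpa using this
    rcases mul_eq_zero.1 h8 with h9 | h9
    · apply hh0
      rw [h7, h9]; simp
    · exact hr h9
  obtain ⟨q, hq⟩ : ∃ q, h.natDegree = 1 + q := ⟨h.natDegree - 1, by omega⟩
  have h6 : ρ ∣ q := by
    have h7 : 1 + 0 ≡ 1 + q [MOD ρ] := by rw [← hq]; exact h1.symm
    have h8 := Nat.ModEq.add_left_cancel' 1 h7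
    exact (Nat.modEq_zero_iff_dvd).1 h8.symm
  obtain ⟨s, hs⟩ := h6
  refine ⟨s, ?_, by rw [hq, hs]⟩
  rcases s with _ | s
  · rw [mul_zero] at hs; omega
  · omega

/-- The arithmetic of the edge which crosses the diagonal. -/
theorem cross_arith {ρ σ K H n μ0 μ s : ℕ} {A A0 : ℤ} (hσ : 1 ≤ σ) (hK0 : 0 < K)
    (hK : (K : ℤ) = ρ - σ) (hH : (H : ℤ) = ρ * A - σ * n) (hcop : Nat.Coprime ρ σ)
    (hA0 : (ρ : ℤ) * A0 = H + σ * μ0) (hA01 : 1 ≤ A0) (hμ0 : μ0 * K < H)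
    (hs : 1 ≤ s) (htop : H * (1 + ρ * s) = K * n) (horb : ρ * μ + μ0 ≤ n) (hμ : H < μ * K) :
    2 ≤ μ ∧ (μ * K : ℤ) - H ≤ A ^ 2 - 3 * A + 1 ∧
    ∃ S : ℕ, n = μ0 + ρ * S ∧ (A : ℤ) = A0 + σ * S ∧ A * K = H * (1 + σ * s) ∧
      A * s + 1 ≤ S * (1 + σ * s) ∧ (ρ : ℤ) ≤ A ∧ 1 + σ * s ≤ A - 1 ∧ μ ≤ S := by
  have hρ : 0 < ρ := by
    rcases Nat.eq_zero_or_pos ρ with h | h
    · subst h; push_cast at hK; omega
    · exact h
  have hρz : (0 : ℤ) < ρ := by exact_mod_cast hρ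
  have hKz : (0 : ℤ) < K := by exact_mod_cast hK0
  have hσz : (1 : ℤ) ≤ σ := by exact_mod_cast hσ
  have hsz : (1 : ℤ) ≤ s := by exact_mod_cast hs
  have htz : (H : ℤ) * (1 + ρ * s) = K * n := by exact_mod_cast htop
  have hμ0z : (μ0 : ℤ) * K < H := by exact_mod_cast hμ0
  have hμz : (H : ℤ) < μ * K := by exact_mod_cast hμ
  have horbz : (ρ : ℤ) * μ + μ0 ≤ n := by exact_mod_cast horb
  -- number of steps
  have h1 : (ρ : ℤ) * (A - A0) = σ * (n - μ0) := by rw [mul_sub, hA0, hH]; ring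
  have h2 : (ρ : ℤ) ∣ (n - μ0 : ℤ) := by
    apply (Nat.isCoprime_iff_coprime.2 hcop).dvd_of_dvd_mul_left
    exact ⟨A - A0, h1.symm⟩
  obtain ⟨Sz, hSz⟩ := h2
  have hS0 : (0 : ℤ) ≤ Sz := by
    have h3 : (0 : ℤ) ≤ ρ * Sz := by
      rw [← hSz]
      have : (0 : ℤ) ≤ ρ * μ := by positivity
      linarith
    exact nonneg_of_mul_nonneg_right h3 hρz
  obtain ⟨S, rfl⟩ := Int.eq_ofNat_of_zero_le hS0
  have hAS : A - A0 = σ * S := by
    apply mul_left_cancel₀ hρz.ne'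
    rw [h1, hSz]; ring
  have hAX : A * K = H * (1 + σ * s) := by
    apply mul_left_cancel₀ hρz.ne'
    have h3 : (ρ : ℤ) * (A * K) = (H + σ * n) * K := by rw [hH]; ring
    rw [h3]
    have h4 : (σ : ℤ) * (n * K) = σ * (H * (1 + ρ * s)) := by rw [htz]; ring
    have h5 : (H : ℤ) * K = H * (ρ - σ) := by rw [hK]
    linear_combination h4 + h5
  have hSK : (H : ℤ) * s < S * K := by
    have h3 : (n : ℤ) = μ0 + ρ * S := by linarith
    rw [h3] at htz
    have h4 : (ρ : ℤ) * (H * s) < ρ * (S * K) := by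
      have : (H : ℤ) + ρ * (H * s) = K * μ0 + ρ * (S * K) := by linear_combination htz
      linarith
    exact lt_of_mul_lt_mul_left h4 hρz.le
  have hX0 : (0 : ℤ) < 1 + σ * s := by positivity
  have hSX : A * s + 1 ≤ S * (1 + σ * s) := by
    have h3 : K * (A * s) < K * (S * (1 + σ * s)) := by
      have h4 : (H : ℤ) * s * (1 + σ * s) < S * K * (1 + σ * s) :=
        mul_lt_mul_of_pos_right hSK hX0
      linear_combination h4 + s * hAX
    have := lt_of_mul_lt_mul_left h3 hKz.le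
    linarith
  have hnX : (n : ℤ) * (1 + σ * s) = A * (1 + ρ * s) := by
    apply mul_left_cancel₀ hKz.ne'
    linear_combination (-(1 + (σ : ℤ) * s)) * htz - (1 + ρ * s) * hAX
  have hρA : (ρ : ℤ) ≤ A := by
    have h3 : (ρ : ℤ) * (A * s + 1) ≤ ρ * (S * (1 + σ * s)) :=
      mul_le_mul_of_nonneg_left hSX hρz.le
    have h4 : (ρ : ℤ) * S ≤ n := by
      have : (0 : ℤ) ≤ μ0 := by positivity
      linarith
    have h5 : (ρ : ℤ) * S * (1 + σ * s) ≤ n * (1 + σ * s) :=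
      mul_le_mul_of_nonneg_right h4 hX0.le
    rw [hnX] at h5
    linarith
  have hHK : (K : ℤ) < H := by
    rcases Nat.eq_zero_or_pos μ0 with h0 | h0
    · subst h0
      have h3 : (ρ : ℤ) * 1 ≤ ρ * A0 := mul_le_mul_of_nonneg_left hA01 hρz.le
      rw [hA0] at h3
      push_cast at h3
      linarith
    · have h3 : (1 : ℤ) ≤ μ0 := by exact_mod_cast h0
      have h4 : 1 * (K : ℤ) ≤ μ0 * K := mul_le_mul_of_nonneg_right h3 hKz.le
      linarith
  have hXA : 1 + (σ : ℤ) * s ≤ A - 1 := by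
    have h3 : K * (1 + (σ : ℤ) * s) < K * A := by
      have : (K : ℤ) * (1 + σ * s) < H * (1 + σ * s) := mul_lt_mul_of_pos_right hHK hX0
      linarith
    have := lt_of_mul_lt_mul_left h3 hKz.le
    linarith
  have hμS : μ ≤ S := by
    have h3 : (ρ : ℤ) * μ ≤ ρ * S := by linarith
    exact_mod_cast le_of_mul_le_mul_left h3 hρz
  have hμSz : (μ : ℤ) ≤ S := by exact_mod_cast hμS
  have hSA : (S : ℤ) ≤ A - 1 := by
    have h3 : 1 * (S : ℤ) ≤ σ * S := mul_le_mul_of_nonneg_right hσz (by positivity)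
    linarith
  have hμ2 : 2 ≤ μ := by
    by_contra h3
    have h4 : (μ : ℤ) ≤ 1 := by exact_mod_cast (by omega : μ ≤ 1)
    have h5 : (μ : ℤ) * K ≤ 1 * K := mul_le_mul_of_nonneg_right h4 hKz.le
    linarith
  refine ⟨hμ2, ?_, S, by exact_mod_cast (by linarith : (n : ℤ) = μ0 + ρ * S), by linarith, hAX,
    hSX, hρA, hXA, hμS⟩
  -- the bound
  have hKA : (K : ℤ) ≤ A - 1 := by linarith
  obtain ⟨Xz, hXz⟩ : ∃ Xz : ℤ, Xz = 1 + σ * s := ⟨_, rfl⟩
  rw [← hXz] at hX0 hXA hAX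
  have h3 : Xz * (μ * K - H) = K * (μ * Xz - A) := by linear_combination hAX
  have h4 : 0 < K * (μ * Xz - A) := by
    rw [← h3]; exact mul_pos hX0 (by linarith)
  have h5 : 0 < μ * Xz - A := pos_of_mul_pos_right h4 hKz.le
  have h6 : K * (μ * Xz - A) ≤ (A - 1) * (μ * Xz - A) := mul_le_mul_of_nonneg_right hKA h5.le
  have h7 : μ * Xz ≤ (A - 1) * Xz := mul_le_mul_of_nonneg_right (by linarith) hX0.le
  have hA1 : 0 ≤ A - 1 := by linarith
  have h8 : (A - 1) * (μ * Xz) ≤ (A - 1) * ((A - 1) * Xz) := mul_le_mul_of_nonneg_left h7 hA1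
  have h9 : A * Xz ≤ A * (A - 1) := mul_le_mul_of_nonneg_left hXA (by linarith)
  have h10 : Xz * (μ * K - H) ≤ Xz * (A ^ 2 - 3 * A + 1) := by
    rw [h3]; nlinarith
  exact le_of_mul_le_mul_left h10 hX0

end Pool.Agent.TH207.Ser
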