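import Pool.Agent.TH207.Lv

/-! The bound for vertices without denominators. -/

set_option autoImplicit false
set_option linter.unusedSectionVars false
set_option linter.unusedSimpArgs false

namespace Pool.Agent.TH207.Ser

open MvPolynomial

variable {k : Type*} [Field k] [CharZero k] [IsAlgClosed k]

theorem level_one {a b : ℕ} (ha : 2 ≤ a) (hb : 1 ≤ b) (hcop : Nat.Coprime a b) {D d : ℤ} {e : ℕ}
    {c : k} {F G : MvPolynomial (Fin 2) k} (hl : D + d - e = 1)
    (hFD : ∀ m, coeff m F ≠ 0 → (m 0 : ℤ) ≤ D) (hGd : ∀ m, coeff m G ≠ 0 → (m 0 : ℤ) ≤ d) :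
    ∀ (N : ℕ) {ρ0 σ0 : ℕ} {A : ℤ} {n iF iG : ℕ}, n ≤ N →
      St a b D d e c F G ρ0 σ0 A n iF iG → A < n →
      (a + b : ℤ) ≤ a * (A ^ 2 - 3 * A + 1) ∧ (a + b : ℤ) ≤ a * (n - A - 1) := by
  intro N
  induction N with
  | zero =>
    intro ρ0 σ0 A n iF iG hn S _
    have := S.hn
    omega
  | succ N ih =>
  intro ρ0 σ0 A n iF iG hnN S hAn
  have hu : 0 < (D + d - e) * n - A := by rw [hl]; linarith
  obtain ⟨ρ, σ, K, H, hlt, X1⟩ := exists_nx ha S hu
  have hT := X1.not_term S.hc (by omega) (by omega) S.hD S.hd S.hB hl hFD hGd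
  obtain ⟨f, g, h, c', Y⟩ := X1.form ha hcop S hT
  have hρ := X1.hρ
  have hσ : 1 ≤ σ := by
    rcases Nat.eq_zero_or_pos σ with h0 | h0
    · subst h0; omega
    · exact h0
  have hKz : (0 : ℤ) < K := by exact_mod_cast X1.hK0
  have hHz : (0 : ℤ) < H := by exact_mod_cast X1.hH0
  have hρz : (0 : ℤ) < ρ := by exact_mod_cast hρ
  have hσz : (1 : ℤ) ≤ σ := by exact_mod_cast hσ
  have hK := X1.hK
  rw [hl, mul_one] at hK
  have hρ2 : 2 ≤ ρ := by
    have : (2 : ℤ) ≤ ρ := by linarith
    exact_mod_cast this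
  have hmain := X1.hu
  rw [hl, one_mul] at hmain
  have h0 : H < n * K := by
    have h1 : (0 : ℤ) < ρ * (n - A) := mul_pos hρz (by linarith)
    zify; linarith
  obtain ⟨r, μ, h1, h2, h3, hμ⟩ := Y.root ha S.hn X1.hK0 h0
  obtain ⟨μ0, g1, g2⟩ := Y.hm 0
  obtain ⟨A0, iF', iG', e1, L1, L2, e2, e3⟩ := Y.low hcop S X1 g1 g2
  have hA01 : 1 ≤ A0 := by
    have h4 : (0 : ℤ) < ρ * A0 := by rw [e1]; positivity
    have := pos_of_mul_pos_right h4 hρz.le
    linarith
  have hμ0n : μ0 < n := by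
    have := Y.hz
    rw [g1] at this
    exact Nat.lt_of_mul_lt_mul_left this
  have haz : (2 : ℤ) ≤ a := by exact_mod_cast ha
  -- the multiplicity of zero is not critical
  have hne : H ≠ μ0 * K := by
    intro h4
    rcases Nat.eq_zero_or_pos μ0 with h5 | h5
    · subst h5
      rw [zero_mul] at h4
      have := X1.hH0
      omega
    · have h6 : f.IsRoot 0 := by
        rw [← Polynomial.rootMultiplicity_pos Y.hf0, g1]
        exact Nat.mul_pos (by omega) h5
      have h7 := (root_local X1.hK0 Y.hc' Y.hf0 Y.heq h6).2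
      apply h7
      rw [g1, h4]; ring
  rcases lt_or_gt_of_ne hne with h4 | h4
  · -- the edge stays above the diagonal
    have hμ01 : 1 ≤ μ0 := by
      rcases Nat.eq_zero_or_pos μ0 with h5 | h5
      · subst h5; omega
      · exact h5
    have S' : St a b D d e c F G ρ σ A0 μ0 iF' iG' :=
      ⟨S.hc, S.hB, L1, L2, e2, e3, hρ, hμ01⟩
    have h4z : (H : ℤ) < μ0 * K := by exact_mod_cast h4
    have h5 : A0 < μ0 := by
      have h6 : (ρ : ℤ) * A0 < ρ * μ0 := by
        rw [e1]
        rw [hK] at h4z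
        linarith
      exact lt_of_mul_lt_mul_left h6 hρz.le
    obtain ⟨i1, i2⟩ := ih (by omega : μ0 ≤ N) S' h5
    have h6 : A0 < A := by
      have h7 : (ρ : ℤ) * A0 < ρ * A := by
        have h8 : (ρ : ℤ) * A = H + σ * n := by rw [X1.hH]; ring
        rw [e1, h8]
        have h9 : (μ0 : ℤ) < n := by exact_mod_cast hμ0n
        have h10 : (σ : ℤ) * μ0 < σ * n := mul_lt_mul_of_pos_left h9 (by linarith)
        linarith
      exact lt_of_mul_lt_mul_left h7 hρz.le
    constructor
    · have h7 : (0 : ℤ) ≤ (A - A0) * (A + A0 - 3) :=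
        mul_nonneg (by linarith) (by linarith)
      have h8 : A0 ^ 2 - 3 * A0 + 1 ≤ A ^ 2 - 3 * A + 1 := by linarith
      exact i1.trans (mul_le_mul_of_nonneg_left h8 (by linarith))
    · have h7 : (ρ : ℤ) * (μ0 - A0) < ρ * (n - A) := by
        rw [hmain]
        have h9 : (μ0 : ℤ) < n := by exact_mod_cast hμ0n
        have h10 : (μ0 : ℤ) * K < n * K := mul_lt_mul_of_pos_right h9 hKz
        have h11 : (ρ : ℤ) * (μ0 - A0) = μ0 * K - H := by rw [mul_sub, e1, hK]; ring
        linarith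
      have h8 := lt_of_mul_lt_mul_left h7 hρz.le
      exact i2.trans (mul_le_mul_of_nonneg_left (by linarith) (by linarith))
  · -- the edge crosses the diagonal
    have hr : r ≠ 0 := by
      rintro rfl
      rw [g1] at h1
      have : μ0 = μ := Nat.eq_of_mul_eq_mul_left (by omega) h1
      subst this
      omega
    have hfr : f.IsRoot r := by
      rw [← Polynomial.rootMultiplicity_pos Y.hf0, h1]
      exact Nat.mul_pos (by omega) (by omega)
    obtain ⟨s, hs, hT'⟩ := h_natDegree hρ2 Y X1.hK0 hr hfr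
    have hn0 : 0 < n := S.hn
    have htop := top_coeff Y.heq (by rw [Y.hfd]; exact Nat.mul_pos (by omega) hn0) (by
      rw [hT']
      have : 2 * 1 ≤ ρ * s := Nat.mul_le_mul hρ2 hs
      omega)
    rw [hT', Y.hfd] at htop
    have htop2 : H * (1 + ρ * s) = K * n := by
      apply Nat.eq_of_mul_eq_mul_left (by omega : 0 < a)
      calc a * (H * (1 + ρ * s)) = a * H * (1 + ρ * s) := by ring
        _ = K * (a * n) := htop
        _ = a * (K * n) := by ring
    have horb := orbit hρ Y.hf0 Y.hres hr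
    rw [h1, g1, Y.hfd] at horb
    have horb2 : ρ * μ + μ0 ≤ n := by
      apply Nat.le_of_mul_le_mul_left _ (by omega : 0 < a)
      calc a * (ρ * μ + μ0) = ρ * (a * μ) + a * μ0 := by ring
        _ ≤ a * n := horb
    obtain ⟨hμ2, hbd, S0, _⟩ := cross_arith hσ X1.hK0 hK X1.hH X1.hcop e1 hA01 h4 hs htop2 horb2 h3
    obtain ⟨iF2, iG2, _, S2⟩ := Y.step1 S X1 hμ h1 h2
    have h3z : (H : ℤ) < μ * K := by exact_mod_cast h3
    obtain ⟨u', hu'⟩ := Int.eq_ofNat_of_zero_le (by linarith : (0 : ℤ) ≤ μ * K - H)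
    have hl2 : (ρ * D + ρ * d - ((ρ * e : ℕ) : ℤ)) = ρ := by
      push_cast
      linear_combination (ρ : ℤ) * hl
    have hu2 : (u' : ℤ) = (ρ * D + ρ * d - ((ρ * e : ℕ) : ℤ)) * μ - (H + σ * μ) := by
      rw [hl2, ← hu', hK]; ring
    have hbb := bound ha hcop u' ρ S2 hu2 (by
      have : (0 : ℤ) < u' := by rw [← hu']; linarith
      exact_mod_cast this) (by
      rw [hl2]
      have : (0 : ℤ) ≤ σ := by positivity
      push_cast
      linarith)
    have hb2 := hbb.2 hμ2
    have hb3 : (a : ℤ) + b ≤ a * (μ * K - H) := by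
      rw [hu']; exact_mod_cast hb2
    constructor
    · exact hb3.trans (mul_le_mul_of_nonneg_left hbd (by linarith))
    · have h5 : (μ : ℤ) * K - H < n - A := by
        have h6 : (ρ : ℤ) * (μ * K - H) < ρ * (n - A) := by
          rw [hmain]
          have h7 : (ρ : ℤ) * μ ≤ n := by
            have : ρ * μ ≤ n := by omega
            exact_mod_cast this
          have h8 : (ρ : ℤ) * μ * K ≤ n * K := mul_le_mul_of_nonneg_right h7 hKz.le
          have h9 : 1 * (H : ℤ) < ρ * H := mul_lt_mul_of_pos_right (by linarith) hHz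
          linarith
        exact lt_of_mul_lt_mul_left h6 hρz.le
      exact hb3.trans (mul_le_mul_of_nonneg_left (by linarith) (by linarith))

end Pool.Agent.TH207.Ser
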