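import Pool.Agent.TH207.Lh

/-! The bracket relation at a vertex, and the change of coordinates at a root. -/

set_option autoImplicit false
set_option linter.unusedSectionVars false
set_option linter.unusedSimpArgs false

namespace Pool.Agent.TH207.Ser

open MvPolynomial

variable {k : Type*} [Field k] [CharZero k]

theorem coeff_euler (F : MvPolynomial (Fin 2) k) (m : Fin 2 →₀ ℕ) :
    coeff m (X 0 * pderiv 0 F) = (m 0 : k) * coeff m F := by
  rw [coeff_X_mul']
  split_ifs with h
  · rw [MvPolynomial.coeff_pderiv]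
    have h1 : m 0 ≠ 0 := Finsupp.mem_support_iff.1 h
    have h2 : m - Finsupp.single 0 1 + Finsupp.single 0 1 = m := by
      apply tsub_add_cancel_of_le
      rw [Finsupp.single_le_iff]
      omega
    rw [h2]
    have h3 : (((m - Finsupp.single 0 1 : Fin 2 →₀ ℕ) 0 : ℕ) : k) + 1 = m 0 := by
      rw [Finsupp.tsub_apply, Finsupp.single_eq_same]
      have : ((m 0 - 1 + 1 : ℕ) : k) = m 0 := by
        rw [Nat.sub_add_cancel (by omega)]
      rw [← this]; push_cast; ring
    rw [h3]; ring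
  · have h1 : m 0 = 0 := by
      by_contra h2
      exact h (Finsupp.mem_support_iff.2 h2)
    rw [h1]; simp

/-- Monomials of the two components which contribute to the bracket. -/
theorem mono {D d : ℤ} {e : ℕ} {c : k} (hc : c ≠ 0) {F G : MvPolynomial (Fin 2) k}
    (hB : Bk D d F G = C c * X 0 ^ e) :
    ∃ m m', coeff m F ≠ 0 ∧ coeff m' G ≠ 0 ∧ m 0 + m' 0 = e ∧ m 1 + m' 1 = 1 := by
  have key : ∀ (D : ℤ) (F G : MvPolynomial (Fin 2) k) (s : Fin 2 →₀ ℕ),
      coeff s ((C (D : k) * F - X 0 * pderiv 0 F) * pderiv 1 G) ≠ 0 →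
      ∃ m m', coeff m F ≠ 0 ∧ coeff m' G ≠ 0 ∧ m 0 + m' 0 = s 0 ∧ m 1 + m' 1 = s 1 + 1 := by
    intro D F G s h
    rw [coeff_mul] at h
    obtain ⟨x, hx, h1⟩ := Finset.exists_ne_zero_of_sum_ne_zero h
    have h2 := left_ne_zero_of_mul h1
    have h3 := right_ne_zero_of_mul h1
    rw [coeff_sub, coeff_C_mul, coeff_euler, ← sub_mul] at h2
    rw [MvPolynomial.coeff_pderiv] at h3
    have h4 := Finset.HasAntidiagonal.mem_antidiagonal.1 hx
    refine ⟨x.1, x.2 + Finsupp.single 1 1, right_ne_zero_of_mul h2, left_ne_zero_of_mul h3, ?_, ?_⟩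
    · rw [← h4, Finsupp.add_apply, Finsupp.add_apply, Finsupp.single_eq_of_ne (by decide)]
      ring
    · rw [← h4, Finsupp.add_apply, Finsupp.add_apply, Finsupp.single_eq_same]
      ring
  have h0 : coeff (Finsupp.single 0 e) (Bk D d F G) ≠ 0 := by
    rw [hB, coeff_C_mul, X_pow_eq_monomial, coeff_monomial, if_pos rfl, mul_one]
    exact hc
  have e0 : (Finsupp.single 0 e : Fin 2 →₀ ℕ) 0 = e := Finsupp.single_eq_same
  have e1 : (Finsupp.single 0 e : Fin 2 →₀ ℕ) 1 = 0 := Finsupp.single_eq_of_ne (by decide)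
  unfold Bk at h0
  rw [coeff_sub] at h0
  by_cases h1 : coeff (Finsupp.single 0 e)
      ((C (D : k) * F - X 0 * pderiv 0 F) * pderiv 1 G) = 0
  · rw [h1, zero_sub, neg_ne_zero, mul_comm] at h0
    obtain ⟨m, m', a1, a2, a3, a4⟩ := key d G F _ h0
    rw [e0] at a3
    rw [e1] at a4
    exact ⟨m', m, a2, a1, by omega, by omega⟩
  · obtain ⟨m, m', a1, a2, a3, a4⟩ := key D F G _ h1
    rw [e0] at a3
    rw [e1] at a4
    exact ⟨m, m', a1, a2, by omega, by omega⟩

theorem ineq {ρ σ : ℕ} {D d : ℤ} {e : ℕ} {c : k} (hc : c ≠ 0)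
    {F G : MvPolynomial (Fin 2) k} (hB : Bk D d F G = C c * X 0 ^ e) {mF mG : ℕ}
    (hF : ∀ m, coeff m F ≠ 0 → mF ≤ ρ * m 0 + σ * m 1)
    (hG : ∀ m, coeff m G ≠ 0 → mG ≤ ρ * m 0 + σ * m 1) : mF + mG ≤ σ + ρ * e := by
  obtain ⟨m, m', h1, h2, h3, h4⟩ := mono hc hB
  have h5 := hF m h1
  have h6 := hG m' h2
  have h7 : (ρ * m 0 + σ * m 1) + (ρ * m' 0 + σ * m' 1) = σ + ρ * e := by
    rw [← h3]
    calc (ρ * m 0 + σ * m 1) + (ρ * m' 0 + σ * m' 1) =
        ρ * (m 0 + m' 0) + σ * (m 1 + m' 1) := by ring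
      _ = σ + ρ * (m 0 + m' 0) := by rw [h4]; ring
  omega

/-- Multiplicities of the roots of the two leading forms. -/
theorem mults [IsAlgClosed k] {a b : ℕ} (hcop : Nat.Coprime a b) (ha : 0 < a)
    {f g : Polynomial k} (hf : f ≠ 0) (hg : g ≠ 0)
    (h : (a : Polynomial k) * f * Polynomial.derivative g =
      (b : Polynomial k) * Polynomial.derivative f * g) (r : k) :
    ∃ μ, Polynomial.rootMultiplicity r f = a * μ ∧ Polynomial.rootMultiplicity r g = b * μ := by
  obtain ⟨n, f1, hn, hf1, hf1r, hf2⟩ := split_root f hf r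
  obtain ⟨m, g1, hm, hg1, hg1r, hg2⟩ := split_root g hg r
  rw [← hn, ← hm]
  obtain ⟨t, ht⟩ : ∃ t : Polynomial k, t = Polynomial.X - Polynomial.C r := ⟨_, rfl⟩
  have ht0 : t.eval r = 0 := by rw [ht]; simp
  have htne : t ≠ 0 := by rw [ht]; exact Polynomial.X_sub_C_ne_zero r
  rw [← ht] at hf1 hf2 hg1 hg2
  have h1 : t ^ (n + m) * ((a : Polynomial k) * f1 *
      ((m : Polynomial k) * g1 + t * Polynomial.derivative g1)) =
      t ^ (n + m) * ((b : Polynomial k) * ((n : Polynomial k) * f1 +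
        t * Polynomial.derivative f1) * g1) := by
    have h2 : (a : Polynomial k) * f * (t * Polynomial.derivative g) =
      (b : Polynomial k) * (t * Polynomial.derivative f) * g := by
      linear_combination t * h
    rw [hf2, hg2] at h2
    have h3 : (a : Polynomial k) * (t ^ n * f1) * (t ^ m * ((m : Polynomial k) * g1 +
        t * Polynomial.derivative g1)) = (b : Polynomial k) * (t ^ n * ((n : Polynomial k) * f1 +
        t * Polynomial.derivative f1)) * (t ^ m * g1) := by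
      rw [← hf1, ← hg1]; exact h2
    rw [pow_add]
    linear_combination h3
  have h4 := mul_left_cancel₀ (pow_ne_zero _ htne) h1
  have h5 := congrArg (Polynomial.eval r) h4
  simp only [Polynomial.eval_mul, Polynomial.eval_add, ht0, Polynomial.eval_natCast, zero_mul,
    add_zero] at h5
  have h6 : (((a * m : ℕ) : k) - ((b * n : ℕ) : k)) * (f1.eval r * g1.eval r) = 0 := by
    push_cast; linear_combination h5
  have h7 : ((a * m : ℕ) : k) = ((b * n : ℕ) : k) :=
    sub_eq_zero.1 ((mul_eq_zero.1 h6).resolve_right (mul_ne_zero hf1r hg1r))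
  have h8 : a * m = b * n := by exact_mod_cast h7
  obtain ⟨μ, hμ⟩ : a ∣ n := by
    apply (Nat.Coprime.dvd_of_dvd_mul_left hcop)
    rw [← h8]; exact dvd_mul_right _ _
  refine ⟨μ, hμ, ?_⟩
  rw [hμ] at h8
  apply Nat.eq_of_mul_eq_mul_left ha
  rw [h8]; ring

/-- The change of coordinates at the root `r`. -/
noncomputable def shf (ρ σ : ℕ) (r : k) : MvPolynomial (Fin 2) k →ₐ[k] MvPolynomial (Fin 2) k :=
  aeval ![X 0 ^ ρ, X 1 + C r * X 0 ^ σ]

theorem shf_X0 (ρ σ : ℕ) (r : k) : shf ρ σ r (X 0) = X 0 ^ ρ := by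
  unfold shf; rw [aeval_X]; rfl

theorem shf_X1 (ρ σ : ℕ) (r : k) : shf ρ σ r (X 1) = X 1 + C r * X 0 ^ σ := by
  unfold shf; rw [aeval_X]; rfl

theorem shf_C (ρ σ : ℕ) (r c : k) : shf ρ σ r (C c) = C c := by
  unfold shf
  rw [aeval_C]; rfl

theorem pderiv1_shf (ρ σ : ℕ) (r : k) (F : MvPolynomial (Fin 2) k) :
    pderiv 1 (shf ρ σ r F) = shf ρ σ r (pderiv 1 F) := by
  induction F using MvPolynomial.induction_on with
  | C a => rw [shf_C, pderiv_C, map_zero]
  | add p q hp hq => rw [map_add, map_add, hp, hq, map_add, map_add]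
  | mul_X p i hp =>
    rw [map_mul, Derivation.leibniz, Derivation.leibniz, hp]
    simp only [smul_eq_mul, map_add, map_mul]
    fin_cases i
    · simp only [Fin.mk_zero, Fin.zero_eta, Fin.isValue]
      rw [shf_X0, pderiv_X_of_ne (by decide), map_zero, Derivation.leibniz_pow,
        pderiv_X_of_ne (by decide)]
      simp
    · simp only [Fin.mk_one, Fin.isValue]
      rw [shf_X1, map_add, pderiv_X_self, map_one, Derivation.leibniz, Derivation.leibniz_pow,
        pderiv_X_of_ne (by decide), pderiv_C]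
      simp

theorem euler_shf {ρ σ : ℕ} (hρ : 0 < ρ) (r : k) (F : MvPolynomial (Fin 2) k) :
    X 0 * pderiv 0 (shf ρ σ r F) = (ρ : MvPolynomial (Fin 2) k) * shf ρ σ r (X 0 * pderiv 0 F) +
      (σ : MvPolynomial (Fin 2) k) * (C r * X 0 ^ σ) * shf ρ σ r (pderiv 1 F) := by
  have hpow : ∀ n : ℕ, (X 0 : MvPolynomial (Fin 2) k) * ((n : MvPolynomial (Fin 2) k) *
      X 0 ^ (n - 1)) = (n : MvPolynomial (Fin 2) k) * X 0 ^ n := by
    intro n
    rcases n with _ | n
    · simp
    · rw [Nat.add_sub_cancel]; ring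
  induction F using MvPolynomial.induction_on with
  | C a => rw [shf_C, pderiv_C, pderiv_C]; simp
  | add p q hp hq =>
    rw [map_add, map_add, mul_add, hp, hq, map_add, map_add, mul_add, map_add, map_add]; ring
  | mul_X p i hp =>
    rw [map_mul, Derivation.leibniz, Derivation.leibniz, Derivation.leibniz]
    simp only [smul_eq_mul, map_add, map_mul, mul_add]
    have hp' : shf ρ σ r (X i) * (X 0 * pderiv 0 (shf ρ σ r p)) = shf ρ σ r (X i) *
        ((ρ : MvPolynomial (Fin 2) k) * (shf ρ σ r (X 0) * shf ρ σ r (pderiv 0 p)) +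
        (σ : MvPolynomial (Fin 2) k) * (C r * X 0 ^ σ) * shf ρ σ r (pderiv 1 p)) := by
      rw [hp, map_mul]
    fin_cases i
    · simp only [Fin.mk_zero, Fin.zero_eta, Fin.isValue] at hp' ⊢
      rw [shf_X0] at hp' ⊢
      rw [Derivation.leibniz_pow, pderiv_X_self, map_one, nsmul_eq_mul, smul_eq_mul, mul_one]
      have h1 : pderiv (1 : Fin 2) (X (0 : Fin 2) : MvPolynomial (Fin 2) k) = 0 :=
        pderiv_X_of_ne (by decide)
      rw [h1, map_zero]
      linear_combination hp' + shf ρ σ r p * hpow ρ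
    · simp only [Fin.mk_one, Fin.isValue] at hp' ⊢
      rw [shf_X1] at hp' ⊢
      have h1 : pderiv (0 : Fin 2) (X (1 : Fin 2) : MvPolynomial (Fin 2) k) = 0 :=
        pderiv_X_of_ne (by decide)
      rw [map_add, h1, map_zero, pderiv_X_self, map_one, Derivation.leibniz,
        Derivation.leibniz_pow, pderiv_X_self, pderiv_C, nsmul_eq_mul, smul_eq_mul, smul_eq_mul,
        smul_eq_mul, mul_one, mul_zero, add_zero, zero_add]
      linear_combination hp' + shf ρ σ r p * C r * hpow σ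

theorem Bk_shf {ρ σ : ℕ} (hρ : 0 < ρ) (r : k) (D d : ℤ) (F G : MvPolynomial (Fin 2) k) :
    Bk (ρ * D) (ρ * d) (shf ρ σ r F) (shf ρ σ r G) =
      (ρ : MvPolynomial (Fin 2) k) * shf ρ σ r (Bk D d F G) := by
  unfold Bk
  rw [euler_shf hρ, euler_shf hρ, pderiv1_shf, pderiv1_shf]
  simp only [map_sub, map_mul, shf_C]
  have e1 : ∀ z : ℤ, (C (((ρ : ℤ) * z : ℤ) : k) : MvPolynomial (Fin 2) k) =
      (ρ : MvPolynomial (Fin 2) k) * C (z : k) := by
    intro z
    simp
  rw [e1, e1]
  ring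

theorem N_shf (ρ σ : ℕ) (r : k) (F : MvPolynomial (Fin 2) k) (n : ℕ) :
    (N 1 σ (shf ρ σ r F)).coeff n =
      ((N ρ σ F).coeff n).comp (Polynomial.X + Polynomial.C r) := by
  have h : ∀ F : MvPolynomial (Fin 2) k, N 1 σ (shf ρ σ r F) =
      Polynomial.map (Polynomial.compRingHom (Polynomial.X + Polynomial.C r)) (N ρ σ F) := by
    intro F
    induction F using MvPolynomial.induction_on with
    | C a => rw [shf_C, N_C, N_C, Polynomial.map_C]; simp
    | add p q hp hq => rw [map_add, map_add, hp, hq, map_add, Polynomial.map_add]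
    | mul_X p i hp =>
      rw [map_mul, map_mul, hp, map_mul, Polynomial.map_mul]
      congr 1
      fin_cases i
      · simp only [Fin.mk_zero, Fin.zero_eta, Fin.isValue]
        rw [shf_X0, map_pow, N_X0, N_X0, Polynomial.map_pow, Polynomial.map_X, pow_one]
      · simp only [Fin.mk_one, Fin.isValue]
        rw [shf_X1, map_add, map_mul, map_pow, N_X0, N_X1, N_C, N_X1, Polynomial.map_mul,
          Polynomial.map_pow, Polynomial.map_X, Polynomial.map_C, Polynomial.coe_compRingHom_apply,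
          Polynomial.X_comp, Polynomial.C_add, pow_one]
        ring
  rw [h, Polynomial.coeff_map, Polynomial.coe_compRingHom_apply]

end Pool.Agent.TH207.Ser
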