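import Pool.Agent.TH207.Hp

/-! Weighted forms of a plane polynomial as coefficients of a polynomial over `k[ξ]`. -/

set_option autoImplicit false
set_option linter.unusedSectionVars false
set_option linter.unusedSimpArgs false

namespace Pool.Agent.TH207.Ser

open MvPolynomial

section N

variable {k : Type*} [Field k]

/-- The substitution `X 0 = s ^ ρ`, `X 1 = ξ s ^ σ`. -/
noncomputable def N (ρ σ : ℕ) : MvPolynomial (Fin 2) k →ₐ[k] Polynomial (Polynomial k) :=
  aeval ![Polynomial.X ^ ρ, Polynomial.C Polynomial.X * Polynomial.X ^ σ]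

theorem N_X0 (ρ σ : ℕ) : N (k := k) ρ σ (X 0) = Polynomial.X ^ ρ := by
  unfold N; rw [aeval_X]; rfl

theorem N_X1 (ρ σ : ℕ) : N (k := k) ρ σ (X 1) = Polynomial.C Polynomial.X * Polynomial.X ^ σ := by
  unfold N; rw [aeval_X]; rfl

theorem N_C (ρ σ : ℕ) (c : k) : N ρ σ (C c) = Polynomial.C (Polynomial.C c) := by
  unfold N
  rw [aeval_C]; rfl

theorem N_monomial (ρ σ : ℕ) (m : Fin 2 →₀ ℕ) (c : k) : N ρ σ (monomial m c) =
    Polynomial.monomial (ρ * m 0 + σ * m 1) (Polynomial.monomial (m 1) c) := by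
  have h : (monomial m c : MvPolynomial (Fin 2) k) = C c * X 0 ^ m 0 * X 1 ^ m 1 := by
    rw [monomial_eq, Finsupp.prod_fintype _ _ (fun i => pow_zero _), Fin.prod_univ_two, mul_assoc]
  rw [h, map_mul, map_mul, map_pow, map_pow, N_X0, N_X1, N_C, ← Polynomial.C_mul_X_pow_eq_monomial,
    ← Polynomial.C_mul_X_pow_eq_monomial, map_mul, map_pow, mul_pow, pow_add, pow_mul, pow_mul]
  ring

theorem coeff_N (ρ σ : ℕ) (F : MvPolynomial (Fin 2) k) (n j : ℕ) :
    ((N ρ σ F).coeff n).coeff j =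
      ∑ m ∈ F.support, if ρ * m 0 + σ * m 1 = n ∧ m 1 = j then coeff m F else 0 := by
  conv_lhs => rw [F.as_sum, map_sum, Polynomial.finsetSum_coeff, Polynomial.finsetSum_coeff]
  apply Finset.sum_congr rfl
  intro m _
  rw [N_monomial, Polynomial.coeff_monomial]
  split_ifs with h1 h2 h2
  · rw [Polynomial.coeff_monomial, if_pos h2.2]
  · rw [Polynomial.coeff_monomial, if_neg fun h => h2 ⟨h1, h⟩]
  · exact absurd h2.1 h1
  · simp

theorem coeff_N_of {ρ σ : ℕ} (hρ : 0 < ρ) (F : MvPolynomial (Fin 2) k) (m : Fin 2 →₀ ℕ) :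
    ((N ρ σ F).coeff (ρ * m 0 + σ * m 1)).coeff (m 1) = coeff m F := by
  rw [coeff_N]
  by_cases hm : m ∈ F.support
  · rw [Finset.sum_eq_single m]
    · simp
    · intro m' _ hne
      rw [if_neg]
      rintro ⟨h1, h2⟩
      apply hne
      rw [h2] at h1
      have h3 : m' 0 = m 0 := Nat.eq_of_mul_eq_mul_left hρ (by omega)
      ext i
      fin_cases i
      · exact h3
      · exact h2
    · intro h; exact absurd hm h
  · rw [notMem_support_iff.1 hm]
    apply Finset.sum_eq_zero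
    intro m' hm'
    rw [if_neg]
    rintro ⟨h1, h2⟩
    rw [h2] at h1
    have h3 : m' 0 = m 0 := Nat.eq_of_mul_eq_mul_left hρ (by omega)
    have : m' = m := by
      ext i
      fin_cases i
      · exact h3
      · exact h2
    rw [this] at hm'
    exact hm hm'

theorem exists_of_coeff_N {ρ σ : ℕ} {F : MvPolynomial (Fin 2) k} {n j : ℕ}
    (h : ((N ρ σ F).coeff n).coeff j ≠ 0) :
    ∃ m : Fin 2 →₀ ℕ, coeff m F ≠ 0 ∧ ρ * m 0 + σ * m 1 = n ∧ m 1 = j := by
  rw [coeff_N] at h
  obtain ⟨m, hm, h1⟩ := Finset.exists_ne_zero_of_sum_ne_zero h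
  refine ⟨m, mem_support_iff.1 hm, ?_⟩
  by_contra h2
  rw [if_neg h2] at h1
  exact h1 rfl

theorem N_below {ρ σ : ℕ} {F : MvPolynomial (Fin 2) k} {mF : ℕ}
    (h : ∀ m, coeff m F ≠ 0 → mF ≤ ρ * m 0 + σ * m 1) (n : ℕ) (hn : n < mF) :
    (N ρ σ F).coeff n = 0 := by
  ext j
  by_contra h1
  obtain ⟨m, h2, h3, _⟩ := exists_of_coeff_N h1
  have := h m h2
  omega

end N

section pi

variable {k : Type*} [Field k] (Q : Type*) [Field Q] [Algebra (Polynomial k) Q]
  [IsFractionRing (Polynomial k) Q]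

/-- The same with values in power series over `k(ξ)`. -/
noncomputable def pr (ρ σ : ℕ) : MvPolynomial (Fin 2) k →+* PowerSeries Q :=
  Polynomial.coeToPowerSeries.ringHom.comp ((Polynomial.mapRingHom
    (algebraMap (Polynomial k) Q)).comp (N (k := k) ρ σ).toRingHom)

theorem coeff_pr (ρ σ n : ℕ) (F : MvPolynomial (Fin 2) k) : PowerSeries.coeff n (pr Q ρ σ F) =
    algebraMap (Polynomial k) Q ((N ρ σ F).coeff n) := by
  unfold pr
  simp only [RingHom.coe_comp, Function.comp_apply, Polynomial.coe_mapRingHom,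
    Polynomial.coeToPowerSeries.ringHom_apply, Polynomial.coeff_coe, Polynomial.coeff_map]
  rfl

theorem pr_X0 (ρ σ : ℕ) : pr (k := k) Q ρ σ (X 0) = PowerSeries.X ^ ρ := by
  unfold pr
  simp only [RingHom.coe_comp, Function.comp_apply]
  have : (N (k := k) ρ σ).toRingHom (X 0) = Polynomial.X ^ ρ := N_X0 ρ σ
  rw [this]
  simp

theorem pr_X1 (ρ σ : ℕ) : pr (k := k) Q ρ σ (X 1) =
    PowerSeries.C (algebraMap (Polynomial k) Q Polynomial.X) *
      PowerSeries.X ^ σ := by
  unfold pr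
  simp only [RingHom.coe_comp, Function.comp_apply]
  have : (N (k := k) ρ σ).toRingHom (X 1) = Polynomial.C Polynomial.X * Polynomial.X ^ σ :=
    N_X1 ρ σ
  rw [this]
  simp

theorem pr_C (ρ σ : ℕ) (c : k) : pr Q ρ σ (C c) =
    PowerSeries.C (algebraMap (Polynomial k) Q (Polynomial.C c)) := by
  unfold pr
  simp only [RingHom.coe_comp, Function.comp_apply]
  have : (N (k := k) ρ σ).toRingHom (C c) = Polynomial.C (Polynomial.C c) := N_C ρ σ c
  rw [this]
  simp

variable {Q} [CharZero k] [CharZero Q] (δ : Derivation ℤ Q Q)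
    (hδ : ∀ p : Polynomial k, δ (algebraMap (Polynomial k) Q p) =
      algebraMap (Polynomial k) Q (Polynomial.derivative p))

include hδ

theorem pd_Xn (n : ℕ) : pd δ (PowerSeries.X ^ n) = 0 := by
  induction n with
  | zero =>
    rw [pow_zero]
    have : (1 : PowerSeries Q) = PowerSeries.C 1 := by simp
    rw [this, pd_C]
    have : δ 1 = 0 := δ.map_one_eq_zero
    rw [this, map_zero]
  | succ n ih => rw [pow_succ, pd_mul, ih, pd_X]; simp

theorem th_Xn (n : ℕ) : th (PowerSeries.X ^ n : PowerSeries Q) =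
    (n : PowerSeries Q) * PowerSeries.X ^ n := by
  induction n with
  | zero =>
    rw [pow_zero]
    have : (1 : PowerSeries Q) = PowerSeries.C 1 := by simp
    rw [this, th_C]
    simp
  | succ n ih => rw [pow_succ, th_mul, ih, th_X]; push_cast; ring

theorem pd_pr (ρ σ : ℕ) (F : MvPolynomial (Fin 2) k) :
    pd δ (pr Q ρ σ F) = PowerSeries.X ^ σ * pr Q ρ σ (pderiv 1 F) := by
  induction F using MvPolynomial.induction_on with
  | C a =>
    rw [pr_C, pd_C, hδ, Polynomial.derivative_C, map_zero, map_zero, pderiv_C, map_zero, mul_zero]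
  | add p q hp hq => rw [map_add, pd_add, hp, hq, map_add, map_add]; ring
  | mul_X p i hp =>
    rw [map_mul, pd_mul, hp, Derivation.leibniz, smul_eq_mul, smul_eq_mul, map_add, map_mul,
      map_mul]
    fin_cases i
    · change pr Q ρ σ p * pd δ (pr Q ρ σ (X 0)) + _ = _
      simp only [Fin.mk_zero, Fin.zero_eta, Fin.isValue]
      rw [pr_X0, pd_Xn δ hδ, pderiv_X_of_ne (by decide), map_zero]
      ring
    · change pr Q ρ σ p * pd δ (pr Q ρ σ (X 1)) + _ = _
      simp only [Fin.mk_one, Fin.isValue]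
      rw [pr_X1, pd_mul, pd_Xn δ hδ, pd_C, hδ, Polynomial.derivative_X, map_one, map_one,
        pderiv_X_self, map_one]
      ring

theorem th_pr (ρ σ : ℕ) (F : MvPolynomial (Fin 2) k) :
    th (pr Q ρ σ F) = (ρ : PowerSeries Q) * pr Q ρ σ (X 0 * pderiv 0 F) +
      (σ : PowerSeries Q) * pr Q ρ σ (X 1 * pderiv 1 F) := by
  induction F using MvPolynomial.induction_on with
  | C a =>
    rw [pr_C, th_C, pderiv_C, pderiv_C]; simp
  | add p q hp hq =>
    rw [map_add, th_add, hp, hq, map_add, map_add, mul_add, mul_add, map_add, map_add]; ring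
  | mul_X p i hp =>
    rw [map_mul, th_mul, hp]
    simp only [Derivation.leibniz, smul_eq_mul, map_add, map_mul]
    fin_cases i
    · simp only [Fin.mk_zero, Fin.zero_eta, Fin.isValue]
      rw [pr_X0, th_Xn δ hδ, pderiv_X_self, pderiv_X_of_ne (by decide), map_one, map_zero]
      ring
    · simp only [Fin.mk_one, Fin.isValue]
      rw [pr_X1, th_mul, th_Xn δ hδ, th_C, pderiv_X_self, pderiv_X_of_ne (by decide), map_one,
        map_zero]
      ring

end pi

section Bk

variable {k : Type*} [Field k] [CharZero k] {Q : Type*} [Field Q] [Algebra (Polynomial k) Q]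
  [IsFractionRing (Polynomial k) Q] [CharZero Q]

/-- The bracket of `F` of degree `D` and `G` of degree `d`. -/
noncomputable def Bk (D d : ℤ) (F G : MvPolynomial (Fin 2) k) : MvPolynomial (Fin 2) k :=
  (C (D : k) * F - X 0 * pderiv 0 F) * pderiv 1 G -
    pderiv 1 F * (C (d : k) * G - X 0 * pderiv 0 G)

theorem Br_pr (δ : Derivation ℤ Q Q)
    (hδ : ∀ p : Polynomial k, δ (algebraMap (Polynomial k) Q p) =
      algebraMap (Polynomial k) Q (Polynomial.derivative p))
    (ρ σ : ℕ) (D d : ℤ) (F G : MvPolynomial (Fin 2) k) :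
    Br δ (ρ * D) (ρ * d) (pr Q ρ σ F) (pr Q ρ σ G) =
      (ρ : PowerSeries Q) * PowerSeries.X ^ σ *
        pr Q ρ σ (Bk D d F G) := by
  unfold Br Bk
  rw [th_pr δ hδ, th_pr δ hδ, pd_pr δ hδ, pd_pr δ hδ]
  simp only [map_sub, map_mul, pr_C]
  have e1 : ∀ z : ℤ, (PowerSeries.C (((ρ : ℤ) * z : ℤ) : Q) :
      PowerSeries Q) =
      (ρ : PowerSeries Q) * PowerSeries.C
        (algebraMap (Polynomial k) Q (Polynomial.C (z : k))) := by
    intro z
    simp
  rw [e1, e1]
  ring

end Bk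

end Pool.Agent.TH207.Ser
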