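import Pool.Agent.TH207.Cj

/-! Roots of the leading form. -/

set_option autoImplicit false
set_option linter.unusedSectionVars false
set_option linter.unusedSimpArgs false

namespace Pool.Agent.TH207.Ser

open Polynomial

variable {k : Type*} [Field k] [CharZero k] [IsAlgClosed k]

theorem root_local {f h : k[X]} {D K : ℕ} (hK : 0 < K) {c : k} (hc : c ≠ 0) (hf : f ≠ 0)
    (heq : (D : k[X]) * derivative h * f - (K : k[X]) * derivative f * h = C c * f) {r : k}
    (hr : f.IsRoot r) : h.IsRoot r ∧ D ≠ rootMultiplicity r f * K := by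
  obtain ⟨n, g, hn, hg, hgr, hg2⟩ := split_root f hf r
  have hn1 : 1 ≤ n := by rw [hn]; exact (rootMultiplicity_pos hf).2 hr
  obtain ⟨t, ht⟩ : ∃ t : k[X], t = X - C r := ⟨_, rfl⟩
  have ht0 : t.eval r = 0 := by rw [ht]; simp
  have htne : t ≠ 0 := by rw [ht]; exact X_sub_C_ne_zero r
  rw [← ht] at hg hg2
  have h1 : t ^ n * ((D : k[X]) * (t * derivative h) * g -
      (K : k[X]) * ((n : k[X]) * g + t * derivative g) * h) = t ^ n * (t * C c * g) := by
    have h2 : (D : k[X]) * (t * derivative h) * f - (K : k[X]) * (t * derivative f) * h =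
        t * (C c * f) := by rw [← heq]; ring
    rw [hg2] at h2
    have h3 : (D : k[X]) * (t * derivative h) * (t ^ n * g) -
        (K : k[X]) * (t ^ n * ((n : k[X]) * g + t * derivative g)) * h =
          t * (C c * (t ^ n * g)) := by
      rw [← hg]; exact h2
    linear_combination h3
  have h4 := mul_left_cancel₀ (pow_ne_zero _ htne) h1
  have hKn : (K : k) * n ≠ 0 := by
    have : ((K * n : ℕ) : k) ≠ 0 := by exact_mod_cast (Nat.mul_pos hK hn1).ne'
    push_cast at this; exact this
  have h5 : h.eval r = 0 := by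
    have h6 := congrArg (eval r) h4
    simp only [eval_sub, eval_mul, eval_add, eval_pow, ht0, eval_natCast, zero_mul, mul_zero,
      add_zero, zero_sub, zero_add] at h6
    have h7 : ((K : k) * n * g.eval r) * h.eval r = 0 := by linear_combination -h6
    exact (mul_eq_zero.1 h7).resolve_left (mul_ne_zero hKn hgr)
  refine ⟨h5, fun hD => ?_⟩
  obtain ⟨h1', hh1⟩ : t ∣ h := by rw [ht]; exact dvd_iff_isRoot.2 h5
  have hdh : derivative h = h1' + t * derivative h1' := by
    rw [hh1, derivative_mul, ht, derivative_X_sub_C, one_mul]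
  rw [hdh, hh1] at h4
  have h8 : (D : k[X]) * (h1' + t * derivative h1') * g -
      (K : k[X]) * ((n : k[X]) * g + t * derivative g) * h1' = C c * g := by
    apply mul_left_cancel₀ htne
    linear_combination h4
  have h9 := congrArg (eval r) h8
  simp only [eval_sub, eval_mul, eval_add, eval_pow, ht0, eval_natCast, zero_mul, mul_zero,
    add_zero, zero_sub, zero_add, eval_C] at h9
  have h10 : (D : k) = (n : k) * K := by rw [hD, ← hn]; push_cast; ring
  rw [h10] at h9
  have h11 : c * g.eval r = 0 := by linear_combination -h9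
  exact mul_ne_zero hc hgr h11

theorem top_coeff {f h : k[X]} {D K : ℕ} {c : k}
    (heq : (D : k[X]) * derivative h * f - (K : k[X]) * derivative f * h = C c * f)
    (hf : 0 < f.natDegree) (hh : 2 ≤ h.natDegree) :
    D * h.natDegree = K * f.natDegree := by
  obtain ⟨M, hM⟩ : ∃ M, f.natDegree = M + 1 := ⟨f.natDegree - 1, by omega⟩
  obtain ⟨T, hT⟩ : ∃ T, h.natDegree = T + 2 := ⟨h.natDegree - 2, by omega⟩
  have h1 := congrArg (fun p => coeff p (T + 1 + (M + 1))) heq
  simp only [coeff_sub] at h1
  have e1 : ((D : k[X]) * derivative h * f).coeff (T + 1 + (M + 1)) =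
      (D : k) * (h.coeff (T + 2) * ((T : k) + 2)) * f.coeff (M + 1) := by
    rw [mul_assoc, ← C_eq_natCast, coeff_C_mul,
      coeff_mul_add_eq_of_natDegree_le (df := T + 1) (dg := M + 1)]
    · rw [coeff_derivative]; push_cast; ring
    · refine (natDegree_derivative_le _).trans ?_
      omega
    · omega
  have e2 : ((K : k[X]) * derivative f * h).coeff (T + 1 + (M + 1)) =
      (K : k) * (f.coeff (M + 1) * ((M : k) + 1)) * h.coeff (T + 2) := by
    have : T + 1 + (M + 1) = M + (T + 2) := by ring
    rw [this, mul_assoc, ← C_eq_natCast, coeff_C_mul,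
      coeff_mul_add_eq_of_natDegree_le (df := M) (dg := T + 2)]
    · rw [coeff_derivative]; ring
    · refine (natDegree_derivative_le _).trans ?_
      omega
    · omega
  have e3 : (C c * f).coeff (T + 1 + (M + 1)) = 0 := by
    rw [coeff_C_mul, coeff_eq_zero_of_natDegree_lt (by omega), mul_zero]
  rw [e1, e2, e3] at h1
  have hlf : f.coeff (M + 1) ≠ 0 := by
    rw [← hM, coeff_natDegree]
    intro h0
    rw [leadingCoeff_eq_zero] at h0
    rw [h0] at hf
    simp at hf
  have hlh : h.coeff (T + 2) ≠ 0 := by
    rw [← hT, coeff_natDegree]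
    intro h0
    rw [leadingCoeff_eq_zero] at h0
    rw [h0] at hT
    simp at hT
  have h2 : (((D * (T + 2) : ℕ) : k) - ((K * (M + 1) : ℕ) : k)) *
      (f.coeff (M + 1) * h.coeff (T + 2)) = 0 := by
    push_cast
    linear_combination h1
  have h3 := (mul_eq_zero.1 h2).resolve_right (mul_ne_zero hlf hlh)
  have h4 : ((D * (T + 2) : ℕ) : k) = ((K * (M + 1) : ℕ) : k) := sub_eq_zero.1 h3
  rw [hT, hM]
  exact_mod_cast h4

open Classical in
theorem sum_mult (f : k[X]) : ∑ r ∈ f.roots.toFinset, rootMultiplicity r f = f.natDegree := by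
  have h1 : Multiset.card f.roots = f.natDegree :=
    (IsAlgClosed.splits f).natDegree_eq_card_roots.symm
  rw [← h1, ← Multiset.toFinset_sum_count_eq]
  apply Finset.sum_congr rfl
  intro r _
  rw [count_roots]

theorem sum_mult_le (f : k[X]) (S : Finset k) : ∑ r ∈ S, rootMultiplicity r f ≤ f.natDegree := by
  classical
  rw [← sum_mult f]
  have h1 : ∑ r ∈ S, rootMultiplicity r f = ∑ r ∈ S.filter (· ∈ f.roots.toFinset),
      rootMultiplicity r f := by
    rw [Finset.sum_filter]
    apply Finset.sum_congr rfl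
    intro r _
    split_ifs with h
    · rfl
    · rw [← count_roots]
      exact Multiset.count_eq_zero.2 fun h2 => h (Multiset.mem_toFinset.2 h2)
  rw [h1]
  apply Finset.sum_le_sum_of_subset
  intro r hr
  exact (Finset.mem_filter.1 hr).2

/-- Some root of `f` has large multiplicity. -/
theorem pos_root {f h : k[X]} {D K : ℕ} (hK : 0 < K) {c : k} (hc : c ≠ 0)
    (heq : (D : k[X]) * derivative h * f - (K : k[X]) * derivative f * h = C c * f)
    (hf : 0 < f.natDegree) (hM : D < f.natDegree * K) :
    ∃ r, D < rootMultiplicity r f * K := by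
  classical
  have hf0 : f ≠ 0 := by rintro rfl; simp at hf
  by_contra hcon
  push Not at hcon
  have hh0 : h ≠ 0 := by
    rintro rfl
    rw [derivative_zero] at heq
    have h1 : C c * f = 0 := by rw [← heq]; ring
    rcases mul_eq_zero.1 h1 with h2 | h2
    · exact hc (C_eq_zero.1 h2)
    · exact hf0 h2
  have hsub : f.roots.toFinset ⊆ h.roots.toFinset := by
    intro r hr
    rw [Multiset.mem_toFinset, mem_roots hf0] at hr
    rw [Multiset.mem_toFinset, mem_roots hh0]
    exact (root_local hK hc hf0 heq hr).1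
  have hcard : f.roots.toFinset.card ≤ h.natDegree :=
    (Finset.card_le_card hsub).trans ((Multiset.toFinset_card_le _).trans (card_roots' h))
  have hsum := sum_mult f
  have hle : f.natDegree * K ≤ f.roots.toFinset.card * D := by
    rw [← hsum, Finset.sum_mul, ← smul_eq_mul (a := f.roots.toFinset.card), ← Finset.sum_const]
    exact Finset.sum_le_sum fun r _ => hcon r
  have hcard2 : 1 < f.roots.toFinset.card := by
    by_contra h1
    have h2 : f.roots.toFinset.card ≤ 1 := by omega
    have h3 : f.roots.toFinset.card * D ≤ 1 * D := Nat.mul_le_mul_right _ h2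
    omega
  have htop := top_coeff heq hf (by omega)
  have h5 : f.roots.toFinset.card * D ≤ h.natDegree * D := Nat.mul_le_mul_right _ hcard
  have h6 : f.roots.toFinset.card * D = f.natDegree * K := by
    apply le_antisymm _ hle
    rw [mul_comm f.natDegree, ← htop, mul_comm D]
    exact h5
  have h7 : ∑ r ∈ f.roots.toFinset, rootMultiplicity r f * K = ∑ r ∈ f.roots.toFinset, D := by
    rw [Finset.sum_const, smul_eq_mul, h6, ← hsum, Finset.sum_mul]
  obtain ⟨r, hr⟩ : ∃ r, r ∈ f.roots.toFinset := by
    rw [← Finset.Nonempty, ← Finset.card_pos]; omega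
  have h8 := (Finset.sum_eq_sum_iff_of_le fun r _ => hcon r).1 h7 r hr
  rw [Multiset.mem_toFinset, mem_roots hf0] at hr
  exact (root_local hK hc hf0 heq hr).2 h8.symm

end Pool.Agent.TH207.Ser
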