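import Pool.Agent.TH207.Lv2

/-! From plane polynomials to polynomials in `s = 1 / x` and `ξ = y / x ^ M`. -/

set_option autoImplicit false
set_option linter.unusedSectionVars false
set_option linter.unusedSimpArgs false

namespace Pool.Agent.TH207.Ser

open MvPolynomial

variable {k : Type*} [Field k] [CharZero k]

/-- the exponent `(i, j)` -/
noncomputable def ee (i j : ℕ) : Fin 2 →₀ ℕ := Finsupp.single 0 i + Finsupp.single 1 j

theorem ee_zero (i j : ℕ) : ee i j 0 = i := by simp [ee]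

theorem ee_one (i j : ℕ) : ee i j 1 = j := by simp [ee]

theorem ee_eq (m : Fin 2 →₀ ℕ) : ee (m 0) (m 1) = m := by
  ext i
  fin_cases i
  · exact ee_zero _ _
  · exact ee_one _ _

theorem fin2_ext {m m' : Fin 2 →₀ ℕ} (h0 : m 0 = m' 0) (h1 : m 1 = m' 1) : m = m' := by
  ext i
  fin_cases i
  · exact h0
  · exact h1

theorem ee_inj {i j i' j' : ℕ} (h : ee i j = ee i' j') : i = i' ∧ j = j' := by
  have h0 := congrArg (fun m => m 0) h
  have h1 := congrArg (fun m => m 1) h
  simp only [ee_zero, ee_one] at h0 h1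
  exact ⟨h0, h1⟩

/-- The polynomial `s ^ D * F (1 / s, ξ / s ^ M)`. -/
noncomputable def W (D M : ℕ) : MvPolynomial (Fin 2) k →ₗ[k] MvPolynomial (Fin 2) k :=
  (basisMonomials (Fin 2) k).constr k fun m => monomial (ee (D - (m 0 + M * m 1)) (m 1)) 1

theorem W_monomial (D M : ℕ) (m : Fin 2 →₀ ℕ) (c : k) :
    W D M (monomial m c) = monomial (ee (D - (m 0 + M * m 1)) (m 1)) c := by
  have h : (monomial m c : MvPolynomial (Fin 2) k) = c • basisMonomials (Fin 2) k m := by
    rw [coe_basisMonomials, smul_monomial, smul_eq_mul, mul_one]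
  rw [h, map_smul, W, Module.Basis.constr_basis, smul_monomial, smul_eq_mul, mul_one]

theorem W_sum (D M : ℕ) (F : MvPolynomial (Fin 2) k) : W D M F =
    ∑ m ∈ F.support, monomial (ee (D - (m 0 + M * m 1)) (m 1)) (coeff m F) := by
  conv_lhs => rw [F.as_sum, map_sum]
  exact Finset.sum_congr rfl fun m _ => W_monomial _ _ _ _

/-- the weights are at most `D` -/
def Le (D M : ℕ) (F : MvPolynomial (Fin 2) k) : Prop :=
  ∀ m, coeff m F ≠ 0 → m 0 + M * m 1 ≤ D

theorem coeff_W {D M : ℕ} {F : MvPolynomial (Fin 2) k} (hF : Le D M F) (m : Fin 2 →₀ ℕ)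
    (hm : coeff m F ≠ 0) : coeff (ee (D - (m 0 + M * m 1)) (m 1)) (W D M F) = coeff m F := by
  rw [W_sum, coeff_sum, Finset.sum_eq_single m]
  · rw [coeff_monomial, if_pos rfl]
  · intro m' hm' hne
    rw [coeff_monomial, if_neg]
    intro h
    obtain ⟨h1, h2⟩ := ee_inj h
    have h3 := hF m hm
    have h4 := hF m' (mem_support_iff.1 hm')
    rw [h2] at h1 h4
    apply hne
    rw [← ee_eq m', ← ee_eq m, h2]
    congr 1
    omega
  · intro h
    rw [notMem_support_iff.1 h, monomial_zero, coeff_zero]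

theorem exists_of_coeff_W {D M : ℕ} {F : MvPolynomial (Fin 2) k} {m : Fin 2 →₀ ℕ}
    (h : coeff m (W D M F) ≠ 0) : ∃ m', coeff m' F ≠ 0 ∧ m 0 = D - (m' 0 + M * m' 1) ∧
      m 1 = m' 1 := by
  rw [W_sum, coeff_sum] at h
  obtain ⟨m', hm', h1⟩ := Finset.exists_ne_zero_of_sum_ne_zero h
  rw [coeff_monomial] at h1
  split_ifs at h1 with h2
  · refine ⟨m', mem_support_iff.1 hm', ?_, ?_⟩
    · rw [← h2, ee_zero]
    · rw [← h2, ee_one]
  · exact absurd rfl h1

theorem W_mul {D E M : ℕ} {F G : MvPolynomial (Fin 2) k} (hF : Le D M F) (hG : Le E M G) :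
    W (D + E) M (F * G) = W D M F * W E M G := by
  have h1 : F * G = ∑ m ∈ F.support, ∑ m' ∈ G.support,
      monomial (m + m') (coeff m F * coeff m' G) := by
    conv_lhs => rw [F.as_sum, G.as_sum, Finset.sum_mul_sum]
    exact Finset.sum_congr rfl fun m _ => Finset.sum_congr rfl fun m' _ => monomial_mul
  rw [W_sum D, W_sum E, Finset.sum_mul_sum, h1, map_sum]
  apply Finset.sum_congr rfl
  intro m hm
  rw [map_sum]
  apply Finset.sum_congr rfl
  intro m' hm'
  rw [W_monomial, monomial_mul]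
  have h2 := hF m (mem_support_iff.1 hm)
  have h3 := hG m' (mem_support_iff.1 hm')
  have h4 : D + E - ((m + m') 0 + M * (m + m') 1) =
      (D - (m 0 + M * m 1)) + (E - (m' 0 + M * m' 1)) := by
    rw [Finsupp.add_apply, Finsupp.add_apply]
    have : m 0 + m' 0 + M * (m 1 + m' 1) = (m 0 + M * m 1) + (m' 0 + M * m' 1) := by ring
    rw [this]
    omega
  have h5 : ee (D + E - ((m + m') 0 + M * (m + m') 1)) ((m + m') 1) =
      ee (D - (m 0 + M * m 1)) (m 1) + ee (E - (m' 0 + M * m' 1)) (m' 1) := by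
    rw [h4]
    apply fin2_ext
    · simp only [Finsupp.add_apply, ee_zero]
    · simp only [Finsupp.add_apply, ee_one]
  rw [h5]

/-- The weighted Euler operator. -/
noncomputable def Eu (M : ℕ) (F : MvPolynomial (Fin 2) k) : MvPolynomial (Fin 2) k :=
  X 0 * pderiv 0 F + (M : MvPolynomial (Fin 2) k) * (X 1 * pderiv 1 F)

theorem coeff_euler1 (F : MvPolynomial (Fin 2) k) (m : Fin 2 →₀ ℕ) :
    coeff m (X 1 * pderiv 1 F) = (m 1 : k) * coeff m F := by
  rw [coeff_X_mul']
  split_ifs with h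
  · rw [MvPolynomial.coeff_pderiv]
    have h1 : m 1 ≠ 0 := Finsupp.mem_support_iff.1 h
    have h2 : m - Finsupp.single 1 1 + Finsupp.single 1 1 = m := by
      apply tsub_add_cancel_of_le
      rw [Finsupp.single_le_iff]
      omega
    rw [h2]
    have h3 : (((m - Finsupp.single 1 1 : Fin 2 →₀ ℕ) 1 : ℕ) : k) + 1 = m 1 := by
      rw [Finsupp.tsub_apply, Finsupp.single_eq_same]
      have : ((m 1 - 1 + 1 : ℕ) : k) = m 1 := by
        rw [Nat.sub_add_cancel (by omega)]
      rw [← this]; push_cast; ring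
    rw [h3]; ring
  · have h1 : m 1 = 0 := by
      by_contra h2
      exact h (Finsupp.mem_support_iff.2 h2)
    rw [h1]; simp

theorem coeff_Eu (M : ℕ) (F : MvPolynomial (Fin 2) k) (m : Fin 2 →₀ ℕ) :
    coeff m (Eu M F) = ((m 0 + M * m 1 : ℕ) : k) * coeff m F := by
  unfold Eu
  have : ((M : ℕ) : MvPolynomial (Fin 2) k) = C (M : k) := by simp
  rw [coeff_add, this, coeff_C_mul, coeff_euler, coeff_euler1]
  push_cast; ring

theorem Le_Eu {D M : ℕ} {F : MvPolynomial (Fin 2) k} (hF : Le D M F) : Le D M (Eu M F) := by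
  intro m hm
  rw [coeff_Eu] at hm
  exact hF m (right_ne_zero_of_mul hm)

theorem W_Eu {D M : ℕ} {F : MvPolynomial (Fin 2) k} (hF : Le D M F) :
    C ((D : ℤ) : k) * W D M F - X 0 * pderiv 0 (W D M F) = W D M (Eu M F) := by
  have key : ∀ m : Fin 2 →₀ ℕ, m 0 + M * m 1 ≤ D → ∀ c : k,
      C ((D : ℤ) : k) * W D M (monomial m c) - X 0 * pderiv 0 (W D M (monomial m c)) =
        W D M (Eu M (monomial m c)) := by
    intro m hm c
    have h1 : Eu M (monomial m c) = monomial m (((m 0 + M * m 1 : ℕ) : k) * c) := by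
      ext m'
      rw [coeff_Eu, coeff_monomial, coeff_monomial]
      split_ifs with h
      · rw [h]
      · rw [mul_zero]
    rw [h1, W_monomial, W_monomial]
    ext m'
    rw [coeff_sub, coeff_C_mul, coeff_euler, coeff_monomial, coeff_monomial]
    split_ifs with h
    · rw [← h, ee_zero, Nat.cast_sub hm]
      push_cast; ring
    · ring
  have h2 : ∀ (s : Finset (Fin 2 →₀ ℕ)) (u : (Fin 2 →₀ ℕ) → k), (∀ m ∈ s, m 0 + M * m 1 ≤ D) →
      C ((D : ℤ) : k) * W D M (∑ m ∈ s, monomial m (u m)) -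
        X 0 * pderiv 0 (W D M (∑ m ∈ s, monomial m (u m))) =
        W D M (Eu M (∑ m ∈ s, monomial m (u m))) := by
    intro s u hs
    have hE : Eu M (∑ m ∈ s, monomial m (u m)) = ∑ m ∈ s, Eu M (monomial m (u m)) := by
      unfold Eu
      rw [map_sum, map_sum, Finset.mul_sum, Finset.mul_sum, Finset.mul_sum,
        ← Finset.sum_add_distrib]
    rw [hE, map_sum, map_sum, map_sum, Finset.mul_sum, Finset.mul_sum, ← Finset.sum_sub_distrib]
    exact Finset.sum_congr rfl fun m hm => key m (hs m hm) _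
  have h3 := h2 F.support (fun m => coeff m F) fun m hm => hF m (mem_support_iff.1 hm)
  rwa [← F.as_sum] at h3

theorem Le_pd {D M : ℕ} {F : MvPolynomial (Fin 2) k} (hF : Le D M F) :
    Le (D - M) M (pderiv 1 F) := by
  intro m hm
  rw [MvPolynomial.coeff_pderiv] at hm
  have h1 := hF _ (left_ne_zero_of_mul hm)
  rw [Finsupp.add_apply, Finsupp.add_apply, Finsupp.single_eq_same,
    Finsupp.single_eq_of_ne (by decide)] at h1
  have : M * (m 1 + 1) = M * m 1 + M := by ring
  omega

theorem W_pd {D M : ℕ} {F : MvPolynomial (Fin 2) k} (hF : Le D M F) :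
    pderiv 1 (W D M F) = W (D - M) M (pderiv 1 F) := by
  have key : ∀ m : Fin 2 →₀ ℕ, m 0 + M * m 1 ≤ D → ∀ c : k,
      pderiv 1 (W D M (monomial m c)) = W (D - M) M (pderiv 1 (monomial m c)) := by
    intro m hm c
    rw [W_monomial, pderiv_monomial, pderiv_monomial, W_monomial, ee_one]
    rcases Nat.eq_zero_or_pos (m 1) with h0 | h0
    · rw [h0]; simp
    · have h5 : ee (D - (m 0 + M * m 1)) (m 1) - Finsupp.single 1 1 =
          ee (D - M - ((m - Finsupp.single 1 1 : Fin 2 →₀ ℕ) 0 +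
            M * (m - Finsupp.single 1 1 : Fin 2 →₀ ℕ) 1)) ((m - Finsupp.single 1 1 : Fin 2 →₀ ℕ) 1) := by
        apply fin2_ext
        · rw [Finsupp.tsub_apply, ee_zero, ee_zero, Finsupp.single_eq_of_ne (by decide),
            Finsupp.tsub_apply, Finsupp.tsub_apply, Finsupp.single_eq_same,
            Finsupp.single_eq_of_ne (by decide)]
          obtain ⟨q, hq⟩ : ∃ q, m 1 = q + 1 := ⟨m 1 - 1, by omega⟩
          rw [hq] at hm ⊢
          rw [Nat.add_sub_cancel]
          have : M * (q + 1) = M * q + M := by ring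
          omega
        · rw [Finsupp.tsub_apply, ee_one, ee_one, Finsupp.single_eq_same, Finsupp.tsub_apply,
            Finsupp.single_eq_same]
      rw [h5]
  have h3 : pderiv 1 (W D M (∑ m ∈ F.support, monomial m (coeff m F))) =
      W (D - M) M (pderiv 1 (∑ m ∈ F.support, monomial m (coeff m F))) := by
    rw [map_sum, map_sum, map_sum, map_sum]
    exact Finset.sum_congr rfl fun m hm => key m (hF m (mem_support_iff.1 hm)) _
  rwa [← F.as_sum] at h3

/-- The bracket in the new coordinates. -/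
theorem Bk_W {D d M : ℕ} {F G : MvPolynomial (Fin 2) k} (hF : Le D M F) (hG : Le d M G)
    (hD : M ≤ D) (hd : M ≤ d) (hl : M + 1 ≤ D + d) {c : k}
    (h : pderiv 0 F * pderiv 1 G - pderiv 1 F * pderiv 0 G = C c) :
    Bk D d (W D M F) (W d M G) = C c * X 0 ^ (D + d - (M + 1)) := by
  unfold Bk
  rw [W_Eu hF, W_Eu hG, W_pd hF, W_pd hG, ← W_mul (Le_Eu hF) (Le_pd hG),
    ← W_mul (Le_pd hF) (Le_Eu hG)]
  have e1 : D + (d - M) = D + d - M := by omega
  have e2 : D - M + d = D + d - M := by omega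
  rw [e1, e2, ← map_sub]
  have e3 : Eu M F * pderiv 1 G - pderiv 1 F * Eu M G = C c * X 0 := by
    unfold Eu
    linear_combination X 0 * h
  have e4 : (C c * X 0 : MvPolynomial (Fin 2) k) = monomial (Finsupp.single 0 1) c := by
    rw [← C_mul_X_eq_monomial]
  rw [e3, e4, W_monomial, Finsupp.single_eq_same, Finsupp.single_eq_of_ne (by decide), mul_zero,
    add_zero]
  have e5 : ee (D + d - M - 1) 0 = Finsupp.single 0 (D + d - (M + 1)) := by
    apply fin2_ext
    · rw [ee_zero, Finsupp.single_eq_same]; omega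
    · rw [ee_one, Finsupp.single_eq_of_ne (by decide)]
  rw [e5, X_pow_eq_monomial, C_mul_monomial, mul_one]

end Pool.Agent.TH207.Ser
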