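import Pool.Agent.TH207.Rt

/-! Polynomials with exponents in one residue class. -/

set_option autoImplicit false
set_option linter.unusedSectionVars false
set_option linter.unusedSimpArgs false

namespace Pool.Agent.TH207.Ser

open Polynomial

variable {k : Type*} [Field k] [CharZero k] [IsAlgClosed k]

/-- all exponents are congruent to `a` modulo `ρ` -/
def Res (ρ a : ℕ) (f : k[X]) : Prop := ∀ n, f.coeff n ≠ 0 → n ≡ a [MOD ρ]

/-- the part with exponents congruent to `a` modulo `ρ` -/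
noncomputable def Pt (ρ a : ℕ) (f : k[X]) : k[X] :=
  ∑ i ∈ f.support, if i ≡ a [MOD ρ] then monomial i (f.coeff i) else 0

theorem coeff_Pt (ρ a : ℕ) (f : k[X]) (n : ℕ) :
    (Pt ρ a f).coeff n = if n ≡ a [MOD ρ] then f.coeff n else 0 := by
  unfold Pt
  rw [finsetSum_coeff]
  by_cases hn : n ∈ f.support
  · rw [Finset.sum_eq_single n]
    · split_ifs
      · rw [coeff_monomial, if_pos rfl]
      · simp
    · intro i _ hi
      split_ifs
      · rw [coeff_monomial, if_neg hi]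
      · simp
    · intro h; exact absurd hn h
  · rw [notMem_support_iff.1 hn, ite_self]
    apply Finset.sum_eq_zero
    intro i hi
    split_ifs
    · rw [coeff_monomial, if_neg]
      rintro rfl
      exact hn hi
    · simp

theorem Pt_res (ρ a : ℕ) (f : k[X]) : Res ρ a (Pt ρ a f) := by
  intro n hn
  rw [coeff_Pt] at hn
  by_contra h
  rw [if_neg h] at hn
  exact hn rfl

theorem Pt_of_res {ρ a : ℕ} {f : k[X]} (h : Res ρ a f) : Pt ρ a f = f := by
  ext n
  rw [coeff_Pt]
  split_ifs with h1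
  · rfl
  · by_contra h2
    exact h1 (h n fun h3 => h2 h3.symm)

theorem Pt_sub (ρ a : ℕ) (f g : k[X]) : Pt ρ a (f - g) = Pt ρ a f - Pt ρ a g := by
  ext n
  rw [coeff_Pt, coeff_sub, coeff_sub, coeff_Pt, coeff_Pt]
  split_ifs <;> ring

theorem Pt_mul {ρ a b : ℕ} (f : k[X]) {g : k[X]} (hg : Res ρ b g) :
    Pt ρ (a + b) (f * g) = Pt ρ a f * g := by
  ext n
  rw [coeff_Pt, coeff_mul, coeff_mul]
  split_ifs with h
  · apply Finset.sum_congr rfl
    rintro ⟨i, j⟩ hij
    rw [Finset.HasAntidiagonal.mem_antidiagonal] at hij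
    rw [coeff_Pt]
    by_cases hj : g.coeff j = 0
    · simp only [hj, mul_zero]
    · rw [if_pos]
      have h1 := hg j hj
      have h2 : i + j ≡ a + b [MOD ρ] := by rw [show i + j = n from hij]; exact h
      exact Nat.ModEq.add_right_cancel h1 h2
  · symm
    apply Finset.sum_eq_zero
    rintro ⟨i, j⟩ hij
    rw [Finset.HasAntidiagonal.mem_antidiagonal] at hij
    rw [coeff_Pt]
    by_cases hj : g.coeff j = 0
    · simp only [hj, mul_zero]
    · rw [if_neg, zero_mul]
      intro h3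
      apply h
      rw [← show i + j = n from hij]
      exact Nat.ModEq.add h3 (hg j hj)

theorem Res_X_der {ρ a : ℕ} {f : k[X]} (h : Res ρ a f) : Res ρ a (X * derivative f) := by
  intro n hn
  rcases n with _ | n
  · simp at hn
  · rw [coeff_X_mul, coeff_derivative] at hn
    exact h _ (left_ne_zero_of_mul hn)

theorem Pt_X_der (ρ a : ℕ) (f : k[X]) :
    Pt ρ a (X * derivative f) = X * derivative (Pt ρ a f) := by
  ext n
  rw [coeff_Pt]
  rcases n with _ | n
  · simp
  · rw [coeff_X_mul, coeff_derivative, coeff_X_mul, coeff_derivative, coeff_Pt]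
    split_ifs <;> ring

theorem Res_C_X {ρ M : ℕ} {f : k[X]} (h : Res ρ M f) (c : k) : Res ρ (1 + M) (C c * (X * f)) := by
  intro n hn
  rcases n with _ | n
  · simp at hn
  · rw [coeff_C_mul, coeff_X_mul] at hn
    rw [add_comm 1 M]
    exact Nat.ModEq.add_right 1 (h _ (right_ne_zero_of_mul hn))

/-- One may take the conjugate form with exponents congruent to one. -/
theorem exists_avg {ρ M : ℕ} {f h : k[X]} {D K : ℕ} {c : k}
    (heq : (D : k[X]) * derivative h * f - (K : k[X]) * derivative f * h = C c * f)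
    (hf : Res ρ M f) : ∃ h1 : k[X], Res ρ 1 h1 ∧
      (D : k[X]) * derivative h1 * f - (K : k[X]) * derivative f * h1 = C c * f := by
  refine ⟨Pt ρ 1 h, Pt_res _ _ _, ?_⟩
  have h1 : ((D : k[X]) * (X * derivative h)) * f - h * ((K : k[X]) * (X * derivative f)) =
      C c * (X * f) := by
    linear_combination X * heq
  have hK : Res ρ M ((K : k[X]) * (X * derivative f)) := by
    intro n hn
    rw [← C_eq_natCast, coeff_C_mul] at hn
    exact Res_X_der hf n (right_ne_zero_of_mul hn)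
  have hD : Pt ρ 1 ((D : k[X]) * (X * derivative h)) =
      (D : k[X]) * (X * derivative (Pt ρ 1 h)) := by
    rw [← Pt_X_der]
    ext n
    rw [coeff_Pt, ← C_eq_natCast, coeff_C_mul, coeff_C_mul, coeff_Pt]
    split_ifs <;> simp
  have h2 := congrArg (Pt ρ (1 + M)) h1
  rw [Pt_sub, Pt_mul _ hf, Pt_mul _ hK, hD, Pt_of_res (Res_C_X hf c)] at h2
  apply mul_left_cancel₀ (X_ne_zero (R := k))
  linear_combination h2

theorem comp_res {ρ M : ℕ} {f : k[X]} (hf : Res ρ M f) {ω : k} (hω : ω ^ ρ = 1) :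
    f.comp (C ω * X) = C (ω ^ M) * f := by
  ext n
  rw [comp_C_mul_X_coeff, coeff_C_mul, mul_comm]
  by_cases hn : f.coeff n = 0
  · rw [hn, mul_zero, mul_zero]
  · have h1 := hf n hn
    have h2 : ω ^ n = ω ^ M := by
      have h3 : ∀ m, ω ^ m = ω ^ (m % ρ) := by
        intro m
        conv_lhs => rw [← Nat.div_add_mod m ρ, pow_add, pow_mul, hω, one_pow, one_mul]
      rw [h3 n, h3 M, h1]
    rw [h2]

theorem mult_le {ρ M : ℕ} {f : k[X]} (hf0 : f ≠ 0) (hf : Res ρ M f) {ω : k} (hω : ω ^ ρ = 1)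
    (hω0 : ω ≠ 0) (r : k) : rootMultiplicity r f ≤ rootMultiplicity (ω * r) f := by
  rw [le_rootMultiplicity_iff hf0]
  obtain ⟨g, hg⟩ := pow_rootMultiplicity_dvd f r
  generalize rootMultiplicity r f = n at hg
  have hω' : (ω⁻¹) ^ ρ = 1 := by rw [inv_pow, hω, inv_one]
  have h1 := comp_res hf hω'
  have h2 : f.comp (C ω⁻¹ * X) = C (ω⁻¹ ^ n) * (X - C (ω * r)) ^ n * g.comp (C ω⁻¹ * X) := by
    conv_lhs => rw [hg]
    rw [mul_comp, pow_comp, sub_comp, X_comp, C_comp]
    have h3 : (C ω⁻¹ * X - C r : k[X]) = C ω⁻¹ * (X - C (ω * r)) := by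
      rw [mul_sub, ← C_mul, ← mul_assoc, inv_mul_cancel₀ hω0, one_mul]
    rw [h3, mul_pow, ← C_pow]
  have h4 : f = C (ω ^ M) * f.comp (C ω⁻¹ * X) := by
    rw [h1, ← mul_assoc, ← C_mul, inv_pow, mul_inv_cancel₀ (pow_ne_zero _ hω0), C_1, one_mul]
  rw [h4, h2]
  refine ⟨C (ω ^ M) * (C (ω⁻¹ ^ n) * g.comp (C ω⁻¹ * X)), by ring⟩

theorem orbit {ρ M : ℕ} (hρ : 0 < ρ) {f : k[X]} (hf0 : f ≠ 0) (hf : Res ρ M f) {r : k}
    (hr : r ≠ 0) : ρ * rootMultiplicity r f + rootMultiplicity 0 f ≤ f.natDegree := by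
  classical
  have : NeZero (ρ : k) := ⟨by exact_mod_cast hρ.ne'⟩
  obtain ⟨ω, hω⟩ := HasEnoughRootsOfUnity.exists_primitiveRoot k ρ
  have hω0 : ω ≠ 0 := hω.ne_zero hρ.ne'
  have hinj : Set.InjOn (fun i : ℕ => ω ^ i * r) (Finset.range ρ : Finset ℕ) := by
    intro i hi j hj hij
    have h1 : ω ^ i = ω ^ j := mul_right_cancel₀ hr hij
    exact hω.pow_inj (Finset.mem_range.1 hi) (Finset.mem_range.1 hj) h1
  have h0 : (0 : k) ∉ (Finset.range ρ).image (fun i : ℕ => ω ^ i * r) := by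
    rw [Finset.mem_image]
    rintro ⟨i, _, hi⟩
    exact mul_ne_zero (pow_ne_zero _ hω0) hr hi
  have h1 := sum_mult_le f (insert 0 ((Finset.range ρ).image (fun i : ℕ => ω ^ i * r)))
  rw [Finset.sum_insert h0, Finset.sum_image hinj] at h1
  have h2 : ρ * rootMultiplicity r f ≤ ∑ i ∈ Finset.range ρ, rootMultiplicity (ω ^ i * r) f := by
    have h3 : ∑ i ∈ Finset.range ρ, rootMultiplicity r f ≤
        ∑ i ∈ Finset.range ρ, rootMultiplicity (ω ^ i * r) f := by
      apply Finset.sum_le_sum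
      intro i _
      apply mult_le hf0 hf
      · rw [← pow_mul, mul_comm, pow_mul, hω.pow_eq_one, one_pow]
      · exact pow_ne_zero _ hω0
    rwa [Finset.sum_const, Finset.card_range, smul_eq_mul] at h3
  omega

end Pool.Agent.TH207.Ser
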