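import Pool.Agent.TH207.Rv

/-! Initial vertices. -/

set_option autoImplicit false
set_option linter.unusedSectionVars false
set_option linter.unusedSimpArgs false

namespace Pool.Agent.TH207.Ser

open MvPolynomial

variable {k : Type*} [Field k] [CharZero k]

theorem degs {a b : ℕ} (ha : 0 < a) (hb : 0 < b) {f g : Polynomial k} (hf : f ≠ 0) (hg : g ≠ 0)
    (h : (a : Polynomial k) * f * Polynomial.derivative g =
      (b : Polynomial k) * Polynomial.derivative f * g) :
    a * g.natDegree = b * f.natDegree := by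
  have hak : (a : k) ≠ 0 := by exact_mod_cast ha.ne'
  have hbk : (b : k) ≠ 0 := by exact_mod_cast hb.ne'
  have hder : ∀ p : Polynomial k, p.natDegree = 0 → Polynomial.derivative p = 0 := by
    intro p hp
    rw [Polynomial.eq_C_of_natDegree_eq_zero hp, Polynomial.derivative_C]
  have hder2 : ∀ p : Polynomial k, Polynomial.derivative p = 0 → p.natDegree = 0 :=
    fun p hp => Polynomial.derivative_eq_zero.1 hp
  have haP : (a : Polynomial k) ≠ 0 := by exact_mod_cast ha.ne'
  have hbP : (b : Polynomial k) ≠ 0 := by exact_mod_cast hb.ne'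
  rcases Nat.eq_zero_or_pos f.natDegree with h0 | h0
  · rw [hder f h0] at h
    have h1 : (a : Polynomial k) * f * Polynomial.derivative g = 0 := by rw [h]; ring
    have h2 := (mul_eq_zero.1 h1).resolve_left (mul_ne_zero haP hf)
    rw [hder2 g h2, h0]
    simp
  · rcases Nat.eq_zero_or_pos g.natDegree with g0 | g0
    · rw [hder g g0] at h
      have h1 : (b : Polynomial k) * Polynomial.derivative f * g = 0 := by rw [← h]; ring
      have h2 := (mul_eq_zero.1 h1).resolve_right hg
      have h3 := (mul_eq_zero.1 h2).resolve_left hbP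
      have := hder2 f h3
      omega
    · obtain ⟨M, hM⟩ : ∃ M, f.natDegree = M + 1 := ⟨f.natDegree - 1, by omega⟩
      obtain ⟨T, hT⟩ : ∃ T, g.natDegree = T + 1 := ⟨g.natDegree - 1, by omega⟩
      have h1 := congrArg (fun p => Polynomial.coeff p (M + 1 + T)) h
      have e1 : ((a : Polynomial k) * f * Polynomial.derivative g).coeff (M + 1 + T) =
          (a : k) * (f.coeff (M + 1) * (g.coeff (T + 1) * ((T : k) + 1))) := by
        rw [mul_assoc, ← Polynomial.C_eq_natCast, Polynomial.coeff_C_mul,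
          Polynomial.coeff_mul_add_eq_of_natDegree_le (df := M + 1) (dg := T)]
        · rw [Polynomial.coeff_derivative]
        · omega
        · refine (Polynomial.natDegree_derivative_le _).trans ?_
          omega
      have e2 : ((b : Polynomial k) * Polynomial.derivative f * g).coeff (M + 1 + T) =
          (b : k) * ((f.coeff (M + 1) * ((M : k) + 1)) * g.coeff (T + 1)) := by
        have : M + 1 + T = M + (T + 1) := by ring
        rw [this, mul_assoc, ← Polynomial.C_eq_natCast, Polynomial.coeff_C_mul,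
          Polynomial.coeff_mul_add_eq_of_natDegree_le (df := M) (dg := T + 1)]
        · rw [Polynomial.coeff_derivative]
        · refine (Polynomial.natDegree_derivative_le _).trans ?_
          omega
        · omega
      rw [e1, e2] at h1
      have hlf : f.coeff (M + 1) ≠ 0 := by
        rw [← hM, Polynomial.coeff_natDegree]; exact Polynomial.leadingCoeff_ne_zero.2 hf
      have hlg : g.coeff (T + 1) ≠ 0 := by
        rw [← hT, Polynomial.coeff_natDegree]; exact Polynomial.leadingCoeff_ne_zero.2 hg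
      have h2 : (((a * (T + 1) : ℕ) : k) - ((b * (M + 1) : ℕ) : k)) *
          (f.coeff (M + 1) * g.coeff (T + 1)) = 0 := by
        push_cast
        linear_combination h1
      have h3 := sub_eq_zero.1 ((mul_eq_zero.1 h2).resolve_right (mul_ne_zero hlf hlg))
      rw [hT, hM]
      exact_mod_cast h3

theorem no_eq [IsAlgClosed k] {f h : Polynomial k} {D K : ℕ} (hK : 0 < K) {c : k} (hc : c ≠ 0)
    (heq : (D : Polynomial k) * Polynomial.derivative h * f -
      (K : Polynomial k) * Polynomial.derivative f * h = Polynomial.C c * f)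
    (hf : 0 < f.natDegree) : D ≠ f.natDegree * K := by
  classical
  intro hD
  have hD0 : 0 < D := by rw [hD]; exact Nat.mul_pos hf hK
  have hf0 : f ≠ 0 := by rintro rfl; simp at hf
  have hh0 : h ≠ 0 := by
    rintro rfl
    rw [Polynomial.derivative_zero] at heq
    have h1 : Polynomial.C c * f = 0 := by rw [← heq]; ring
    rcases mul_eq_zero.1 h1 with h2 | h2
    · exact hc (Polynomial.C_eq_zero.1 h2)
    · exact hf0 h2
  have hT : h.natDegree ≤ 1 := by
    by_contra h1
    have h2 := top_coeff heq hf (by omega)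
    rw [mul_comm K, ← hD] at h2
    have h3 : D * 2 ≤ D * h.natDegree := Nat.mul_le_mul_left _ (by omega)
    omega
  have hsub : f.roots.toFinset ⊆ h.roots.toFinset := by
    intro r hr
    rw [Multiset.mem_toFinset, Polynomial.mem_roots hf0] at hr
    rw [Multiset.mem_toFinset, Polynomial.mem_roots hh0]
    exact (root_local hK hc hf0 heq hr).1
  have hcard : f.roots.toFinset.card ≤ 1 :=
    (Finset.card_le_card hsub).trans ((Multiset.toFinset_card_le _).trans
      ((Polynomial.card_roots' h).trans hT))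
  have hsum := sum_mult f
  obtain ⟨r, hr⟩ : ∃ r, r ∈ f.roots.toFinset := by
    by_contra h1
    push Not at h1
    have h2 : f.roots.toFinset = ∅ := Finset.eq_empty_of_forall_notMem h1
    rw [h2, Finset.sum_empty] at hsum
    omega
  have h1 : f.roots.toFinset = {r} := by
    apply (Finset.eq_of_subset_of_card_le (Finset.singleton_subset_iff.2 hr) _).symm
    rw [Finset.card_singleton]; exact hcard
  rw [h1, Finset.sum_singleton] at hsum
  rw [Multiset.mem_toFinset, Polynomial.mem_roots hf0] at hr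
  exact (root_local hK hc hf0 heq hr).2 (by rw [hsum, hD])

/-- The first vertex after a translation of `ξ`. -/
theorem start [IsAlgClosed k] {a b : ℕ} (ha : 2 ≤ a) (hb : 1 ≤ b) (hcop : Nat.Coprime a b)
    {A l e : ℕ} {c : k} (hc : c ≠ 0) {F G : MvPolynomial (Fin 2) k}
    (hB : Bk ((a * A : ℕ) : ℤ) ((b * A : ℕ) : ℤ) F G = C c * X 0 ^ e) (hl : (a + b) * A = e + l)
    (he : 0 < e) (hA : 0 < A) (hl0 : 0 < l) (hf0 : (N 1 0 F).coeff 0 ≠ 0)
    (hg0 : (N 1 0 G).coeff 0 ≠ 0) :
    ∃ q, ((N 1 0 F).coeff 0).natDegree = a * q ∧ ((N 1 0 G).coeff 0).natDegree = b * q ∧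
      A ≠ q * l ∧
      (∀ r μ, 1 ≤ μ → Polynomial.rootMultiplicity r ((N 1 0 F).coeff 0) = a * μ → A ≠ μ * l) ∧
      (A < q * l → ∃ r μ, A < μ * l ∧ μ ≤ q ∧ 1 ≤ μ ∧
        St a b ((a * A : ℕ) : ℤ) ((b * A : ℕ) : ℤ) e c (shf 1 0 r F) (shf 1 0 r G) 1 0 A μ 0 0) := by
  have hF : ∀ m, coeff m F ≠ 0 → 0 ≤ 1 * m 0 + 0 * m 1 := fun m _ => Nat.zero_le _
  have hG : ∀ m, coeff m G ≠ 0 → 0 ≤ 1 * m 0 + 0 * m 1 := fun m _ => Nat.zero_le _
  have haA : 0 < a * A := Nat.mul_pos (by omega) hA
  obtain ⟨_, ⟨h, hh⟩, hp⟩ := conj (ρ := 1) (σ := 0) one_pos hc hB hF hG hf0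
    (D2 := a * A) (K := l) (by push_cast; ring) haA (by
      have : ((a : ℤ) + b) * A = e + l := by exact_mod_cast hl
      push_cast; linarith)
  have hp := hp (by omega)
  have hc1 : ((1 : ℕ) : k) * c ≠ 0 := by simpa using hc
  have hAP : (A : Polynomial k) ≠ 0 := by exact_mod_cast hA.ne'
  have hp' : (a : Polynomial k) * (N 1 0 F).coeff 0 * Polynomial.derivative ((N 1 0 G).coeff 0) =
      (b : Polynomial k) * Polynomial.derivative ((N 1 0 F).coeff 0) * (N 1 0 G).coeff 0 := by
    apply mul_left_cancel₀ hAP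
    push_cast at hp
    linear_combination hp
  have hdg := degs (by omega) (by omega) hf0 hg0 hp'
  have hm := mults hcop (by omega) hf0 hg0 hp'
  obtain ⟨q, hq⟩ : a ∣ ((N 1 0 F).coeff 0).natDegree := by
    apply hcop.dvd_of_dvd_mul_left
    rw [← hdg]; exact dvd_mul_right _ _
  have hq2 : ((N 1 0 G).coeff 0).natDegree = b * q := by
    apply Nat.eq_of_mul_eq_mul_left (by omega : 0 < a)
    rw [hdg, hq]; ring
  have hcrit : ∀ r μ, 1 ≤ μ → Polynomial.rootMultiplicity r ((N 1 0 F).coeff 0) = a * μ →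
      A ≠ μ * l := by
    intro r μ hμ hr hA'
    have hroot : ((N 1 0 F).coeff 0).IsRoot r := by
      rw [← Polynomial.rootMultiplicity_pos hf0, hr]
      exact Nat.mul_pos (by omega) hμ
    apply (root_local hl0 hc1 hf0 hh hroot).2
    rw [hr, hA']; ring
  refine ⟨q, hq, hq2, ?_, hcrit, ?_⟩
  · rcases Nat.eq_zero_or_pos q with h0 | h0
    · subst h0; omega
    · intro hA'
      have := no_eq hl0 hc1 hh (by rw [hq]; exact Nat.mul_pos (by omega) h0)
      apply this
      rw [hq, hA']; ring
  · intro hlt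
    have hq0 : 0 < q := by
      rcases Nat.eq_zero_or_pos q with h0 | h0
      · subst h0; omega
      · exact h0
    obtain ⟨r, hr⟩ := pos_root hl0 hc1 hh (by rw [hq]; exact Nat.mul_pos (by omega) hq0) (by
      rw [hq, mul_assoc]; exact Nat.mul_lt_mul_of_pos_left hlt (by omega))
    obtain ⟨μ, h1, h2⟩ := hm r
    rw [h1, mul_assoc] at hr
    have h3 := Nat.lt_of_mul_lt_mul_left hr
    have hμ : 1 ≤ μ := by
      rcases Nat.eq_zero_or_pos μ with h0 | h0
      · subst h0; omega
      · exact h0
    have hcomp0 : ∀ p : Polynomial k, p ≠ 0 →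
        p.comp (Polynomial.X + Polynomial.C r) ≠ 0 := by
      intro p hp h0
      apply hp
      have := congrArg (fun q => Polynomial.comp q (Polynomial.X - Polynomial.C r)) h0
      simpa [Polynomial.comp_assoc] using this
    have key : ∀ (P : MvPolynomial (Fin 2) k) (j : ℕ), (N 1 0 P).coeff 0 ≠ 0 →
        Polynomial.rootMultiplicity r ((N 1 0 P).coeff 0) = j → Lo 1 0 0 j (shf 1 0 r P) := by
      intro P j hP0 hj
      have b2 : (N 1 0 (shf 1 0 r P)).coeff 0 ≠ 0 := by
        rw [N_shf]; exact hcomp0 _ hP0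
      obtain ⟨i', e1, L1⟩ := Lo_of_N one_pos (fun n hn => absurd hn (Nat.not_lt_zero n)) b2
      rw [N_shf, ← Polynomial.rootMultiplicity_eq_rootMultiplicity, hj] at L1
      have : i' = 0 := by omega
      rw [this] at L1
      exact L1
    refine ⟨r, μ, h3, ?_, hμ, hc, ?_, key F _ hf0 h1, key G _ hg0 h2, ?_, ?_, one_pos, hμ⟩
    · have h4 := sum_mult_le ((N 1 0 F).coeff 0) {r}
      rw [Finset.sum_singleton, h1, hq] at h4
      exact Nat.le_of_mul_le_mul_left h4 (by omega)
    · have h5 := Bk_shf one_pos r ((a * A : ℕ) : ℤ) ((b * A : ℕ) : ℤ) F G (σ := 0)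
      rw [hB, map_mul, map_pow, shf_C, shf_X0] at h5
      simpa using h5
    · push_cast; ring
    · push_cast; ring

end Pool.Agent.TH207.Ser
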