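import Mathlib

/-! Roots of power series and the conjugate of a leading form. -/

set_option autoImplicit false
set_option linter.unusedSectionVars false
set_option linter.unusedSimpArgs false

namespace Pool.Agent.TH207.Ser

open PowerSeries

section root

variable {Q : Type*} [Field Q] [CharZero Q]

theorem root (u : Q⟦X⟧) (hu : constantCoeff u = 1) (D : ℕ) (hD : 0 < D) :
    ∃ w : Q⟦X⟧, constantCoeff w = 1 ∧ w ^ D = u := by
  let b : Q⟦X⟧ := binomialSeries Q (1 / (D : ℚ))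
  have hb : ∀ n : ℕ, b ^ n = binomialSeries Q ((n : ℚ) * (1 / (D : ℚ))) := by
    intro n
    induction n with
    | zero => simp
    | succ n ih =>
      rw [pow_succ, ih]
      have : (((n + 1 : ℕ) : ℚ) * (1 / (D : ℚ))) = (n : ℚ) * (1 / (D : ℚ)) + 1 / (D : ℚ) := by
        push_cast; ring
      rw [this, binomialSeries_add]
  have hD' : (D : ℚ) ≠ 0 := by exact_mod_cast hD.ne'
  have hbD : b ^ D = 1 + X := by
    rw [hb D]
    have : (D : ℚ) * (1 / (D : ℚ)) = ((1 : ℕ) : ℚ) := by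
      field_simp; simp
    rw [this, binomialSeries_nat, pow_one]
  have hs : HasSubst (u - 1 : Q⟦X⟧) := by
    apply HasSubst.of_constantCoeff_zero'
    simp [hu]
  let w0 : Q⟦X⟧ := (PowerSeries.subst (u - 1 : Q⟦X⟧) b : Q⟦X⟧)
  have hw0 : w0 ^ D = u := by
    have h1 : (PowerSeries.subst (u - 1 : Q⟦X⟧) (b ^ D) : Q⟦X⟧) = w0 ^ D :=
      PowerSeries.subst_pow hs b D
    rw [← h1, hbD, PowerSeries.subst_add hs, PowerSeries.subst_X hs]
    have h2 : (PowerSeries.subst (u - 1 : Q⟦X⟧) (1 : Q⟦X⟧) : Q⟦X⟧) = 1 := by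
      have := PowerSeries.subst_pow hs b 0
      simpa using this
    rw [h2]; ring
  have hc : (constantCoeff w0) ^ D = 1 := by
    rw [← map_pow, hw0, hu]
  have hc0 : constantCoeff w0 ≠ 0 := by
    intro h
    rw [h, zero_pow hD.ne'] at hc
    exact zero_ne_one hc
  refine ⟨w0 * C (constantCoeff w0)⁻¹, ?_, ?_⟩
  · rw [map_mul, constantCoeff_C, mul_inv_cancel₀ hc0]
  · rw [mul_pow, hw0, ← map_pow, inv_pow, hc]; simp

theorem rpow (u : Q⟦X⟧) (hu : constantCoeff u = 1) (D : ℕ) (hD : 0 < D) (p q : ℕ) :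
    ∃ w : Q⟦X⟧, constantCoeff w = 1 ∧ w ^ D * u ^ p = u ^ q := by
  obtain ⟨e, he, heD⟩ := root u hu D hD
  have h0 : constantCoeff e ≠ 0 := by rw [he]; exact one_ne_zero
  have hinv : e * e⁻¹ = 1 := PowerSeries.mul_inv_cancel e h0
  refine ⟨e ^ q * e⁻¹ ^ p, ?_, ?_⟩
  · rw [map_mul, map_pow, map_pow, he, one_pow, one_mul]
    have : constantCoeff e * constantCoeff e⁻¹ = 1 := by rw [← map_mul, hinv, map_one]
    rw [he, one_mul] at this
    rw [this, one_pow]
  · rw [mul_pow, ← pow_mul, ← pow_mul, mul_comm q D, mul_comm p D, pow_mul, pow_mul, heD]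
    have h1 : (e⁻¹ ^ D) ^ p * u ^ p = 1 := by
      rw [← mul_pow, ← heD, ← mul_pow, mul_comm, hinv, one_pow, one_pow]
    calc u ^ q * (e⁻¹ ^ D) ^ p * u ^ p = u ^ q * ((e⁻¹ ^ D) ^ p * u ^ p) := by ring
      _ = u ^ q := by rw [h1, mul_one]

end root

section der

variable {A : Type*} [CommRing A] [IsDomain A]

theorem leib_pow (δ : A → A) (hl : ∀ x y, δ (x * y) = x * δ y + y * δ x) (x : A) (n : ℕ) :
    x * δ (x ^ n) = (n : A) * (x ^ n * δ x) := by
  induction n with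
  | zero =>
    have h1 : δ 1 = 0 := by
      have := hl 1 1
      rw [mul_one, one_mul] at this
      linear_combination -this
    rw [pow_zero, h1]; simp
  | succ n ih =>
    rw [pow_succ, hl]
    push_cast
    linear_combination x * ih

theorem der_pow (δ : A → A) (hl : ∀ x y, δ (x * y) = x * δ y + y * δ x)
    (w x κ : A) (hw : w ≠ 0) (hx : x ≠ 0) (hκ : δ κ = 0)
    (D p q : ℕ) (h : w ^ D * x ^ p = κ * x ^ q) :
    (D : A) * (x * δ w) = ((q : A) - (p : A)) * (w * δ x) := by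
  have h1 := congrArg (fun z => w * x * δ z) h
  simp only [hl, hκ, mul_zero, add_zero] at h1
  have e1 := leib_pow δ hl w D
  have e2 := leib_pow δ hl x p
  have e3 := leib_pow δ hl x q
  have h2 : w ^ D * x ^ p * ((D : A) * (x * δ w)) =
      w ^ D * x ^ p * (((q : A) - (p : A)) * (w * δ x)) := by
    have a1 : w * x * (w ^ D * δ (x ^ p) + x ^ p * δ (w ^ D)) =
        w ^ (D + 1) * (x * δ (x ^ p)) + x ^ (p + 1) * (w * δ (w ^ D)) := by ring
    have a2 : w * x * (κ * δ (x ^ q)) = κ * w * (x * δ (x ^ q)) := by ring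
    rw [a1, a2, e1, e2, e3] at h1
    have a3 : κ * w * ((q : A) * (x ^ q * δ x)) = (κ * x ^ q) * ((q : A) * (w * δ x)) := by ring
    rw [a3, ← h] at h1
    linear_combination h1
  exact mul_left_cancel₀ (mul_ne_zero (pow_ne_zero _ hw) (pow_ne_zero _ hx)) h2

end der

section ser

variable {Q : Type*} [Field Q] [CharZero Q] (δ : Derivation ℤ Q Q)

/-- The derivation applied to the coefficients. -/
noncomputable def pd (f : Q⟦X⟧) : Q⟦X⟧ := PowerSeries.mk fun n => δ (coeff n f)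

/-- The Euler derivation. -/
noncomputable def th (f : Q⟦X⟧) : Q⟦X⟧ := X * d⁄dX Q f

theorem coeff_pd (n : ℕ) (f : Q⟦X⟧) : coeff n (pd δ f) = δ (coeff n f) := by
  unfold pd
  rw [coeff_mk]

theorem th_apply (f : Q⟦X⟧) : th f = X * d⁄dX Q f := rfl

theorem coeff_th (n : ℕ) (f : Q⟦X⟧) : coeff n (th f) = (n : Q) * coeff n f := by
  rw [th_apply]
  rcases n with _ | n
  · simp
  · rw [PowerSeries.coeff_succ_X_mul, coeff_derivative]
    push_cast; ring

theorem pd_mul (f g : Q⟦X⟧) : pd δ (f * g) = f * pd δ g + g * pd δ f := by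
  ext n
  rw [coeff_pd, map_add, coeff_mul, coeff_mul, coeff_mul, map_sum]
  rw [← Finset.Nat.sum_antidiagonal_swap (f := fun x => coeff x.1 g * coeff x.2 (pd δ f))]
  rw [← Finset.sum_add_distrib]
  apply Finset.sum_congr rfl
  rintro ⟨i, j⟩ _
  simp only [Derivation.leibniz, smul_eq_mul, coeff_pd, Prod.fst_swap, Prod.snd_swap]

theorem pd_add (f g : Q⟦X⟧) : pd δ (f + g) = pd δ f + pd δ g := by
  ext n
  rw [coeff_pd, map_add, map_add, map_add, coeff_pd, coeff_pd]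

theorem pd_sub (f g : Q⟦X⟧) : pd δ (f - g) = pd δ f - pd δ g := by
  ext n
  rw [coeff_pd, map_sub, map_sub, map_sub, coeff_pd, coeff_pd]

theorem th_mul (f g : Q⟦X⟧) : th (f * g) = f * th g + g * th f := by
  unfold th
  rw [Derivation.leibniz, smul_eq_mul, smul_eq_mul]; ring

theorem th_add (f g : Q⟦X⟧) : th (f + g) = th f + th g := by
  unfold th
  rw [map_add]; ring

theorem th_sub (f g : Q⟦X⟧) : th (f - g) = th f - th g := by
  unfold th
  rw [map_sub]; ring

theorem pd_C (c : Q) : pd δ (C c) = C (δ c) := by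
  ext n
  rw [coeff_pd, coeff_C, coeff_C]
  split_ifs <;> simp

theorem pd_X : pd δ X = 0 := by
  ext n
  rw [coeff_pd, coeff_X]
  split_ifs
  · simp
  · simp

theorem th_C (c : Q) : th (C c) = 0 := by
  ext n
  rw [coeff_th, coeff_C]
  split_ifs with h
  · subst h; simp
  · simp

theorem th_X : th (X : Q⟦X⟧) = X := by
  rw [th_apply, derivative_X, mul_one]

/-- The bracket of `F` of degree `D` and `G` of degree `d`. -/
noncomputable def Br (D d : ℤ) (F G : Q⟦X⟧) : Q⟦X⟧ :=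
  (C (D : Q) * F - th F) * pd δ G - pd δ F * (C (d : Q) * G - th G)

theorem Br_sub (D d : ℤ) (F G E : Q⟦X⟧) :
    Br δ D d F (G - E) = Br δ D d F G - Br δ D d F E := by
  unfold Br
  rw [pd_sub, th_sub]; ring

theorem Br_X (D d : ℤ) (F G : Q⟦X⟧) :
    Br δ D d F (X * G) = X * Br δ D (d - 1) F G := by
  unfold Br
  rw [pd_mul, th_mul, pd_X, th_X]
  push_cast
  rw [map_sub, map_one]
  ring

theorem Br_X' (D d : ℤ) (F G : Q⟦X⟧) :
    Br δ D d (X * F) G = X * Br δ (D - 1) d F G := by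
  unfold Br
  rw [pd_mul, th_mul, pd_X, th_X]
  push_cast
  rw [map_sub, map_one]
  ring

theorem Br_Xn (D d : ℤ) (F G : Q⟦X⟧) (n : ℕ) :
    Br δ D d F (X ^ n * G) = X ^ n * Br δ D (d - n) F G := by
  induction n generalizing d with
  | zero => simp
  | succ n ih =>
    rw [pow_succ', mul_assoc, Br_X, ih, mul_assoc]
    congr 3
    push_cast; ring

theorem Br_Xn' (D d : ℤ) (F G : Q⟦X⟧) (n : ℕ) :
    Br δ D d (X ^ n * F) G = X ^ n * Br δ (D - n) d F G := by
  induction n generalizing D with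
  | zero => simp
  | succ n ih =>
    rw [pow_succ', mul_assoc, Br_X', ih, mul_assoc]
    congr 3
    push_cast; ring

theorem const_Br (D d : ℤ) (F G : Q⟦X⟧) : constantCoeff (Br δ D d F G) =
    (D : Q) * constantCoeff F * δ (constantCoeff G) -
      (d : Q) * δ (constantCoeff F) * constantCoeff G := by
  have h1 : ∀ f : Q⟦X⟧, constantCoeff (th f) = 0 := by
    intro f
    rw [← coeff_zero_eq_constantCoeff_apply, coeff_th]; simp
  have h2 : ∀ f : Q⟦X⟧, constantCoeff (pd δ f) = δ (constantCoeff f) := by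
    intro f
    rw [← coeff_zero_eq_constantCoeff_apply, coeff_pd, coeff_zero_eq_constantCoeff_apply]
  unfold Br
  simp only [map_sub, map_mul, h1, h2, constantCoeff_C]
  ring

/-- The constant. -/
theorem const_kappa (f g : Q) (hf : f ≠ 0) (hg : g ≠ 0) (D p q : ℕ)
    (hfg : (D : Q) * f * δ g = ((q : Q) - p) * δ f * g) (κ : Q)
    (hκ1 : g ^ D * f ^ p = κ * f ^ q) : δ κ = 0 := by
  have hl : ∀ x y : Q, δ (x * y) = x * δ y + y * δ x := by
    intro x y
    rw [Derivation.leibniz, smul_eq_mul, smul_eq_mul]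
  have h1 := congrArg (fun z => g * f * δ z) hκ1
  simp only [hl] at h1
  have e1 := leib_pow δ hl g D
  have e2 := leib_pow δ hl f p
  have e3 := leib_pow δ hl f q
  have a1 : g * f * (g ^ D * δ (f ^ p) + f ^ p * δ (g ^ D)) =
      g ^ (D + 1) * (f * δ (f ^ p)) + f ^ (p + 1) * (g * δ (g ^ D)) := by ring
  have a2 : g * f * (κ * δ (f ^ q) + f ^ q * δ κ) =
      κ * g * (f * δ (f ^ q)) + g * f * f ^ q * δ κ := by ring
  rw [a1, a2, e1, e2, e3] at h1
  have h3 : g * f * f ^ q * δ κ = 0 := by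
    have h4 : g ^ (D + 1) * ((p : Q) * (f ^ p * δ f)) +
        f ^ (p + 1) * ((D : Q) * (g ^ D * δ g)) = (g ^ D * f ^ p) * ((q : Q) * δ f * g) := by
      linear_combination (g ^ D * f ^ p) * hfg
    rw [h4, hκ1] at h1
    linear_combination -h1
  exact (mul_eq_zero.1 h3).resolve_left (mul_ne_zero (mul_ne_zero hg hf) (pow_ne_zero _ hf))

theorem Br_zero (D : ℕ) (hD : 0 < D) (d : ℤ) (p q : ℕ) (hpq : d = (q : ℤ) - p) (F E : Q⟦X⟧)
    (hF0 : F ≠ 0)
    (d1 : (D : Q⟦X⟧) * (F * pd δ E) = ((q : Q⟦X⟧) - (p : Q⟦X⟧)) * (E * pd δ F))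
    (d2 : (D : Q⟦X⟧) * (F * th E) = ((q : Q⟦X⟧) - (p : Q⟦X⟧)) * (E * th F)) :
    Br δ D d F E = 0 := by
  have hDQ : (D : Q) ≠ 0 := by exact_mod_cast hD.ne'
  have hDs : (D : Q⟦X⟧) * F ≠ 0 := by
    refine mul_ne_zero ?_ hF0
    have : (D : Q⟦X⟧) = C (D : Q) := by simp
    rw [this]
    intro h
    apply hDQ
    have := congrArg (constantCoeff (R := Q)) h
    simpa using this
  apply (mul_eq_zero.1 _).resolve_left hDs
  unfold Br
  have c1 : (C ((D : ℤ) : Q) : Q⟦X⟧) = (D : Q⟦X⟧) := by simp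
  have c2 : (C (d : Q) : Q⟦X⟧) = (q : Q⟦X⟧) - (p : Q⟦X⟧) := by rw [hpq]; simp
  rw [c1, c2]
  linear_combination ((D : Q⟦X⟧) * F - th F) * d1 + pd δ F * d2

theorem exists_w (D : ℕ) (hD : 0 < D) (F : Q⟦X⟧) (hF : constantCoeff F ≠ 0) (p q : ℕ) (g : Q)
    (κ : Q) (hκ1 : g ^ D * constantCoeff F ^ p = κ * constantCoeff F ^ q) :
    ∃ E : Q⟦X⟧, constantCoeff E = g ∧ E ^ D * F ^ p = C κ * F ^ q := by
  obtain ⟨f, hf⟩ : ∃ f, f = constantCoeff F := ⟨_, rfl⟩
  rw [← hf] at hF hκ1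
  obtain ⟨u, hu⟩ : ∃ u, u = F * C f⁻¹ := ⟨_, rfl⟩
  have hu1 : constantCoeff u = 1 := by
    rw [hu, map_mul, constantCoeff_C, ← hf, mul_inv_cancel₀ hF]
  have hFu : F = C f * u := by
    rw [hu, mul_comm F, ← mul_assoc, ← map_mul, mul_inv_cancel₀ hF, map_one, one_mul]
  obtain ⟨w, hw1, hw⟩ := rpow u hu1 D hD p q
  refine ⟨C g * w, by rw [map_mul, constantCoeff_C, hw1, mul_one], ?_⟩
  calc (C g * w) ^ D * F ^ p = (C g * w) ^ D * (C f * u) ^ p := by rw [← hFu]
    _ = (C g ^ D * C f ^ p) * (w ^ D * u ^ p) := by ring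
    _ = C (g ^ D * f ^ p) * (w ^ D * u ^ p) := by rw [map_mul, map_pow, map_pow]
    _ = C (κ * f ^ q) * u ^ q := by rw [hκ1, hw]
    _ = C κ * (C f * u) ^ q := by rw [map_mul, map_pow]; ring
    _ = C κ * F ^ q := by rw [← hFu]

/-- A power of `F` with prescribed leading coefficient. -/
theorem exists_E (D : ℕ) (hD : 0 < D) (F : Q⟦X⟧) (hF : constantCoeff F ≠ 0) (d : ℤ) (g : Q)
    (hg : g ≠ 0) (hfg : (D : Q) * constantCoeff F * δ g = (d : Q) * δ (constantCoeff F) * g) :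
    ∃ E : Q⟦X⟧, constantCoeff E = g ∧ Br δ D d F E = 0 := by
  obtain ⟨p, q, hpq⟩ : ∃ p q : ℕ, d = (q : ℤ) - p := ⟨(-d).toNat, d.toNat, by omega⟩
  obtain ⟨κ, hκ⟩ : ∃ κ : Q, κ = g ^ D * constantCoeff F ^ p * (constantCoeff F ^ q)⁻¹ := ⟨_, rfl⟩
  have hκ1 : g ^ D * constantCoeff F ^ p = κ * constantCoeff F ^ q := by
    rw [hκ, mul_assoc (g ^ D * constantCoeff F ^ p), inv_mul_cancel₀ (pow_ne_zero _ hF), mul_one]
  have hδκ : δ κ = 0 := by
    refine const_kappa δ (constantCoeff F) g hF hg D p q ?_ κ hκ1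
    rw [hfg, hpq]; push_cast; ring
  obtain ⟨E, hE1, hE2⟩ := exists_w D hD F hF p q g κ hκ1
  have hE0 : E ≠ 0 := by
    intro h
    apply hg
    rw [← hE1, h, map_zero]
  have hF0 : F ≠ 0 := by
    intro h
    apply hF
    rw [h, map_zero]
  refine ⟨E, hE1, ?_⟩
  have hκ0 : pd δ (C κ) = 0 := by rw [pd_C, hδκ, map_zero]
  have hk : th (C κ) = 0 := th_C κ
  have d1 := der_pow (A := Q⟦X⟧) (fun x => pd δ x) (fun x y => pd_mul δ x y) E F (C κ) hE0 hF0 hκ0
    D p q hE2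
  have d2 := der_pow (A := Q⟦X⟧) (fun x => th x) (fun x y => th_mul x y) E F (C κ) hE0 hF0 hk
    D p q hE2
  exact Br_zero δ D hD d p q hpq F E hF0 d1 d2

/-- The conjugate of the leading form. -/
theorem conj_form (D : ℕ) (hD : 0 < D) (F : Q⟦X⟧) (hF : constantCoeff F ≠ 0) (c : Q) (n : ℕ) :
    ∀ (d : ℤ) (G : Q⟦X⟧), Br δ D d F G = C c * X ^ n →
      ∃ g : Q, (D : Q) * constantCoeff F * δ g -
        ((d - n : ℤ) : Q) * δ (constantCoeff F) * g = c := by
  induction n with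
  | zero =>
    intro d G h
    refine ⟨constantCoeff G, ?_⟩
    have h1 := congrArg (constantCoeff (R := Q)) h
    rw [const_Br] at h1
    simpa using h1
  | succ n ih =>
    intro d G h
    have key : ∀ G2 : Q⟦X⟧, constantCoeff G2 = 0 → Br δ D d F G2 = C c * X ^ (n + 1) →
        ∃ g : Q, (D : Q) * constantCoeff F * δ g -
          ((d - (n + 1 : ℕ) : ℤ) : Q) * δ (constantCoeff F) * g = c := by
      intro G2 h0 h2
      obtain ⟨G3, rfl⟩ := X_dvd_iff.2 h0
      rw [Br_X] at h2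
      have h3 : Br δ D (d - 1) F G3 = C c * X ^ n := by
        apply mul_left_cancel₀ (X_ne_zero (R := Q))
        rw [h2]; ring
      obtain ⟨g, hg⟩ := ih _ _ h3
      refine ⟨g, ?_⟩
      rw [← hg]
      congr 3
      push_cast; ring
    by_cases h0 : constantCoeff G = 0
    · exact key G h0 h
    · have h1 := congrArg (constantCoeff (R := Q)) h
      rw [const_Br] at h1
      simp only [map_mul, map_pow, constantCoeff_X, zero_pow (Nat.succ_ne_zero n), mul_zero] at h1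
      obtain ⟨E, hE1, hE2⟩ := exists_E δ D hD F hF d (constantCoeff G) h0 (by
        simpa using sub_eq_zero.1 h1)
      apply key (G - E)
      · rw [map_sub, hE1, sub_self]
      · rw [Br_sub, hE2, sub_zero, h]

end ser

end Pool.Agent.TH207.Ser
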