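import Pool.Agent.TH207.To

/-! The substitution `x = z - 1`, `y = w + 1 - z`. -/

set_option autoImplicit false
set_option linter.unusedSectionVars false
set_option linter.unusedSimpArgs false

namespace Pool.Agent.TH207.Tz

open MvPolynomial Pool.Agent.TH207.Ser

variable {k : Type*} [Field k]

noncomputable def ph : MvPolynomial (Fin 2) k →ₐ[k] MvPolynomial (Fin 2) k :=
  aeval ![X 0 - 1, X 1 + 1 - X 0]

noncomputable def ps : MvPolynomial (Fin 2) k →ₐ[k] MvPolynomial (Fin 2) k :=
  aeval ![X 0 + 1, X 0 + X 1]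

theorem ph_X0 : ph (k := k) (X 0) = X 0 - 1 := by unfold ph; rw [aeval_X]; rfl
theorem ph_X1 : ph (k := k) (X 1) = X 1 + 1 - X 0 := by unfold ph; rw [aeval_X]; rfl
theorem ps_X0 : ps (k := k) (X 0) = X 0 + 1 := by unfold ps; rw [aeval_X]; rfl
theorem ps_X1 : ps (k := k) (X 1) = X 0 + X 1 := by unfold ps; rw [aeval_X]; rfl
theorem ph_C (c : k) : ph (C c) = C c := by unfold ph; rw [aeval_C]; rfl
theorem ps_C (c : k) : ps (C c) = C c := by unfold ps; rw [aeval_C]; rfl

theorem ps_ph (P : MvPolynomial (Fin 2) k) : ps (ph P) = P := by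
  induction P using MvPolynomial.induction_on with
  | C a => rw [ph_C, ps_C]
  | add p q hp hq => rw [map_add, map_add, hp, hq]
  | mul_X p i hp =>
    rw [map_mul, map_mul, hp]
    fin_cases i
    · change p * ps (ph (X 0)) = p * X 0
      rw [ph_X0, map_sub, ps_X0, map_one]; ring
    · change p * ps (ph (X 1)) = p * X 1
      rw [ph_X1, map_sub, map_add, ps_X0, ps_X1, map_one]; ring

theorem totalDegree_sub_one_le (P : MvPolynomial (Fin 2) k) (n : ℕ) (h : P.totalDegree ≤ n) :
    (P - 1).totalDegree ≤ n :=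
  (totalDegree_sub _ _).trans (max_le h (by simp))

theorem totalDegree_map_le (u v : MvPolynomial (Fin 2) k) (hu : u.totalDegree ≤ 1)
    (hv : v.totalDegree ≤ 1) (P : MvPolynomial (Fin 2) k) :
    (aeval (R := k) ![u, v] P).totalDegree ≤ P.totalDegree := by
  have h1 : aeval (R := k) ![u, v] P = ∑ m ∈ P.support, C (coeff m P) * u ^ (m 0) * v ^ (m 1) := by
    conv_lhs => rw [P.as_sum, map_sum]
    apply Finset.sum_congr rfl
    intro m' _
    have h : (monomial m' (coeff m' P) : MvPolynomial (Fin 2) k) =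
        C (coeff m' P) * X 0 ^ m' 0 * X 1 ^ m' 1 := by
      rw [monomial_eq, Finsupp.prod_fintype _ _ (fun i => pow_zero _), Fin.prod_univ_two, mul_assoc]
    rw [h, map_mul, map_mul, map_pow, map_pow, aeval_X, aeval_X, aeval_C]
    rfl
  rw [h1]
  apply totalDegree_finsetSum_le
  intro m hm
  have h2 : m.sum (fun _ e => e) ≤ P.totalDegree := le_totalDegree hm
  have h3 : m.sum (fun _ e => e) = m 0 + m 1 := by
    rw [Finsupp.sum_fintype _ _ (fun i => rfl), Fin.sum_univ_two]
  rw [h3] at h2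
  refine le_trans (totalDegree_mul _ _) (le_trans (add_le_add (totalDegree_mul _ _) le_rfl) ?_)
  rw [totalDegree_C, zero_add]
  have h4 := totalDegree_pow u (m 0)
  have h5 := totalDegree_pow v (m 1)
  have h6 : m 0 * u.totalDegree ≤ m 0 * 1 := Nat.mul_le_mul_left _ hu
  have h7 : m 1 * v.totalDegree ≤ m 1 * 1 := Nat.mul_le_mul_left _ hv
  omega

theorem totalDegree_ph (P : MvPolynomial (Fin 2) k) : (ph P).totalDegree ≤ P.totalDegree := by
  apply totalDegree_map_le
  · exact totalDegree_sub_one_le _ _ (by rw [totalDegree_X])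
  · refine (totalDegree_sub _ _).trans (max_le ?_ (by rw [totalDegree_X]))
    refine (totalDegree_add _ _).trans (max_le (by rw [totalDegree_X]) (by simp))

theorem totalDegree_ps (P : MvPolynomial (Fin 2) k) : (ps P).totalDegree ≤ P.totalDegree := by
  apply totalDegree_map_le
  · refine (totalDegree_add _ _).trans (max_le (by rw [totalDegree_X]) (by simp))
  · refine (totalDegree_add _ _).trans (max_le (by rw [totalDegree_X]) (by rw [totalDegree_X]))

theorem totalDegree_ph' (P : MvPolynomial (Fin 2) k) : (ph P).totalDegree = P.totalDegree := by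
  apply le_antisymm (totalDegree_ph P)
  conv_lhs => rw [← ps_ph P]
  exact totalDegree_ps _

theorem pderiv_ph (P : MvPolynomial (Fin 2) k) :
    pderiv 0 (ph P) = ph (pderiv 0 P) - ph (pderiv 1 P) ∧ pderiv 1 (ph P) = ph (pderiv 1 P) := by
  induction P using MvPolynomial.induction_on with
  | C a => rw [ph_C]; simp
  | add p q hp hq =>
    constructor
    · rw [map_add, map_add, map_add, map_add, map_add, map_add, hp.1, hq.1]; ring
    · rw [map_add, map_add, map_add, map_add, hp.2, hq.2]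
  | mul_X p i hp =>
    fin_cases i
    · change pderiv 0 (ph (p * X 0)) = ph (pderiv 0 (p * X 0)) - ph (pderiv 1 (p * X 0)) ∧
        pderiv 1 (ph (p * X 0)) = ph (pderiv 1 (p * X 0))
      have h10 : pderiv 1 (X 0 : MvPolynomial (Fin 2) k) = 0 := pderiv_X_of_ne (by decide)
      have h1 : pderiv 0 (p * X 0) = p + X 0 * pderiv 0 p := by
        rw [Derivation.leibniz, pderiv_X_self]; simp
      have h2 : pderiv 1 (p * X 0) = X 0 * pderiv 1 p := by
        rw [Derivation.leibniz, h10]; simp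
      rw [map_mul, h1, h2, ph_X0, map_add, map_mul ph, map_mul ph, ph_X0, Derivation.leibniz,
        Derivation.leibniz, hp.1, hp.2, map_sub, map_sub, pderiv_X_self, h10]
      simp only [smul_eq_mul, map_one, sub_zero, Derivation.map_one_eq_zero]
      constructor <;> ring
    · change pderiv 0 (ph (p * X 1)) = ph (pderiv 0 (p * X 1)) - ph (pderiv 1 (p * X 1)) ∧
        pderiv 1 (ph (p * X 1)) = ph (pderiv 1 (p * X 1))
      have h10 : pderiv 1 (X 0 : MvPolynomial (Fin 2) k) = 0 := pderiv_X_of_ne (by decide)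
      have h01 : pderiv 0 (X 1 : MvPolynomial (Fin 2) k) = 0 := pderiv_X_of_ne (by decide)
      have h1 : pderiv 0 (p * X 1) = X 1 * pderiv 0 p := by
        rw [Derivation.leibniz, h01]; simp
      have h2 : pderiv 1 (p * X 1) = p + X 1 * pderiv 1 p := by
        rw [Derivation.leibniz, pderiv_X_self]; simp
      rw [map_mul, h1, h2, ph_X1, map_add, map_mul ph, map_mul ph, ph_X1, Derivation.leibniz,
        Derivation.leibniz, hp.1, hp.2, map_sub, map_sub, map_add, map_add, pderiv_X_self,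
        pderiv_X_self, h10, h01]
      simp only [smul_eq_mul, map_one, sub_zero, Derivation.map_one_eq_zero]
      constructor <;> ring

theorem jac_ph (P Q : MvPolynomial (Fin 2) k) :
    pderiv 0 (ph P) * pderiv 1 (ph Q) - pderiv 1 (ph P) * pderiv 0 (ph Q) =
      ph (pderiv 0 P * pderiv 1 Q - pderiv 1 P * pderiv 0 Q) := by
  obtain ⟨h1, h2⟩ := pderiv_ph P
  obtain ⟨h3, h4⟩ := pderiv_ph Q
  rw [h1, h2, h3, h4, map_sub, map_mul, map_mul]; ring

theorem fsum (m : Fin 2 →₀ ℕ) : m.sum (fun _ e => e) = m 0 + m 1 := by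
  rw [Finsupp.sum_fintype _ _ (fun i => rfl), Fin.sum_univ_two]

theorem le_tot {P : MvPolynomial (Fin 2) k} {m : Fin 2 →₀ ℕ} (hm : coeff m P ≠ 0) :
    m 0 + m 1 ≤ P.totalDegree := by
  rw [← fsum]
  exact le_totalDegree (mem_support_iff.2 hm)

/-- the leading form -/
theorem top_form {F : MvPolynomial (Fin 2) k} {m n : ℕ}
    (h1 : ∀ d, coeff d F ≠ 0 → d 1 ≤ n ∧ d 0 + d 1 ≤ m + n) (h2 : coeff (ee m n) F ≠ 0)
    (h3 : ((X 0 + X 1 : MvPolynomial (Fin 2) k) ^ n) ∣ homogeneousComponent (m + n) F) :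
    ∃ κ : k, κ ≠ 0 ∧ homogeneousComponent (m + n) F = C κ * X 0 ^ m * (X 0 + X 1) ^ n := by
  obtain ⟨H, hH⟩ := h3
  have hT0 : homogeneousComponent (m + n) F ≠ 0 := by
    intro h0
    have h4 := congrArg (coeff (ee m n)) h0
    rw [coeff_homogeneousComponent, if_pos, coeff_zero] at h4
    · exact h2 h4
    · rw [Finsupp.degree_eq_sum, Fin.sum_univ_two, ee_zero, ee_one]
  have hd : (X 0 : MvPolynomial (Fin 2) k) ^ m ∣ homogeneousComponent (m + n) F := by
    rw [(homogeneousComponent (m + n) F).as_sum]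
    apply Finset.dvd_sum
    intro d hd
    have h5 : coeff d (homogeneousComponent (m + n) F) ≠ 0 := mem_support_iff.1 hd
    have h6 : coeff d F ≠ 0 ∧ d 0 + d 1 = m + n := by
      rw [coeff_homogeneousComponent] at h5
      split_ifs at h5 with h7
      · rw [Finsupp.degree_eq_sum, Fin.sum_univ_two] at h7
        exact ⟨h5, h7⟩
      · exact absurd rfl h5
    have h8 := (h1 d h6.1).1
    have h : (monomial d (coeff d (homogeneousComponent (m + n) F)) : MvPolynomial (Fin 2) k) =
        C (coeff d (homogeneousComponent (m + n) F)) * X 0 ^ d 0 * X 1 ^ d 1 := by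
      rw [monomial_eq, Finsupp.prod_fintype _ _ (fun i => pow_zero _), Fin.prod_univ_two, mul_assoc]
    rw [h]
    have h9 : (X 0 : MvPolynomial (Fin 2) k) ^ m ∣ X 0 ^ d 0 := pow_dvd_pow _ (by omega)
    exact Dvd.dvd.mul_right (Dvd.dvd.mul_left h9 _) _
  have hp0 : Prime (X 0 : MvPolynomial (Fin 2) k) := MvPolynomial.X_prime
  have hn : ¬ (X 0 : MvPolynomial (Fin 2) k) ∣ (X 0 + X 1) ^ n := by
    intro h4
    have h5 := hp0.dvd_of_dvd_pow h4
    obtain ⟨R, hR⟩ := h5
    have h6 := congrArg (aeval (R := k) ![(0 : k), 1]) hR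
    rw [map_add, map_mul, aeval_X, aeval_X] at h6
    simp at h6
  rw [hH] at hd
  obtain ⟨R, hR⟩ := hp0.pow_dvd_of_dvd_mul_left m hn hd
  rw [hR] at hH
  have hR0 : R ≠ 0 := by
    rintro rfl
    rw [mul_zero, mul_zero] at hH
    exact hT0 hH
  have hX0 : (X 0 : MvPolynomial (Fin 2) k) ^ m ≠ 0 := pow_ne_zero _ hp0.ne_zero
  have hX1 : (X 0 + X 1 : MvPolynomial (Fin 2) k) ^ n ≠ 0 := by
    intro h0
    rw [h0, zero_mul] at hH
    exact hT0 hH
  have ht : (homogeneousComponent (m + n) F).totalDegree ≤ m + n :=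
    (homogeneousComponent_isHomogeneous (m + n) F).totalDegree_le
  have hs1 : (X 0 + X 1 : MvPolynomial (Fin 2) k).totalDegree = 1 := by
    have h5 : (X 0 + X 1 : MvPolynomial (Fin 2) k).IsHomogeneous 1 :=
      (isHomogeneous_X _ _).add (isHomogeneous_X _ _)
    apply h5.totalDegree
    intro h0
    have h6 := congrArg (aeval (R := k) ![(0 : k), 1]) h0
    rw [map_add, aeval_X, aeval_X] at h6
    simp at h6
  have hs2 : ((X 0 + X 1 : MvPolynomial (Fin 2) k) ^ n).totalDegree = n := by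
    have h5 : ((X 0 + X 1 : MvPolynomial (Fin 2) k) ^ n).IsHomogeneous (1 * n) :=
      ((isHomogeneous_X _ _).add (isHomogeneous_X _ _)).pow n
    rw [h5.totalDegree hX1, one_mul]
  rw [hH, totalDegree_mul_of_isDomain hX1 (mul_ne_zero hX0 hR0),
    totalDegree_mul_of_isDomain hX0 hR0, hs2, totalDegree_X_pow] at ht
  have hR1 : R.totalDegree = 0 := by omega
  obtain ⟨κ, hκ⟩ : ∃ κ, R = C κ := ⟨_, totalDegree_eq_zero_iff_eq_C.1 hR1⟩
  refine ⟨κ, ?_, ?_⟩
  · rintro rfl
    rw [hκ, map_zero] at hR0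
    exact hR0 rfl
  · rw [hH, hκ]; ring

end Pool.Agent.TH207.Tz
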