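import Pool.Agent.TH207.Tz

/-! The shape of the transformed pair. -/

set_option autoImplicit false
set_option linter.unusedSectionVars false
set_option linter.unusedSimpArgs false

namespace Pool.Agent.TH207.Tz

open MvPolynomial Pool.Agent.TH207.Ser

variable {k : Type*} [Field k]

theorem ph_sum : ph (k := k) (X 0 + X 1) = X 1 := by
  rw [map_add, ph_X0, ph_X1]; ring

theorem coeff_ph {F : MvPolynomial (Fin 2) k} {d : Fin 2 →₀ ℕ} (h : coeff d (ph F) ≠ 0) :
    ∃ j, j ≤ F.totalDegree ∧ coeff d (ph (homogeneousComponent j F)) ≠ 0 := by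
  conv at h =>
    lhs; rw [← sum_homogeneousComponent F, map_sum, coeff_sum]
  obtain ⟨j, hj, h1⟩ := Finset.exists_ne_zero_of_sum_ne_zero h
  rw [Finset.mem_range] at hj
  exact ⟨j, by omega, h1⟩

theorem deg_z {F : MvPolynomial (Fin 2) k} {m n : ℕ} (h1 : F.totalDegree ≤ m + n)
    (h3 : ∀ i ≤ n, ((X 0 + X 1 : MvPolynomial (Fin 2) k) ^ (n - i)) ∣
      homogeneousComponent (m + n - i) F) : Le m 0 (ph F) := by
  intro d hd
  rw [zero_mul, add_zero]
  obtain ⟨j, hj, h4⟩ := coeff_ph hd
  have h5 : (homogeneousComponent j F).totalDegree ≤ j :=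
    (homogeneousComponent_isHomogeneous j F).totalDegree_le
  rcases le_total j m with hjm | hjm
  · have h6 := le_tot h4
    have h7 := totalDegree_ph (homogeneousComponent j F)
    omega
  · obtain ⟨H, hH⟩ := h3 (m + n - j) (by omega)
    have e1 : m + n - (m + n - j) = j := by omega
    rw [e1] at hH
    have h8 : ph (homogeneousComponent j F) = X 1 ^ (n - (m + n - j)) * ph H := by
      rw [hH, map_mul, map_pow, ph_sum]
    have h9 : d 0 ≤ degreeOf (0 : Fin 2) (X 1 ^ (n - (m + n - j)) * ph H) := by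
      rw [← h8]
      exact monomial_le_degreeOf 0 (mem_support_iff.2 h4)
    have h10 := degreeOf_mul_le (0 : Fin 2) (X 1 ^ (n - (m + n - j))) (ph H)
    have h11 : degreeOf (0 : Fin 2) (X 1 ^ (n - (m + n - j)) : MvPolynomial (Fin 2) k) = 0 := by
      have := degreeOf_pow_le (0 : Fin 2) (X 1 : MvPolynomial (Fin 2) k) (n - (m + n - j))
      rw [degreeOf_X] at this
      simpa using this
    have h12 := degreeOf_le_totalDegree (ph H) (0 : Fin 2)
    have h13 := totalDegree_ph H
    have hne : homogeneousComponent j F ≠ 0 := by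
      intro h0
      rw [h0, map_zero, coeff_zero] at h4
      exact h4 rfl
    have hX : (X 0 + X 1 : MvPolynomial (Fin 2) k) ^ (n - (m + n - j)) ≠ 0 := by
      intro h0
      rw [h0, zero_mul] at hH
      exact hne hH
    have hH0 : H ≠ 0 := by
      rintro rfl
      rw [mul_zero] at hH
      exact hne hH
    have h14 : ((X 0 + X 1 : MvPolynomial (Fin 2) k) ^ (n - (m + n - j))).IsHomogeneous
        (1 * (n - (m + n - j))) := ((isHomogeneous_X _ _).add (isHomogeneous_X _ _)).pow _
    have h15 := h14.totalDegree hX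
    rw [hH, totalDegree_mul_of_isDomain hX hH0, h15] at h5
    omega

theorem coeff_sub_one (m : ℕ) : coeff (ee m 0) ((X 0 - 1 : MvPolynomial (Fin 2) k) ^ m) = 1 := by
  induction m with
  | zero =>
    rw [pow_zero, coeff_one, if_pos]
    apply fin2_ext
    · rw [ee_zero]; rfl
    · rw [ee_one]; rfl
  | succ m ih =>
    have e1 : (X 0 - 1 : MvPolynomial (Fin 2) k) ^ (m + 1) = (X 0 - 1) ^ m * X 0 - (X 0 - 1) ^ m := by
      ring
    have e2 : ee (m + 1) 0 = ee m 0 + Finsupp.single 0 1 := by
      apply fin2_ext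
      · rw [ee_zero, Finsupp.add_apply, ee_zero, Finsupp.single_eq_same]
      · rw [ee_one, Finsupp.add_apply, ee_one, Finsupp.single_eq_of_ne (by decide), add_zero]
    have e3 : coeff (ee (m + 1) 0) ((X 0 - 1 : MvPolynomial (Fin 2) k) ^ m) = 0 := by
      by_contra h
      have h1 := le_tot h
      rw [ee_zero, ee_one] at h1
      have h2 := totalDegree_pow (X 0 - 1 : MvPolynomial (Fin 2) k) m
      have h3 : (X 0 - 1 : MvPolynomial (Fin 2) k).totalDegree ≤ 1 :=
        totalDegree_sub_one_le _ _ (by rw [totalDegree_X])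
      have h4 : m * (X 0 - 1 : MvPolynomial (Fin 2) k).totalDegree ≤ m * 1 :=
        Nat.mul_le_mul_left _ h3
      omega
    rw [e1, coeff_sub, e3, e2, coeff_mul_X, ih, sub_zero]

theorem top_z {F : MvPolynomial (Fin 2) k} {m n : ℕ} (h1 : F.totalDegree ≤ m + n) {κ : k}
    (hκ : κ ≠ 0) (hT : homogeneousComponent (m + n) F = C κ * X 0 ^ m * (X 0 + X 1) ^ n) :
    coeff (ee m n) (ph F) ≠ 0 ∧
      ∀ d, coeff d (ph F) ≠ 0 → d 0 + d 1 = m + n → d 1 ≤ n := by
  have key : ∀ d : Fin 2 →₀ ℕ, d 0 + d 1 = m + n →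
      coeff d (ph F) = coeff d (C κ * (X 0 - 1) ^ m * X 1 ^ n) := by
    intro d hd
    conv_lhs => rw [← sum_homogeneousComponent F, map_sum, coeff_sum]
    have h2 : ∀ j, j ≠ m + n → coeff d (ph (homogeneousComponent j F)) = 0 := by
      intro j hj
      by_contra h
      have h3 := le_tot h
      have h4 := totalDegree_ph (homogeneousComponent j F)
      have h5 : (homogeneousComponent j F).totalDegree ≤ j :=
        (homogeneousComponent_isHomogeneous j F).totalDegree_le
      have h6 : F.totalDegree < j := by omega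
      rw [homogeneousComponent_eq_zero j F h6, map_zero, coeff_zero] at h
      exact h rfl
    have h7 : coeff d (ph (homogeneousComponent (m + n) F)) =
        coeff d (C κ * (X 0 - 1) ^ m * X 1 ^ n) := by
      rw [hT, map_mul, map_mul, map_pow, map_pow, ph_sum, ph_X0, ph_C]
    by_cases hr : m + n ∈ Finset.range (F.totalDegree + 1)
    · rw [Finset.sum_eq_single (m + n) (fun j _ hj => h2 j hj) (fun h => absurd hr h), h7]
    · rw [← h7, Finset.sum_eq_zero]
      · rw [Finset.mem_range] at hr
        rw [homogeneousComponent_eq_zero (m + n) F (by omega), map_zero, coeff_zero]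
      · intro j hj
        apply h2
        rintro rfl
        exact hr hj
  constructor
  · rw [key _ (by rw [ee_zero, ee_one]), mul_assoc, coeff_C_mul]
    have e2 : ee m n = ee m 0 + Finsupp.single 1 n := by
      apply fin2_ext
      · rw [ee_zero, Finsupp.add_apply, ee_zero, Finsupp.single_eq_of_ne (by decide), add_zero]
      · rw [ee_one, Finsupp.add_apply, ee_one, Finsupp.single_eq_same, zero_add]
    rw [X_pow_eq_monomial, e2, coeff_mul_monomial, coeff_sub_one, mul_one, mul_one]
    exact hκ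
  · intro d hd hdt
    rw [key d hdt] at hd
    have h4 : d 1 ≤ degreeOf (1 : Fin 2) (C κ * (X 0 - 1) ^ m * X 1 ^ n) :=
      monomial_le_degreeOf 1 (mem_support_iff.2 hd)
    refine h4.trans ((degreeOf_mul_le _ _ _).trans ?_)
    have h5 : degreeOf (1 : Fin 2) (C κ * (X 0 - 1 : MvPolynomial (Fin 2) k) ^ m) = 0 := by
      have h6 := degreeOf_mul_le (1 : Fin 2) (C κ) ((X 0 - 1 : MvPolynomial (Fin 2) k) ^ m)
      rw [degreeOf_C, zero_add] at h6
      have h7 := degreeOf_pow_le (1 : Fin 2) (X 0 - 1 : MvPolynomial (Fin 2) k) m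
      have h8 : degreeOf (1 : Fin 2) (X 0 - 1 : MvPolynomial (Fin 2) k) = 0 := by
        have h9 := degreeOf_sub_le (1 : Fin 2) (X 0 : MvPolynomial (Fin 2) k) 1
        rw [degreeOf_X] at h9
        have h10 : degreeOf (1 : Fin 2) (1 : MvPolynomial (Fin 2) k) = 0 := degreeOf_one _
        rw [h10] at h9
        simpa using h9
      rw [h8] at h7
      omega
    rw [h5, zero_add]
    refine (degreeOf_pow_le _ _ _).trans ?_
    rw [degreeOf_X]; simp

end Pool.Agent.TH207.Tz
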