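import Pool.Agent.TH207.Tz2

/-! The bound for trapezoidal pairs. -/

set_option autoImplicit false
set_option linter.unusedSectionVars false
set_option linter.unusedSimpArgs false

namespace Pool.Agent.TH207.Tz

open MvPolynomial Pool.Agent.TH207.Ser

variable {k : Type*} [Field k] [CharZero k]

theorem Le.of_tot {P : MvPolynomial (Fin 2) k} {D : ℕ} (h : P.totalDegree ≤ D) : Le D 1 P := by
  intro m hm
  have := le_tot hm
  omega

theorem ar1 {a b p q t : ℕ} (ha : 0 < a) (hp : 0 < p)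
    (h : (a * p + a * q) * t = (b * p + b * q) * (a * q)) : t = b * q := by
  have h1 : a * (p + q) * t = a * (p + q) * (b * q) := by
    calc a * (p + q) * t = (a * p + a * q) * t := by ring
      _ = (b * p + b * q) * (a * q) := h
      _ = a * (p + q) * (b * q) := by ring
  exact Nat.eq_of_mul_eq_mul_left (Nat.mul_pos ha (by omega)) h1

theorem ar2 {a b p q d t : ℕ} (ha : 0 < a) (hp : 0 < p) (h : a * p * t = d * (a * q))
    (h2 : d + t ≤ b * p + b * q) : d ≤ b * p := by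
  have h1 : a * (p + q) * d ≤ a * (p + q) * (b * p) := by
    calc a * (p + q) * d = a * p * d + d * (a * q) := by ring
      _ = a * p * d + a * p * t := by rw [h]
      _ = a * p * (d + t) := by ring
      _ ≤ a * p * (b * p + b * q) := Nat.mul_le_mul_left _ h2
      _ = a * (p + q) * (b * p) := by ring
  exact Nat.le_of_mul_le_mul_left h1 (Nat.mul_pos ha (by omega))

theorem pair [IsAlgClosed k] {a b p q : ℕ} (ha : 2 ≤ a) (hb : 1 ≤ b) (hp : 0 < p) (hq : 0 < q)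
    {F G : MvPolynomial (Fin 2) k} {c : k} (hc : c ≠ 0)
    (hJ : pderiv 0 F * pderiv 1 G - pderiv 1 F * pderiv 0 G = C c)
    (hF0 : Le (a * p) 0 F) (hF1 : Le (a * p + a * q) 1 F)
    (hFc : coeff (ee (a * p) (a * q)) F ≠ 0)
    (hFt : ∀ d, coeff d F ≠ 0 → d 0 + d 1 = a * p + a * q → d 1 ≤ a * q)
    (hG1 : Le (b * p + b * q) 1 G)
    (hGt : ∃ d, coeff d G ≠ 0 ∧ d 0 + d 1 = b * p + b * q) :
    Le (b * p) 0 G ∧ (tp (a * p) 0 F).natDegree = a * q ∧ tp (a * p) 0 F ≠ 0 ∧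
      tp (b * p) 0 G ≠ 0 := by
  have hap : 2 * 1 ≤ a * p := Nat.mul_le_mul ha hp
  have haq : 2 * 1 ≤ a * q := Nat.mul_le_mul ha hq
  have hbp : 1 * 1 ≤ b * p := Nat.mul_le_mul hb hp
  have hbq : 1 * 1 ≤ b * q := Nat.mul_le_mul hb hq
  -- direction (1, 1)
  have hf1 : tp (a * p + a * q) 1 F ≠ 0 :=
    tp_ne_zero hF1 hFc (by rw [ee_zero, ee_one, one_mul])
  obtain ⟨d0, hd0, hd0'⟩ := hGt
  have hg1 : tp (b * p + b * q) 1 G ≠ 0 := tp_ne_zero hG1 hd0 (by rw [one_mul]; exact hd0')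
  have hdf1 : (tp (a * p + a * q) 1 F).natDegree = a * q := by
    apply le_antisymm
    · rw [Polynomial.natDegree_le_iff_coeff_eq_zero]
      intro j hj
      by_contra h
      obtain ⟨m, g1, g2, g3⟩ := of_tp hF1 h
      have := hFt m g1 (by omega)
      omega
    · apply Polynomial.le_natDegree_of_ne_zero
      have h1 := tp_of hF1 hFc (by rw [ee_zero, ee_one, one_mul])
      rw [ee_one] at h1
      rw [h1]; exact hFc
  have hp1 := tp_prop hF1 hG1 (by omega) (by omega) (by omega) (by omega) hc hJ hf1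
  have hd1 := tp_degs (by omega) (by omega) hf1 hg1 hp1
  rw [hdf1] at hd1
  have hdg1 : (tp (b * p + b * q) 1 G).natDegree = b * q := ar1 (by omega) hp hd1
  have hlc := Polynomial.leadingCoeff_ne_zero.2 hg1
  rw [Polynomial.leadingCoeff, hdg1] at hlc
  obtain ⟨m1, g1, g2, g3⟩ := of_tp hG1 (j := b * q) hlc
  have hm1 : m1 0 = b * p := by omega
  -- direction (1, 0)
  set d := degreeOf (0 : Fin 2) G with hd
  have hG0 : Le d 0 G := by
    intro m hm
    rw [zero_mul, add_zero]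
    exact monomial_le_degreeOf 0 (mem_support_iff.2 hm)
  have hbd : b * p ≤ d := by
    have := hG0 m1 g1
    omega
  obtain ⟨m2, k1, k2⟩ : ∃ m2, coeff m2 G ≠ 0 ∧ m2 0 = d := by
    have h1 : (G.support).Nonempty := ⟨m1, mem_support_iff.2 g1⟩
    obtain ⟨m2, k1, k2⟩ := Finset.exists_mem_eq_sup G.support h1 (fun m => m (0 : Fin 2))
    refine ⟨m2, mem_support_iff.1 k1, ?_⟩
    rw [hd, degreeOf_eq_sup, k2]
  have hf0 : tp (a * p) 0 F ≠ 0 :=
    tp_ne_zero hF0 hFc (by rw [ee_zero, zero_mul, add_zero])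
  have hg0 : tp d 0 G ≠ 0 := tp_ne_zero hG0 k1 (by rw [zero_mul, add_zero]; exact k2)
  have hdf0 : (tp (a * p) 0 F).natDegree = a * q := by
    apply le_antisymm
    · rw [Polynomial.natDegree_le_iff_coeff_eq_zero]
      intro j hj
      by_contra h
      obtain ⟨m, h1, h2, h3⟩ := of_tp hF0 h
      have := hF1 m h1
      omega
    · apply Polynomial.le_natDegree_of_ne_zero
      have h1 := tp_of hF0 hFc (by rw [ee_zero, zero_mul, add_zero])
      rw [ee_one] at h1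
      rw [h1]; exact hFc
  have hp0 := tp_prop hF0 hG0 (by omega) (by omega) (by omega) (by omega) hc hJ hf0
  have hd2 := tp_degs (by omega) (by omega) hf0 hg0 hp0
  rw [hdf0] at hd2
  obtain ⟨m3, j1, j2, j3⟩ := of_tp hG0 (j := (tp d 0 G).natDegree)
    (Polynomial.leadingCoeff_ne_zero.2 hg0)
  have hd3 : d + (tp d 0 G).natDegree ≤ b * p + b * q := by
    have := hG1 m3 j1
    omega
  have hdb : d ≤ b * p := ar2 (by omega) hp hd2 hd3
  have hde : d = b * p := le_antisymm hdb hbd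
  rw [hde] at hG0 hg0
  exact ⟨hG0, hdf0, hf0, hg0⟩

/-- the convex hull condition -/
theorem hull {F : MvPolynomial (Fin 2) ℂ} {m n : ℕ} (hn : 0 < n)
    (h : convexHull ℝ (insert ((0:ℝ), (0:ℝ))
      ((fun d : Fin 2 →₀ ℕ => ((d 0 : ℝ), (d 1 : ℝ))) '' (↑F.support : Set (Fin 2 →₀ ℕ))))
      = {p : ℝ × ℝ | 0 ≤ p.2 ∧ p.2 ≤ (n : ℝ) ∧ 0 ≤ p.1 ∧ p.1 ≤ (m : ℝ) + (n : ℝ) - p.2}) :
    (∀ d, coeff d F ≠ 0 → d 1 ≤ n ∧ d 0 + d 1 ≤ m + n) ∧ coeff (ee m n) F ≠ 0 := by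
  have h1 : ∀ d, coeff d F ≠ 0 → d 1 ≤ n ∧ d 0 + d 1 ≤ m + n := by
    intro d hd
    have h2 : ((d 0 : ℝ), (d 1 : ℝ)) ∈ convexHull ℝ (insert ((0:ℝ), (0:ℝ))
      ((fun d : Fin 2 →₀ ℕ => ((d 0 : ℝ), (d 1 : ℝ))) '' (↑F.support : Set (Fin 2 →₀ ℕ)))) :=
      subset_convexHull ℝ _ (Set.mem_insert_of_mem _ ⟨d, mem_support_iff.2 hd, rfl⟩)
    rw [h] at h2
    obtain ⟨_, h3, _, h4⟩ := h2
    simp only at h3 h4
    constructor
    · exact_mod_cast h3
    · have : (d 0 : ℝ) + d 1 ≤ m + n := by linarith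
      exact_mod_cast this
  refine ⟨h1, fun h0 => ?_⟩
  have hconv : Convex ℝ {p : ℝ × ℝ | p.1 + 2 * p.2 ≤ (m : ℝ) + 2 * n - 1} := by
    intro x hx y hy s t hs ht hst
    simp only [Set.mem_ofPred_eq, Prod.fst_add, Prod.snd_add, Prod.smul_fst, Prod.smul_snd,
      smul_eq_mul] at hx hy ⊢
    have e1 := mul_le_mul_of_nonneg_left hx hs
    have e2 := mul_le_mul_of_nonneg_left hy ht
    have e3 : s * ((m : ℝ) + 2 * n - 1) + t * ((m : ℝ) + 2 * n - 1) = (m : ℝ) + 2 * n - 1 := by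
      rw [← add_mul, hst, one_mul]
    linarith
  have hsub : insert ((0:ℝ), (0:ℝ))
      ((fun d : Fin 2 →₀ ℕ => ((d 0 : ℝ), (d 1 : ℝ))) '' (↑F.support : Set (Fin 2 →₀ ℕ))) ⊆
      {p : ℝ × ℝ | p.1 + 2 * p.2 ≤ (m : ℝ) + 2 * n - 1} := by
    intro p hp
    rcases hp with rfl | ⟨d, hd, rfl⟩
    · simp only [Set.mem_ofPred_eq]
      have : (1 : ℝ) ≤ n := by exact_mod_cast hn
      have h2 : (0 : ℝ) ≤ m := Nat.cast_nonneg _
      linarith
    · simp only [Set.mem_ofPred_eq]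
      have hd' : coeff d F ≠ 0 := mem_support_iff.1 hd
      obtain ⟨g1, g2⟩ := h1 d hd'
      have g3 : d 0 + 2 * d 1 + 1 ≤ m + 2 * n := by
        by_contra h5
        have h6 : d 1 = n := by omega
        have h7 : d 0 = m := by omega
        apply hd'
        rw [← ee_eq d, h6, h7]
        exact h0
      have : (d 0 : ℝ) + 2 * d 1 + 1 ≤ m + 2 * n := by exact_mod_cast g3
      linarith
  have h3 := convexHull_min hsub hconv
  rw [h] at h3
  have h4 : ((m : ℝ), (n : ℝ)) ∈ {p : ℝ × ℝ | p.1 + 2 * p.2 ≤ (m : ℝ) + 2 * n - 1} := by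
    apply h3
    refine ⟨Nat.cast_nonneg _, le_rfl, Nat.cast_nonneg _, ?_⟩
    simp
  simp only [Set.mem_ofPred_eq] at h4
  linarith

theorem tot_le {F : MvPolynomial (Fin 2) k} {D : ℕ} (h : ∀ d, coeff d F ≠ 0 → d 0 + d 1 ≤ D) :
    F.totalDegree ≤ D := by
  unfold totalDegree
  apply Finset.sup_le
  intro d hd
  rw [fsum]
  exact h d (mem_support_iff.1 hd)

theorem main [IsAlgClosed k] {a b p q : ℕ} (ha : 2 ≤ a) (hb : 1 ≤ b) (hcop : Nat.Coprime a b)
    (hp : 0 < p) (hpq : p < q) {F G : MvPolynomial (Fin 2) k} {c : k} (hc : c ≠ 0)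
    (hJ : pderiv 0 F * pderiv 1 G - pderiv 1 F * pderiv 0 G = C c)
    (hF1 : ∀ d, coeff d F ≠ 0 → d 1 ≤ a * q ∧ d 0 + d 1 ≤ a * p + a * q)
    (hF2 : coeff (ee (a * p) (a * q)) F ≠ 0)
    (hF3 : ∀ i ≤ a * q, ((X 0 + X 1 : MvPolynomial (Fin 2) k) ^ (a * q - i)) ∣
      homogeneousComponent (a * p + a * q - i) F)
    (hG1 : ∀ d, coeff d G ≠ 0 → d 0 + d 1 ≤ b * p + b * q)
    (hG2 : coeff (ee (b * p) (b * q)) G ≠ 0) :
    (a + b : ℤ) ≤ a * ((p : ℤ) ^ 2 - 3 * p + 1) ∧ (a + b : ℤ) ≤ a * ((q : ℤ) - p - 1) := by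
  have hFt : F.totalDegree ≤ a * p + a * q := tot_le fun d hd => (hF1 d hd).2
  have hGt : G.totalDegree ≤ b * p + b * q := tot_le hG1
  have hGt' : G.totalDegree = b * p + b * q := by
    apply le_antisymm hGt
    have := le_tot hG2
    rwa [ee_zero, ee_one] at this
  obtain ⟨κ, hκ, hT⟩ := top_form hF1 hF2 (by
    have := hF3 0 (Nat.zero_le _)
    simpa using this)
  obtain ⟨t1, t2⟩ := top_z hFt hκ hT
  have hJ' : pderiv 0 (ph F) * pderiv 1 (ph G) - pderiv 1 (ph F) * pderiv 0 (ph G) = C c := by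
    rw [jac_ph, hJ, ph_C]
  have hG3 : ∃ d, coeff d (ph G) ≠ 0 ∧ d 0 + d 1 = b * p + b * q := by
    have h0 : ph G ≠ 0 := by
      intro h0
      have h1 := ps_ph G
      rw [h0, map_zero] at h1
      rw [← h1, coeff_zero] at hG2
      exact hG2 rfl
    have h1 : ((ph G).support).Nonempty := by
      rw [Finset.nonempty_iff_ne_empty, Ne, support_eq_empty]; exact h0
    obtain ⟨d, h2, h3⟩ := Finset.exists_mem_eq_sup (ph G).support h1
      (fun m => m.sum (fun _ e => e))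
    refine ⟨d, mem_support_iff.1 h2, ?_⟩
    rw [← hGt', ← totalDegree_ph' G]
    unfold totalDegree
    rw [h3, fsum]
  obtain ⟨r1, r2, r3, r4⟩ := pair ha hb hp (by omega) hc hJ'
    (deg_z hFt hF3) (Le.of_tot ((totalDegree_ph F).trans hFt)) t1 t2
    (Le.of_tot ((totalDegree_ph G).trans hGt)) hG3
  obtain ⟨q', s1, _, _, s4⟩ := main0 ha hb hcop hp hc (deg_z hFt hF3) r1 hJ' r3 r4
  have hqq : q' = q := by
    rw [r2] at s1
    exact (Nat.eq_of_mul_eq_mul_left (by omega) s1).symm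
  rw [hqq] at s4
  exact s4 hpq

end Pool.Agent.TH207.Tz
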